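import Pool.Agent.GLD.Net0
import Pool.Agent.MXR.Main
import Pool.Agent.NUG.FarZ

/-!
# The regular two-point function of the cylinder with all rows at 0 is a walk sum (GLd, B1)

`W0 hk` is the object `NU5.WR` for `2 k` rows with all rapidities `0`; the two cut rows are `0` and `k`.
`W0_lim`: it is the limit of the sums over the words of the cylinder `Cy (2 k)` in the rings `-m, .., m - 1` from the
cut edge of the row `0` to the cut edge of the row `k`.
-/

set_option autoImplicit false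

namespace Pool.Agent.GLD

open Pool.Agent.EXL hiding cc
open Pool.Agent.EXL.Pat Pool.Agent.EXL.Net HexObs Filter Topology
open Pool.Agent.NUF
open Pool.Agent.NUF.Cyl (Nm Cy pL)
open Pool.Agent.NUN (cc Xr Xl Om mem_Om)
open Pool.Agent.NUNC (dd)
open Pool.Agent.MXR (XR XL gS Rest rowI rowJ prs rows_R rows_L prs_append r0 rk rest_rows glu_prs nodup_XR nodup_XL
  cc_XR dd_XR cc_XL dd_XL cc_ne_dd Xr_notMem gS_nn ind_nn)

/-! ### the functional of the ring with the rapidities 0 -/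

section fnl

variable {ι : Type*} [DecidableEq ι] {X : List ι} {c d : ι}

theorem rg_zero (hcd : c ≠ d) (hc : c ∉ X) :
    (fun F => NUT2.rg (fun _ : ι => (0 : ℂ)) c d (Real.pi / 8) X F) = NUG.ringC c d X := by
  rw [NUT2.rg_fun _ _ hcd hc]
  unfold NUG.ringC
  have e : (fun _ : ι => rwt ((Real.pi : ℂ) / 8 - 0)) = fun _ : ι => hexW (xc : ℂ) := by
    funext _
    rw [sub_zero, rwt_hex]
  rw [e]

/-- Regularity. -/
theorem regR_zero [Finite ι] (hn : X.Nodup) (hcd : c ≠ d) (hc : c ∉ X) (hd : d ∉ X) :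
    NUT2.RegR c d (fun _ : ι => (0 : ℂ)) X := by
  unfold NUT2.RegR
  rw [rg_zero hcd hc]
  exact NUG.inj_ringC hn hcd hc hd

/-- the functional of the ring at 0 is the functional of the honeycomb rings. -/
theorem isD_VR0 [Finite ι] (hn : X.Nodup) (hcd : c ≠ d) (hc : c ∉ X) (hd : d ∉ X) :
    NUG.IsD c d X (NUT2.VR c d (fun _ : ι => (0 : ℂ)) X) := by
  have h := NUT2.isR_VR hn hcd hc hd (regR_zero hn hcd hc hd)
  refine ⟨h.sup, h.one, ?_⟩
  have h1 := h.fix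
  refine LinearMap.ext fun F => ?_
  have h2 := congrArg (fun V : Fnl ι => V F) h1
  have h3 : NUT2.rg (fun _ : ι => (0 : ℂ)) c d (Real.pi / 8) X F = NUG.ringC c d X F :=
    congrFun (rg_zero hcd hc) F
  simp only [LinearMap.comp_apply] at h2 ⊢
  rw [h3] at h2
  exact h2

end fnl

/-! ### the two-point function -/

variable {k : ℕ}

/-- **The two-point function of the ring functionals, all rows at 0**, `2 k` rows, cut rows `0` and `k`. -/
noncomputable def W0 (hk : 1 ≤ k) : ℂ :=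
  NU5.WR cc dd (fun _ => (0 : ℂ)) (prs (rowI k)) (prs (rowJ k)) (Xr (r0 hk)) (Xl (r0 hk)) (Xr (rk hk)) (Xl (rk hk))

/-- the function of the cut. -/
noncomputable def F0 (hk : 1 ≤ k) : Pat (NUF.St (2 * k)) → ℝ :=
  gS ℝ (rowI k ++ rowJ k) (HS.ind (cup (Xr (r0 hk)) (Xr (rk hk)) Pat.empty))

theorem W0_eq (hk : 1 ≤ k) :
    W0 hk = NUG.pU (NUT2.VR cc dd (fun _ => (0 : ℂ)) (XR (2 * k))) (NUT2.VR cc dd (fun _ => (0 : ℂ)) (XL (2 * k)))
      (fun q => ((F0 hk q : ℝ) : ℂ)) := by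
  rw [NUG.pU_apply]
  unfold W0 NU5.WR
  rw [rows_R, rows_L, ← prs_append]
  refine congrArg _ (funext fun p => congrArg _ (funext fun p' => ?_))
  refine glu_prs _ _ _ (fun q => ?_) _
  unfold NU5.arc
  by_cases h : q = cup (Xr (r0 hk)) (Xr (rk hk)) Pat.empty
  · rw [h, HS.ind_self, HS.ind_self, Complex.ofReal_one]
  · rw [HS.ind_ne h, HS.ind_ne h, Complex.ofReal_zero]

theorem two_k (hk : 1 ≤ k) : 1 ≤ 2 * k := by omega

/-- the sum over the words of the cylinder in the rings `-m, .., m - 1`. -/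
noncomputable def Wm (hk : 1 ≤ k) (m : ℕ) : ℝ :=
  (Cy (2 * k) (two_k hk)).Ws xc (Om (2 * k) m) {pL (k : ℤ)} (pL 0)

theorem r0_ne_rk (hk : 1 ≤ k) : r0 hk ≠ rk hk := by
  intro e
  have := congrArg Fin.val e
  unfold r0 rk at this
  simp at this
  omega

/-- **The iterated rings are the words.** -/
theorem rings_Wm (hk : 1 ≤ k) {m : ℕ} (hm : 1 ≤ m) :
    (NUG.ringC cc dd (XR (2 * k)))^[m] ((NUG.ringC cc dd (XL (2 * k)))^[m]
      (fun q => ((F0 hk q : ℝ) : ℂ))) Pat.empty = (Wm hk m : ℂ) := by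
  rw [NUG.ringC_iterate_ofReal, NUG.ringC_iterate_ofReal]
  have h1 := rings_eq0 (K := ℝ) xc (two_k hk) hm (r0_ne_rk hk) (rest_rows hk)
  exact congrArg (fun r : ℝ => (r : ℂ)) h1

/-- **The two-point function is the limit of the words.** -/
theorem W0_lim (hk : 1 ≤ k) : Tendsto (fun m => (Wm hk m : ℂ)) atTop (𝓝 (W0 hk)) := by
  rw [W0_eq]
  have hXY : ∀ x ∈ XR (2 * k), x ∉ XL (2 * k) := by
    intro x hx hx'
    obtain ⟨a, -, rfl⟩ := List.mem_map.1 hx
    exact Xr_notMem a hx'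
  have h1 := NUG.ring_pU_lim (nodup_XR (2 * k)) (nodup_XL (2 * k)) hXY (cc_ne_dd _) (cc_XR _) (dd_XR _) (cc_XL _)
    (dd_XL _) (isD_VR0 (nodup_XR (2 * k)) (cc_ne_dd _) (cc_XR _) (dd_XR _))
    (isD_VR0 (nodup_XL (2 * k)) (cc_ne_dd _) (cc_XL _) (dd_XL _)) (fun q => ((F0 hk q : ℝ) : ℂ))
  refine h1.congr' ?_
  filter_upwards [eventually_ge_atTop 1] with m hm
  exact rings_Wm hk hm

theorem Om_mono {N m m' : ℕ} (h : m ≤ m') : Om N m ⊆ Om N m' := by
  intro v hv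
  rw [mem_Om] at hv ⊢
  obtain ⟨a, i, ⟨h1, h2⟩, h3, h4⟩ := hv
  exact ⟨a, i, ⟨by omega, by omega⟩, h3, h4⟩

theorem arr_mono {C : Nm} {A B : Finset Pt} {p : Pt × Pt} {t : List Bool} (h : A ⊆ B) (ht : C.Arr A p t) :
    C.Arr B p t := ⟨fun i h1 h2 => h (ht.mem i h1 h2), ht.inj⟩

theorem Ws_mono {C : Nm} {A B : Finset Pt} (h : A ⊆ B) (T : Finset (Pt × Pt)) (p : Pt × Pt) {x : ℝ} (hx : 0 ≤ x) :
    C.Ws x A T p ≤ C.Ws x B T p := by
  unfold Nm.Ws
  refine Finset.sum_le_sum_of_subset_of_nonneg ?_ fun t _ _ => pow_nonneg hx _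
  intro t ht
  rw [Finset.mem_filter, Nm.mem_arr] at ht ⊢
  exact ⟨arr_mono h ht.1, ht.2⟩

theorem Wm_mono (hk : 1 ≤ k) : Monotone (Wm hk) := fun _ _ h => Ws_mono (Om_mono h) _ _ xc_pos.le

theorem Wm_nn (hk : 1 ≤ k) (m : ℕ) : 0 ≤ Wm hk m := Finset.sum_nonneg fun _ _ => pow_nonneg xc_pos.le _

/-- the value is real and non-negative. -/
theorem W0_real (hk : 1 ≤ k) : W0 hk = ((W0 hk).re : ℂ) ∧ 0 ≤ (W0 hk).re ∧
    Tendsto (Wm hk) atTop (𝓝 (W0 hk).re) := by
  have h1 := W0_lim hk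
  have h2 : Tendsto (Wm hk) atTop (𝓝 (W0 hk).re) := by
    have := (Complex.continuous_re.tendsto (W0 hk)).comp h1
    exact this
  have h3 : Tendsto (fun m => (Wm hk m : ℂ).im) atTop (𝓝 (W0 hk).im) :=
    (Complex.continuous_im.tendsto (W0 hk)).comp h1
  have h4 : (W0 hk).im = 0 := by
    refine tendsto_nhds_unique h3 ?_
    simp
  refine ⟨?_, ge_of_tendsto' h2 (Wm_nn hk), h2⟩
  apply Complex.ext
  · rw [Complex.ofReal_re]
  · rw [Complex.ofReal_im, h4]

theorem Wm_le (hk : 1 ≤ k) (m : ℕ) : Wm hk m ≤ (W0 hk).re :=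
  (Wm_mono hk).ge_of_tendsto (W0_real hk).2.2 m

/-- **The two-point function is the supremum of the words.** -/
theorem W0_iSup (hk : 1 ≤ k) : ENNReal.ofReal (W0 hk).re = ⨆ m, ENNReal.ofReal (Wm hk m) := by
  refine tendsto_nhds_unique ?_ (tendsto_atTop_iSup fun a b h => ENNReal.ofReal_le_ofReal (Wm_mono hk h))
  exact (ENNReal.continuous_ofReal.tendsto _).comp (W0_real hk).2.2

end Pool.Agent.GLD
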