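import Pool.Agent.GLD.FluxC

/-!
# GLd, Ax, part 0: the annulus; the recursion of the gas (sections 4.1 - 4.3 of glink/AXIAL_h87)
-/

set_option autoImplicit false

namespace Pool.Agent.GLD

open Pool.Agent.NUF.Cyl HexObs HexObs.LP Finset

variable {N : ℕ} {hN : 1 ≤ N}

theorem mem_rgk {a b : ℤ} {v : Pt} : v ∈ rg N a b ↔ ∃ k i : ℤ, (a ≤ k ∧ k < b) ∧ (0 ≤ i ∧ i < N) ∧
    (v = _root_.EXL.A k i ∨ v = _root_.EXL.B k i) := by
  unfold rg
  rw [Finset.mem_union, Finset.mem_image, Finset.mem_image]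
  constructor
  · rintro (⟨p, hp, rfl⟩ | ⟨p, hp, rfl⟩)
    · rw [Finset.mem_product, Finset.mem_Ico, Finset.mem_Ico] at hp
      exact ⟨p.1, p.2, hp.1, hp.2, Or.inl rfl⟩
    · rw [Finset.mem_product, Finset.mem_Ico, Finset.mem_Ico] at hp
      exact ⟨p.1, p.2, hp.1, hp.2, Or.inr rfl⟩
  · rintro ⟨k, i, h1, h2, h | h⟩
    · exact Or.inl ⟨(k, i), Finset.mem_product.2 ⟨Finset.mem_Ico.2 h1, Finset.mem_Ico.2 h2⟩, h.symm⟩
    · exact Or.inr ⟨(k, i), Finset.mem_product.2 ⟨Finset.mem_Ico.2 h1, Finset.mem_Ico.2 h2⟩, h.symm⟩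

theorem levA (k i : ℤ) : lev (_root_.EXL.A k i) = 3 * k - 1 := by
  simp only [lev, _root_.EXL.A]
  ring

theorem levB (k i : ℤ) : lev (_root_.EXL.B k i) = 3 * k := by
  simp only [lev, _root_.EXL.B]
  ring

theorem Vt_lev {v : Pt} : Vt v ↔ lev v % 3 ≠ 1 := by
  unfold Vt
  have h : HexObs.cl v = ((lev v : ℤ) : ZMod 3) := by
    unfold HexObs.cl lev
    push_cast
    ring
  rw [h, not_iff_not, show (1 : ZMod 3) = ((1 : ℤ) : ZMod 3) by norm_num, ZMod.intCast_eq_intCast_iff_dvd_sub]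
  constructor
  · intro h1
    push_cast at h1
    omega
  · intro h1
    push_cast
    omega

/-- the vertices of the annulus. -/
theorem mem_rg' {a b : ℤ} {v : Pt} : v ∈ rg N a b ↔
    Vt v ∧ (Cy N hN).nm v = v ∧ 3 * a - 3 < lev v ∧ lev v < 3 * b - 1 := by
  rw [mem_rgk, Vt_lev]
  constructor
  · rintro ⟨k, i, h1, h2, rfl | rfl⟩
    · rw [nm_A hN k h2.1 h2.2, levA]
      exact ⟨by omega, rfl, by omega, by omega⟩
    · rw [nm_B hN k h2.1 h2.2, levB]
      exact ⟨by omega, rfl, by omega, by omega⟩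
  · rintro ⟨h1, h2, h3, h4⟩
    have hr : 0 ≤ ri v ∧ ri v < N := by
      rw [nm_eq] at h2
      unfold nmN tr at h2
      have h5 := congrArg Prod.fst h2
      simp only at h5
      have h6 : (N : ℤ) * (ri v / N) = 0 := by linarith
      have h7 : ri v / N = 0 := by
        rcases mul_eq_zero.1 h6 with h | h
        · omega
        · exact h
      have h8 := Int.emod_add_mul_ediv (ri v) N
      rw [h7, mul_zero, add_zero] at h8
      rw [← h8]
      exact ⟨Int.emod_nonneg _ (by omega), Int.emod_lt_of_pos _ (by omega)⟩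
    unfold ri at hr
    have h9 : lev v % 3 = 2 ∨ lev v % 3 = 0 := by omega
    rcases h9 with h9 | h9
    · refine ⟨(lev v + 1) / 3, ri v, by omega, hr, Or.inl ?_⟩
      unfold lev at *
      unfold ri
      unfold _root_.EXL.A
      apply Prod.ext
      · simp only
        omega
      · simp only
        omega
    · refine ⟨lev v / 3, ri v, by omega, hr, Or.inr ?_⟩
      unfold lev at *
      unfold ri
      unfold _root_.EXL.B
      apply Prod.ext
      · simp only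
        omega
      · simp only
        omega

theorem rg_sub {a b a' b' : ℤ} (h1 : a' ≤ a) (h2 : b ≤ b') : rg N a b ⊆ rg N a' b' := by
  intro v hv
  rw [mem_rgk] at hv ⊢
  obtain ⟨k, i, h3, h4, h5⟩ := hv
  exact ⟨k, i, ⟨by omega, by omega⟩, h4, h5⟩

theorem rg_disj {hN : 1 ≤ N} (a b c : ℤ) : Disjoint (rg N a b) (rg N b c) := by
  rw [Finset.disjoint_left]
  intro v h1 h2
  rw [mem_rg' (hN := hN)] at h1 h2
  obtain ⟨hv, -, -, h3⟩ := h1
  obtain ⟨-, -, h4, -⟩ := h2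
  rw [Vt_lev] at hv
  omega

theorem rg_self (a : ℤ) : rg N a a = ∅ := by
  rw [Finset.eq_empty_iff_forall_notMem]
  intro v hv
  rw [mem_rgk] at hv
  obtain ⟨k, i, h3, -, -⟩ := hv
  omega

theorem zC_empty (C : Nm) : zC C ∅ = 1 := by
  unfold zC
  rw [Nm.polys_empty, Finset.filter_empty, GP_empty]

theorem lev_ft (k i : ℤ) : lev (ft k i).1 = 3 * k - 3 := by
  show lev (_root_.EXL.B (k - 1) i) = _
  rw [levB]
  ring

theorem ft_De {k i : ℤ} (h : 0 ≤ i ∧ i < N) : (Cy N hN).De (ft k i) := by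
  refine ⟨⟨ax_mem, ?_, ?_⟩, ?_⟩
  · rw [Vt_lev, lev_ft]
    omega
  · rw [Vt_lev, lev_add, lev_ft]
    have : lev (ft k i).2 = 2 := rfl
    omega
  · exact nm_B hN _ h.1 h.2

theorem ft_lt {a b i : ℤ} : ∀ v ∈ rg N a b, lev (ft a i).1 < lev v := by
  intro v hv
  rw [mem_rg' (hN := Nat.one_le_iff_ne_zero.2 (by
    rintro rfl
    rw [mem_rgk] at hv
    obtain ⟨k, i, -, h4, -⟩ := hv
    simp at h4
    omega))] at hv
  rw [lev_ft]
  exact hv.2.2.1

/-! ### arcs -/

theorem mem_arcS {g : ℕ} {t : List Bool} : t ∈ arcS N hN g ↔ (Cy N hN).Arr (rg N 0 g) (ft 0 0) t ∧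
    (Cy N hN).nb ((Cy N hN).le (ft 0 0) t) ∉ rg N 0 g ∧ dx ax t t.length = -ax := by
  unfold arcS
  rw [Finset.mem_filter, mem_exF, and_assoc]

theorem mem_brS {g : ℕ} {t : List Bool} : t ∈ brS N hN g ↔ (Cy N hN).Arr (rg N 0 g) (ft 0 0) t ∧
    (Cy N hN).nb ((Cy N hN).le (ft 0 0) t) ∉ rg N 0 g ∧ dx ax t t.length = ax := by
  unfold brS
  rw [Finset.mem_filter, mem_exF, and_assoc]

/-- an arc ends at the bottom. -/
theorem arcS_level {g : ℕ} {t : List Bool} (h : t ∈ arcS N hN g) :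
    lev ((Cy N hN).nb ((Cy N hN).le (ft 0 0) t)) = -3 := by
  obtain ⟨h1, h2, h3⟩ := mem_arcS.1 h
  have hq : (Cy N hN).De (ft 0 0) := ft_De ⟨le_rfl, by omega⟩
  have hd := De_le hq t
  have hlev : lev ((Cy N hN).nb ((Cy N hN).le (ft 0 0) t)) = lev ((Cy N hN).le (ft 0 0) t).1 - 2 := by
    unfold Nm.nb
    rw [(Cy_per hN).lv, lev_add]
    have h4 : ((Cy N hN).le (ft 0 0) t).2 = -ax := h3
    rw [h4]
    rfl
  have hne : t ≠ [] := by
    rintro rfl
    exact absurd h3 (by decide)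
  have hv : ((Cy N hN).le (ft 0 0) t).1 ∈ rg N 0 g := by
    rcases le_fst hq.2 t with ⟨h4, -⟩ | ⟨-, h4⟩
    · exact absurd h4 hne
    · exact vt_sub h1 h4
  rw [mem_rg' (hN := hN)] at hv h2
  obtain ⟨a1, a2, a3, a4⟩ := hv
  have hVn : Vt ((Cy N hN).nb ((Cy N hN).le (ft 0 0) t)) := by
    have := hd.1.2.2
    unfold Nm.nb
    rwa [Nm.vt_nm]
  have hnm : (Cy N hN).nm ((Cy N hN).nb ((Cy N hN).le (ft 0 0) t)) = (Cy N hN).nb ((Cy N hN).le (ft 0 0) t) :=
    Nm.nm_nb _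
  rw [Vt_lev] at a1
  have hVn' := hVn
  rw [Vt_lev] at hVn'
  by_contra hc
  apply h2
  refine ⟨hVn, hnm, ?_, ?_⟩ <;> omega

theorem arcS_mono {g h : ℕ} (hgh : g ≤ h) : arcS N hN g ⊆ arcS N hN h := by
  intro t ht
  have hl := arcS_level ht
  rw [mem_arcS] at ht ⊢
  obtain ⟨h1, h2, h3⟩ := ht
  have hs : rg N 0 (g : ℤ) ⊆ rg N 0 (h : ℤ) := rg_sub le_rfl (by exact_mod_cast hgh)
  refine ⟨⟨fun i a1 a2 => hs (h1.mem i a1 a2), h1.inj⟩, ?_, h3⟩
  rw [mem_rg' (hN := hN)]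
  rintro ⟨-, -, h4, -⟩
  rw [hl] at h4
  omega

theorem arcS_zero : arcS N hN 0 = ∅ := by
  rw [Finset.eq_empty_iff_forall_notMem]
  intro t ht
  obtain ⟨h1, h2, h3⟩ := mem_arcS.1 ht
  have : rg N 0 ((0 : ℕ) : ℤ) = ∅ := rg_self 0
  rw [this] at h1
  have hl := h1.length_le
  rw [Finset.card_empty] at hl
  have : t = [] := List.length_eq_zero_iff.1 (by omega)
  subst this
  exact absurd h3 (by decide)

theorem arcM_zero : arcM N hN 0 = 0 := by
  unfold arcM
  rw [arcS_zero, Finset.sum_empty]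

theorem arcM_diff (g : ℕ) : arcM N hN (g + 1) - arcM N hN g =
    ∑ t ∈ arcS N hN (g + 1) \ arcS N hN g, xc ^ t.length := by
  unfold arcM
  rw [← Finset.sum_sdiff (arcS_mono (Nat.le_succ g))]
  ring

theorem arcM_mono (g : ℕ) : arcM N hN g ≤ arcM N hN (g + 1) := by
  have h := arcM_diff (hN := hN) g
  have h1 : 0 ≤ ∑ t ∈ arcS N hN (g + 1) \ arcS N hN g, xc ^ t.length :=
    Finset.sum_nonneg fun t _ => pow_nonneg xc_pos.le _
  linarith

theorem sum_arcS (f : List Bool → ℝ) (H : ℕ) : ∑ t ∈ arcS N hN H, f t =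
    ∑ i ∈ range H, ∑ t ∈ arcS N hN (i + 1) \ arcS N hN i, f t := by
  induction H with
  | zero => rw [arcS_zero, Finset.sum_empty, Finset.sum_range_zero]
  | succ H ih =>
    rw [Finset.sum_range_succ, ← ih, ← Finset.sum_sdiff (arcS_mono (Nat.le_succ H))]
    ring

/-- the value of the gas of `H` rings. -/
noncomputable def ze (N : ℕ) (hN : 1 ≤ N) (H : ℕ) : ℝ := zC (Cy N hN) (rg N 0 H)

/-- the inputs: positivity, (SH), translation, windings, planarity. -/
structure AxIn (N : ℕ) (hN : 1 ≤ N) : Prop where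
  pos : ∀ (a b : ℤ) (A : Finset Pt), A ⊆ rg N a b → 0 < zC (Cy N hN) A
  anti : ∀ (a b : ℤ) (A A' : Finset Pt), A ⊆ rg N a b → A' ⊆ A → zC (Cy N hN) A ≤ zC (Cy N hN) A'
  sub : ∀ (a b : ℤ) (A A' : Finset Pt), A ∪ A' ⊆ rg N a b → Disjoint A A' →
    zC (Cy N hN) (A ∪ A') ≤ zC (Cy N hN) A * zC (Cy N hN) A'
  tr : ∀ a b k : ℤ, zC (Cy N hN) (rg N (a + k) (b + k)) = zC (Cy N hN) (rg N a b)
  down : ∀ {a b i : ℤ} {t : List Bool}, t ∈ exC (Cy N hN) (rg N a b) (ft a i) → dx ax t t.length = -ax → |wind t| = 3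
  up : ∀ {a b i : ℤ} {t : List Bool}, t ∈ exC (Cy N hN) (rg N a b) (ft a i) → dx ax t t.length ≠ -ax →
    dx ax t t.length = ax ∧ wind t = 0
  meets : ∀ {a b i : ℤ} {t : List Bool}, t ∈ exC (Cy N hN) (rg N a b) (ft a i) → dx ax t t.length = ax →
    ∀ {E : Finset (Pt × Pt)}, E ∈ (Cy N hN).polys (rg N a b) → Wnd E →
    ¬ Disjoint (VE E) ((Cy N hN).vt (ft a i) t)

namespace AxIn

variable (h : AxIn N hN)

include h

theorem le_one' {a b : ℤ} {A : Finset Pt} (hA : A ⊆ rg N a b) : zC (Cy N hN) A ≤ 1 := by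
  have := h.anti a b A ∅ hA (Finset.empty_subset _)
  rwa [zC_empty] at this

/-- the flux identity of the annulus. -/
theorem split (H : ℕ) : ze N hN H =
    Real.cos (3 * Real.pi / 8) * ∑ t ∈ arcS N hN H, xc ^ t.length *
      zC (Cy N hN) (rg N 0 H \ (Cy N hN).vt (ft 0 0) t) + brM N hN H := by
  have hq : (Cy N hN).De (ft 0 0) := ft_De ⟨le_rfl, by omega⟩
  have h1 := flux_re (Cy_per hN) hq (A := rg N 0 H) ft_lt
  have h2 : exC (Cy N hN) (rg N 0 H) (ft 0 0) = arcS N hN H ∪ brS N hN H := by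
    ext t
    unfold arcS brS
    rw [Finset.mem_union, Finset.mem_filter, Finset.mem_filter]
    constructor
    · intro ht
      by_cases hd : dx ax t t.length = -ax
      · exact Or.inl ⟨ht, hd⟩
      · exact Or.inr ⟨ht, (h.up ht hd).1⟩
    · rintro (h3 | h3)
      · exact h3.1
      · exact h3.1
  have h3 : Disjoint (arcS N hN H) (brS N hN H) := by
    rw [Finset.disjoint_left]
    intro t a1 a2
    rw [mem_arcS] at a1
    rw [mem_brS] at a2
    rw [a1.2.2] at a2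
    exact absurd a2.2.2 (by decide)
  unfold ze
  rw [h1, h2, Finset.sum_union h3, Finset.mul_sum]
  congr 1
  · refine Finset.sum_congr rfl fun t ht => ?_
    have ht' := ht
    unfold arcS at ht'
    rw [Finset.mem_filter] at ht'
    have h4 := h.down ht'.1 ht'.2
    have h5 : Real.cos (wind t * (Real.pi / 8)) = Real.cos (3 * Real.pi / 8) := by
      rcases abs_eq (by norm_num : (0 : ℤ) ≤ 3) |>.1 h4 with h6 | h6
      · rw [h6]
        congr 1
        push_cast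
        ring
      · rw [h6, ← Real.cos_neg]
        congr 1
        push_cast
        ring
    rw [h5]
    ring
  · unfold brM
    refine Finset.sum_congr rfl fun t ht => ?_
    have ht' := ht
    unfold brS at ht'
    rw [Finset.mem_filter] at ht'
    have hne : dx ax t t.length ≠ -ax := by
      rw [ht'.2]
      decide
    have h4 := (h.up ht'.1 hne).2
    have h5 : zC (Cy N hN) (rg N 0 H \ (Cy N hN).vt (ft 0 0) t) = 1 := by
      unfold zC
      have : ((Cy N hN).polys (rg N 0 H \ (Cy N hN).vt (ft 0 0) t)).filter Wnd = ∅ := by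
        rw [Finset.eq_empty_iff_forall_notMem]
        intro E hE
        rw [Finset.mem_filter, Nm.mem_polys] at hE
        obtain ⟨⟨k1, k2⟩, k3⟩ := hE
        apply h.meets ht'.1 ht'.2 (E := E) _ k3
        · rw [Finset.disjoint_left]
          intro v hv hv2
          exact (Finset.mem_sdiff.1 (k2 hv)).2 hv2
        · exact Nm.mem_polys.2 ⟨k1, fun v hv => (Finset.mem_sdiff.1 (k2 hv)).1⟩
      rw [this, GP_empty]
    rw [h4, h5]
    simp

theorem pos_ze (H : ℕ) : 0 < ze N hN H := h.pos 0 H _ (Finset.Subset.refl _)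

theorem ze_zero : ze N hN 0 = 1 := by
  unfold ze
  have : rg N 0 ((0 : ℕ) : ℤ) = ∅ := rg_self 0
  rw [this, zC_empty]

theorem ze_anti : Antitone (ze N hN) := by
  intro g H hgH
  exact h.anti 0 H _ _ (Finset.Subset.refl _) (rg_sub le_rfl (by exact_mod_cast hgH))

theorem ze_tr (a : ℤ) (H : ℕ) : zC (Cy N hN) (rg N a (a + H)) = ze N hN H := by
  have := h.tr 0 H a
  rw [zero_add, add_comm (H : ℤ) a] at this
  exact this

theorem ze_mul (H H' : ℕ) : ze N hN (H + H') ≤ ze N hN H * ze N hN H' := by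
  have e1 : rg N 0 ((H + H' : ℕ) : ℤ) = rg N 0 H ∪ rg N H (H + H') := by
    ext v
    rw [Finset.mem_union, mem_rg' (hN := hN), mem_rg' (hN := hN), mem_rg' (hN := hN)]
    push_cast
    constructor
    · rintro ⟨h1, h2, h3, h4⟩
      have h5 := h1
      rw [Vt_lev] at h5
      rcases lt_or_ge (lev v) (3 * (H : ℤ) - 1) with c | c
      · exact Or.inl ⟨h1, h2, h3, c⟩
      · exact Or.inr ⟨h1, h2, by omega, h4⟩
    · rintro (⟨h1, h2, h3, h4⟩ | ⟨h1, h2, h3, h4⟩)
      · exact ⟨h1, h2, h3, by omega⟩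
      · exact ⟨h1, h2, by omega, h4⟩
  have e2 := h.sub 0 ((H + H' : ℕ) : ℤ) (rg N 0 H) (rg N H (H + H')) (by rw [← e1]) (rg_disj (hN := hN) _ _ _)
  rw [← e1, h.ze_tr] at e2
  exact e2

/-- the bridges are bounded by the gas. -/
theorem br_le (H : ℕ) : brM N hN H ≤ ze N hN H := by
  rw [h.split H]
  have hc : 0 ≤ Real.cos (3 * Real.pi / 8) := by
    apply Real.cos_nonneg_of_mem_Icc
    constructor <;> linarith [Real.pi_pos]
  have h1 : 0 ≤ ∑ t ∈ arcS N hN H, xc ^ t.length * zC (Cy N hN) (rg N 0 H \ (Cy N hN).vt (ft 0 0) t) :=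
    Finset.sum_nonneg fun t _ => mul_nonneg (pow_nonneg xc_pos.le _)
      (h.pos 0 H _ Finset.sdiff_subset).le
  nlinarith

/-- **the recursion (4.3)** -/
theorem rec_le (H : ℕ) : ze N hN H ≤
    ∑ i ∈ range H, Real.cos (3 * Real.pi / 8) * (arcM N hN (i + 1) - arcM N hN i) * ze N hN (H - (i + 1)) +
      brM N hN H := by
  rw [h.split H]
  have hc : 0 ≤ Real.cos (3 * Real.pi / 8) := by
    apply Real.cos_nonneg_of_mem_Icc
    constructor <;> linarith [Real.pi_pos]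
  apply add_le_add _ le_rfl
  rw [sum_arcS, Finset.mul_sum]
  apply Finset.sum_le_sum
  intro i hi
  rw [Finset.mem_range] at hi
  rw [mul_assoc]
  apply mul_le_mul_of_nonneg_left _ hc
  rw [arcM_diff, Finset.sum_mul]
  apply Finset.sum_le_sum
  intro t ht
  apply mul_le_mul_of_nonneg_left _ (pow_nonneg xc_pos.le _)
  obtain ⟨h1, -, -⟩ := mem_arcS.1 (Finset.mem_sdiff.1 ht).1
  have e1 : ze N hN (H - (i + 1)) = zC (Cy N hN) (rg N ((i + 1 : ℕ) : ℤ) H) := by
    rw [← h.ze_tr ((i + 1 : ℕ) : ℤ)]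
    congr 2
    omega
  rw [e1]
  apply h.anti 0 H _ _ Finset.sdiff_subset
  intro v hv
  rw [Finset.mem_sdiff]
  refine ⟨rg_sub (by positivity) le_rfl hv, fun h2 => ?_⟩
  exact Finset.disjoint_left.1 (rg_disj (hN := hN) 0 ((i + 1 : ℕ) : ℤ) H) (vt_sub h1 h2) hv

end AxIn

end Pool.Agent.GLD
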