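import Pool.Agent.GLD.TailExp
import Pool.Agent.EXK.Final

/-!
GLd, A7: the arcs of the strip of height `C N` with displacement at least `N` have total weight at
least `c N ^ (-1/4) / log N`.
-/

set_option autoImplicit false

namespace HexObs

namespace GLd

open Finset ENNReal Filter Topology

lemma GG_mono {T T' : ℕ} (h : T ≤ T') (k : ℕ) : GG T k ≤ GG T' k := by
  refine gf_mono ?_
  rintro t ⟨⟨hS, _, hd⟩, htip⟩
  have hsub : St T ⊆ St T' := strip_mono oo up h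
  refine ⟨⟨hS.mono ?_, ?_, hd⟩, htip⟩
  · intro v hv
    exact ⟨hsub hv.1, hv.2⟩
  · rw [htip, foot_eq]
    intro hmem
    have h1 : ip (((2 * (k : ℤ), -(k : ℤ)) : Pt) - oo) up = 0 := by
      simp only [ip, up, oo, Prod.fst_sub, Prod.snd_sub]
      ring
    have h2 := hmem.2.1
    rw [h1] at h2
    omega

lemma tail_succ (T d : ℕ) : tail T d = GG T d + tail T (d + 1) := by
  unfold tail
  rw [tsum_eq_zero_add' ENNReal.summable, add_zero]
  congr 1
  refine tsum_congr fun k => ?_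
  congr 1
  omega

lemma tail_anti (T : ℕ) : Antitone (tail T) := antitone_nat_of_succ_le fun d => by
  rw [tail_succ T d]
  exact le_add_self

/-- total weight of the arcs to the right -/
noncomputable def sg (T : ℕ) : ℝ≥0∞ := ∑' k : ℕ, GG T (k + 1)

lemma sg_split (T d : ℕ) : sg T = ∑ k ∈ range d, GG T (k + 1) + tail T (d + 1) := by
  unfold sg tail
  rw [← Summable.sum_add_tsum_nat_add' (k := d) (f := fun k => GG T (k + 1)) ENNReal.summable]
  congr 1
  refine tsum_congr fun k => ?_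
  show GG T (k + d + 1) = GG T (d + 1 + k)
  congr 1
  omega

lemma tail_diff {T T' : ℕ} (h : T ≤ T') (d : ℕ) : tail T' (d + 1) + sg T ≤ tail T (d + 1) + sg T' := by
  rw [sg_split T d, sg_split T' d]
  have h1 : ∑ k ∈ range d, GG T (k + 1) ≤ ∑ k ∈ range d, GG T' (k + 1) :=
    Finset.sum_le_sum fun k _ => GG_mono h (k + 1)
  calc tail T' (d + 1) + (∑ k ∈ range d, GG T (k + 1) + tail T (d + 1))
      ≤ tail T' (d + 1) + (∑ k ∈ range d, GG T' (k + 1) + tail T (d + 1)) := by gcongr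
    _ = tail T (d + 1) + (∑ k ∈ range d, GG T' (k + 1) + tail T' (d + 1)) := by ring

lemma KT_eq (T : ℕ) : SP.KT T = ∑' d : ℕ, tail T (d + 1) := (SP.B6.tsum_tail T).symm

lemma KT_split (T N D : ℕ) (hND : N ≤ D) :
    SP.KT T ≤ ∑ d ∈ range N, tail T (d + 1) + D * tail T N + ∑' d : ℕ, tail T (d + D + 1) := by
  rw [KT_eq, ← Summable.sum_add_tsum_nat_add' (k := D) (f := fun d => tail T (d + 1)) ENNReal.summable]
  gcongr
  rw [← Finset.sum_range_add_sum_Ico _ hND]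
  gcongr
  calc ∑ d ∈ Finset.Ico N D, tail T (d + 1) ≤ ∑ d ∈ Finset.Ico N D, tail T N := by
        refine Finset.sum_le_sum fun d hd => tail_anti T ?_
        have := (Finset.mem_Ico.1 hd).1
        omega
    _ = ((D - N : ℕ) : ℝ≥0∞) * tail T N := by
        rw [Finset.sum_const, Nat.card_Ico, nsmul_eq_mul]
    _ ≤ D * tail T N := by
        gcongr
        omega

/-- the far part of the first moment -/
lemma far_part {C q : ℝ} (hC : 0 < C) (hq : 0 < q) (hq1 : q < 1)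
    (h : ∀ T j : ℕ, 1 ≤ T → 1 ≤ j → tail T j ≤ ENNReal.ofReal (C * q ^ (j / T))) {T : ℕ} (hT : 1 ≤ T) (m : ℕ) :
    ∑' d : ℕ, tail T (d + T * m + 1) ≤ ENNReal.ofReal (C * q ^ m * (T * (1 - q)⁻¹)) := by
  refine ENNReal.tsum_le_of_sum_range_le fun n => ?_
  have h1 : ∀ d : ℕ, tail T (d + T * m + 1) ≤ ENNReal.ofReal (C * q ^ m * q ^ (d / T)) := by
    intro d
    refine (h T (d + T * m + 1) hT (by omega)).trans (ENNReal.ofReal_le_ofReal ?_)
    rw [mul_assoc, ← pow_add]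
    refine mul_le_mul_of_nonneg_left ?_ hC.le
    refine pow_le_pow_of_le_one hq.le hq1.le ?_
    have h2 : (d + T * m) / T = d / T + m := Nat.add_mul_div_left d m (by omega)
    have h3 : (d + T * m) / T ≤ (d + T * m + 1) / T := Nat.div_le_div_right (by omega)
    omega
  calc ∑ d ∈ range n, tail T (d + T * m + 1) ≤ ∑ d ∈ range n, ENNReal.ofReal (C * q ^ m * q ^ (d / T)) :=
        Finset.sum_le_sum fun d _ => h1 d
    _ = ENNReal.ofReal (∑ d ∈ range n, C * q ^ m * q ^ (d / T)) := by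
        rw [ENNReal.ofReal_sum_of_nonneg]
        intro d _
        positivity
    _ ≤ _ := by
        apply ENNReal.ofReal_le_ofReal
        rw [← Finset.mul_sum]
        refine mul_le_mul_of_nonneg_left ?_ (by positivity)
        refine le_trans ?_ (LP.arcA_geom hq hq1 n hT)
        refine Finset.sum_le_sum_of_subset_of_nonneg ?_ fun _ _ _ => by positivity
        refine Finset.range_subset_range.2 ?_
        nlinarith

lemma sg_real {T : ℕ} (hT : 1 ≤ T) : sg T ≠ ⊤ ∧ (sg T).toReal = aT T / 2 := by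
  have h := arcs_total hT
  have h1 : AT T ≠ ⊤ := AT_ne_top hT
  have h2 : sg T ≠ ⊤ := by
    intro h3
    apply h1
    rw [h]
    show 2 * sg T = ⊤
    rw [h3]
    exact ENNReal.mul_top (by norm_num)
  refine ⟨h2, ?_⟩
  unfold aT
  rw [h]
  show _ = (2 * sg T).toReal / 2
  rw [ENNReal.toReal_mul]
  simp

/-- **the inequality of the moments** -/
lemma moment {C q : ℝ} (hC : 0 < C) (hq : 0 < q) (hq1 : q < 1)
    (h : ∀ T j : ℕ, 1 ≤ T → 1 ≤ j → tail T j ≤ ENNReal.ofReal (C * q ^ (j / T))) {N K : ℕ} (hN : 1 ≤ N)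
    (hK : 1 ≤ K) {m : ℕ} (hm : 1 ≤ m) :
    EXK.KR (K * N) ≤ EXK.KR N + N * (bT N / (2 * Real.cos (3 * Real.pi / 8))) +
      (K * N * m : ℕ) * (tail (K * N) N).toReal + C * q ^ m * ((K * N : ℕ) * (1 - q)⁻¹) := by
  obtain ⟨T', hT'⟩ : ∃ T', T' = K * N := ⟨_, rfl⟩
  have hT1 : 1 ≤ T' := by
    rw [hT']
    exact Nat.mul_pos hK hN
  have hNT : N ≤ T' := by
    rw [hT']
    exact Nat.le_mul_of_pos_left N hK
  rw [← hT']
  have hc := BAR.cos_three_pos
  obtain ⟨s1, s2⟩ := sg_real hN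
  obtain ⟨s3, s4⟩ := sg_real hT1
  have k1 : SP.KT N ≠ ⊤ := (SP.two hN).1
  have k2 : SP.KT T' ≠ ⊤ := (SP.two hT1).1
  have t1 : tail T' N ≠ ⊤ := by
    refine ne_top_of_le_ne_top s3 ?_
    have h1 := sg_split T' 0
    rw [Finset.range_zero, Finset.sum_empty, zero_add] at h1
    rw [h1]
    exact tail_anti T' hN
  have e1 := KT_split T' N (T' * m) (hNT.trans (Nat.le_mul_of_pos_right T' hm))
  have e2 := far_part hC hq hq1 h hT1 m
  have e3 : ∑ d ∈ range N, tail T' (d + 1) + N * sg N ≤ SP.KT N + N * sg T' := by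
    calc ∑ d ∈ range N, tail T' (d + 1) + N * sg N = ∑ d ∈ range N, (tail T' (d + 1) + sg N) := by
          rw [Finset.sum_add_distrib, Finset.sum_const, card_range, nsmul_eq_mul]
      _ ≤ ∑ d ∈ range N, (tail N (d + 1) + sg T') := Finset.sum_le_sum fun d _ => tail_diff hNT d
      _ = ∑ d ∈ range N, tail N (d + 1) + N * sg T' := by
          rw [Finset.sum_add_distrib, Finset.sum_const, card_range, nsmul_eq_mul]
      _ ≤ _ := by
          gcongr
          rw [KT_eq]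
          exact ENNReal.sum_le_tsum _
  have e4 : SP.KT T' + N * sg N ≤ SP.KT N + N * sg T' + ((T' * m : ℕ) : ℝ≥0∞) * tail T' N +
      ENNReal.ofReal (C * q ^ m * (T' * (1 - q)⁻¹)) := by
    calc SP.KT T' + N * sg N ≤ (∑ d ∈ range N, tail T' (d + 1) + ((T' * m : ℕ) : ℝ≥0∞) * tail T' N +
          ENNReal.ofReal (C * q ^ m * (T' * (1 - q)⁻¹))) + N * sg N := by
            gcongr
            exact e1.trans (by gcongr)
      _ = (∑ d ∈ range N, tail T' (d + 1) + N * sg N) + ((T' * m : ℕ) : ℝ≥0∞) * tail T' N +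
          ENNReal.ofReal (C * q ^ m * (T' * (1 - q)⁻¹)) := by ring
      _ ≤ _ := by gcongr
  have f1 : (N : ℝ≥0∞) * sg N ≠ ⊤ := ENNReal.mul_ne_top (ENNReal.natCast_ne_top N) s1
  have f2 : (N : ℝ≥0∞) * sg T' ≠ ⊤ := ENNReal.mul_ne_top (ENNReal.natCast_ne_top N) s3
  have f3 : ((T' * m : ℕ) : ℝ≥0∞) * tail T' N ≠ ⊤ := ENNReal.mul_ne_top (ENNReal.natCast_ne_top _) t1
  have e5 := ENNReal.toReal_mono (by
    simp only [ne_eq, ENNReal.add_eq_top, not_or]
    exact ⟨⟨⟨k1, f2⟩, f3⟩, ENNReal.ofReal_ne_top⟩) e4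
  have hE : 0 ≤ C * q ^ m * (T' * (1 - q)⁻¹) := by
    have : 0 < (1 - q)⁻¹ := inv_pos.2 (by linarith)
    positivity
  rw [ENNReal.toReal_add k2 f1, ENNReal.toReal_add (by
      simp only [ne_eq, ENNReal.add_eq_top, not_or]
      exact ⟨⟨k1, f2⟩, f3⟩) ENNReal.ofReal_ne_top, ENNReal.toReal_add (by
      simp only [ne_eq, ENNReal.add_eq_top, not_or]
      exact ⟨k1, f2⟩) f3, ENNReal.toReal_add k1 f2, ENNReal.toReal_mul, ENNReal.toReal_mul,
    ENNReal.toReal_mul, ENNReal.toReal_natCast, ENNReal.toReal_natCast, ENNReal.toReal_ofReal hE, s2, s4] at e5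
  rw [EXK.KR_eq hT1, EXK.KR_eq hN]
  have g1 := bT_add_aT hN
  have g2 := bT_add_aT hT1
  have g3 := bT_nonneg T'
  have g4 : aT T' / 2 - aT N / 2 ≤ bT N / (2 * Real.cos (3 * Real.pi / 8)) := by
    rw [le_div_iff₀ (by positivity)]
    have : (aT T' / 2 - aT N / 2) * (2 * Real.cos (3 * Real.pi / 8)) =
        Real.cos (3 * Real.pi / 8) * aT T' - Real.cos (3 * Real.pi / 8) * aT N := by ring
    rw [this]
    linarith
  have g5 : (N : ℝ) * (aT T' / 2) - N * (aT N / 2) ≤ N * (bT N / (2 * Real.cos (3 * Real.pi / 8))) := by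
    rw [← mul_sub]
    exact mul_le_mul_of_nonneg_left g4 (Nat.cast_nonneg N)
  linarith

/-- **A7.** -/
theorem del_low_log : ∃ (K : ℕ) (c : ℝ), 1 ≤ K ∧ 0 < c ∧ ∃ N0 : ℕ, ∀ N : ℕ, N0 ≤ N →
    c * (N : ℝ) ^ (-(1 / 4) : ℝ) / Real.log N ≤ (tail (K * N) N).toReal := by
  obtain ⟨C, q, hC, hq, hq1, hexp⟩ := tail_exp
  obtain ⟨κ, hκ, hK⟩ : ∃ κ : ℝ, 0 < κ ∧ Tendsto (fun n : ℕ => EXK.KR n / (n : ℝ) ^ (3 / 4 : ℝ)) atTop (𝓝 κ) := by
    refine ⟨_, ?_, EXK.K_asym⟩
    have h2 : 0 < Real.sqrt 2 - 1 := by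
      have : (1 : ℝ) < Real.sqrt 2 := by
        rw [show (1 : ℝ) = Real.sqrt 1 by simp]
        exact Real.sqrt_lt_sqrt (by norm_num) (by norm_num)
      linarith
    have h3 := Real.Gamma_pos_of_pos (show (0 : ℝ) < 3 / 4 by norm_num)
    have h4 := Real.pi_pos
    positivity
  have hB := EXK.bT_asym
  have hbB := EXG.bB_pos
  have hc := BAR.cos_three_pos
  have hlq : 0 < -Real.log q := by
    have := Real.log_neg hq hq1
    linarith
  -- bounds
  have hK1 : ∀ᶠ n : ℕ in atTop, κ / 2 < EXK.KR n / (n : ℝ) ^ (3 / 4 : ℝ) := hK.eventually (lt_mem_nhds (by linarith))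
  have hK2 : ∀ᶠ n : ℕ in atTop, EXK.KR n / (n : ℝ) ^ (3 / 4 : ℝ) < 2 * κ := hK.eventually (gt_mem_nhds (by linarith))
  have hB1 : ∀ᶠ n : ℕ in atTop, bT n * (n : ℝ) ^ (1 / 4 : ℝ) < 2 * EXG.bB := hB.eventually (gt_mem_nhds (by linarith))
  obtain ⟨n1, hn1⟩ := eventually_atTop.1 ((hK1.and hK2).and hB1)
  -- the constant K
  set M : ℝ := 2 * κ + 2 * EXG.bB / (2 * Real.cos (3 * Real.pi / 8)) + 2 with hM
  have hM0 : 0 < M := by positivity
  obtain ⟨K, hKn⟩ : ∃ K : ℕ, M * (2 / κ) ≤ (K : ℝ) ^ (3 / 4 : ℝ) ∧ 1 ≤ K := by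
    have h1 : Tendsto (fun n : ℕ => (n : ℝ) ^ (3 / 4 : ℝ)) atTop atTop :=
      (tendsto_rpow_atTop (by norm_num)).comp tendsto_natCast_atTop_atTop
    obtain ⟨K, h2, h3⟩ := ((h1.eventually_ge_atTop (M * (2 / κ))).and (eventually_ge_atTop 1)).exists
    exact ⟨K, h2, h3⟩
  obtain ⟨hKM, hK1'⟩ := hKn
  set a : ℝ := 1 / (-Real.log q) with ha
  have ha0 : 0 < a := by positivity
  -- the far part is small
  have hfar : ∀ᶠ N : ℕ in atTop, C * K * (1 - q)⁻¹ ≤ (N : ℝ) ^ (3 / 4 : ℝ) := by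
    have h1 : Tendsto (fun n : ℕ => (n : ℝ) ^ (3 / 4 : ℝ)) atTop atTop :=
      (tendsto_rpow_atTop (by norm_num)).comp tendsto_natCast_atTop_atTop
    exact h1.eventually_ge_atTop _
  obtain ⟨n2, hn2⟩ := eventually_atTop.1 hfar
  refine ⟨K, 1 / (K * (a + 1)), hK1', by positivity, max (max n1 n2) 3, fun N hN => ?_⟩
  have hN1 : n1 ≤ N := ((le_max_left _ _).trans (le_max_left _ _)).trans hN
  have hN2 : n2 ≤ N := ((le_max_right _ _).trans (le_max_left _ _)).trans hN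
  have hN3 : 3 ≤ N := (le_max_right _ _).trans hN
  have hNr : (3 : ℝ) ≤ N := by exact_mod_cast hN3
  have hN0 : (0 : ℝ) < N := by linarith
  have hKr : (1 : ℝ) ≤ K := by exact_mod_cast hK1'
  have hlog : 1 ≤ Real.log N := by
    rw [Real.le_log_iff_exp_le hN0]
    exact (Real.exp_one_lt_d9.le.trans (by norm_num)).trans hNr
  set m : ℕ := ⌈a * Real.log N⌉₊ with hm
  have hm1 : 1 ≤ m := Nat.one_le_ceil_iff.2 (by positivity)
  have hm2 : a * Real.log N ≤ m := Nat.le_ceil _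
  have hm3 : (m : ℝ) ≤ a * Real.log N + 1 := (Nat.ceil_lt_add_one (by positivity)).le
  have hqm : q ^ m ≤ (N : ℝ)⁻¹ := by
    have h1 : q ^ m = Real.exp (Real.log q * m) := by
      rw [← Real.rpow_natCast, Real.rpow_def_of_pos hq]
    rw [h1, show (N : ℝ)⁻¹ = Real.exp (-Real.log N) by rw [Real.exp_neg, Real.exp_log hN0]]
    apply Real.exp_le_exp.2
    have h2 : a * Real.log N * (-Real.log q) = Real.log N := by
      rw [ha, one_div, mul_comm, ← mul_assoc, mul_inv_cancel₀ hlq.ne', one_mul]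
    nlinarith
  have key := moment hC hq hq1 hexp (show 1 ≤ N by omega) hK1' hm1
  -- the four terms
  set P : ℝ := (N : ℝ) ^ (3 / 4 : ℝ) with hP
  have hP0 : 0 < P := Real.rpow_pos_of_pos hN0 _
  obtain ⟨⟨a1, a2⟩, a3⟩ := hn1 N hN1
  obtain ⟨⟨b1, _⟩, _⟩ := hn1 (K * N) (hN1.trans (Nat.le_mul_of_pos_left N hK1'))
  have c1 : EXK.KR N ≤ 2 * κ * P := by
    rw [div_lt_iff₀ hP0] at a2
    exact a2.le
  have c2 : M * P ≤ EXK.KR (K * N) := by
    have h1 : (((K * N : ℕ)) : ℝ) ^ (3 / 4 : ℝ) = (K : ℝ) ^ (3 / 4 : ℝ) * P := by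
      rw [Nat.cast_mul, Real.mul_rpow (by positivity) hN0.le]
    rw [h1, lt_div_iff₀ (by positivity)] at b1
    have h2 : M ≤ κ / 2 * (K : ℝ) ^ (3 / 4 : ℝ) := by
      have := mul_le_mul_of_nonneg_left hKM (show 0 ≤ κ / 2 by positivity)
      calc M = κ / 2 * (M * (2 / κ)) := by field_simp
        _ ≤ _ := this
    calc M * P ≤ κ / 2 * (K : ℝ) ^ (3 / 4 : ℝ) * P := mul_le_mul_of_nonneg_right h2 hP0.le
      _ = κ / 2 * ((K : ℝ) ^ (3 / 4 : ℝ) * P) := by ring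
      _ ≤ _ := b1.le
  have c3 : (N : ℝ) * (bT N / (2 * Real.cos (3 * Real.pi / 8))) ≤
      2 * EXG.bB / (2 * Real.cos (3 * Real.pi / 8)) * P := by
    have h1 : (N : ℝ) = P * (N : ℝ) ^ (1 / 4 : ℝ) := by
      rw [hP, ← Real.rpow_add hN0]
      norm_num
    have h2 : (N : ℝ) * bT N ≤ 2 * EXG.bB * P := by
      calc (N : ℝ) * bT N = P * (bT N * (N : ℝ) ^ (1 / 4 : ℝ)) := by
            nth_rewrite 1 [h1]
            ring
        _ ≤ P * (2 * EXG.bB) := mul_le_mul_of_nonneg_left a3.le hP0.le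
        _ = _ := by ring
    rw [mul_div_assoc', div_mul_eq_mul_div]
    exact div_le_div_of_nonneg_right h2 (by positivity)
  have c4 : C * q ^ m * ((K * N : ℕ) * (1 - q)⁻¹) ≤ P := by
    have hq' : 0 < (1 - q)⁻¹ := inv_pos.2 (by linarith)
    calc C * q ^ m * ((K * N : ℕ) * (1 - q)⁻¹) ≤ C * (N : ℝ)⁻¹ * ((K * N : ℕ) * (1 - q)⁻¹) := by gcongr
      _ = C * K * (1 - q)⁻¹ := by
          push_cast
          field_simp
      _ ≤ P := hn2 N hN2
  have c5 : P ≤ (K * N * m : ℕ) * (tail (K * N) N).toReal := by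
    have h1 : M * P = 2 * κ * P + 2 * EXG.bB / (2 * Real.cos (3 * Real.pi / 8)) * P + 2 * P := by
      rw [hM]
      ring
    linarith
  have c6 : ((K * N * m : ℕ) : ℝ) ≤ K * N * ((a + 1) * Real.log N) := by
    push_cast
    refine mul_le_mul_of_nonneg_left ?_ (by positivity)
    nlinarith
  have ht0 : 0 ≤ (tail (K * N) N).toReal := ENNReal.toReal_nonneg
  have c7 : P ≤ K * N * ((a + 1) * Real.log N) * (tail (K * N) N).toReal :=
    c5.trans (mul_le_mul_of_nonneg_right c6 ht0)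
  have c8 : P = N * (N : ℝ) ^ (-(1 / 4) : ℝ) := by
    rw [hP]
    nth_rewrite 2 [← Real.rpow_one (N : ℝ)]
    rw [← Real.rpow_add hN0]
    norm_num
  rw [div_le_iff₀ (by linarith), div_mul_eq_mul_div, one_mul, div_le_iff₀ (by positivity)]
  rw [c8] at c7
  have c9 : (N : ℝ) * (N : ℝ) ^ (-(1 / 4) : ℝ) ≤
      N * ((tail (K * N) N).toReal * Real.log N * (K * (a + 1))) := by
    calc (N : ℝ) * (N : ℝ) ^ (-(1 / 4) : ℝ) ≤ _ := c7
      _ = _ := by ring
  exact le_of_mul_le_mul_left c9 hN0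

end GLd

end HexObs
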