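import Pool.Agent.GLD.PDefs
import Pool.Agent.GLD.DelLow0

/-!
# GLd, A7: the literal statements

* `del_low`: the arcs of `K N` rings with displacement at least `N` have mass at least
  `c N ^ (-1/4) / log N ^ 2` (in fact `c N ^ (-1/4) / log N`, `del_low1`);
* `brP_sum`: the sum of the bridges.
-/

set_option autoImplicit false

namespace Pool.Agent.GLD

open HexObs Finset Filter Topology

/-- the words of the arcs with a large displacement -/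
theorem farP_ge {g : ℕ} (hg : 1 ≤ g) (n : ℕ) : (tail g n).toReal ≤ farP g n := by
  unfold farP
  rw [HexObs.GLd.tail_eq_gf]
  have h0 : up ∈ dirs := by decide
  have h0' : ax ∈ dirs := by decide
  have hrot := (strip_rot h0 h0' oo (ft 0 0).1 g).2
  have ha := rotTo_apply ax h0
  refine ENNReal.toReal_mono ?_ (gf_mono ?_)
  · refine ne_top_of_le_ne_top (AT_ne_top hg) ?_
    rw [← gf_A h0' (ft 0 0).1 g]
    exact gf_mono fun t ht => ht.1
  · rintro t ⟨k, hk, ⟨⟨hS, hout, hd⟩, htip⟩⟩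
    have h1 : t ∈ out (strip oo up g) oo up (-up) := by
      refine ⟨⟨fun i h1 h2 => (hS.mem i h1 h2).1, hS.inj⟩, hout, hd⟩
    refine ⟨hrot ▸ h1, ?_⟩
    have h2 : tip (ft 0 0).1 ax t = (ft 0 0).1 + mulE (rotTo up ax) (tip oo up t - oo) := by
      have := vx_mulE (rotTo up ax) oo (ft 0 0).1 up t (t.length + 1)
      rw [ha] at this
      exact this
    rw [h2, htip, HexObs.GLd.foot_eq]
    have h3 : rotTo up ax = (0, -1) := by decide
    rw [h3]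
    have h4 : ((ft 0 0).1 + mulE (0, -1) ((2 * (k : ℤ), -(k : ℤ)) - oo)).1 - (ft 0 0).1.1 = -k := by
      simp only [mulE, oo, Prod.fst_add, Prod.fst_sub, Prod.snd_sub]
      ring
    rw [h4, abs_neg, Nat.abs_cast]
    exact_mod_cast hk

/-- **A7.** -/
theorem del_low1 : ∃ (K N0 : ℕ) (c : ℝ), 0 < c ∧ 1 ≤ K ∧ ∀ N : ℕ, N0 ≤ N →
    c * (N : ℝ) ^ (-(1 / 4) : ℝ) / Real.log N ≤ farP (K * N) N := by
  obtain ⟨K, c, hK, hc, N0, h⟩ := HexObs.GLd.del_low_log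
  refine ⟨K, max N0 1, c, hc, hK, fun N hN => ?_⟩
  have h1 : 1 ≤ N := (le_max_right _ _).trans hN
  exact (h N ((le_max_left _ _).trans hN)).trans (farP_ge (Nat.mul_pos hK h1) N)

/-- **A7, the stated form.** -/
theorem del_low : ∃ (K N0 : ℕ) (c : ℝ), 0 < c ∧ 1 ≤ K ∧ ∀ N : ℕ, N0 ≤ N →
    c * (N : ℝ) ^ (-(1 / 4) : ℝ) / Real.log N ^ 2 ≤ farP (K * N) N := by
  obtain ⟨K, N0, c, hc, hK, h⟩ := del_low1
  refine ⟨K, max N0 3, c, hc, hK, fun N hN => (?_ : _ ≤ _).trans (h N ((le_max_left _ _).trans hN))⟩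
  have h3 : 3 ≤ N := (le_max_right _ _).trans hN
  have hN3 : (3 : ℝ) ≤ N := by exact_mod_cast h3
  have hN0 : (0 : ℝ) < N := by linarith
  have hlog : 1 ≤ Real.log N := by
    rw [Real.le_log_iff_exp_le hN0]
    exact (Real.exp_one_lt_d9.le.trans (by norm_num)).trans hN3
  have hp : 0 ≤ c * (N : ℝ) ^ (-(1 / 4) : ℝ) := by positivity
  refine div_le_div_of_nonneg_left hp (by linarith) ?_
  nlinarith

/-- sum of the powers `-1/4` -/
lemma sum_pow (M : ℕ) : ∑ r ∈ range M, ((r : ℝ) + 1) ^ (-(1 / 4) : ℝ) ≤ 4 / 3 * (M : ℝ) ^ (3 / 4 : ℝ) := by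
  induction M with
  | zero => simp
  | succ M ih =>
      rw [sum_range_succ]
      have h1 : (0 : ℝ) < (M : ℝ) + 1 := by positivity
      have h2 : (M : ℝ) ^ (3 / 4 : ℝ) ≤ ((M : ℝ) + 1) ^ (3 / 4 : ℝ) - 3 / 4 * ((M : ℝ) + 1) ^ (-(1 / 4) : ℝ) := by
        have h3 := rpow_one_add_le_one_add_mul_self (s := -(1 / ((M : ℝ) + 1))) (p := 3 / 4)
          (by
            rw [neg_le_neg_iff, div_le_one h1]
            linarith [Nat.cast_nonneg (α := ℝ) M]) (by norm_num) (by norm_num)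
        have h4 : (M : ℝ) = (1 + -(1 / ((M : ℝ) + 1))) * ((M : ℝ) + 1) := by
          field_simp
          ring
        have h5 : (0 : ℝ) ≤ 1 + -(1 / ((M : ℝ) + 1)) := by
          have : 1 / ((M : ℝ) + 1) ≤ 1 := by
            rw [div_le_one h1]
            linarith [Nat.cast_nonneg (α := ℝ) M]
          linarith
        have h6 : ((M : ℝ) + 1) ^ (-(1 / 4) : ℝ) = ((M : ℝ) + 1) ^ (3 / 4 : ℝ) * (1 / ((M : ℝ) + 1)) := by
          have e : 1 / ((M : ℝ) + 1) = ((M : ℝ) + 1) ^ (-1 : ℝ) := by rw [Real.rpow_neg_one, one_div]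
          rw [e, ← Real.rpow_add h1]
          norm_num
        calc (M : ℝ) ^ (3 / 4 : ℝ) = ((1 + -(1 / ((M : ℝ) + 1))) * ((M : ℝ) + 1)) ^ (3 / 4 : ℝ) := by rw [← h4]
          _ = (1 + -(1 / ((M : ℝ) + 1))) ^ (3 / 4 : ℝ) * ((M : ℝ) + 1) ^ (3 / 4 : ℝ) := Real.mul_rpow h5 h1.le
          _ ≤ (1 + 3 / 4 * -(1 / ((M : ℝ) + 1))) * ((M : ℝ) + 1) ^ (3 / 4 : ℝ) :=
              mul_le_mul_of_nonneg_right h3 (Real.rpow_nonneg h1.le _)
          _ = _ := by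
              rw [h6]
              ring
      push_cast
      linarith

/-- **the bridges** -/
theorem brP_sum : ∃ C : ℝ, 0 < C ∧ ∀ M : ℕ, 1 ≤ M →
    ∑ r ∈ range (M + 1), brP r ≤ C * (M : ℝ) ^ (3 / 4 : ℝ) := by
  obtain ⟨B, hB⟩ := (EXK.bT_asym).bddAbove_range
  have hB' : ∀ n : ℕ, bT n * (n : ℝ) ^ (1 / 4 : ℝ) ≤ B := fun n => hB ⟨n, rfl⟩
  have hB0 : 0 ≤ B := by
    have := hB' 0
    simp at this
    exact this
  refine ⟨brP 0 + B * (4 / 3) + 1, by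
    have : 0 ≤ brP 0 := ENNReal.toReal_nonneg
    positivity, fun M hM => ?_⟩
  rw [sum_range_succ']
  have h1 : ∑ r ∈ range M, brP (r + 1) ≤ ∑ r ∈ range M, B * ((r : ℝ) + 1) ^ (-(1 / 4) : ℝ) := by
    refine sum_le_sum fun r _ => ?_
    rw [brP_eq]
    have h2 := hB' (r + 1)
    have h3 : (0 : ℝ) < (r : ℝ) + 1 := by positivity
    have h4 : (BT (r + 1)).toReal * ((r : ℝ) + 1) ^ (1 / 4 : ℝ) ≤ B := by
      have : bT (r + 1) = (BT (r + 1)).toReal := rfl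
      rw [this] at h2
      push_cast at h2
      exact h2
    have h5 : ((r : ℝ) + 1) ^ (1 / 4 : ℝ) * ((r : ℝ) + 1) ^ (-(1 / 4) : ℝ) = 1 := by
      rw [← Real.rpow_add h3]
      norm_num
    have h6 : 0 < ((r : ℝ) + 1) ^ (-(1 / 4) : ℝ) := Real.rpow_pos_of_pos h3 _
    calc (BT (r + 1)).toReal = (BT (r + 1)).toReal * (((r : ℝ) + 1) ^ (1 / 4 : ℝ) * ((r : ℝ) + 1) ^ (-(1 / 4) : ℝ)) := by
          rw [h5, mul_one]
      _ = ((BT (r + 1)).toReal * ((r : ℝ) + 1) ^ (1 / 4 : ℝ)) * ((r : ℝ) + 1) ^ (-(1 / 4) : ℝ) := by ring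
      _ ≤ B * ((r : ℝ) + 1) ^ (-(1 / 4) : ℝ) := mul_le_mul_of_nonneg_right h4 h6.le
  rw [← mul_sum] at h1
  have h2 := mul_le_mul_of_nonneg_left (sum_pow M) hB0
  have hM1 : (1 : ℝ) ≤ (M : ℝ) ^ (3 / 4 : ℝ) := Real.one_le_rpow (by exact_mod_cast hM) (by norm_num)
  have hb : 0 ≤ brP 0 := ENNReal.toReal_nonneg
  nlinarith

end Pool.Agent.GLD
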