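import Mathlib

/-!
# GLD/Seq (helper22): contraction of the winding gas, abstract part (A6 of glink/AXIAL_h87)

Pure real sequences.  `α` = planar arcs with exactly `g` rings, `u` = planar strip
remainder, `αc`, `uc` = the same on the cylinder, `ζ` = the gas `z(D_H)`.
-/

open Finset

namespace Pool.Agent.GLD

/-- renewal sequence of `α` (only `α 1, α 2, ..` are used) -/
noncomputable def ren (α : ℕ → ℝ) : ℕ → ℝ
  | 0 => 1
  | n + 1 => ∑ i : Fin (n + 1), α (i.1 + 1) * ren α (n - i.1)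
decreasing_by exact Nat.lt_succ_of_le (Nat.sub_le _ _)

theorem ren_zero (α : ℕ → ℝ) : ren α 0 = 1 := by rw [ren]

theorem ren_succ (α : ℕ → ℝ) (n : ℕ) :
    ren α (n + 1) = ∑ i ∈ range (n + 1), α (i + 1) * ren α (n - i) := by
  rw [ren, Finset.sum_range]

theorem ren_nonneg {α : ℕ → ℝ} (h : ∀ g, 0 ≤ α g) (n : ℕ) : 0 ≤ ren α n := by
  induction n using Nat.strong_induction_on with
  | _ n ih =>
    cases n with
    | zero => rw [ren_zero]; norm_num
    | succ n =>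
      rw [ren_succ]
      exact Finset.sum_nonneg fun i _ => mul_nonneg (h _) (ih _ (Nat.lt_succ_of_le (Nat.sub_le _ _)))

/-- the sum over `g = 1..H` of `f g * v (H - g)`, as a sum over `range H` -/
def conv (f v : ℕ → ℝ) (H : ℕ) : ℝ := ∑ i ∈ range H, f (i + 1) * v (H - (i + 1))

theorem ren_eq (α : ℕ → ℝ) (n : ℕ) : ren α (n + 1) = conv α (ren α) (n + 1) := by
  rw [ren_succ, conv]
  refine Finset.sum_congr rfl fun i _ => ?_
  rw [show n + 1 - (i + 1) = n - i by omega]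

/-- **renewal equation**: if `y H ≥ conv α y H + r H` for all `H ≥ 0` (`α ≥ 0`), then
`y H ≥ ∑_{s ≤ H} U s * r (H - s)`. -/
theorem renewal_le {α y r : ℕ → ℝ} (hα : ∀ g, 0 ≤ α g)
    (h : ∀ H, conv α y H + r H ≤ y H) (H : ℕ) :
    ∑ s ∈ range (H + 1), ren α s * r (H - s) ≤ y H := by
  induction H using Nat.strong_induction_on with
  | _ H ih =>
    refine le_trans ?_ (h H)
    rw [Finset.sum_range_succ']
    rw [ren_zero, one_mul, Nat.sub_zero]
    refine add_le_add ?_ le_rfl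
    -- the double sum
    have e1 : ∑ k ∈ range H, ren α (k + 1) * r (H - (k + 1))
        = ∑ k ∈ range H, ∑ i ∈ range (k + 1), α (i + 1) * ren α (k - i) * r (H - (k + 1)) := by
      refine Finset.sum_congr rfl fun k _ => ?_
      rw [ren_succ, Finset.sum_mul]
    have e2 : conv α (fun n => ∑ s ∈ range (n + 1), ren α s * r (n - s)) H
        = ∑ i ∈ range H, ∑ s ∈ range (H - (i + 1) + 1),
            α (i + 1) * ren α s * r (H - (i + 1) - s) := by
      rw [conv]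
      refine Finset.sum_congr rfl fun i _ => ?_
      rw [Finset.mul_sum]
      refine Finset.sum_congr rfl fun s _ => ?_
      ring
    have e3 : ∑ k ∈ range H, ren α (k + 1) * r (H - (k + 1))
        = conv α (fun n => ∑ s ∈ range (n + 1), ren α s * r (n - s)) H := by
      rw [e1, e2, Finset.sum_sigma', Finset.sum_sigma']
      refine Finset.sum_bij' (fun p _ => ⟨p.2, p.1 - p.2⟩) (fun p _ => ⟨p.1 + p.2, p.1⟩)
        ?_ ?_ ?_ ?_ ?_
      · rintro ⟨k, i⟩ hp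
        simp only [Finset.mem_sigma, Finset.mem_range] at hp ⊢
        omega
      · rintro ⟨i, s⟩ hp
        simp only [Finset.mem_sigma, Finset.mem_range] at hp ⊢
        omega
      · rintro ⟨k, i⟩ hp
        simp only [Finset.mem_sigma, Finset.mem_range] at hp
        simp only [Sigma.mk.injEq, heq_eq_eq, and_true]
        omega
      · rintro ⟨i, s⟩ hp
        simp only [Finset.mem_sigma, Finset.mem_range] at hp
        simp only [Sigma.mk.injEq, heq_eq_eq, true_and]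
        omega
      · rintro ⟨k, i⟩ hp
        simp only [Finset.mem_sigma, Finset.mem_range] at hp
        rw [show H - (i + 1) - (k - i) = H - (k + 1) by omega]
    rw [e3, conv, conv]
    refine Finset.sum_le_sum fun i hi => ?_
    refine mul_le_mul_of_nonneg_left (ih _ ?_) (hα _)
    rw [Finset.mem_range] at hi
    omega

/-- `∑_{g = 1..H} α g + u H = 1` gives `∑_{s ≤ H} U s * u (H - s) = 1`. -/
theorem ren_mul_u {α u : ℕ → ℝ} (hid : ∀ H, ∑ i ∈ range H, α (i + 1) + u H = 1) (H : ℕ) :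
    ∑ s ∈ range (H + 1), ren α s * u (H - s) = 1 := by
  have hu : ∀ n, u n = 1 - ∑ i ∈ range n, α (i + 1) := fun n => by rw [← hid n]; ring
  have e0 : ∑ s ∈ range (H + 1), ren α s * u (H - s)
      = ∑ s ∈ range (H + 1), ren α s
        - ∑ s ∈ range (H + 1), ∑ i ∈ range (H - s), α (i + 1) * ren α s := by
    rw [← Finset.sum_sub_distrib]
    refine Finset.sum_congr rfl fun s _ => ?_
    rw [hu, mul_sub, mul_one, Finset.mul_sum]
    congr 1
    exact Finset.sum_congr rfl fun i _ => mul_comm _ _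
  have e1 : ∑ s ∈ range (H + 1), ∑ i ∈ range (H - s), α (i + 1) * ren α s
      = ∑ k ∈ range H, ren α (k + 1) := by
    have : ∀ k, ren α (k + 1) = ∑ i ∈ range (k + 1), α (i + 1) * ren α (k - i) :=
      fun k => ren_succ α k
    simp only [this]
    rw [Finset.sum_sigma', Finset.sum_sigma']
    refine Finset.sum_bij' (fun p _ => ⟨p.1 + p.2, p.2⟩) (fun p _ => ⟨p.1 - p.2, p.2⟩)
      ?_ ?_ ?_ ?_ ?_
    · rintro ⟨s, i⟩ hp
      simp only [Finset.mem_sigma, Finset.mem_range] at hp ⊢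
      omega
    · rintro ⟨k, i⟩ hp
      simp only [Finset.mem_sigma, Finset.mem_range] at hp ⊢
      omega
    · rintro ⟨s, i⟩ hp
      simp only [Finset.mem_sigma, Finset.mem_range] at hp
      simp only [Sigma.mk.injEq, heq_eq_eq, and_true]
      omega
    · rintro ⟨k, i⟩ hp
      simp only [Finset.mem_sigma, Finset.mem_range] at hp
      simp only [Sigma.mk.injEq, heq_eq_eq, and_true]
      omega
    · rintro ⟨s, i⟩ hp
      simp only [Finset.mem_sigma, Finset.mem_range] at hp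
      rw [show s + i - i = s by omega]
  rw [e0, e1, Finset.sum_range_succ', ren_zero]
  ring

/-- **lower bound of the renewal sums.** -/
theorem ren_sum_ge {α u : ℕ → ℝ} (hα : ∀ g, 0 ≤ α g) (hu0 : ∀ H, 0 ≤ u H)
    (hid : ∀ H, ∑ i ∈ range H, α (i + 1) + u H = 1) (K : ℕ) :
    (K + 1 : ℝ) ≤ (∑ s ∈ range (K + 1), ren α s) * ∑ r ∈ range (K + 1), u r := by
  have h1 : (K + 1 : ℝ) = ∑ H ∈ range (K + 1), ∑ s ∈ range (H + 1), ren α s * u (H - s) := by
    rw [Finset.sum_congr rfl fun H _ => ren_mul_u hid H]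
    simp
  rw [h1, Finset.sum_mul_sum]
  have h2 : ∑ H ∈ range (K + 1), ∑ s ∈ range (H + 1), ren α s * u (H - s)
      = ∑ s ∈ range (K + 1), ∑ j ∈ range (K + 1 - s), ren α s * u j := by
    rw [Finset.sum_sigma', Finset.sum_sigma']
    refine Finset.sum_bij' (fun p _ => ⟨p.2, p.1 - p.2⟩) (fun p _ => ⟨p.1 + p.2, p.1⟩)
      ?_ ?_ ?_ ?_ ?_
    · rintro ⟨k, i⟩ hp
      simp only [Finset.mem_sigma, Finset.mem_range] at hp ⊢
      omega
    · rintro ⟨i, s⟩ hp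
      simp only [Finset.mem_sigma, Finset.mem_range] at hp ⊢
      omega
    · rintro ⟨k, i⟩ hp
      simp only [Finset.mem_sigma, Finset.mem_range] at hp
      simp only [Sigma.mk.injEq, heq_eq_eq, and_true]
      omega
    · rintro ⟨i, s⟩ hp
      simp only [Finset.mem_sigma, Finset.mem_range] at hp
      simp only [Sigma.mk.injEq, heq_eq_eq, true_and]
      omega
    · rintro ⟨k, i⟩ hp
      rfl
  rw [h2]
  refine Finset.sum_le_sum fun s _ => ?_
  refine Finset.sum_le_sum_of_subset_of_nonneg ?_ fun j _ _ =>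
    mul_nonneg (ren_nonneg hα s) (hu0 j)
  intro j hj
  rw [Finset.mem_range] at hj ⊢
  omega

/-- The data of section 5. -/
structure Contr (α αc u uc ζ : ℕ → ℝ) : Prop where
  αc0 : ∀ g, 0 ≤ αc g
  αle : ∀ g, αc g ≤ α g
  u0 : ∀ H, 0 ≤ u H
  ule : ∀ H, uc H ≤ u H
  hid : ∀ H, ∑ i ∈ range H, α (i + 1) + u H = 1
  ζ0 : ζ 0 = 1
  ζn : ∀ H, 0 ≤ ζ H
  ζa : Antitone ζ
  ζm : ∀ H H', ζ (H + H') ≤ ζ H * ζ H'
  ζc : ∀ H, ζ H ≤ ∑ i ∈ range H, αc (i + 1) * ζ (H - (i + 1)) + uc H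

namespace Contr

variable {α αc u uc ζ : ℕ → ℝ}

theorem α0 (h : Contr α αc u uc ζ) (g : ℕ) : 0 ≤ α g := (h.αc0 g).trans (h.αle g)

/-- `y H ≥ conv α y H + ∑ δ ζ`. -/
theorem y_ge (h : Contr α αc u uc ζ) (H : ℕ) :
    conv α (fun n => 1 - ζ n) H + conv (fun g => α g - αc g) ζ H ≤ 1 - ζ H := by
  have h1 := h.ζc H
  have h2 := h.hid H
  have h3 := h.ule H
  have h4 : conv α (fun n => 1 - ζ n) H + conv (fun g => α g - αc g) ζ H
      = ∑ i ∈ range H, α (i + 1) - ∑ i ∈ range H, αc (i + 1) * ζ (H - (i + 1)) := by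
    rw [conv, conv, ← Finset.sum_add_distrib, ← Finset.sum_sub_distrib]
    refine Finset.sum_congr rfl fun i _ => ?_
    ring
  rw [h4]
  linarith

/-- sum of the missing arcs -/
def Del (α αc : ℕ → ℝ) (K : ℕ) : ℝ := ∑ i ∈ range K, (α (i + 1) - αc (i + 1))

theorem Del_nonneg (h : Contr α αc u uc ζ) (K : ℕ) : 0 ≤ Del α αc K :=
  Finset.sum_nonneg fun i _ => sub_nonneg.2 (h.αle _)

theorem Del_mono (h : Contr α αc u uc ζ) : Monotone (Del α αc) := by
  intro a b hab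
  refine Finset.sum_le_sum_of_subset_of_nonneg ?_ fun j _ _ => sub_nonneg.2 (h.αle _)
  intro j hj
  rw [Finset.mem_range] at hj ⊢
  omega

/-- `∑ δ ζ ≥ ζ_H Δ`. -/
theorem r_ge (h : Contr α αc u uc ζ) {H n : ℕ} (hn : n ≤ H) :
    ζ H * Del α αc n ≤ conv (fun g => α g - αc g) ζ n := by
  rw [Del, Finset.mul_sum, conv]
  refine Finset.sum_le_sum fun i _ => ?_
  rw [mul_comm]
  exact mul_le_mul_of_nonneg_left (h.ζa (by omega)) (sub_nonneg.2 (h.αle _))

/-- **the contraction**, cleared of denominators: `ζ_{2K} Δ_K ∑_{s ≤ K} U s ≤ 1 - ζ_{2K}`. -/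
theorem contr0 (h : Contr α αc u uc ζ) (K : ℕ) :
    ζ (2 * K) * Del α αc K * ∑ s ∈ range (K + 1), ren α s ≤ 1 - ζ (2 * K) := by
  refine le_trans ?_ (renewal_le h.α0 (y := fun n => 1 - ζ n)
    (r := fun n => conv (fun g => α g - αc g) ζ n) (fun H => h.y_ge H) (2 * K))
  rw [Finset.mul_sum]
  have hr : ∀ n, 0 ≤ conv (fun g => α g - αc g) ζ n := fun n =>
    Finset.sum_nonneg fun i _ => mul_nonneg (sub_nonneg.2 (h.αle _)) (h.ζn _)
  refine le_trans (Finset.sum_le_sum fun s hs => ?_)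
    (Finset.sum_le_sum_of_subset_of_nonneg (s := range (K + 1)) ?_ fun j _ _ =>
      mul_nonneg (ren_nonneg h.α0 j) (hr _))
  · rw [Finset.mem_range] at hs
    rw [mul_comm]
    refine mul_le_mul_of_nonneg_left ?_ (ren_nonneg h.α0 s)
    refine le_trans ?_ (h.r_ge (H := 2 * K) (n := 2 * K - s) (by omega))
    exact mul_le_mul_of_nonneg_left (h.Del_mono (by omega)) (h.ζn _)
  · intro j hj
    rw [Finset.mem_range] at hj ⊢
    omega

/-- **the contraction**: `ζ_{2K} (S_K + Δ_K (K+1)) ≤ S_K`, `S_K = ∑_{r ≤ K} u r`. -/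
theorem contr1 (h : Contr α αc u uc ζ) (K : ℕ) :
    ζ (2 * K) * (∑ r ∈ range (K + 1), u r + Del α αc K * (K + 1))
      ≤ ∑ r ∈ range (K + 1), u r := by
  have h1 := h.contr0 K
  have h2 := ren_sum_ge h.α0 h.u0 h.hid K
  have hS : 0 ≤ ∑ r ∈ range (K + 1), u r := Finset.sum_nonneg fun r _ => h.u0 r
  have h3 : ζ (2 * K) * Del α αc K * (K + 1)
      ≤ ζ (2 * K) * Del α αc K *
        ((∑ s ∈ range (K + 1), ren α s) * ∑ r ∈ range (K + 1), u r) :=
    mul_le_mul_of_nonneg_left h2 (mul_nonneg (h.ζn _) (h.Del_nonneg K))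
  have h4 := mul_le_mul_of_nonneg_right h1 hS
  nlinarith

theorem ζ_le_one (h : Contr α αc u uc ζ) (H : ℕ) : ζ H ≤ 1 := by
  rw [← h.ζ0]
  exact h.ζa (Nat.zero_le _)

theorem ζ_pow (h : Contr α αc u uc ζ) (L n : ℕ) : ζ (n * L) ≤ ζ L ^ n := by
  induction n with
  | zero => rw [Nat.zero_mul, h.ζ0, pow_zero]
  | succ n ih =>
    rw [Nat.succ_mul, pow_succ]
    exact (h.ζm _ _).trans (mul_le_mul_of_nonneg_right ih (h.ζn _))

/-- from one contraction `ζ L ≤ 1 - θ`, `L ≥ 1`: `ζ h ≤ exp (θ - θ h / L)` for all `h`. -/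
theorem ζ_exp (h : Contr α αc u uc ζ) {L : ℕ} (hL : 1 ≤ L) {θ : ℝ} (hθ : 0 ≤ θ)
    (hc : ζ L ≤ 1 - θ) (n : ℕ) : ζ n ≤ Real.exp (θ - θ * n / L) := by
  have h1 : ζ L ≤ Real.exp (-θ) := hc.trans (by have := Real.add_one_le_exp (-θ); linarith)
  have h2 : ζ n ≤ ζ ((n / L) * L) := h.ζa (Nat.div_mul_le_self n L)
  have h3 : ζ ((n / L) * L) ≤ Real.exp (-θ) ^ (n / L) :=
    (h.ζ_pow L (n / L)).trans (pow_le_pow_left₀ (h.ζn _) h1 _)
  refine h2.trans (h3.trans ?_)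
  rw [← Real.exp_nat_mul]
  refine Real.exp_le_exp.2 ?_
  have hL' : (0:ℝ) < L := by exact_mod_cast hL
  have h4 : (n : ℝ) / L < ((n / L : ℕ) : ℝ) + 1 := by
    rw [div_lt_iff₀ hL']
    have := Nat.lt_div_mul_add (a := n) (b := L) (by omega)
    have h5 : (n : ℝ) < ((n / L : ℕ) : ℝ) * L + L := by exact_mod_cast this
    linarith
  have h6 : θ * n / L = θ * ((n : ℝ) / L) := by ring
  rw [h6]
  nlinarith [mul_le_mul_of_nonneg_left h4.le hθ]

/-- **(A6), general form**: if `S_K ≤ Δ_K (K+1) B` and `B ≥ 0`, `K ≥ 1`, then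
`ζ h ≤ exp (1 - h / (2K (1+B)))` for all `h`. -/
theorem decay (h : Contr α αc u uc ζ) {K : ℕ} (hK : 1 ≤ K) {B : ℝ} (hB : 0 ≤ B)
    (hS : ∑ r ∈ range (K + 1), u r ≤ Del α αc K * (K + 1) * B) (n : ℕ) :
    ζ n ≤ Real.exp (1 - n / (2 * K * (1 + B))) := by
  set S := ∑ r ∈ range (K + 1), u r with hSdef
  have h1 := h.contr1 K
  rw [← hSdef] at h1
  have hu1 : u 0 = 1 := by have := h.hid 0; simpa using this
  have hS1 : 1 ≤ S := by
    rw [hSdef, ← hu1]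
    exact Finset.single_le_sum (f := fun r => u r) (fun r _ => h.u0 r) (by simp)
  have hD := h.Del_nonneg K
  -- ζ (2K) ≤ B/(1+B) = 1 - 1/(1+B)
  have hB1 : 0 < 1 + B := by linarith
  have h2 : ζ (2 * K) ≤ 1 - 1 / (1 + B) := by
    have hX : 0 < S + Del α αc K * (K + 1) := by positivity
    have h3 : ζ (2 * K) ≤ S / (S + Del α αc K * (K + 1)) := by
      rw [le_div_iff₀ hX]; exact h1
    refine h3.trans ?_
    rw [div_le_iff₀ hX]
    have h5 : 1 - 1 / (1 + B) = B / (1 + B) := by field_simp; ring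
    rw [h5, div_mul_eq_mul_div, le_div_iff₀ hB1]
    nlinarith
  have h6 := h.ζ_exp (L := 2 * K) (by omega) (θ := 1 / (1 + B)) (by positivity) h2 n
  refine h6.trans (Real.exp_le_exp.2 ?_)
  have h7 : 1 / (1 + B) ≤ 1 := by rw [div_le_one hB1]; linarith
  have hK' : (0:ℝ) < K := by exact_mod_cast hK
  have h8 : 1 / (1 + B) * (n : ℝ) / ((2 * K : ℕ) : ℝ) = n / (2 * K * (1 + B)) := by
    push_cast
    field_simp
  rw [h8]
  linarith

/-- **(A6), final form**: with `S_{AN} ≤ C (A N)^{3/4}` and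
`Δ_{AN} ≥ c N^{-1/4} / ℓ`, `ℓ ≥ 1` (e.g. `ℓ = 1 + log² N`): for ALL `n`,
`ζ n ≤ exp (1 - n / (2 A (1 + C/c) N ℓ))`. -/
theorem decay_log (h : Contr α αc u uc ζ) {A N : ℕ} (hA : 1 ≤ A) (hN : 1 ≤ N)
    {C c ℓ : ℝ} (hC : 0 ≤ C) (hc : 0 < c) (hℓ : 1 ≤ ℓ)
    (hS : ∑ r ∈ range (A * N + 1), u r ≤ C * ((A * N : ℕ) : ℝ) ^ (3 / 4 : ℝ))
    (hD : c * (N : ℝ) ^ (-(1 / 4) : ℝ) / ℓ ≤ Del α αc (A * N)) (n : ℕ) :
    ζ n ≤ Real.exp (1 - n / (2 * A * (1 + C / c) * N * ℓ)) := by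
  have hA' : (1:ℝ) ≤ A := by exact_mod_cast hA
  have hN' : (1:ℝ) ≤ N := by exact_mod_cast hN
  have hK : 1 ≤ A * N := Nat.one_le_iff_ne_zero.2 (by positivity)
  have hℓ0 : 0 < ℓ := by linarith
  have hB : 0 ≤ C / c * ℓ := by positivity
  have hKr : ((A * N : ℕ) : ℝ) = (A : ℝ) * N := by push_cast; ring
  have hA34 : (A : ℝ) ^ (3 / 4 : ℝ) ≤ A := by
    calc (A : ℝ) ^ (3 / 4 : ℝ) ≤ (A : ℝ) ^ (1 : ℝ) :=
          Real.rpow_le_rpow_of_exponent_le hA' (by norm_num)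
      _ = A := Real.rpow_one _
  have hN34 : (N : ℝ) ^ (-(1 / 4) : ℝ) * N = (N : ℝ) ^ (3 / 4 : ℝ) := by
    nth_rw 2 [← Real.rpow_one (N : ℝ)]
    rw [← Real.rpow_add (by linarith)]
    norm_num
  have hS' : ∑ r ∈ range (A * N + 1), u r
      ≤ Del α αc (A * N) * (((A * N : ℕ) : ℝ) + 1) * (C / c * ℓ) := by
    refine hS.trans ?_
    have h1 : c * (N : ℝ) ^ (-(1 / 4) : ℝ) / ℓ * (((A * N : ℕ) : ℝ) + 1) * (C / c * ℓ)
        ≤ Del α αc (A * N) * (((A * N : ℕ) : ℝ) + 1) * (C / c * ℓ) := by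
      gcongr
    refine le_trans ?_ h1
    have h2 : c * (N : ℝ) ^ (-(1 / 4) : ℝ) / ℓ * (((A * N : ℕ) : ℝ) + 1) * (C / c * ℓ)
        = C * ((N : ℝ) ^ (-(1 / 4) : ℝ) * (((A * N : ℕ) : ℝ) + 1)) := by
      field_simp
    rw [h2]
    refine mul_le_mul_of_nonneg_left ?_ hC
    rw [hKr, Real.mul_rpow (by linarith) (by linarith)]
    have h3 : 0 ≤ (N : ℝ) ^ (-(1 / 4) : ℝ) := by positivity
    have h4 : 0 ≤ (N : ℝ) ^ (3 / 4 : ℝ) := by positivity
    calc (A : ℝ) ^ (3 / 4 : ℝ) * (N : ℝ) ^ (3 / 4 : ℝ)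
        ≤ A * (N : ℝ) ^ (3 / 4 : ℝ) := mul_le_mul_of_nonneg_right hA34 h4
      _ = (N : ℝ) ^ (-(1 / 4) : ℝ) * (A * N) := by rw [← hN34]; ring
      _ ≤ (N : ℝ) ^ (-(1 / 4) : ℝ) * (A * N + 1) := by
          refine mul_le_mul_of_nonneg_left ?_ h3
          linarith
  refine (h.decay hK hB hS' n).trans (Real.exp_le_exp.2 ?_)
  have h5 : (n : ℝ) / (2 * A * (1 + C / c) * N * ℓ)
      ≤ n / (2 * ((A * N : ℕ) : ℝ) * (1 + C / c * ℓ)) := by
    refine div_le_div_of_nonneg_left (by positivity) (by positivity) ?_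
    rw [hKr]
    have hCc : 0 ≤ C / c := by positivity
    have h6 : 1 + C / c * ℓ ≤ (1 + C / c) * ℓ := by nlinarith
    calc 2 * ((A : ℝ) * N) * (1 + C / c * ℓ)
        ≤ 2 * ((A : ℝ) * N) * ((1 + C / c) * ℓ) := by gcongr
      _ = 2 * A * (1 + C / c) * N * ℓ := by ring
  linarith

/-- `Contr` from the CUMULATIVE masses `F` (arcs of `g` rings in the plane), `Fc` (the same on the
cylinder), with the constant `k = cos (3π/8)`. -/
theorem of_cum {F Fc u uc ζ : ℕ → ℝ} {k : ℝ} (hk : 0 ≤ k) (F0 : F 0 = 0)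
    (hm : ∀ g, Fc g ≤ Fc (g + 1)) (hst : ∀ g, Fc (g + 1) - Fc g ≤ F (g + 1) - F g)
    (hu0 : ∀ H, 0 ≤ u H) (hul : ∀ H, uc H ≤ u H) (hid : ∀ H, k * F H + u H = 1)
    (h0 : ζ 0 = 1) (hn : ∀ H, 0 ≤ ζ H) (ha : Antitone ζ)
    (hmul : ∀ H H', ζ (H + H') ≤ ζ H * ζ H')
    (hc : ∀ H, ζ H ≤ ∑ i ∈ range H, k * (Fc (i + 1) - Fc i) * ζ (H - (i + 1)) + uc H) :
    Contr (fun g => k * (F g - F (g - 1))) (fun g => k * (Fc g - Fc (g - 1))) u uc ζ where
  αc0 := fun g => by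
    cases g with
    | zero => simp
    | succ g => exact mul_nonneg hk (sub_nonneg.2 (by simpa using hm g))
  αle := fun g => by
    cases g with
    | zero => simp
    | succ g => exact mul_le_mul_of_nonneg_left (by simpa using hst g) hk
  u0 := hu0
  ule := hul
  hid := fun H => by
    have h1 : ∑ i ∈ range H, k * (F (i + 1) - F (i + 1 - 1)) = k * F H := by
      rw [← Finset.mul_sum]
      congr 1
      have := Finset.sum_range_sub F H
      rw [F0, sub_zero] at this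
      simpa using this
    rw [h1]
    exact hid H
  ζ0 := h0
  ζn := hn
  ζa := ha
  ζm := hmul
  ζc := fun H => by simpa using hc H

theorem Del_cum {F Fc : ℕ → ℝ} {k : ℝ} (F0 : F 0 = Fc 0) (K : ℕ) :
    Del (fun g => k * (F g - F (g - 1))) (fun g => k * (Fc g - Fc (g - 1))) K
      = k * (F K - Fc K) := by
  unfold Del
  have h1 := Finset.sum_range_sub F K
  have h2 := Finset.sum_range_sub Fc K
  simp only [Nat.add_sub_cancel]
  rw [Finset.sum_sub_distrib, ← Finset.mul_sum, ← Finset.mul_sum, h1, h2, F0]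
  ring

/-- **(A6) in the form of the assembly**: everything in terms of the cumulative masses;
`fr K` = planar arcs of `K` rings with displacement `≥ N`. -/
theorem decay_cum {F Fc u uc ζ : ℕ → ℝ} {k : ℝ} (hk : 0 < k) (F0 : F 0 = 0) (Fc0 : Fc 0 = 0)
    (hm : ∀ g, Fc g ≤ Fc (g + 1)) (hst : ∀ g, Fc (g + 1) - Fc g ≤ F (g + 1) - F g)
    (hu0 : ∀ H, 0 ≤ u H) (hul : ∀ H, uc H ≤ u H) (hid : ∀ H, k * F H + u H = 1)
    (h0 : ζ 0 = 1) (hn : ∀ H, 0 ≤ ζ H) (ha : Antitone ζ)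
    (hmul : ∀ H H', ζ (H + H') ≤ ζ H * ζ H')
    (hc : ∀ H, ζ H ≤ ∑ i ∈ range H, k * (Fc (i + 1) - Fc i) * ζ (H - (i + 1)) + uc H)
    {fr : ℕ → ℝ} (hfr : ∀ K, Fc K + fr K ≤ F K)
    {A N : ℕ} (hA : 1 ≤ A) (hN : 1 ≤ N) {C c ℓ : ℝ} (hC : 0 ≤ C) (hcc : 0 < c) (hℓ : 1 ≤ ℓ)
    (hS : ∑ r ∈ range (A * N + 1), u r ≤ C * ((A * N : ℕ) : ℝ) ^ (3 / 4 : ℝ))
    (hD : c * (N : ℝ) ^ (-(1 / 4) : ℝ) / ℓ ≤ fr (A * N)) (n : ℕ) :
    ζ n ≤ Real.exp (1 - n / (2 * A * (1 + C / (k * c)) * N * ℓ)) := by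
  refine (of_cum hk.le F0 hm hst hu0 hul hid h0 hn ha hmul hc).decay_log hA hN hC
    (mul_pos hk hcc) hℓ hS ?_ n
  rw [Del_cum (by rw [F0, Fc0])]
  have h1 := hfr (A * N)
  have h2 : k * (c * (N : ℝ) ^ (-(1 / 4) : ℝ) / ℓ) ≤ k * (F (A * N) - Fc (A * N)) :=
    mul_le_mul_of_nonneg_left (by linarith) hk.le
  refine le_trans (le_of_eq ?_) h2
  ring

end Contr

end Pool.Agent.GLD
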