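import Pool.Agent.GLD.Ax0
import Pool.Agent.GLD.Seq
import Pool.Agent.GLD.DelLow

/-!
# GLd, Ax, part 1: exponential decay of the bridges of the cylinder from the inputs
-/

set_option autoImplicit false

namespace Pool.Agent.GLD

open Pool.Agent.NUF.Cyl HexObs HexObs.LP Finset

theorem strip_zero (v0 : Pt) : strip v0 ax 0 = ∅ := by
  rw [Set.eq_empty_iff_forall_notMem]
  rintro v ⟨h1, h2, h3⟩
  have h4 := hex_level ax_mem h1
  push_cast at h3
  omega

theorem saw_empty {v0 : Pt} {t : List Bool} (h : Saw (∅ : Set Pt) v0 ax t) : t = [] := by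
  rcases Nat.eq_zero_or_pos t.length with h1 | h1
  · exact List.length_eq_zero_iff.1 h1
  · exact absurd (h.mem 1 le_rfl h1) (Set.notMem_empty _)

theorem arcP_zero : arcP 0 = 0 := by
  unfold arcP
  have : out (strip (ft 0 0).1 ax 0) (ft 0 0).1 ax (-ax) = ∅ := by
    rw [Set.eq_empty_iff_forall_notMem, strip_zero]
    rintro t ⟨h1, -, h3⟩
    rw [saw_empty h1] at h3
    exact absurd h3 (by decide)
  rw [this]
  simp [gf]

theorem brP_zero : brP 0 = 1 := by
  unfold brP
  have : out (strip (ft 0 0).1 ax 0) (ft 0 0).1 ax ax = {[]} := by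
    rw [strip_zero]
    ext t
    rw [Set.mem_singleton_iff]
    constructor
    · rintro ⟨h1, -, -⟩
      exact saw_empty h1
    · rintro rfl
      refine ⟨⟨fun i h1 h2 => ?_, fun i k h1 h2 => ?_⟩, Set.notMem_empty _, rfl⟩
      · simp at h2
        omega
      · simp at h2
        omega
  rw [this]
  have h2 : gf ({[]} : Set (List Bool)) = 1 := by
    have h3 := gf_finset {([] : List Bool)}
    rw [Finset.coe_singleton, Finset.sum_singleton, List.length_nil, pow_zero, ENNReal.ofReal_one] at h3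
    exact h3
  rw [h2, ENNReal.toReal_one]

theorem cos3_pos : 0 < Real.cos (3 * Real.pi / 8) := by
  apply Real.cos_pos_of_mem_Ioo
  constructor <;> linarith [Real.pi_pos]

/-- the planar identity. -/
theorem strip_id (H : ℕ) : Real.cos (3 * Real.pi / 8) * arcP H + brP H = 1 := by
  rcases Nat.eq_zero_or_pos H with rfl | hH
  · rw [arcP_zero, brP_zero]
    ring
  · have h1 := strip_identity (v0 := (ft 0 0).1) ax_mem (T := H) hH
    have h2 : gf (out (strip (ft 0 0).1 ax H) (ft 0 0).1 ax ax) ≠ ⊤ := by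
      intro h
      rw [h, top_add] at h1
      exact absurd h1 (by simp)
    have h3 : ENNReal.ofReal (Real.cos (3 * Real.pi / 8)) *
        gf (out (strip (ft 0 0).1 ax H) (ft 0 0).1 ax (-ax)) ≠ ⊤ := by
      intro h
      rw [h, add_top] at h1
      exact absurd h1 (by simp)
    have h4 := congrArg ENNReal.toReal h1
    rw [ENNReal.toReal_add h2 h3, ENNReal.toReal_mul, ENNReal.toReal_ofReal cos3_pos.le, ENNReal.toReal_one] at h4
    unfold arcP brP
    linarith

/-- the comparison with the plane. -/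
structure PlIn (N : ℕ) (hN : 1 ≤ N) : Prop where
  arc : ∀ g : ℕ, arcM N hN g + farP g N ≤ arcP g
  br : ∀ H : ℕ, brM N hN H ≤ brP H
  step : ∀ g : ℕ, arcM N hN (g + 1) - arcM N hN g ≤ arcP (g + 1) - arcP g

/-- **exponential decay on the cylinder.** -/
theorem ze_dec (hA : ∀ (N : ℕ) (hN : 1 ≤ N), 2 ≤ N → AxIn N hN) (hP : ∀ (N : ℕ) (hN : 1 ≤ N), 2 ≤ N → PlIn N hN) :
    ∃ c : ℝ, 0 < c ∧ ∃ N0 : ℕ, ∀ (N : ℕ) (hN : 1 ≤ N), N0 ≤ N → ∀ h : ℕ,
      ze N hN h ≤ Real.exp (1 - c * h / (N * Real.log N ^ 2)) := by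
  obtain ⟨K, N0, c, hc, hK, hdel⟩ := del_low
  obtain ⟨C, hC, hsum⟩ := brP_sum
  have hcos := cos3_pos
  refine ⟨1 / (2 * K * (1 + C / (Real.cos (3 * Real.pi / 8) * c))), ?_, max N0 3, fun N hN hN0 h => ?_⟩
  · have : (0 : ℝ) < K := by exact_mod_cast hK
    positivity
  · have hN3 : 3 ≤ N := (le_max_right _ _).trans hN0
    have hA' := hA N hN (by omega)
    have hP' := hP N hN (by omega)
    have hlog : 1 ≤ Real.log N := by
      have h1 : Real.exp 1 ≤ (N : ℝ) := by
        have h2 := Real.exp_one_lt_d9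
        have h3 : (3 : ℝ) ≤ N := by exact_mod_cast hN3
        linarith
      have h4 := Real.log_le_log (Real.exp_pos 1) h1
      rwa [Real.log_exp] at h4
    have hl2 : 1 ≤ Real.log N ^ 2 := one_le_pow₀ hlog
    have key := Contr.decay_cum (F := arcP) (Fc := arcM N hN) (u := brP) (uc := brM N hN) (ζ := ze N hN)
      (k := Real.cos (3 * Real.pi / 8)) hcos arcP_zero arcM_zero arcM_mono hP'.step
      (fun H => ENNReal.toReal_nonneg) hP'.br strip_id hA'.ze_zero (fun H => (hA'.pos_ze H).le)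
      hA'.ze_anti hA'.ze_mul hA'.rec_le (fr := fun g => farP g N) hP'.arc (A := K) (N := N) hK hN hC.le hc hl2
      (hsum (K * N) (Nat.mul_pos hK hN)) (hdel N ((le_max_left _ _).trans hN0)) h
    refine key.trans (le_of_eq ?_)
    congr 2
    have hNp : (0 : ℝ) < N := by exact_mod_cast hN
    have hKp : (0 : ℝ) < K := by exact_mod_cast hK
    field_simp

/-- **the bridges of the cylinder.** -/
theorem ax_dec_of (hA : ∀ (N : ℕ) (hN : 1 ≤ N), 2 ≤ N → AxIn N hN)
    (hP : ∀ (N : ℕ) (hN : 1 ≤ N), 2 ≤ N → PlIn N hN) :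
    ∃ c : ℝ, 0 < c ∧ ∃ N0 : ℕ, ∀ (N : ℕ) (hN : 1 ≤ N), N0 ≤ N → ∀ h : ℕ,
      brM N hN h ≤ Real.exp (1 - c * h / (N * Real.log N ^ 2)) := by
  obtain ⟨c, hc, N0, h⟩ := ze_dec hA hP
  refine ⟨c, hc, max N0 2, fun N hN hN0 H => ?_⟩
  exact ((hA N hN ((le_max_right _ _).trans hN0)).br_le H).trans (h N hN ((le_max_left _ _).trans hN0) H)

end Pool.Agent.GLD
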