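import Pool.Agent.GLD.Defs
import Pool.Agent.HexObs.Rot

/-!
# GLd: the planar masses of the strip along the axis (arcs, bridges, arcs of large displacement)
-/

set_option autoImplicit false

namespace Pool.Agent.GLD

open HexObs

/-- planar arcs in at most `g` rings. -/
noncomputable def arcP (g : ℕ) : ℝ := (gf (out (strip (ft 0 0).1 ax g) (ft 0 0).1 ax (-ax))).toReal

/-- planar bridges of height `H` rings. -/
noncomputable def brP (H : ℕ) : ℝ := (gf (out (strip (ft 0 0).1 ax H) (ft 0 0).1 ax ax)).toReal

/-- planar arcs in at most `g` rings with displacement at least `n`. -/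
noncomputable def farP (g n : ℕ) : ℝ :=
  (gf {t | t ∈ out (strip (ft 0 0).1 ax g) (ft 0 0).1 ax (-ax) ∧
    (n : ℤ) ≤ |(tip (ft 0 0).1 ax t).1 - (ft 0 0).1.1|}).toReal

theorem brP_eq (H : ℕ) : brP H = (BT H).toReal := by
  unfold brP
  rw [gf_B (by decide)]

theorem arcP_eq (H : ℕ) : arcP H = (AT H).toReal := by
  unfold arcP
  rw [gf_A (by decide)]

end Pool.Agent.GLD
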