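import Pool.Agent.GLD.Cross
import Pool.Agent.GLD.PDefs

/-!
# The masses of the cylinder and of the plane (doc glink/GLD_STUBS, A5, second part)
-/

set_option autoImplicit false

namespace Pool.Agent.GLD

open Pool.Agent.NUF.Cyl HexObs HexObs.LP

variable {N : ℕ} {hN : 1 ≤ N}

namespace Crs

theorem mem_strip (v0 v : Pt) (g : ℕ) : v ∈ strip v0 ax g ↔ IsHex v0 ax v ∧ 0 < lev v - lev v0 ∧
    lev v - lev v0 < 3 * g + 2 := by
  unfold strip
  have h : ip (v - v0) ax = lev v - lev v0 := ip_col v v0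
  rw [Set.mem_ofPred_eq, h]

/-- a word of the cylinder is a word of the plane. -/
theorem sub_out {g : ℕ} {t : List Bool} (ht : t ∈ exC (Cy N hN) (rg N 0 g) (ft 0 0)) :
    t ∈ out (strip (ft 0 0).1 ax g) (ft 0 0).1 ax (dx ax t t.length) := by
  unfold exC at ht
  rw [Finset.mem_filter, Nm.mem_arr] at ht
  obtain ⟨h1, h2⟩ := ht
  have e : (Cy N hN).nb ((Cy N hN).le (ft 0 0) t) = (Cy N hN).nm (tip (ft 0 0).1 ax t) := by
    unfold Nm.nb Nm.le
    simp only
    rw [(Cy N hN).add]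
    rfl
  have hl0 : lev (ft 0 0).1 = -3 := ft_lev 0 0
  have hin : ∀ i, 1 ≤ i → i ≤ t.length → -1 ≤ lev (vx (ft 0 0).1 ax t i) ∧ lev (vx (ft 0 0).1 ax t i) ≤ 3 * g - 3 := by
    intro i hi1 hi2
    have h3 := (nm_rg (hN := hN) (vx_vt 0 0 t i)).1 (h1.mem i hi1 hi2)
    omega
  refine ⟨⟨?_, ?_⟩, ?_, rfl⟩
  · intro i hi1 hi2
    have h3 := hin i hi1 hi2
    rw [mem_strip, hl0]
    refine ⟨vx_hex _ _ _ _, ?_, ?_⟩ <;> omega
  · intro i k hik hk e'
    rcases Nat.eq_zero_or_pos i with h0 | h0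
    · rw [h0] at e'
      have h3 := (hin k (by omega) hk).1
      rw [← e'] at h3
      have h4 : lev (vx (ft 0 0).1 ax t 0) = -3 := hl0
      omega
    · exact h1.inj i k h0 hik hk (congrArg _ e')
  · intro h3
    rw [mem_strip, hl0] at h3
    rw [e] at h2
    apply h2
    have h4 := (nm_rg (hN := hN) (a := 0) (b := g) (vx_vt 0 0 t (t.length + 1))).2
    refine h4 ?_
    have h5 := vx_mod 0 0 t (t.length + 1)
    have h6 := h3.2
    change 0 < lev (vx (ft 0 0).1 ax t (t.length + 1)) - -3 ∧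
      lev (vx (ft 0 0).1 ax t (t.length + 1)) - -3 < 3 * g + 2 at h6
    split_ifs at h5 <;> omega

theorem mem_arcS {g : ℕ} {t : List Bool} : t ∈ arcS N hN g ↔ t ∈ exC (Cy N hN) (rg N 0 g) (ft 0 0) ∧
    dx ax t t.length = -ax := by
  unfold arcS
  rw [Finset.mem_filter]

theorem mem_brS {g : ℕ} {t : List Bool} : t ∈ brS N hN g ↔ t ∈ exC (Cy N hN) (rg N 0 g) (ft 0 0) ∧
    dx ax t t.length = ax := by
  unfold brS
  rw [Finset.mem_filter]

theorem arcS_sub (g : ℕ) : (arcS N hN g : Set (List Bool)) ⊆ out (strip (ft 0 0).1 ax g) (ft 0 0).1 ax (-ax) := by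
  intro t ht
  rw [Finset.mem_coe, mem_arcS] at ht
  have h := sub_out ht.1
  rwa [ht.2] at h

theorem brS_sub (g : ℕ) : (brS N hN g : Set (List Bool)) ⊆ out (strip (ft 0 0).1 ax g) (ft 0 0).1 ax ax := by
  intro t ht
  rw [Finset.mem_coe, mem_brS] at ht
  have h := sub_out ht.1
  rwa [ht.2] at h

theorem out_zero {e : Pt} : out (strip (ft 0 0).1 ax 0) (ft 0 0).1 ax e ⊆ (({[]} : Finset (List Bool)) : Set (List Bool)) := by
  rintro t ⟨h1, -, -⟩
  rw [Finset.mem_coe, Finset.mem_singleton]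
  rcases Nat.eq_zero_or_pos t.length with h2 | h2
  · exact List.length_eq_zero_iff.1 h2
  · exfalso
    have h3 := h1.mem 1 le_rfl h2
    rw [mem_strip] at h3
    have h4 : vx (ft 0 0).1 ax t 1 = (ft 0 0).1 + ax := rfl
    have h5 : lev ((ft 0 0).1 + ax) = lev (ft 0 0).1 + 2 := by
      simp only [lev, ax, Prod.fst_add, Prod.snd_add]
      ring
    rw [h4, h5] at h3
    have h6 := h3.2.2
    push_cast at h6
    omega

theorem out_fin (g : ℕ) : gf (out (strip (ft 0 0).1 ax g) (ft 0 0).1 ax (-ax)) ≠ ⊤ ∧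
    gf (out (strip (ft 0 0).1 ax g) (ft 0 0).1 ax ax) ≠ ⊤ := by
  rcases Nat.eq_zero_or_pos g with h | h
  · subst h
    have h1 : ∀ e : Pt, gf (out (strip (ft 0 0).1 ax 0) (ft 0 0).1 ax e) ≠ ⊤ := fun e => by
      refine ne_top_of_le_ne_top ?_ (gf_mono out_zero)
      rw [gf_finset]
      exact ENNReal.ofReal_ne_top
    exact ⟨h1 _, h1 _⟩
  · rw [gf_A ax_mem, gf_B ax_mem]
    exact ⟨AT_ne_top h, BT_ne_top h⟩

theorem real_add {S : Finset (List Bool)} {P Q : Set (List Bool)} (hd : Disjoint (S : Set (List Bool)) P)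
    (hS : (S : Set (List Bool)) ⊆ Q) (hP : P ⊆ Q) (hQ : gf Q ≠ ⊤) :
    ∑ t ∈ S, xc ^ t.length + (gf P).toReal ≤ (gf Q).toReal := by
  have h1 : ENNReal.ofReal (∑ t ∈ S, xc ^ t.length) + gf P ≤ gf Q := by
    rw [← gf_finset, ← gf_union hd]
    exact gf_mono (Set.union_subset hS hP)
  have h2 : gf P ≠ ⊤ := ne_top_of_le_ne_top hQ (gf_mono hP)
  have h3 := ENNReal.toReal_mono hQ h1
  rwa [ENNReal.toReal_add ENNReal.ofReal_ne_top h2,
    ENNReal.toReal_ofReal (Finset.sum_nonneg fun _ _ => pow_nonneg xc_pos.le _)] at h3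

end Crs

open Crs

/-- **A5.** The arcs of the cylinder are arcs of the plane with displacement less than `N`. -/
theorem arcM_le (g : ℕ) : arcM N hN g + farP g N ≤ arcP g := by
  refine real_add ?_ (arcS_sub g) (fun t ht => ht.1) (out_fin g).1
  rw [Set.disjoint_left]
  rintro t ht ⟨-, h2⟩
  rw [Finset.mem_coe, mem_arcS] at ht
  exact absurd (arc_short ht.1 ht.2) (not_lt.2 h2)

/-- **A5.** -/
theorem brM_le (H : ℕ) : brM N hN H ≤ brP H := by
  have h := real_add (S := brS N hN H) (P := ∅) (Set.disjoint_empty _) (brS_sub H) (Set.empty_subset _)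
    (out_fin H).2
  have h1 : 0 ≤ (gf (∅ : Set (List Bool))).toReal := ENNReal.toReal_nonneg
  unfold brM brP
  linarith

/-- the arcs in at most `g` rings are arcs in at most `g + 1` rings. -/
theorem Crs.arcS_succ (g : ℕ) : arcS N hN g ⊆ arcS N hN (g + 1) := by
  intro t ht
  rw [mem_arcS] at ht ⊢
  obtain ⟨h1, h2⟩ := ht
  refine ⟨?_, h2⟩
  have htip := (tip_down h1 h2).1
  unfold exC at h1 ⊢
  rw [Finset.mem_filter, Nm.mem_arr] at h1 ⊢
  obtain ⟨h3, h4⟩ := h1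
  have e : (Cy N hN).nb ((Cy N hN).le (ft 0 0) t) = (Cy N hN).nm (vx (ft 0 0).1 ax t (t.length + 1)) := by
    unfold Nm.nb Nm.le
    simp only
    rw [(Cy N hN).add]
    rfl
  refine ⟨⟨fun i hi hk => ?_, h3.inj⟩, ?_⟩
  · have h5 := (nm_rg (hN := hN) (vx_vt 0 0 t i)).1 (h3.mem i hi hk)
    refine (nm_rg (hN := hN) (vx_vt 0 0 t i)).2 ?_
    push_cast
    omega
  · rw [e, nm_rg (vx_vt 0 0 t _)]
    change ¬ (3 * (0 : ℤ) - 1 ≤ lev (tip (ft 0 0).1 ax t) ∧ _)
    rw [htip]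
    omega

theorem Crs.out_succ (g : ℕ) : out (strip (ft 0 0).1 ax g) (ft 0 0).1 ax (-ax) ⊆
    out (strip (ft 0 0).1 ax (g + 1)) (ft 0 0).1 ax (-ax) := by
  rintro t ⟨⟨h1, h2⟩, h3, h4⟩
  have hlen : 1 ≤ t.length := by
    rcases t with _ | ⟨b0, t⟩
    · exact absurd (h4 : ax = -ax) (by decide)
    · simp
  have hl : lev (tip (ft 0 0).1 ax t) = lev (vx (ft 0 0).1 ax t t.length) - 2 := by
    show lev (vx (ft 0 0).1 ax t t.length + dx ax t t.length) = _
    rw [h4]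
    simp only [lev, ax, Prod.fst_add, Prod.snd_add, Prod.fst_neg, Prod.snd_neg]
    ring
  have h5 := h1 t.length hlen le_rfl
  rw [mem_strip] at h3 h5
  refine ⟨⟨fun i hi hk => ?_, h2⟩, ?_, h4⟩
  · have h6 := h1 i hi hk
    rw [mem_strip] at h6 ⊢
    obtain ⟨h7, h8, h9⟩ := h6
    refine ⟨h7, h8, ?_⟩
    push_cast
    omega
  · rw [mem_strip]
    rintro ⟨h7, h8, -⟩
    apply h3
    obtain ⟨-, -, h9⟩ := h5
    exact ⟨h7, h8, by omega⟩

/-- **A5.** The increments of the arcs. -/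
theorem arc_step (g : ℕ) : arcM N hN g ≤ arcM N hN (g + 1) ∧
    arcM N hN (g + 1) - arcM N hN g ≤ arcP (g + 1) - arcP g := by
  classical
  have h0 : arcM N hN (g + 1) - arcM N hN g = ∑ t ∈ arcS N hN (g + 1) \ arcS N hN g, xc ^ t.length := by
    unfold arcM
    rw [← Finset.sum_sdiff (arcS_succ (hN := hN) g)]
    ring
  constructor
  · have h1 : 0 ≤ ∑ t ∈ arcS N hN (g + 1) \ arcS N hN g, xc ^ t.length :=
      Finset.sum_nonneg fun t _ => pow_nonneg xc_pos.le _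
    linarith
  · have h := real_add (S := arcS N hN (g + 1) \ arcS N hN g)
      (P := out (strip (ft 0 0).1 ax g) (ft 0 0).1 ax (-ax))
      (Q := out (strip (ft 0 0).1 ax (g + 1)) (ft 0 0).1 ax (-ax)) ?_ ?_ (out_succ g) (out_fin (g + 1)).1
    · rw [h0]
      unfold arcP
      linarith
    · rw [Set.disjoint_left]
      intro t ht h2
      rw [Finset.mem_coe, Finset.mem_sdiff] at ht
      apply ht.2
      have h3 := ht.1
      rw [mem_arcS] at h3 ⊢
      refine ⟨?_, h3.2⟩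
      have htip := (tip_down h3.1 h3.2).1
      have h4 := h3.1
      unfold exC at h4 ⊢
      rw [Finset.mem_filter, Nm.mem_arr] at h4 ⊢
      obtain ⟨h5, -⟩ := h4
      have e : (Cy N hN).nb ((Cy N hN).le (ft 0 0) t) = (Cy N hN).nm (vx (ft 0 0).1 ax t (t.length + 1)) := by
        unfold Nm.nb Nm.le
        simp only
        rw [(Cy N hN).add]
        rfl
      refine ⟨⟨fun i hi hk => ?_, h5.inj⟩, ?_⟩
      · have h6 := h2.1.mem i hi hk
        rw [mem_strip] at h6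
        have h7 : lev (ft 0 0).1 = -3 := ft_lev 0 0
        have h8 := vx_mod 0 0 t i
        refine (nm_rg (hN := hN) (vx_vt 0 0 t i)).2 ?_
        obtain ⟨-, h9, h10⟩ := h6
        rw [h7] at h9 h10
        split_ifs at h8 <;> omega
      · rw [e, nm_rg (vx_vt 0 0 t _)]
        change ¬ (3 * (0 : ℤ) - 1 ≤ lev (tip (ft 0 0).1 ax t) ∧ _)
        rw [htip]
        omega
    · intro t ht
      rw [Finset.mem_coe, Finset.mem_sdiff] at ht
      exact arcS_sub (hN := hN) (g + 1) ht.1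

end Pool.Agent.GLD
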