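import Pool.Agent.GLD.FluxB

/-!
# GLd, module A3: the exact flux identity of the cylinder with the gas of winding polygons at `-√2`
-/

set_option autoImplicit false

namespace Pool.Agent.GLD

open Pool.Agent.NUF.Cyl HexObs HexObs.LP Finset

section

variable {C : Nm}

/-- the sum of the turns after the first one. -/
theorem wind_s (hC : Per C) {A : Finset Pt} {p : Pt × Pt} (hp : C.De p) (hl : ∀ v ∈ A, lev p.1 < lev v)
    {t : List Bool} (ht : t ∈ exteC C A p) {b c : Bool} {s : List Bool} (h : C.Clo (qd C p t b) (s ++ [c]))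
    (hs : VE (C.cE (qd C p t b) (s ++ [c])) ⊆ A \ C.vt p t) :
    (Wnd (C.cE (qd C p t b) (s ++ [c])) → wind s = sgn b) ∧
    (¬ Wnd (C.cE (qd C p t b) (s ++ [c])) → wind s = -5 * sgn b) := by
  have hc := last_turn hp hl h hs
  subst hc
  constructor
  · intro hw
    rw [wnd_iff h] at hw
    have h1 := wind_clo hC h hw
    rw [wind_append, wind_cons, sgn_not] at h1
    have h2 : wind ([] : List Bool) = 0 := rfl
    rw [h2] at h1
    omega
  · intro hw
    rw [wnd_iff h, not_not] at hw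
    have hq := De_qd hp t b
    obtain ⟨hb, hb2, -⟩ := back_of_clo hp ht h hs
    obtain ⟨harr, -⟩ := mem_backC.1 hb
    set t' := t ++ b :: s with ht'
    have hlen : t'.length = t.length + 1 + s.length := by
      rw [ht']
      simp
      omega
    -- the lifts
    have hvx : ∀ i, vx p.1 p.2 t' (t.length + 1 + i) = vx (tip p.1 p.2 t) (turn b (C.le p t).2) s i := by
      intro i
      have e1 : vx p.1 p.2 t' (t.length + 1 + i) =
          vs (vs p.1 p.2 (tf t') (t.length + 1)) (ds p.2 (tf t') (t.length + 1))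
            (fun k => tf t' (t.length + 1 + k)) i := vs_shift _ _ _ _ _
      have e2 : vs p.1 p.2 (tf t') (t.length + 1) = tip p.1 p.2 t := vx_append le_rfl
      have e3 : ds p.2 (tf t') (t.length + 1) = turn b (C.le p t).2 := by
        show turn (tf t' t.length) (ds p.2 (tf t') t.length) = _
        have a1 : tf t' t.length = b := by
          have := tf_append_right (t := t) (s := b :: s) 0
          rw [add_zero] at this
          rw [ht', this]
          rfl
        have a2 : ds p.2 (tf t') t.length = (C.le p t).2 := dx_append le_rfl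
        rw [a1, a2]
      rw [e1, e2, e3]
      unfold vx
      congr 1
      funext k
      have a3 := tf_append_right (t := t) (s := b :: s) (1 + k)
      rw [ht', add_assoc, a3, add_comm 1 k]
      rfl
    have htip : ∃ D, tip p.1 p.2 t = (qd C p t b).1 + D := by
      refine ⟨tip p.1 p.2 t - (qd C p t b).1, by abel⟩
    obtain ⟨D, hD⟩ := htip
    have hclosed : vs p.1 p.2 (tf t') (t'.length + 1) = vs p.1 p.2 (tf t') (t.length + 1) := by
      have e1 := hvx (s.length + 1)
      have e2 := hvx 0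
      rw [add_zero] at e2
      have e3 : t'.length + 1 = t.length + 1 + (s.length + 1) := by omega
      rw [e3]
      refine e1.trans (Eq.trans ?_ e2.symm)
      rw [hD, vx_trans, vx_trans]
      congr 1
      have e4 : vx (qd C p t b).1 (qd C p t b).2 s (s.length + 1) =
          vx (qd C p t b).1 (qd C p t b).2 (s ++ [!b]) (s ++ [!b]).length := by
        rw [List.length_append, List.length_singleton, vx_append le_rfl]
      exact e4.trans hw
    have hd : ∀ i k, i < k → k ≤ t'.length → vs p.1 p.2 (tf t') i ≠ vs p.1 p.2 (tf t') k := by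
      intro i k hik hk e
      rcases Nat.eq_zero_or_pos i with h0 | h0
      · subst h0
        have h6 := harr.mem k (by omega) hk
        have h7 := hl _ h6
        rw [hC.lv] at h7
        have e' : p.1 = vx p.1 p.2 t' k := e
        rw [← e'] at h7
        exact lt_irrefl _ h7
      · exact harr.inj i k h0 hik hk (congrArg C.nm e)
    have hhalf : ∀ i, 1 ≤ i → i ≤ t'.length → 0 < ip (vs p.1 p.2 (tf t') i - p.1) ax := by
      intro i h1 h2
      have h6 := harr.mem i h1 h2
      have h7 := hl _ h6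
      rw [hC.lv] at h7
      rw [ip_ax, lev_sub]
      exact sub_pos.2 h7
    have key := MXR.loop_turnN (τ := tf t') hp.1.1 (j := t.length + 1) (l := t'.length) (by omega) (by omega)
      hclosed hd ax hhalf
    have e5 : t'.length - (t.length + 1) = s.length := by omega
    rw [e5, Nat.add_sub_cancel] at key
    have e6 : tf t' t.length = b := by
      have := tf_append_right (t := t) (s := b :: s) 0
      rw [add_zero] at this
      rw [ht', this]
      rfl
    rw [e6] at key
    rw [wind_sum, ← key]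
    apply Finset.sum_congr rfl
    intro k _
    have a3 := tf_append_right (t := t) (s := b :: s) (1 + k)
    rw [ht', add_assoc, a3, add_comm 1 k]
    rfl

/-- the phase of a loop. -/
noncomputable def ph (b : Bool) (E : Finset (Pt × Pt)) : ℂ :=
  if Wnd E then Complex.exp (((2 * sgn b : ℤ) * (Real.pi / 8) : ℝ) * Complex.I)
  else Complex.exp (((-4 * sgn b : ℤ) * (Real.pi / 8) : ℝ) * Complex.I)

theorem wt_back (hC : Per C) {A : Finset Pt} {p : Pt × Pt} (hp : C.De p) (hl : ∀ v ∈ A, lev p.1 < lev v)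
    {t : List Bool} (ht : t ∈ exteC C A p) {b c : Bool} {s : List Bool} (h : C.Clo (qd C p t b) (s ++ [c]))
    (hs : VE (C.cE (qd C p t b) (s ++ [c])) ⊆ A \ C.vt p t) :
    wt (t ++ b :: s) = wt t * (ph b (C.cE (qd C p t b) (s ++ [c])) * (xc : ℂ) ^ (s ++ [c]).length) := by
  obtain ⟨h1, h2⟩ := wind_s hC hp hl ht h hs
  rw [wt_append]
  congr 1
  unfold wt ph
  rw [wind_cons, List.length_cons, List.length_append, List.length_singleton]
  congr 1
  split_ifs with hw
  · rw [h1 hw]
    congr 3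
    push_cast
    ring
  · rw [h2 hw]
    congr 3
    push_cast
    ring

/-- **the sum over the words that return.** -/
theorem sum_backC (hC : Per C) {A : Finset Pt} {p : Pt × Pt} (hp : C.De p) (hl : ∀ v ∈ A, lev p.1 < lev v)
    (z : Finset Pt → ℂ) :
    ∑ t ∈ backC C A p, wt t * z (A \ C.vt p t) =
      ∑ t ∈ exteC C A p, wt t * ∑ b : Bool, ∑ E ∈ C.thr (A \ C.vt p t) (qd C p t b),
        ph b E * (xc : ℂ) ^ E.card * z ((A \ C.vt p t) \ VE E) := by
  classical
  have e1 : ∀ t ∈ exteC C A p, wt t * ∑ b : Bool, ∑ E ∈ C.thr (A \ C.vt p t) (qd C p t b),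
        ph b E * (xc : ℂ) ^ E.card * z ((A \ C.vt p t) \ VE E) =
      ∑ b : Bool, ∑ r ∈ C.clo (A \ C.vt p t) (qd C p t b),
        wt (t ++ b :: r.dropLast) * z (A \ C.vt p (t ++ b :: r.dropLast)) := by
    intro t ht
    rw [Finset.mul_sum]
    refine Finset.sum_congr rfl fun b _ => ?_
    have hq := De_qd hp t b
    rw [Nm.clo_bij hq (fun r => wt (t ++ b :: r.dropLast) * z (A \ C.vt p (t ++ b :: r.dropLast)))
      (fun E => wt t * (ph b E * (xc : ℂ) ^ E.card * z ((A \ C.vt p t) \ VE E))), Finset.mul_sum]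
    intro r hr
    obtain ⟨h1, h2⟩ := (Nm.mem_clo' hq).1 hr
    have hne : r ≠ [] := by
      rintro rfl
      exact absurd h1.pos (by simp)
    have hr' : r = r.dropLast ++ [r.getLast hne] := (List.dropLast_append_getLast hne).symm
    have h3 := h1
    have h4 := h2
    rw [hr'] at h3 h4
    rw [wt_back hC hp hl ht h3 h4, (back_of_clo hp ht h3 h4).2.2, ← hr', h1.card]
    ring
  rw [Finset.sum_congr rfl e1, ← Finset.sum_product' (f := fun t b => ∑ r ∈ C.clo (A \ C.vt p t) (qd C p t b),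
        wt (t ++ b :: r.dropLast) * z (A \ C.vt p (t ++ b :: r.dropLast))),
    Finset.sum_sigma' (exteC C A p ×ˢ (Finset.univ : Finset Bool))
      (fun x => C.clo (A \ C.vt p x.1) (qd C p x.1 x.2))
      (fun x r => wt (x.1 ++ x.2 :: r.dropLast) * z (A \ C.vt p (x.1 ++ x.2 :: r.dropLast)))]
  symm
  refine Finset.sum_bij (fun x _ => x.1.1 ++ x.1.2 :: x.2.dropLast) ?_ ?_ ?_ ?_
  · rintro ⟨⟨t, b⟩, r⟩ hx
    rw [Finset.mem_sigma, Finset.mem_product] at hx
    obtain ⟨⟨ht, -⟩, hr⟩ := hx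
    simp only at ht hr ⊢
    have hq := De_qd hp t b
    obtain ⟨h1, h2⟩ := (Nm.mem_clo' hq).1 hr
    have hne : r ≠ [] := by
      rintro rfl
      exact absurd h1.pos (by simp)
    have hr' : r = r.dropLast ++ [r.getLast hne] := (List.dropLast_append_getLast hne).symm
    rw [hr'] at h1 h2
    exact (back_of_clo hp ht h1 h2).1
  · rintro ⟨⟨t, b⟩, r⟩ hx ⟨⟨t1, b1⟩, r1⟩ hx1 he
    rw [Finset.mem_sigma, Finset.mem_product] at hx hx1
    obtain ⟨⟨ht, -⟩, hr⟩ := hx
    obtain ⟨⟨ht1, -⟩, hr1⟩ := hx1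
    simp only at ht hr ht1 hr1 he
    have hq := De_qd hp t b
    have hq1 := De_qd hp t1 b1
    obtain ⟨h1, h2⟩ := (Nm.mem_clo' hq).1 hr
    obtain ⟨k1, k2⟩ := (Nm.mem_clo' hq1).1 hr1
    have hne : r ≠ [] := by
      rintro rfl
      exact absurd h1.pos (by simp)
    have hne1 : r1 ≠ [] := by
      rintro rfl
      exact absurd k1.pos (by simp)
    have hr' : r = r.dropLast ++ [r.getLast hne] := (List.dropLast_append_getLast hne).symm
    have hr1' : r1 = r1.dropLast ++ [r1.getLast hne1] := (List.dropLast_append_getLast hne1).symm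
    rw [hr'] at h1 h2
    rw [hr1'] at k1 k2
    obtain ⟨m1, m2, -⟩ := back_of_clo hp ht h1 h2
    obtain ⟨-, n2, -⟩ := back_of_clo hp ht1 k1 k2
    obtain ⟨a1, a2, a3⟩ := back_uniq m1 he m2 n2
    have c1 := last_turn hp hl h1 h2
    have c2 := last_turn hp hl k1 k2
    have a4 : r = r1 := by
      rw [hr', hr1', c1, c2, a2, a3]
    subst a1
    subst a2
    subst a4
    rfl
  · intro t' ht'
    obtain ⟨t, b, s, rfl, ht, hn⟩ := back_split hp ht'
    obtain ⟨c, h1, h2⟩ := clo_of_back hp hl ht' hn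
    refine ⟨⟨(t, b), s ++ [c]⟩, ?_, ?_⟩
    · rw [Finset.mem_sigma, Finset.mem_product]
      exact ⟨⟨ht, Finset.mem_univ _⟩, (Nm.mem_clo' (De_qd hp t b)).2 ⟨h1, h2⟩⟩
    · simp
  · intro x _
    rfl

/-! ### the reversal -/

theorem VE_crE {E : Finset (Pt × Pt)} (h : C.IsP E) : VE (crE C E) = VE E := by
  have key : ∀ {E : Finset (Pt × Pt)}, C.IsP E → VE (crE C E) ⊆ VE E := by
    intro E h v hv
    obtain ⟨d, hd⟩ := Nm.mem_VE.1 hv
    unfold crE at hd
    rw [Finset.mem_image] at hd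
    obtain ⟨q, hq, e⟩ := hd
    have e1 : C.nb q = v := congrArg Prod.fst e
    rw [← e1]
    exact h.VE_nb hq
  refine Finset.Subset.antisymm (key h) ?_
  have h1 := Nm.isP_iff.1 h
  have h2 := key (Nm.isP_iff.2 h1.rev)
  rw [crE_crE h1] at h2
  exact h2

theorem rv_inj {E : Finset (Pt × Pt)} (h : C.IsP E) : Set.InjOn C.rv (E : Set (Pt × Pt)) := by
  intro a ha b hb e
  rw [← Nm.rv_rv (h.de ha).2, e, Nm.rv_rv (h.de hb).2]

theorem card_crE {E : Finset (Pt × Pt)} (h : C.IsP E) : (crE C E).card = E.card :=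
  Finset.card_image_of_injOn (rv_inj h)

theorem wnd_crE {E : Finset (Pt × Pt)} (h : C.IsP E) : Wnd (crE C E) ↔ Wnd E := by
  unfold Wnd crE
  rw [Finset.sum_image (rv_inj h)]
  have e : ∑ q ∈ E, (C.rv q).2 = -∑ q ∈ E, q.2 := by
    rw [← Finset.sum_neg_distrib]
    rfl
  rw [e, ne_eq, neg_eq_zero]

/-- the sum over the polygons through one of the two half edges. -/
theorem thr_rev {A : Finset Pt} {p : Pt × Pt} (hp : C.De p) (hl : ∀ v ∈ A, lev p.1 < lev v)
    {t : List Bool} (b : Bool) (Q : Prop → Prop) [DecidablePred (fun E => Q (Wnd E))] (f : ℕ → Finset Pt → ℂ) :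
    ∑ E ∈ (C.thr (A \ C.vt p t) (qd C p t b)).filter (fun E => Q (Wnd E)), f E.card (VE E) =
      ∑ E ∈ (C.thr (A \ C.vt p t) (qd C p t (!b))).filter (fun E => Q (Wnd E)), f E.card (VE E) := by
  have key : ∀ (b : Bool) (E : Finset (Pt × Pt)),
      E ∈ (C.thr (A \ C.vt p t) (qd C p t b)).filter (fun E => Q (Wnd E)) →
      crE C E ∈ (C.thr (A \ C.vt p t) (qd C p t (!b))).filter (fun E => Q (Wnd E)) := by
    intro b E hE
    rw [Finset.mem_filter, Nm.mem_thr] at hE
    obtain ⟨⟨⟨h1, h2⟩, h3⟩, h4⟩ := hE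
    have h1' := Nm.isP_iff.1 h1
    have hw : Wnd (crE C E) = Wnd E := propext (wnd_crE h1)
    rw [Finset.mem_filter, Nm.mem_thr, VE_crE h1]
    simp only [hw]
    refine ⟨⟨⟨Nm.isP_iff.2 h1'.rev, h2⟩, ?_⟩, h4⟩
    obtain ⟨r, k1, k2⟩ := h1.root h3
    have hne : r ≠ [] := by
      rintro rfl
      exact absurd k1.pos (by simp)
    obtain ⟨s, c, hr⟩ : ∃ s c, r = s ++ [c] := ⟨_, _, (List.dropLast_append_getLast hne).symm⟩
    subst hr
    have hs : VE (C.cE (qd C p t b) (s ++ [c])) ⊆ A \ C.vt p t := by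
      rw [k2]
      exact h2
    have hc := last_turn hp hl k1 hs
    have hq := De_qd hp t b
    have hle := k1.le
    rw [le_one hq.2] at hle
    have a1 : C.nb (C.le (qd C p t b) s) = C.nb (C.le p t) := congrArg Prod.fst hle
    have a2 : turn c (C.le (qd C p t b) s).2 = turn b (C.le p t).2 := congrArg Prod.snd hle
    have d1 := De_le hp t
    have d2 := De_le hq s
    rw [hc] at a2
    have a3 : ∀ d ∈ dirs, ∀ e ∈ dirs, ∀ b : Bool, turn (!b) e = turn b d → -e = turn (!b) d := by decide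
    have a4 := a3 _ d1.1.1 _ d2.1.1 b a2
    unfold crE
    rw [Finset.mem_image]
    refine ⟨C.le (qd C p t b) s, ?_, ?_⟩
    · rw [← k2, Nm.mem_cE]
      refine ⟨s.length, by simp, ?_⟩
      rw [Nm.vx_app _ _ c le_rfl, Nm.dx_app _ c le_rfl]
      rfl
    · show (C.nb (C.le (qd C p t b) s), -(C.le (qd C p t b) s).2) = qd C p t (!b)
      rw [a1, a4]
      rfl
  refine Finset.sum_bij' (fun E _ => crE C E) (fun E _ => crE C E) (key b) ?_ ?_ ?_ ?_
  · intro E hE
    have := key (!b) E hE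
    rwa [Bool.not_not] at this
  · intro E hE
    rw [Finset.mem_filter, Nm.mem_thr] at hE
    exact crE_crE (Nm.isP_iff.1 hE.1.1.1)
  · intro E hE
    rw [Finset.mem_filter, Nm.mem_thr] at hE
    exact crE_crE (Nm.isP_iff.1 hE.1.1.1)
  · intro E hE
    rw [Finset.mem_filter, Nm.mem_thr] at hE
    rw [card_crE hE.1.1.1, VE_crE hE.1.1.1]

/-- the polygons through the tip. -/
theorem thr_tip {A : Finset Pt} {p : Pt × Pt} (hp : C.De p) (hl : ∀ v ∈ A, lev p.1 < lev v)
    {t : List Bool} (f : Finset (Pt × Pt) → ℂ) :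
    ∑ E ∈ ((C.polys (A \ C.vt p t)).filter Wnd).filter (fun E => C.nb (C.le p t) ∈ VE E), f E =
      ∑ b : Bool, ∑ E ∈ (C.thr (A \ C.vt p t) (qd C p t b)).filter (fun E => Wnd E), f E := by
  classical
  rw [Fintype.sum_bool, ← Finset.sum_union]
  · apply Finset.sum_congr ?_ (fun _ _ => rfl)
    ext E
    simp only [Finset.mem_union, Finset.mem_filter, Nm.mem_thr, Nm.mem_polys]
    constructor
    · rintro ⟨⟨⟨h1, h2⟩, h3⟩, h4⟩
      obtain ⟨d', hd'⟩ := Nm.mem_VE.1 h4
      have d1 := De_le hp t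
      have d2 := h1.de hd'
      have hne : d' ≠ -(C.le p t).2 := by
        intro e
        apply prev_notMem hp hl (t := t)
        have h5 := h1.VE_nb hd'
        have h6 : C.nb (C.nb (C.le p t), d') = (C.le p t).1 := by
          rw [e]
          exact congrArg Prod.fst (Nm.rv_rv (le_nm (C := C) p t))
        rw [h6] at h5
        exact h2 h5
      have hcl : cl d' = -cl (C.le p t).2 := by
        have a1 : Vt (C.nb (C.le p t)) := d2.1.2.1
        have a2 := d2.1.2.2
        have b1 := d1.1.2.1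
        have c1 : cl (C.nb (C.le p t)) = cl (C.le p t).1 + cl (C.le p t).2 := by
          unfold Nm.nb
          rw [C.cl, cl_add]
        unfold Vt at a1 a2 b1
        simp only [cl_add] at a2
        have n1 := cl_dir_ne d1.1.1
        have n2 := cl_dir_ne d2.1.1
        simp only at n2
        revert a1 a2 b1 c1 n1 n2
        generalize cl (C.nb (C.le p t)) = x
        generalize cl (C.le p t).1 = y
        generalize cl (C.le p t).2 = u
        generalize cl d' = w
        decide +revert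
      have key : ∀ d ∈ dirs, ∀ d' ∈ dirs, cl d' = -cl d → d' ≠ -d → d' = turn true d ∨ d' = turn false d := by
        decide
      rcases key _ d1.1.1 _ d2.1.1 hcl hne with e | e
      · left
        refine ⟨⟨⟨h1, h2⟩, ?_⟩, h3⟩
        have e' : d' = turn true (C.le p t).2 := e
        rw [e'] at hd'
        exact hd'
      · right
        refine ⟨⟨⟨h1, h2⟩, ?_⟩, h3⟩
        have e' : d' = turn false (C.le p t).2 := e
        rw [e'] at hd'
        exact hd'
    · rintro (⟨⟨⟨h1, h2⟩, h3⟩, h4⟩ | ⟨⟨⟨h1, h2⟩, h3⟩, h4⟩)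
      · exact ⟨⟨⟨h1, h2⟩, h4⟩, Nm.mem_VE.2 ⟨_, h3⟩⟩
      · exact ⟨⟨⟨h1, h2⟩, h4⟩, Nm.mem_VE.2 ⟨_, h3⟩⟩
  · rw [Finset.disjoint_left]
    intro E h1 h2
    rw [Finset.mem_filter, Nm.mem_thr] at h1 h2
    have h3 := h1.1.1.1.fun h1.1.2 h2.1.2
    have key : ∀ d ∈ dirs, turn true d ≠ turn false d := by decide
    exact key _ (De_le hp t).1.1 h3

theorem cos_quarter : Complex.exp (((2 * sgn true : ℤ) * (Real.pi / 8) : ℝ) * Complex.I) +
    Complex.exp (((2 * sgn false : ℤ) * (Real.pi / 8) : ℝ) * Complex.I) = (√2 : ℝ) := by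
  have h1 := Complex.two_cos (((Real.pi / 4 : ℝ)) : ℂ)
  have e1 : (((2 * sgn true : ℤ) * (Real.pi / 8) : ℝ) : ℂ) * Complex.I = ((Real.pi / 4 : ℝ) : ℂ) * Complex.I := by
    have : sgn true = 1 := rfl
    rw [this]
    push_cast
    ring
  have e2 : (((2 * sgn false : ℤ) * (Real.pi / 8) : ℝ) : ℂ) * Complex.I = -((Real.pi / 4 : ℝ) : ℂ) * Complex.I := by
    have : sgn false = -1 := rfl
    rw [this]
    push_cast
    ring
  rw [e1, e2, ← h1, ← Complex.ofReal_cos, Real.cos_pi_div_four]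
  push_cast
  ring

theorem cos_half : Complex.exp (((-4 * sgn true : ℤ) * (Real.pi / 8) : ℝ) * Complex.I) +
    Complex.exp (((-4 * sgn false : ℤ) * (Real.pi / 8) : ℝ) * Complex.I) = 0 := by
  have h1 := Complex.two_cos (((Real.pi / 2 : ℝ)) : ℂ)
  have e1 : (((-4 * sgn true : ℤ) * (Real.pi / 8) : ℝ) : ℂ) * Complex.I = -((Real.pi / 2 : ℝ) : ℂ) * Complex.I := by
    have : sgn true = 1 := rfl
    rw [this]
    push_cast
    ring
  have e2 : (((-4 * sgn false : ℤ) * (Real.pi / 8) : ℝ) : ℂ) * Complex.I = ((Real.pi / 2 : ℝ) : ℂ) * Complex.I := by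
    have : sgn false = -1 := rfl
    rw [this]
    push_cast
    ring
  rw [e1, e2, add_comm, ← h1, ← Complex.ofReal_cos, Real.cos_pi_div_two]
  simp

/-- the two directions of a loop. -/
theorem two_dir {A : Finset Pt} {p : Pt × Pt} (hp : C.De p) (hl : ∀ v ∈ A, lev p.1 < lev v)
    {t : List Bool} (z : Finset Pt → ℂ) :
    ∑ b : Bool, ∑ E ∈ C.thr (A \ C.vt p t) (qd C p t b), ph b E * (xc : ℂ) ^ E.card * z ((A \ C.vt p t) \ VE E) =
      (√2 / 2 : ℝ) * ∑ E ∈ ((C.polys (A \ C.vt p t)).filter Wnd).filter (fun E => C.nb (C.le p t) ∈ VE E),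
        (xc : ℂ) ^ E.card * z ((A \ C.vt p t) \ VE E) := by
  classical
  rw [thr_tip hp hl]
  set B := A \ C.vt p t with hB
  set T : Bool → ℂ := fun b => ∑ E ∈ (C.thr B (qd C p t b)).filter (fun E => Wnd E),
    (xc : ℂ) ^ E.card * z (B \ VE E) with hT
  set S : Bool → ℂ := fun b => ∑ E ∈ (C.thr B (qd C p t b)).filter (fun E => ¬ Wnd E),
    (xc : ℂ) ^ E.card * z (B \ VE E) with hS
  have hTT : T true = T false :=
    thr_rev hp hl (t := t) true (fun P => P) (fun n W => (xc : ℂ) ^ n * z (B \ W))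
  have hSS : S true = S false :=
    thr_rev hp hl (t := t) true (fun P => ¬ P) (fun n W => (xc : ℂ) ^ n * z (B \ W))
  have key : ∀ b : Bool, ∑ E ∈ C.thr B (qd C p t b), ph b E * (xc : ℂ) ^ E.card * z (B \ VE E) =
      Complex.exp (((2 * sgn b : ℤ) * (Real.pi / 8) : ℝ) * Complex.I) * T b +
      Complex.exp (((-4 * sgn b : ℤ) * (Real.pi / 8) : ℝ) * Complex.I) * S b := by
    intro b
    rw [← Finset.sum_filter_add_sum_filter_not (C.thr B (qd C p t b)) (fun E => Wnd E), hT, hS]
    simp only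
    rw [Finset.mul_sum, Finset.mul_sum]
    congr 1
    · refine Finset.sum_congr rfl fun E hE => ?_
      have h1 := (Finset.mem_filter.1 hE).2
      unfold ph
      rw [if_pos h1]
      ring
    · refine Finset.sum_congr rfl fun E hE => ?_
      have h1 := (Finset.mem_filter.1 hE).2
      unfold ph
      rw [if_neg h1]
      ring
  rw [Fintype.sum_bool, Fintype.sum_bool, key, key]
  have e1 : ∑ E ∈ (C.thr B (qd C p t true)).filter (fun E => Wnd E), (xc : ℂ) ^ E.card * z (B \ VE E) = T true := rfl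
  have e2 : ∑ E ∈ (C.thr B (qd C p t false)).filter (fun E => Wnd E), (xc : ℂ) ^ E.card * z (B \ VE E) =
    T false := rfl
  rw [e1, e2, hTT, hSS]
  have c1 := cos_quarter
  have c2 := cos_half
  push_cast at c1 c2 ⊢
  linear_combination T false * c1 + S false * c2

/-- **The flux identity of the cylinder**, complex form. -/
theorem flux_cx (hC : Per C) {A : Finset Pt} {p : Pt × Pt} (hp : C.De p) (hl : ∀ v ∈ A, lev p.1 < lev v) :
    ∑ t ∈ exC C A p, wt t * (zC C (A \ C.vt p t) : ℂ) = (zC C A : ℂ) := by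
  have h1 := sum_arrC (C := C) A p (fun t => wt t * (zC C (A \ C.vt p t) : ℂ))
  have h2 := sum_arrC' (C := C) A hp.2 (fun B => (zC C B : ℂ))
  have h3 := sum_backC hC hp hl (fun B => (zC C B : ℂ))
  have h4 : ∑ t ∈ exteC C A p, wt t * (zC C ((A \ C.vt p t).erase (C.nb (C.le p t))) : ℂ) =
      ∑ t ∈ exteC C A p, wt t * (zC C (A \ C.vt p t) : ℂ) +
      ∑ t ∈ backC C A p, wt t * (zC C (A \ C.vt p t) : ℂ) := by
    rw [h3, ← Finset.sum_add_distrib]
    refine Finset.sum_congr rfl fun t _ => ?_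
    rw [← mul_add]
    congr 1
    rw [two_dir hp hl (t := t) (fun B => (zC C B : ℂ))]
    have h5 := Nm.GP_vertex (C := C) wW Wnd (A \ C.vt p t) (C.nb (C.le p t))
    have h6 : zC C (A \ C.vt p t) = zC C ((A \ C.vt p t).erase (C.nb (C.le p t))) +
        ∑ E ∈ ((C.polys (A \ C.vt p t)).filter Wnd).filter (fun E => C.nb (C.le p t) ∈ VE E),
          wW E * zC C ((A \ C.vt p t) \ VE E) := h5
    have h7 : ∑ E ∈ ((C.polys (A \ C.vt p t)).filter Wnd).filter (fun E => C.nb (C.le p t) ∈ VE E),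
          wW E * zC C ((A \ C.vt p t) \ VE E) = -(√2 / 2) *
        ∑ E ∈ ((C.polys (A \ C.vt p t)).filter Wnd).filter (fun E => C.nb (C.le p t) ∈ VE E),
          xc ^ E.card * zC C ((A \ C.vt p t) \ VE E) := by
      rw [Finset.mul_sum]
      refine Finset.sum_congr rfl fun E _ => ?_
      unfold wW
      ring
    rw [h7] at h6
    have h8 : zC C ((A \ C.vt p t).erase (C.nb (C.le p t))) = zC C (A \ C.vt p t) + (√2 / 2) *
        ∑ E ∈ ((C.polys (A \ C.vt p t)).filter Wnd).filter (fun E => C.nb (C.le p t) ∈ VE E),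
          xc ^ E.card * zC C ((A \ C.vt p t) \ VE E) := by
      rw [h6]
      ring
    rw [h8]
    push_cast
    ring
  rw [h1, h4] at h2
  linear_combination h2

/-- **The flux identity of the cylinder.** -/
theorem flux_re (hC : Per C) {A : Finset Pt} {p : Pt × Pt} (hp : C.De p) (hl : ∀ v ∈ A, lev p.1 < lev v) :
    zC C A = ∑ t ∈ exC C A p,
      Real.cos (wind t * (Real.pi / 8)) * xc ^ t.length * zC C (A \ C.vt p t) := by
  have h1 := congrArg Complex.re (flux_cx hC hp hl)
  rw [Complex.re_sum, Complex.ofReal_re] at h1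
  rw [← h1]
  refine Finset.sum_congr rfl fun t _ => ?_
  unfold wt
  rw [← Complex.ofReal_pow, Complex.re_mul_ofReal, Complex.re_mul_ofReal, Complex.exp_ofReal_mul_I_re]

end

/-- **The flux identity of the cylinder with `N` rows.** -/
theorem flux {N : ℕ} {hN : 1 ≤ N} {A : Finset Pt} (_hA : ∀ v ∈ A, Vt v ∧ (Cy N hN).nm v = v) {p : Pt × Pt}
    (hp : (Cy N hN).De p) (hl : ∀ v ∈ A, lev p.1 < lev v) :
    zC (Cy N hN) A = ∑ t ∈ exC (Cy N hN) A p,
      Real.cos (wind t * (Real.pi / 8)) * xc ^ t.length * zC (Cy N hN) (A \ (Cy N hN).vt p t) :=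
  flux_re (Cy_per hN) hp hl

end Pool.Agent.GLD
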