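import Pool.Agent.GLD.Turn0

/-!
# GLd, module A4: the winding of the exits of the cylinder
-/

set_option autoImplicit false

namespace Pool.Agent.GLD

open Pool.Agent.NUF.Cyl HexObs HexObs.LP

variable {N : ℕ} {hN : 1 ≤ N}

namespace Wd

/-! ### the rings -/

theorem lev_A (k i : ℤ) : lev (_root_.EXL.A k i) = 3 * k - 1 := by
  simp only [lev, _root_.EXL.A]
  ring

theorem lev_B (k i : ℤ) : lev (_root_.EXL.B k i) = 3 * k := by
  simp only [lev, _root_.EXL.B]
  ring

theorem vt_lev {v : Pt} : Vt v ↔ lev v % 3 ≠ 1 := by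
  unfold Vt cl lev
  rw [ne_eq, ne_eq, not_iff_not]
  rw [show (1 : ZMod 3) = ((1 : ℤ) : ZMod 3) by norm_num, ZMod.intCast_eq_intCast_iff]
  constructor
  · intro h
    have := h
    unfold Int.ModEq at this
    norm_num at this
    exact this
  · intro h
    unfold Int.ModEq
    norm_num
    exact h

theorem eq_A {v : Pt} {k : ℤ} (h : lev v = 3 * k - 1) : v = _root_.EXL.A k (ri v) := by
  simp only [lev] at h
  simp only [ri, _root_.EXL.A]
  ext
  · simp only
    omega
  · simp only
    omega

theorem eq_B {v : Pt} {k : ℤ} (h : lev v = 3 * k) : v = _root_.EXL.B k (ri v) := by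
  simp only [lev] at h
  simp only [ri, _root_.EXL.B]
  ext
  · simp only
    omega
  · simp only
    omega

theorem mem_rg {a b : ℤ} {v : Pt} : v ∈ rg N a b ↔
    (0 ≤ ri v ∧ ri v < N) ∧ Vt v ∧ 3 * a - 1 ≤ lev v ∧ lev v ≤ 3 * b - 3 := by
  unfold rg
  rw [Finset.mem_union, Finset.mem_image, Finset.mem_image, vt_lev]
  constructor
  · rintro (⟨p, hp, rfl⟩ | ⟨p, hp, rfl⟩)
    · rw [Finset.mem_product, Finset.mem_Ico, Finset.mem_Ico] at hp
      rw [ri_A, lev_A]
      omega
    · rw [Finset.mem_product, Finset.mem_Ico, Finset.mem_Ico] at hp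
      rw [ri_B, lev_B]
      omega
  · rintro ⟨h1, h2, h3, h4⟩
    have h5 : lev v % 3 = 0 ∨ lev v % 3 = 2 := by omega
    rcases h5 with h5 | h5
    · right
      obtain ⟨k, hk⟩ : ∃ k, lev v = 3 * k := ⟨lev v / 3, by omega⟩
      refine ⟨(k, ri v), ?_, (eq_B hk).symm⟩
      rw [Finset.mem_product, Finset.mem_Ico, Finset.mem_Ico]
      simp only
      omega
    · left
      obtain ⟨k, hk⟩ : ∃ k, lev v = 3 * k - 1 := ⟨(lev v + 1) / 3, by omega⟩
      refine ⟨(k, ri v), ?_, (eq_A hk).symm⟩
      rw [Finset.mem_product, Finset.mem_Ico, Finset.mem_Ico]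
      simp only
      omega

theorem lev_nm (v : Pt) : lev ((Cy N hN).nm v) = lev v := nn_nm hN v

theorem ri_nm (v : Pt) : 0 ≤ ri ((Cy N hN).nm v) ∧ ri ((Cy N hN).nm v) < N := by
  rw [nm_eq, nmN, ri_tr]
  have h0 : (0 : ℤ) < N := by exact_mod_cast hN
  have h1 := Int.emod_nonneg (ri v) h0.ne'
  have h2 := Int.emod_lt_of_pos (ri v) h0
  have h3 := Int.emod_add_mul_ediv (ri v) N
  constructor <;> linarith

theorem nm_mem_rg {a b : ℤ} {v : Pt} : (Cy N hN).nm v ∈ rg N a b ↔
    Vt v ∧ 3 * a - 1 ≤ lev v ∧ lev v ≤ 3 * b - 3 := by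
  rw [mem_rg, lev_nm, Nm.vt_nm]
  exact ⟨fun h => h.2, fun h => ⟨ri_nm v, h⟩⟩

theorem dir_lev : ∀ e ∈ dirs, lev e = 2 ∧ e = ax ∨ lev e = -2 ∧ e = -ax ∨ lev e = 1 ∧ (e = (1, 0) ∨ e = (0, -1)) ∨
    lev e = -1 ∧ (e = (0, 1) ∨ e = (-1, 0)) := by
  decide

/-! ### planar words -/

/-- the vertices of the word are distinct and of level at least `L`. -/
structure Pl (v0 d0 : Pt) (t : List Bool) (L : ℤ) : Prop where
  inj : ∀ i k, 1 ≤ i → i < k → k ≤ t.length → vx v0 d0 t i ≠ vx v0 d0 t k
  lo : ∀ i, 1 ≤ i → i ≤ t.length → L ≤ lev (vx v0 d0 t i)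

theorem Pl.snoc {v0 d0 : Pt} {t : List Bool} {L : ℤ} (h : Pl v0 d0 t L) (s : Bool) (h1 : L ≤ lev (tip v0 d0 t))
    (h2 : ∀ i, 1 ≤ i → i ≤ t.length → vx v0 d0 t i ≠ tip v0 d0 t) : Pl v0 d0 (t ++ [s]) L := by
  have hl : (t ++ [s]).length = t.length + 1 := by simp
  constructor
  · intro i k h3 h4 h5
    rw [hl] at h5
    rw [vx_append (by omega), vx_append (by omega)]
    rcases Nat.lt_or_ge t.length k with h6 | h6
    · have : k = t.length + 1 := by omega
      rw [this]
      exact h2 i h3 (by omega)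
    · exact h.inj i k h3 h4 h6
  · intro i h3 h4
    rw [hl] at h4
    rw [vx_append (by omega)]
    rcases Nat.lt_or_ge t.length i with h6 | h6
    · have : i = t.length + 1 := by omega
      rw [this]
      exact h1
    · exact h.lo i h3 h6

theorem Pl.cons {v0 d0 : Pt} {b : Bool} {t : List Bool} {L : ℤ} (h : Pl (v0 + d0) (turn b d0) t L)
    (h1 : L ≤ lev (v0 + d0)) (h2 : ∀ i, 1 ≤ i → i ≤ t.length → vx (v0 + d0) (turn b d0) t i ≠ v0 + d0) :
    Pl v0 d0 (b :: t) L := by
  constructor
  · intro i k h3 h4 h5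
    obtain ⟨i, rfl⟩ : ∃ j, i = j + 1 := ⟨i - 1, by omega⟩
    obtain ⟨k, rfl⟩ : ∃ j, k = j + 1 := ⟨k - 1, by omega⟩
    simp only [List.length_cons] at h5
    rw [EXL.Net.vx_cons, EXL.Net.vx_cons]
    rcases Nat.eq_zero_or_pos i with h6 | h6
    · subst h6
      exact fun e => h2 k (by omega) (by omega) e.symm
    · exact h.inj i k h6 (by omega) (by omega)
  · intro i h3 h4
    obtain ⟨i, rfl⟩ : ∃ j, i = j + 1 := ⟨i - 1, by omega⟩
    simp only [List.length_cons] at h4
    rw [EXL.Net.vx_cons]
    rcases Nat.eq_zero_or_pos i with h6 | h6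
    · subst h6
      exact h1
    · exact h.lo i h6 (by omega)

theorem tipE (v0 d0 : Pt) (t : List Bool) : tip v0 d0 t = vx v0 d0 t t.length + dx d0 t t.length := rfl

theorem tip_cons (v0 d0 : Pt) (b : Bool) (t : List Bool) : tip v0 d0 (b :: t) = tip (v0 + d0) (turn b d0) t := by
  unfold tip
  rw [List.length_cons, EXL.Net.vx_cons]

theorem dx_snoc (d0 : Pt) (t : List Bool) (s : Bool) :
    dx d0 (t ++ [s]) (t ++ [s]).length = turn s (dx d0 t t.length) := by
  have hl : (t ++ [s]).length = t.length + 1 := by simp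
  rw [hl]
  show turn (tf (t ++ [s]) t.length) (dx d0 (t ++ [s]) t.length) = _
  rw [dx_append le_rfl]
  congr 1
  have := tf_append_right (t := t) (s := [s]) 0
  rw [add_zero] at this
  rw [this]
  rfl

theorem vx_last_snoc (v0 d0 : Pt) (t : List Bool) (s : Bool) :
    vx v0 d0 (t ++ [s]) (t ++ [s]).length = tip v0 d0 t := by
  have hl : (t ++ [s]).length = t.length + 1 := by simp
  rw [hl, vx_append (by omega)]
  rfl

theorem tip_snoc (v0 d0 : Pt) (t : List Bool) (s : Bool) :
    tip v0 d0 (t ++ [s]) = tip v0 d0 t + turn s (dx d0 t t.length) := by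
  rw [tipE, dx_snoc, vx_last_snoc]

/-- arcs of the half plane. -/
theorem Pl.down {v0 : Pt} {t : List Bool} {L : ℤ} (h : Pl v0 ax t L) (h0 : lev v0 < L) (h1 : lev (tip v0 ax t) < L)
    (hd : dx ax t t.length = -ax) : wind t = 3 ∨ wind t = -3 := by
  have key := wind_exit (v0 := v0) ax_mem (t := t) ?_ ?_ ?_
  · rw [hd] at key
    rcases key with ⟨h1, -⟩ | ⟨h1, -⟩ | ⟨h1, -⟩ | ⟨h1, -⟩ | ⟨h1, -⟩ | ⟨-, h1⟩
    · exact absurd h1 (by decide)
    · exact absurd h1 (by decide)
    · exact absurd h1 (by decide)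
    · exact absurd h1 (by decide)
    · exact absurd h1 (by decide)
    · exact h1
  · intro i k hik hk
    rcases Nat.eq_zero_or_pos i with h6 | h6
    · subst h6
      intro e
      have h2 := h.lo k (by omega) hk
      rw [← e] at h2
      have h4 : lev (vx v0 ax t 0) = lev v0 := rfl
      omega
    · exact h.inj i k h6 hik hk
  · intro i h2 h3
    rw [ip_ax, lev_sub]
    have := h.lo i h2 h3
    omega
  · intro i h2 h3
    rw [hd, ip_comm, ip_neg_left, ip_comm, ip_ax, lev_sub]
    have := h.lo i h2 h3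
    omega

/-- bridges. -/
theorem Pl.up {v0 : Pt} {t : List Bool} {L : ℤ} (h : Pl v0 ax t L) (h0 : lev v0 < L)
    (h1 : ∀ i, 1 ≤ i → i ≤ t.length → lev (vx v0 ax t i) < lev (tip v0 ax t))
    (hd : dx ax t t.length = ax) : wind t = 0 := by
  have key := wind_exit (v0 := v0) ax_mem (t := t) ?_ ?_ ?_
  · rw [hd] at key
    rcases key with ⟨-, h1⟩ | ⟨h1, -⟩ | ⟨h1, -⟩ | ⟨h1, -⟩ | ⟨h1, -⟩ | ⟨h1, -⟩
    · exact h1
    · exact absurd h1 (by decide)
    · exact absurd h1 (by decide)
    · exact absurd h1 (by decide)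
    · exact absurd h1 (by decide)
    · exact absurd h1 (by decide)
  · intro i k hik hk
    rcases Nat.eq_zero_or_pos i with h6 | h6
    · subst h6
      intro e
      have h2 := h.lo k (by omega) hk
      rw [← e] at h2
      have h4 : lev (vx v0 ax t 0) = lev v0 := rfl
      omega
    · exact h.inj i k h6 hik hk
  · intro i h2 h3
    rw [ip_ax, lev_sub]
    have := h.lo i h2 h3
    omega
  · intro i h2 h3
    rw [hd, ip_ax, lev_sub]
    have := h1 i h2 h3
    omega

/-! ### words of the cylinder -/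

theorem mem_exC {C : Nm} {A : Finset Pt} {p : Pt × Pt} {t : List Bool} :
    t ∈ exC C A p ↔ C.Arr A p t ∧ C.nm (tip p.1 p.2 t) ∉ A := by
  classical
  unfold exC
  rw [Finset.mem_filter, Nm.mem_arr]
  have e : C.nb (C.le p t) = C.nm (tip p.1 p.2 t) := by
    unfold Nm.nb Nm.le
    simp only
    rw [C.add]
    rfl
  rw [e]

theorem vt_vx {v0 : Pt} (h0 : Vt v0) (h1 : Vt (v0 + ax)) (t : List Bool) (i : ℕ) : Vt (vx v0 ax t i) := by
  rcases vx_hex v0 ax t i with h | h
  · unfold Vt
    rw [h]
    exact h0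
  · unfold Vt
    rw [h, ← cl_add]
    exact h1

/-- the data of a word that leaves `A`. -/
theorem exC_data {a b : ℤ} {A : Finset Pt} (hA : A ⊆ rg N a b) {v0 : Pt}
    {t : List Bool} (ht : t ∈ exC (Cy N hN) A (v0, ax)) :
    Pl v0 ax t (3 * a - 1) ∧ (∀ i, 1 ≤ i → i ≤ t.length → lev (vx v0 ax t i) ≤ 3 * b - 3) ∧
      (∀ i, 1 ≤ i → i ≤ t.length → vx v0 ax t i ≠ tip v0 ax t) ∧
      (∀ i, 1 ≤ i → i ≤ t.length → (Cy N hN).nm (vx v0 ax t i) ∈ A) ∧
      (Cy N hN).nm (tip v0 ax t) ∉ A := by
  rw [mem_exC] at ht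
  obtain ⟨h2, h3⟩ := ht
  have h4 : ∀ i, 1 ≤ i → i ≤ t.length → (Cy N hN).nm (vx v0 ax t i) ∈ A := h2.mem
  refine ⟨⟨?_, ?_⟩, ?_, ?_, h4, h3⟩
  · intro i k h5 h6 h7 e
    exact h2.inj i k h5 h6 h7 (by simp only; rw [e])
  · intro i h5 h6
    exact (nm_mem_rg.1 (hA (h4 i h5 h6))).2.1
  · intro i h5 h6
    exact (nm_mem_rg.1 (hA (h4 i h5 h6))).2.2
  · intro i h5 h6 e
    exact h3 (by simp only; rw [← e]; exact h4 i h5 h6)

theorem vt_ft (a i : ℤ) : Vt (_root_.EXL.B a i) ∧ Vt (_root_.EXL.B a i + ax) := by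
  rw [vt_lev, vt_lev, lev_add, lev_B]
  have : lev ax = 2 := rfl
  omega

/-- the last step of a word that leaves the rings. -/
theorem last_cases {a b : ℤ} {v0 : Pt} (h0 : Vt v0) (h1 : Vt (v0 + ax)) {t : List Bool}
    (h2 : 3 * a - 1 ≤ lev (vx v0 ax t t.length)) (h3 : lev (vx v0 ax t t.length) ≤ 3 * b - 3) :
    (dx ax t t.length = -ax ∧ lev (tip v0 ax t) = 3 * a - 3) ∨
      (dx ax t t.length = ax ∧ lev (tip v0 ax t) = 3 * b - 1) ∨
      (3 * a - 1 ≤ lev (tip v0 ax t) ∧ lev (tip v0 ax t) ≤ 3 * b - 3) := by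
  have e1 : lev (tip v0 ax t) = lev (vx v0 ax t t.length) + lev (dx ax t t.length) := by
    rw [tipE, lev_add]
  have h4 := vt_lev.1 (vt_vx h0 h1 t t.length)
  have h5 := vt_lev.1 (vt_vx h0 h1 t (t.length + 1))
  have h6 : vx v0 ax t (t.length + 1) = tip v0 ax t := rfl
  rw [h6] at h5
  have hm : dx ax t t.length ∈ dirs := ds_mem ax_mem t.length
  rcases dir_lev _ hm with ⟨h7, h8⟩ | ⟨h7, h8⟩ | ⟨h7, h8⟩ | ⟨h7, h8⟩
  · rw [h7] at e1
    by_cases c : lev (tip v0 ax t) ≤ 3 * b - 3
    · right
      right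
      omega
    · right
      left
      exact ⟨h8, by omega⟩
  · rw [h7] at e1
    by_cases c : 3 * a - 1 ≤ lev (tip v0 ax t)
    · right
      right
      omega
    · left
      exact ⟨h8, by omega⟩
  · rw [h7] at e1
    right
    right
    omega
  · rw [h7] at e1
    right
    right
    omega

theorem wind_nil : wind [] = 0 := rfl

theorem ann_cases {a b : ℤ} {v0 : Pt} (h0 : Vt v0) (h1 : Vt (v0 + ax)) (hv : lev v0 < 3 * a - 1) {t : List Bool}
    (hl : 1 ≤ t.length) (ht : t ∈ exC (Cy N hN) (rg N a b) (v0, ax)) :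
    (dx ax t t.length = -ax ∧ (wind t = 3 ∨ wind t = -3)) ∨ (dx ax t t.length = ax ∧ wind t = 0) := by
  obtain ⟨k1, k2, k3, k4, k5⟩ := exC_data (Finset.Subset.refl _) ht
  rcases last_cases (a := a) (b := b) h0 h1 (k1.lo _ hl le_rfl) (k2 _ hl le_rfl) with
    ⟨h2, h3⟩ | ⟨h2, h3⟩ | h2
  · exact Or.inl ⟨h2, k1.down hv (by omega) h2⟩
  · refine Or.inr ⟨h2, k1.up hv ?_ h2⟩
    intro i h4 h5
    have := k2 i h4 h5
    omega
  · exfalso
    apply k5
    rw [nm_mem_rg]
    exact ⟨vt_vx h0 h1 t (t.length + 1), h2⟩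

end Wd

open Wd in
theorem wind_down {a b i : ℤ} {t : List Bool} (ht : t ∈ exC (Cy N hN) (rg N a b) (ft a i))
    (hd : dx ax t t.length = -ax) : |wind t| = 3 := by
  rcases Nat.eq_zero_or_pos t.length with hl | hl
  · have : t = [] := List.length_eq_zero_iff.1 hl
    subst this
    exact absurd hd (by decide)
  · obtain ⟨h0, h1⟩ := vt_ft (a - 1) i
    have hv : lev (_root_.EXL.B (a - 1) i) < 3 * a - 1 := by rw [lev_B]; omega
    rcases ann_cases h0 h1 hv hl ht with ⟨-, h2 | h2⟩ | ⟨h2, -⟩
    · rw [h2]; rfl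
    · rw [h2]; rfl
    · rw [hd] at h2
      exact absurd h2 (by decide)

open Wd in
theorem wind_up {a b i : ℤ} {t : List Bool} (ht : t ∈ exC (Cy N hN) (rg N a b) (ft a i))
    (hd : dx ax t t.length ≠ -ax) : dx ax t t.length = ax ∧ wind t = 0 := by
  rcases Nat.eq_zero_or_pos t.length with hl | hl
  · have : t = [] := List.length_eq_zero_iff.1 hl
    subst this
    exact ⟨rfl, rfl⟩
  · obtain ⟨h0, h1⟩ := vt_ft (a - 1) i
    have hv : lev (_root_.EXL.B (a - 1) i) < 3 * a - 1 := by rw [lev_B]; omega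
    rcases ann_cases h0 h1 hv hl ht with ⟨h2, -⟩ | h2
    · exact absurd h2 hd
    · exact h2

namespace Wd

theorem wind_snoc (t : List Bool) (s : Bool) : wind (t ++ [s]) = wind t + sgn s := by
  rw [wind_append]
  simp [wind]

theorem wind_cons' (s : Bool) (t : List Bool) : wind (s :: t) = sgn s + wind t := by
  simp [wind]

theorem sgn_le (s : Bool) : -1 ≤ sgn s ∧ sgn s ≤ 1 := by
  cases s <;> decide

theorem turn_side : ∀ e ∈ dirs, (e = (0, 1) ∨ e = (-1, 0)) → ∃ s : Bool, turn s e = -ax := by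
  decide

/-- a step of level -1 into the lowest vertices, continued. -/
theorem side_end {a : ℤ} {v0 : Pt} (h0 : Vt v0) (h1 : Vt (v0 + ax)) {t : List Bool}
    (h2 : 3 * a - 1 ≤ lev (vx v0 ax t t.length)) (h3 : lev (tip v0 ax t) = 3 * a - 1) :
    ∃ s : Bool, turn s (dx ax t t.length) = -ax := by
  have e1 : lev (tip v0 ax t) = lev (vx v0 ax t t.length) + lev (dx ax t t.length) := by
    rw [tipE, lev_add]
  have h4 := vt_lev.1 (vt_vx h0 h1 t t.length)
  have hm : dx ax t t.length ∈ dirs := ds_mem ax_mem t.length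
  rcases dir_lev _ hm with ⟨h7, h8⟩ | ⟨h7, h8⟩ | ⟨h7, h8⟩ | ⟨h7, h8⟩
  · omega
  · omega
  · omega
  · exact turn_side _ hm h8

end Wd

open Wd in
theorem wind_low {a b i : ℤ} {A : Finset Pt} (hA : A ⊆ rg N a b) (hA1 : rg N (a + 1) b ⊆ A)
    (hA2 : ∀ j, 0 ≤ j → j < N → _root_.EXL.B a j ∈ A) (_hi : 0 ≤ i ∧ i < N) (_hi' : _root_.EXL.A a i ∈ A)
    {t : List Bool} (ht : t ∈ exC (Cy N hN) A (ft a i)) : |wind t| ≤ 4 := by
  rcases Nat.eq_zero_or_pos t.length with hl | hl
  · have : t = [] := List.length_eq_zero_iff.1 hl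
    subst this
    decide
  obtain ⟨h0, h1⟩ := vt_ft (a - 1) i
  have hv : lev (_root_.EXL.B (a - 1) i) < 3 * a - 1 := by rw [lev_B]; omega
  obtain ⟨k1, k2, k3, k4, k5⟩ := exC_data hA ht
  rw [abs_le]
  rcases last_cases (a := a) (b := b) h0 h1 (k1.lo _ hl le_rfl) (k2 _ hl le_rfl) with
    ⟨h2, h3⟩ | ⟨h2, h3⟩ | ⟨h2, h3⟩
  · rcases k1.down hv (by omega) h2 with h4 | h4 <;> omega
  · have h4 : wind t = 0 := by
      refine k1.up hv ?_ h2
      intro i h4 h5
      have := k2 i h4 h5
      omega
    omega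
  · set w := tip (_root_.EXL.B (a - 1) i) ax t with hw
    have hvt : Vt w := vt_vx h0 h1 t (t.length + 1)
    have h4 : lev w < 3 * a + 2 := by
      by_contra c
      apply k5
      apply hA1
      rw [nm_mem_rg]
      exact ⟨hvt, by omega, h3⟩
    have h5 := vt_lev.1 hvt
    have h6 : lev w ≠ 3 * a := by
      intro c
      apply k5
      have h7 : lev ((Cy N hN).nm w) = 3 * a := by rw [lev_nm, c]
      rw [eq_B h7]
      have h8 := ri_nm (hN := hN) w
      obtain ⟨j, hj⟩ := Int.eq_ofNat_of_zero_le h8.1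
      rw [hj] at h8 ⊢
      exact hA2 j (Nat.zero_le j) (by exact_mod_cast h8.2)
    have h7 : lev w = 3 * a - 1 := by omega
    obtain ⟨s, hs⟩ := side_end h0 h1 (k1.lo _ hl le_rfl) h7
    have h8 := (k1.snoc s h2 k3).down hv (by
      rw [tip_snoc, hs, lev_add, ← hw, h7]
      have : lev (-ax) = -2 := rfl
      omega) (by rw [dx_snoc, hs])
    rw [wind_snoc] at h8
    have := sgn_le s
    omega

open Wd in
theorem wind_upp {a b i : ℤ} {A : Finset Pt} (hA : A ⊆ rg N a b) (hA1 : rg N (a + 1) b ⊆ A)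
    (hA2 : ∀ j, _root_.EXL.A a j ∉ A) (hi : 0 ≤ i ∧ i < N) (hi' : _root_.EXL.B a i ∉ A)
    {t : List Bool} (ht : t ∈ exC (Cy N hN) A (_root_.EXL.B a i, ax)) : |wind t| ≤ 4 := by
  rcases Nat.eq_zero_or_pos t.length with hl | hl
  · have : t = [] := List.length_eq_zero_iff.1 hl
    subst this
    decide
  obtain ⟨h0, h1⟩ := vt_ft a i
  set v0 := _root_.EXL.B a i with hv0
  have hlv : lev v0 = 3 * a := lev_B a i
  obtain ⟨k1, k2, k3, k4, k5⟩ := exC_data hA ht
  -- all vertices of A have level at least 3 a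
  have k6 : ∀ j, 1 ≤ j → j ≤ t.length → 3 * a ≤ lev (vx v0 ax t j) := by
    intro j h2 h3
    by_contra c
    have h4 := k1.lo j h2 h3
    have h5 : lev (vx v0 ax t j) = 3 * a - 1 := by omega
    have h6 := k4 j h2 h3
    have h7 : lev ((Cy N hN).nm (vx v0 ax t j)) = 3 * a - 1 := by rw [lev_nm, h5]
    rw [eq_A h7] at h6
    exact hA2 _ h6
  have k7 : ∀ j, 1 ≤ j → j ≤ t.length → vx v0 ax t j ≠ v0 := by
    intro j h2 h3 e
    have h6 := k4 j h2 h3
    rw [e, hv0, nm_B hN a hi.1 hi.2] at h6
    exact hi' h6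
  -- prefix
  have pre : ∀ (c : Bool) (s : List Bool) (P : Pt), P + turn c ax = v0 → lev P = 3 * a - 1 →
      Pl v0 ax s (3 * a - 1) → (∀ j, 1 ≤ j → j ≤ s.length → vx v0 ax s j ≠ v0) →
      (∀ j, 1 ≤ j → j ≤ s.length → vx v0 ax s j ≠ P) →
      Pl (P - ax) ax (c :: (!c) :: s) (3 * a - 1) := by
    intro c s P hP hlP hs g1 g2
    have e1 : P - ax + ax = P := by abel
    have e2 : turn (!c) (turn c ax) = ax := by cases c <;> decide
    apply Pl.cons
    · rw [e1]
      apply Pl.cons
      · rw [hP, e2]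
        exact hs
      · rw [hP, hlv]
        omega
      · rw [hP, e2]
        exact g1
    · rw [e1, hlP]
    · rw [e1]
      intro j h2 h3
      obtain ⟨j, rfl⟩ : ∃ q, j = q + 1 := ⟨j - 1, by omega⟩
      simp only [List.length_cons] at h3
      rw [EXL.Net.vx_cons, hP, e2]
      rcases Nat.eq_zero_or_pos j with h4 | h4
      · subst h4
        intro e
        have h5 : vx v0 ax s 0 = v0 := rfl
        rw [h5] at e
        rw [e, hlP] at hlv
        omega
      · exact g2 j h4 (by omega)
  have tpre : ∀ (c : Bool) (s : List Bool) (P : Pt), P + turn c ax = v0 →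
      tip (P - ax) ax (c :: (!c) :: s) = tip v0 ax s := by
    intro c s P hP
    have e1 : P - ax + ax = P := by abel
    have e2 : turn (!c) (turn c ax) = ax := by cases c <;> decide
    rw [tip_cons, e1, tip_cons, hP, e2]
  have dpre : ∀ (c : Bool) (s : List Bool),
      dx ax (c :: (!c) :: s) (c :: (!c) :: s).length = dx ax s s.length := by
    intro c s
    have e2 : turn (!c) (turn c ax) = ax := by cases c <;> decide
    rw [List.length_cons, List.length_cons, EXL.Net.dx_cons, EXL.Net.dx_cons, e2]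
  have wpre : ∀ (c : Bool) (s : List Bool), wind (c :: (!c) :: s) = wind s := by
    intro c s
    rw [wind_cons', wind_cons', sgn_not]
    ring
  have lvt : ∀ c : Bool, lev (turn c ax) = 1 := by decide
  have hP : ∀ c : Bool, v0 - turn c ax + turn c ax = v0 := fun c => by abel
  have hlP : ∀ c : Bool, lev (v0 - turn c ax) = 3 * a - 1 := by
    intro c
    rw [lev_sub, lvt, hlv]
  have hlPa : ∀ c : Bool, lev (v0 - turn c ax - ax) < 3 * a - 1 := by
    intro c
    rw [lev_sub, hlP]
    have : lev ax = 2 := rfl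
    omega
  have hnP : ∀ c : Bool, ∀ j, 1 ≤ j → j ≤ t.length → vx v0 ax t j ≠ v0 - turn c ax := by
    intro c j h2 h3 e
    have := k6 j h2 h3
    rw [e, hlP] at this
    omega
  rw [abs_le]
  rcases last_cases (a := a) (b := b) h0 h1 (k1.lo _ hl le_rfl) (k2 _ hl le_rfl) with
    ⟨h2, h3⟩ | ⟨h2, h3⟩ | ⟨h2, h3⟩
  · -- impossible
    exfalso
    have e1 : lev (tip v0 ax t) = lev (vx v0 ax t t.length) + lev (dx ax t t.length) := by
      rw [tipE, lev_add]
    have h4 := k6 _ hl le_rfl
    rw [h2] at e1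
    have : lev (-ax) = -2 := rfl
    omega
  · have h4 := (pre true t _ (hP true) (hlP true) k1 k7 (hnP true)).up (hlPa true) (by
      intro j h4 h5
      rw [tpre true t _ (hP true), h3]
      rw [List.length_cons, List.length_cons] at h5
      obtain ⟨j, rfl⟩ : ∃ q, j = q + 1 := ⟨j - 1, by omega⟩
      have e1 : v0 - turn true ax - ax + ax = v0 - turn true ax := by abel
      have e2 : turn (!true) (turn true ax) = ax := by decide
      have hab : 3 * a ≤ 3 * b - 3 := (k6 _ hl le_rfl).trans (k2 _ hl le_rfl)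
      rw [EXL.Net.vx_cons, e1]
      rcases Nat.eq_zero_or_pos j with h6 | h6
      · subst h6
        have h7 : vx (v0 - turn true ax) (turn true ax) ((!true) :: t) 0 = v0 - turn true ax := rfl
        rw [h7, hlP]
        omega
      · obtain ⟨j, rfl⟩ : ∃ q, j = q + 1 := ⟨j - 1, by omega⟩
        rw [EXL.Net.vx_cons, hP, e2]
        rcases Nat.eq_zero_or_pos j with h8 | h8
        · subst h8
          have h9 : vx v0 ax t 0 = v0 := rfl
          rw [h9, hlv]
          omega
        · have := k2 j h8 (by omega)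
          omega) (by rw [dpre, h2])
    rw [wpre] at h4
    omega
  · set w := tip v0 ax t with hw
    have hvt : Vt w := vt_vx h0 h1 t (t.length + 1)
    have h4 : lev w < 3 * a + 2 := by
      by_contra c
      apply k5
      apply hA1
      rw [nm_mem_rg]
      exact ⟨hvt, by omega, h3⟩
    have h5 := vt_lev.1 hvt
    have h6 : lev w = 3 * a - 1 ∨ lev w = 3 * a := by omega
    rcases h6 with h6 | h6
    · -- exit to a lower vertex
      obtain ⟨s, hs⟩ := side_end h0 h1 (k1.lo _ hl le_rfl) h6
      obtain ⟨c, hc⟩ : ∃ c : Bool, w ≠ v0 - turn c ax := by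
        by_contra hcon
        push Not at hcon
        have e1 := hcon true
        have e2 := hcon false
        rw [e1] at e2
        have e3 : turn true ax = turn false ax := by
          have := sub_right_inj.1 e2
          exact this
        exact absurd e3 (by decide)
      have hsn := k1.snoc s h2 k3
      have hls : (t ++ [s]).length = t.length + 1 := by simp
      have g1 : ∀ j, 1 ≤ j → j ≤ (t ++ [s]).length → vx v0 ax (t ++ [s]) j ≠ v0 := by
        intro j h7 h8
        rw [hls] at h8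
        rw [vx_append (by omega)]
        rcases Nat.lt_or_ge t.length j with h9 | h9
        · have : j = t.length + 1 := by omega
          rw [this]
          intro e
          have : w = v0 := e
          rw [this, hlv] at h6
          omega
        · exact k7 j h7 h9
      have g2 : ∀ j, 1 ≤ j → j ≤ (t ++ [s]).length → vx v0 ax (t ++ [s]) j ≠ v0 - turn c ax := by
        intro j h7 h8
        rw [hls] at h8
        rw [vx_append (by omega)]
        rcases Nat.lt_or_ge t.length j with h9 | h9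
        · have : j = t.length + 1 := by omega
          rw [this]
          exact hc
        · exact hnP c j h7 h9
      have h8 := (pre c (t ++ [s]) _ (hP c) (hlP c) hsn g1 g2).down (hlPa c) (by
        rw [tpre c _ _ (hP c), tip_snoc, hs, lev_add, ← hw, h6]
        have : lev (-ax) = -2 := rfl
        omega) (by rw [dpre, dx_snoc, hs])
      rw [wpre, wind_snoc] at h8
      have := sgn_le s
      omega
    · -- exit to an upper vertex
      have e1 : lev w = lev (vx v0 ax t t.length) + lev (dx ax t t.length) := by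
        rw [hw, tipE, lev_add]
      have h7 := vt_lev.1 (vt_vx h0 h1 t t.length)
      have h8 := k6 _ hl le_rfl
      have hd : dx ax t t.length = -ax := by
        have hm : dx ax t t.length ∈ dirs := ds_mem ax_mem t.length
        rcases dir_lev _ hm with
          ⟨h9, h10⟩ | ⟨h9, h10⟩ | ⟨h9, h10⟩ | ⟨h9, h10⟩
        · omega
        · exact h10
        · omega
        · omega
      have hwv : w ≠ v0 := by
        intro e
        have e2 : vx v0 ax t t.length = vx v0 ax t 1 := by
          have e3 : vx v0 ax t 1 = v0 + ax := rfl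
          rw [e3]
          apply eq_add_of_add_neg_eq
          rw [← hd]
          exact e
        rcases Nat.lt_or_ge 1 t.length with h9 | h9
        · exact k1.inj 1 t.length le_rfl h9 le_rfl e2.symm
        · have h10 : t.length = 1 := by omega
          rw [h10] at hd
          have h11 : dx ax t 1 = turn (tf t 0) ax := rfl
          rw [h11] at hd
          have : ∀ c : Bool, turn c ax ≠ -ax := by decide
          exact this _ hd
      have hs1 := k1.snoc true (by rw [← hw]; omega) k3
      have hd1 : dx ax (t ++ [true]) (t ++ [true]).length = (-1, 0) := by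
        rw [dx_snoc, hd]
        decide
      have ht1 : tip v0 ax (t ++ [true]) = w + (-1, 0) := by
        rw [tip_snoc, ← hw, hd]
        congr 1
      have hlt1 : lev (w + (-1, 0)) = 3 * a - 1 := by
        rw [lev_add, h6]
        rfl
      have hls : (t ++ [true]).length = t.length + 1 := by simp
      have hs2 := hs1.snoc false (by rw [ht1, hlt1]) (by
        intro j h9 h10
        rw [hls] at h10
        rw [vx_append (by omega), ht1]
        intro e
        have e5 : 3 * a ≤ lev (vx v0 ax t j) := by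
          rcases Nat.lt_or_ge t.length j with h11 | h11
          · have : j = t.length + 1 := by omega
            rw [this]
            show 3 * a ≤ lev w
            omega
          · exact k6 j h9 h11
        rw [e, hlt1] at e5
        omega)
      have hls2 : ((t ++ [true]) ++ [false]).length = t.length + 2 := by simp
      have vv : ∀ j, 1 ≤ j → j ≤ t.length + 2 → vx v0 ax ((t ++ [true]) ++ [false]) j ≠ v0 ∧
          vx v0 ax ((t ++ [true]) ++ [false]) j ≠ v0 - (1, 0) := by
        intro j h9 h10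
        rw [vx_append (by rw [hls]; omega)]
        rcases Nat.lt_or_ge (t.length + 1) j with h11 | h11
        · have e6 : j = (t ++ [true]).length + 1 := by rw [hls]; omega
          have e7 : vx v0 ax (t ++ [true]) j = w + (-1, 0) := by
            rw [e6]
            exact ht1
          rw [e7]
          constructor
          · intro e
            rw [e, hlv] at hlt1
            omega
          · intro e
            apply hwv
            have : w + (-1, 0) + (1, 0) = v0 - (1, 0) + (1, 0) := by rw [e]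
            have e8 : w + (-1, 0) + ((1, 0) : Pt) = w := by
              rw [add_assoc]
              have : ((-1, 0) : Pt) + (1, 0) = 0 := by decide
              rw [this, add_zero]
            rw [e8, sub_add_cancel] at this
            exact this
        · rw [vx_append (by omega)]
          rcases Nat.lt_or_ge t.length j with h12 | h12
          · have : j = t.length + 1 := by omega
            rw [this]
            refine ⟨hwv, ?_⟩
            intro e
            have e9 : w = v0 - (1, 0) := e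
            have e10 := hlP true
            have e11 : turn true ax = (1, 0) := by decide
            rw [e11, ← e9] at e10
            omega
          · exact ⟨k7 j h9 h12, by
              have := hnP true j h9 h12
              have e11 : turn true ax = (1, 0) := by decide
              rwa [e11] at this⟩
      have e11 : turn true ax = (1, 0) := by decide
      have h12 := (pre true _ _ (hP true) (hlP true) hs2 (fun j h9 h10 => (vv j h9 (by rw [← hls2]; exact h10)).1)
        (fun j h9 h10 => by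
          rw [e11]
          exact (vv j h9 (by rw [← hls2]; exact h10)).2)).down (hlPa true) (by
            rw [tpre true _ _ (hP true), tip_snoc, ht1, hd1, lev_add, hlt1]
            have : lev (turn false ((-1, 0) : Pt)) = -2 := by decide
            omega) (by rw [dpre, dx_snoc, hd1]; decide)
      rw [wpre, wind_snoc, wind_snoc] at h12
      have s1 : sgn true = 1 := rfl
      have s2 : sgn false = -1 := rfl
      omega

end Pool.Agent.GLD
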