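import Pool.Agent.GLD.Sh
import Pool.Agent.GLD.FluxC
import Pool.Agent.GLD.Wind

/-!
# Positivity of the gas of the winding polygons (GLd, module A1, second part)

The vertices are added ring by ring downwards: first the upper vertices, then the lower ones.  `zC_pos`: positivity for all
sets of vertices of a finite number of rings, from the flux identity and the bounds of the windings of the exits.
-/

set_option autoImplicit false

namespace Pool.Agent.GLD

open Finset Pool.Agent.NUF.Cyl HexObs HexObs.LP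

variable {N : ℕ} {hN : 1 ≤ N} {C : Nm}

theorem arr_out {A : Finset Pt} {p : Pt × Pt} (h : C.nb p ∉ A) : C.arr A p = {[]} := by
  ext t
  rw [Nm.mem_arr, Finset.mem_singleton]
  constructor
  · intro ht
    rcases t with _ | ⟨b, s⟩
    · rfl
    · exact absurd (Nm.arr_cons.1 ht).1 h
  · rintro rfl
    exact ⟨fun i h1 h2 => by simp at h2; omega, fun i k h1 h2 h3 => by simp at h3; omega⟩

/-- the exits by their first letter. -/
theorem sum_exC {D : Finset Pt} {p : Pt × Pt} (hp : C.nm p.1 = p.1) (h : C.nb p ∈ D) (f : List Bool → ℝ) :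
    ∑ t ∈ exC C D p, f t =
      (∑ s ∈ (C.arr (D.erase (C.nb p)) (C.nb p, rotL p.2)).filter
        (fun s => C.nb (C.le (C.nb p, rotL p.2) s) ∉ D), f (true :: s)) +
      ∑ s ∈ (C.arr (D.erase (C.nb p)) (C.nb p, rotR p.2)).filter
        (fun s => C.nb (C.le (C.nb p, rotR p.2) s) ∉ D), f (false :: s) := by
  set A' := D.erase (C.nb p) with hA'
  have e : exC C D p =
      ((C.arr A' (C.nb p, rotL p.2)).filter
        (fun t => C.nb (C.le (C.nb p, rotL p.2) t) ∉ D)).image (List.cons true) ∪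
      ((C.arr A' (C.nb p, rotR p.2)).filter
        (fun t => C.nb (C.le (C.nb p, rotR p.2) t) ∉ D)).image (List.cons false) := by
    ext t
    unfold exC
    simp only [Finset.mem_union, Finset.mem_image, Finset.mem_filter, Nm.mem_arr]
    constructor
    · rintro ⟨h1, h2⟩
      rcases t with _ | ⟨b, s⟩
      · rw [Nm.le_nil hp] at h2
        exact absurd h h2
      · rw [Nm.arr_cons] at h1
        rw [Nm.le_cons] at h2
        cases b
        · exact Or.inr ⟨s, ⟨h1.2, h2⟩, rfl⟩
        · exact Or.inl ⟨s, ⟨h1.2, h2⟩, rfl⟩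
    · rintro (⟨s, ⟨h1, h2⟩, rfl⟩ | ⟨s, ⟨h1, h2⟩, rfl⟩)
      · rw [Nm.arr_cons, Nm.le_cons]
        exact ⟨⟨h, h1⟩, h2⟩
      · rw [Nm.arr_cons, Nm.le_cons]
        exact ⟨⟨h, h1⟩, h2⟩
  have hd : Disjoint (((C.arr A' (C.nb p, rotL p.2)).filter
        (fun t => C.nb (C.le (C.nb p, rotL p.2) t) ∉ D)).image (List.cons true))
      (((C.arr A' (C.nb p, rotR p.2)).filter
        (fun t => C.nb (C.le (C.nb p, rotR p.2) t) ∉ D)).image (List.cons false)) := by
    rw [Finset.disjoint_left]
    intro t h1 h2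
    obtain ⟨s, -, rfl⟩ := Finset.mem_image.1 h1
    obtain ⟨r, -, hr⟩ := Finset.mem_image.1 h2
    simp at hr
  rw [e, Finset.sum_union hd, Finset.sum_image (fun a _ b _ hab => List.cons_injective hab),
    Finset.sum_image (fun a _ b _ hab => List.cons_injective hab)]

theorem wind_cons' (b : Bool) (s : List Bool) : wind (b :: s) = sgn b + wind s := by
  unfold wind
  simp

/-- the exits of a domain with a new vertex. -/
theorem sum_ins {D A : Finset Pt} {v dl dr : Pt} {p : Pt × Pt} (hp : C.nm p.1 = p.1) (hb : C.nb p = v) (hv : v ∉ A)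
    (hD : D = insert v A) (hl : rotL p.2 = dl) (hr : rotR p.2 = dr) (F : ℤ → ℕ → Finset Pt → ℝ) :
    ∑ t ∈ exC C D p, F (wind t) t.length (D \ C.vt p t) =
      (∑ s ∈ (C.arr A (v, dl)).filter (fun s => C.nb (C.le (v, dl) s) ∉ D),
        F (1 + wind s) (s.length + 1) (A \ C.vt (v, dl) s)) +
      ∑ s ∈ (C.arr A (v, dr)).filter (fun s => C.nb (C.le (v, dr) s) ∉ D),
        F (-1 + wind s) (s.length + 1) (A \ C.vt (v, dr) s) := by
  subst hb hl hr
  have her : D.erase (C.nb p) = A := by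
    rw [hD]
    exact Finset.erase_insert hv
  have hmem : C.nb p ∈ D := by
    rw [hD]
    exact Finset.mem_insert_self _ _
  have hs : ∀ X : Finset Pt, D \ insert (C.nb p) X = A \ X := by
    intro X
    rw [hD]
    ext x
    simp only [Finset.mem_sdiff, Finset.mem_insert]
    constructor
    · rintro ⟨h1, h2⟩
      exact ⟨h1.resolve_left fun e => h2 (Or.inl e), fun h => h2 (Or.inr h)⟩
    · rintro ⟨h1, h2⟩
      exact ⟨Or.inr h1, fun h => h.elim (fun e => hv (e ▸ h1)) h2⟩
  rw [sum_exC hp hmem, her]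
  congr 1
  · refine Finset.sum_congr rfl fun s _ => ?_
    rw [wind_cons', List.length_cons, Nm.vt_cons, hs]
    rfl
  · refine Finset.sum_congr rfl fun s _ => ?_
    rw [wind_cons', List.length_cons, Nm.vt_cons, hs]
    rfl

/-- a direction that leaves the domain at once. -/
theorem sum_dir {D A : Finset Pt} {v d : Pt} (hv : C.nm v = v) (hA : A ⊆ D) (h : C.nb (v, d) ∉ D)
    (f : List Bool → ℝ) :
    ∑ s ∈ (C.arr A (v, d)).filter (fun s => C.nb (C.le (v, d) s) ∉ D), f s = f [] := by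
  have e : (C.arr A (v, d)).filter (fun s => C.nb (C.le (v, d) s) ∉ D) = {[]} := by
    rw [arr_out (fun h' => h (hA h')), Finset.filter_singleton, Nm.le_nil hv, if_pos h]
  rw [e, Finset.sum_singleton]

theorem cos_nonneg4 {w : ℤ} (h : |w| ≤ 4) : 0 ≤ Real.cos (w * (Real.pi / 8)) := by
  obtain ⟨h1, h2⟩ := abs_le.1 h
  have h1' : (-4 : ℝ) ≤ w := by exact_mod_cast h1
  have h2' : (w : ℝ) ≤ 4 := by exact_mod_cast h2
  have hp := Real.pi_pos
  apply Real.cos_nonneg_of_mem_Icc
  constructor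
  · nlinarith
  · nlinarith

/-! ### the levels -/

theorem lev_A (k i : ℤ) : lev (_root_.EXL.A k i) = 3 * k - 1 := by
  unfold lev _root_.EXL.A
  ring

theorem lev_B (k i : ℤ) : lev (_root_.EXL.B k i) = 3 * k := by
  unfold lev _root_.EXL.B
  ring

theorem lev_nm (v : Pt) : lev ((Cy N hN).nm v) = lev v := nn_nm hN v

theorem Vt_B (k i : ℤ) : Vt (_root_.EXL.B k i) := by
  unfold Vt cl _root_.EXL.B
  have : ((2 * k + i + 1 - (-k + 1 + i) : ℤ) : ZMod 3) = ((3 * k : ℤ) : ZMod 3) := by
    congr 1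
    ring
  simp only [this]
  have h3 : ((3 * k : ℤ) : ZMod 3) = 0 := by
    rw [Int.cast_mul]
    have : ((3 : ℤ) : ZMod 3) = 0 := by decide
    rw [this, zero_mul]
  rw [h3]
  decide

theorem rg_Vt {a b : ℤ} {v : Pt} (h : v ∈ rg N a b) : Vt v := by
  obtain ⟨k, i, -, -, rfl | rfl⟩ := mem_rg.1 h
  · exact Vt_A k i
  · exact Vt_B k i

theorem rg_lev {a b : ℤ} {v : Pt} (h : v ∈ rg N a b) : 3 * a - 1 ≤ lev v ∧ lev v ≤ 3 * b - 3 := by
  obtain ⟨k, i, h1, -, rfl | rfl⟩ := mem_rg.1 h
  · rw [lev_A]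
    omega
  · rw [lev_B]
    omega

theorem rg_A {a b k i : ℤ} (h : _root_.EXL.A k i ∈ rg N a b) : a ≤ k ∧ k < b := by
  obtain ⟨k', i', h1, -, h2 | h2⟩ := mem_rg.1 h
  · have := congrArg lev h2
    rw [lev_A, lev_A] at this
    omega
  · have := congrArg lev h2
    rw [lev_A, lev_B] at this
    omega

theorem rg_B {a b k i : ℤ} (h : _root_.EXL.B k i ∈ rg N a b) : a ≤ k ∧ k < b := by
  obtain ⟨k', i', h1, -, h2 | h2⟩ := mem_rg.1 h
  · have := congrArg lev h2
    rw [lev_A, lev_B] at this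
    omega
  · have := congrArg lev h2
    rw [lev_B, lev_B] at this
    omega

theorem rg_mono {a b a' b' : ℤ} (ha : a' ≤ a) (hb : b ≤ b') : rg N a b ⊆ rg N a' b' := by
  intro v hv
  obtain ⟨k, i, h1, h2, h3⟩ := mem_rg.1 hv
  exact mem_rg.2 ⟨k, i, by omega, h2, h3⟩

/-! ### half edges -/

theorem De_A (k : ℤ) {i : ℤ} (h1 : 0 ≤ i) (h2 : i < N) : (Cy N hN).De (_root_.EXL.A k i, (1, 0)) := by
  refine ⟨⟨(by decide : ((1, 0) : Pt) ∈ dirs), Vt_A k i, ?_⟩, nm_A hN k h1 h2⟩
  show Vt (_root_.EXL.A k i + (1, 0))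
  rw [_root_.EXL.A_right]
  exact Vt_B k i

theorem De_ft (k : ℤ) {i : ℤ} (h1 : 0 ≤ i) (h2 : i < N) : (Cy N hN).De (ft k i) := by
  refine ⟨⟨(by decide : ((1, -1) : Pt) ∈ dirs), Vt_B _ _, ?_⟩, nm_B hN _ h1 h2⟩
  show Vt (_root_.EXL.B (k - 1) i + (1, -1))
  have : _root_.EXL.B (k - 1) i + (1, -1) = _root_.EXL.A k i := by
    unfold _root_.EXL.B _root_.EXL.A
    ext <;> simp <;> ring
  rw [this]
  exact Vt_A k i

theorem nb_ft (k : ℤ) {i : ℤ} (h1 : 0 ≤ i) (h2 : i < N) : (Cy N hN).nb (ft k i) = _root_.EXL.A k i := by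
  have : _root_.EXL.B (k - 1) i + (1, -1) = _root_.EXL.A k i := by
    unfold _root_.EXL.B _root_.EXL.A
    ext <;> simp <;> ring
  show (Cy N hN).nm (_root_.EXL.B (k - 1) i + (1, -1)) = _
  rw [this, nm_A hN k h1 h2]

/-- the other lower half edge at an upper vertex. -/
def q2 (C : Nm) (k i : ℤ) : Pt × Pt := (C.nm (_root_.EXL.A k (i + 1)), (0, -1))

theorem A_down' (k i : ℤ) : _root_.EXL.A k (i + 1) + (0, -1) = _root_.EXL.B k i := by
  rw [_root_.EXL.A_down, add_sub_cancel_right]

theorem nb_q2 (k : ℤ) {i : ℤ} (h1 : 0 ≤ i) (h2 : i < N) : (Cy N hN).nb (q2 (Cy N hN) k i) = _root_.EXL.B k i := by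
  show (Cy N hN).nm ((Cy N hN).nm (_root_.EXL.A k (i + 1)) + (0, -1)) = _
  rw [(Cy N hN).add, A_down', nm_B hN k h1 h2]

theorem De_q2 (k i : ℤ) : (Cy N hN).De (q2 (Cy N hN) k i) := by
  have h : cl ((Cy N hN).nm (_root_.EXL.A k (i + 1))) = cl (_root_.EXL.A k (i + 1)) := (Cy N hN).cl _
  refine ⟨⟨(by decide : ((0, -1) : Pt) ∈ dirs), ?_, ?_⟩, (Cy N hN).idem _⟩
  · show cl ((Cy N hN).nm (_root_.EXL.A k (i + 1))) ≠ 1
    rw [h]
    exact Vt_A _ _
  · show cl ((Cy N hN).nm (_root_.EXL.A k (i + 1)) + (0, -1)) ≠ 1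
    rw [cl_add, h, ← cl_add, A_down']
    exact Vt_B _ _

/-! ### the straight word upwards -/

/-- the zigzag word upwards. -/
def zz : ℕ → List Bool
  | 0 => []
  | n + 1 => true :: false :: zz n

theorem wind_zz (n : ℕ) : wind (zz n) = 0 := by
  induction n with
  | zero => rfl
  | succ n ih =>
    show wind (true :: false :: zz n) = 0
    rw [wind_cons', wind_cons', ih]
    rfl

theorem nb_A0 (k : ℤ) {i : ℤ} (h1 : 0 ≤ i) (h2 : i < N) :
    (Cy N hN).nb (_root_.EXL.A k i, rotL ax) = _root_.EXL.B k i := nb_A_M hN k h1 h2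

theorem zz_le (n : ℕ) (k : ℤ) {i : ℤ} (h1 : 0 ≤ i) (h2 : i < N) :
    (Cy N hN).le (ft k i) (zz n) = ft (k + n) i := by
  induction n generalizing k with
  | zero =>
    show (Cy N hN).le (ft k i) [] = _
    rw [Nm.le_nil (De_ft k h1 h2).2, Nat.cast_zero, add_zero]
  | succ n ih =>
    show (Cy N hN).le (ft k i) (true :: false :: zz n) = _
    rw [Nm.le_cons, Nm.le_cons, nb_ft k h1 h2]
    have e1 : (Cy N hN).nb (_root_.EXL.A k i, turn true (ft k i).2) = _root_.EXL.B k i := nb_A0 k h1 h2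
    have e2 : (_root_.EXL.B k i, turn false (turn true (ft k i).2)) = ft (k + 1) i := by
      unfold ft
      rw [add_sub_cancel_right]
      rfl
    rw [e1, e2, ih]
    congr 1
    push_cast
    ring

theorem zz_arr (n : ℕ) (k : ℤ) {i : ℤ} (h1 : 0 ≤ i) (h2 : i < N) {A : Finset Pt}
    (hA : ∀ j : ℤ, k ≤ j → j < k + n → _root_.EXL.A j i ∈ A ∧ _root_.EXL.B j i ∈ A) :
    (Cy N hN).Arr A (ft k i) (zz n) := by
  induction n generalizing k A with
  | zero => exact ⟨fun i h1 h2 => by simp [zz] at h2; omega, fun i k h1 h2 h3 => by simp [zz] at h3; omega⟩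
  | succ n ih =>
    show (Cy N hN).Arr A (ft k i) (true :: false :: zz n)
    have e1 : (Cy N hN).nb (_root_.EXL.A k i, turn true (ft k i).2) = _root_.EXL.B k i := nb_A0 k h1 h2
    have e2 : (_root_.EXL.B k i, turn false (turn true (ft k i).2)) = ft (k + 1) i := by
      unfold ft
      rw [add_sub_cancel_right]
      rfl
    have h3 := hA k le_rfl (by push_cast; omega)
    rw [Nm.arr_cons, Nm.arr_cons, nb_ft k h1 h2]
    have e3 : (Cy N hN).nb ((_root_.EXL.A k i, turn true (ft k i).2).1, (_root_.EXL.A k i, turn true (ft k i).2).2) =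
      _root_.EXL.B k i := e1
    refine ⟨h3.1, ?_, ?_⟩
    · rw [e1, Finset.mem_erase]
      refine ⟨fun e => ?_, h3.2⟩
      have := congrArg lev e
      rw [lev_A, lev_B] at this
      omega
    · rw [e1, e2]
      refine ih (k + 1) fun j hj1 hj2 => ?_
      have h4 := hA j (by omega) (by push_cast; omega)
      have h5 : ∀ w : Pt, w ∈ A → lev w ≠ lev (_root_.EXL.A k i) → lev w ≠ lev (_root_.EXL.B k i) →
          w ∈ (A.erase (_root_.EXL.A k i)).erase (_root_.EXL.B k i) := fun w hw ha hb =>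
        Finset.mem_erase.2 ⟨fun e => hb (by rw [e]), Finset.mem_erase.2 ⟨fun e => ha (by rw [e]), hw⟩⟩
      refine ⟨h5 _ h4.1 ?_ ?_, h5 _ h4.2 ?_ ?_⟩
      all_goals
        simp only [lev_A, lev_B]
        omega

/-! ### the two insertions -/

section ins

/-- a new lower vertex. -/
theorem ins_low {a b i : ℤ} {A : Finset Pt} (hab : a < b) (hA : A ⊆ rg N a b) (hA1 : rg N (a + 1) b ⊆ A)
    (hA2 : ∀ j : ℤ, 0 ≤ j → j < N → _root_.EXL.B a j ∈ A) (hi : 0 ≤ i ∧ i < N)
    (hp : ∀ D, D ⊆ A → 0 < zC (Cy N hN) D)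
    (hw : ∀ t ∈ exC (Cy N hN) (insert (_root_.EXL.A a i) A) (ft a i), |wind t| ≤ 4) :
    0 < zC (Cy N hN) (insert (_root_.EXL.A a i) A) := by
  set D := insert (_root_.EXL.A a i) A with hD
  have hDr : D ⊆ rg N a b := by
    rw [hD]
    exact Finset.insert_subset (mem_rg.2 ⟨a, i, ⟨le_rfl, hab⟩, hi, Or.inl rfl⟩) hA
  have h0 := flux (hN := hN) (A := D) (fun v hv => ⟨rg_Vt (hDr hv), rg_nm (hDr hv)⟩) (De_ft a hi.1 hi.2) (fun v hv => by
    have h1 := rg_lev (hDr hv)
    have h2 : lev (ft a i).1 = 3 * (a - 1) := lev_B _ _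
    rw [h2]
    omega)
  have hpos : ∀ t ∈ exC (Cy N hN) D (ft a i), 0 < zC (Cy N hN) (D \ (Cy N hN).vt (ft a i) t) := by
    intro t ht
    apply hp
    intro v hv
    rw [Finset.mem_sdiff] at hv
    rcases Finset.mem_insert.1 hv.1 with e | h
    · exfalso
      apply hv.2
      rcases t with _ | ⟨c, s⟩
      · have h1 := (Finset.mem_filter.1 ht).2
        rw [Nm.le_nil (De_ft a hi.1 hi.2).2, nb_ft a hi.1 hi.2] at h1
        exact absurd (Finset.mem_insert_self _ _) h1
      · rw [Nm.vt_cons, nb_ft a hi.1 hi.2, e]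
        exact Finset.mem_insert_self _ _
    · exact h
  have hnn : ∀ t ∈ exC (Cy N hN) D (ft a i), 0 ≤ Real.cos (wind t * (Real.pi / 8)) * xc ^ t.length *
      zC (Cy N hN) (D \ (Cy N hN).vt (ft a i) t) := fun t ht =>
    mul_nonneg (mul_nonneg (cos_nonneg4 (hw t ht)) (pow_nonneg xc_pos.le _)) (hpos t ht).le
  obtain ⟨n, hn⟩ : ∃ n : ℕ, b = a + n := ⟨(b - a).toNat, by omega⟩
  have hz : zz n ∈ exC (Cy N hN) D (ft a i) := by
    unfold exC
    rw [Finset.mem_filter, Nm.mem_arr]
    constructor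
    · refine zz_arr n a hi.1 hi.2 fun j hj1 hj2 => ?_
      rcases eq_or_lt_of_le hj1 with e | h
      · rw [← e]
        exact ⟨Finset.mem_insert_self _ _, Finset.mem_insert_of_mem (hA2 i hi.1 hi.2)⟩
      · exact ⟨Finset.mem_insert_of_mem (hA1 (mem_rg.2 ⟨j, i, by omega, hi, Or.inl rfl⟩)),
          Finset.mem_insert_of_mem (hA1 (mem_rg.2 ⟨j, i, by omega, hi, Or.inr rfl⟩))⟩
    · rw [zz_le n a hi.1 hi.2, nb_ft _ hi.1 hi.2]
      intro h
      have := rg_A (hDr h)
      omega
  rw [h0]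
  refine lt_of_lt_of_le ?_ (Finset.single_le_sum hnn hz)
  rw [wind_zz, Int.cast_zero, zero_mul, Real.cos_zero, one_mul]
  exact mul_pos (pow_pos xc_pos _) (hpos _ hz)

/-- a new upper vertex. -/
theorem ins_upp {a b i : ℤ} {A : Finset Pt} (hab : a < b) (hA : A ⊆ rg N a b)
    (hA2 : ∀ j, _root_.EXL.A a j ∉ A) (hi : 0 ≤ i ∧ i < N) (hi' : _root_.EXL.B a i ∉ A)
    (hp : ∀ D, D ⊆ A → 0 < zC (Cy N hN) D)
    (hw : ∀ t ∈ exC (Cy N hN) A (_root_.EXL.B a i, ax), |wind t| ≤ 4) :
    0 < zC (Cy N hN) (insert (_root_.EXL.B a i) A) := by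
  set C := Cy N hN with hC
  set D := insert (_root_.EXL.B a i) A with hD
  have hDr : D ⊆ rg N a b := by
    rw [hD]
    exact Finset.insert_subset (mem_rg.2 ⟨a, i, ⟨le_rfl, hab⟩, hi, Or.inr rfl⟩) hA
  have hlev : ∀ v ∈ D, 3 * a - 1 < lev v := by
    intro v hv
    rcases Finset.mem_insert.1 hv with rfl | h
    · rw [lev_B]
      omega
    · obtain ⟨k, j, h1, h2, e⟩ := mem_rg.1 (hA h)
      rcases e with rfl | rfl
      · rw [lev_A]
        have : a ≠ k := fun e => hA2 j (e ▸ h)
        omega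
      · rw [lev_B]
        omega
  have hrep : ∀ v ∈ D, Vt v ∧ C.nm v = v := fun v hv => ⟨rg_Vt (hDr hv), rg_nm (hDr hv)⟩
  have hAlow : ∀ j, C.nm (_root_.EXL.A a j) ∉ D := by
    intro j h
    have h1 := hlev _ h
    rw [hC, lev_nm, lev_A] at h1
    omega
  have f1 := flux (hN := hN) hrep (De_A a hi.1 hi.2) (fun v hv => by
    show lev (_root_.EXL.A a i) < lev v
    rw [lev_A]
    exact hlev v hv)
  have f2 := flux (hN := hN) hrep (De_q2 a i) (fun v hv => by
    show lev (C.nm (_root_.EXL.A a (i + 1))) < lev v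
    rw [hC, lev_nm, lev_A]
    exact hlev v hv)
  have e1 : C.nb (_root_.EXL.A a i, (1, 0)) = _root_.EXL.B a i := nb_A_M hN a hi.1 hi.2
  have e2 : C.nb (q2 C a i) = _root_.EXL.B a i := nb_q2 a hi.1 hi.2
  have hnmB : C.nm (_root_.EXL.B a i) = _root_.EXL.B a i := nm_B hN a hi.1 hi.2
  have hAD : A ⊆ D := Finset.subset_insert _ _
  rw [sum_ins (C := C) (F := fun w n X => Real.cos (w * (Real.pi / 8)) * xc ^ n * zC C X) (dl := (0, 1))
    (dr := (1, -1)) (De_A a hi.1 hi.2).2 e1 hi' hD (by decide : rotL (1, 0) = ((0, 1) : Pt))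
    (by decide : rotR (1, 0) = ((1, -1) : Pt))] at f1
  rw [sum_ins (C := C) (F := fun w n X => Real.cos (w * (Real.pi / 8)) * xc ^ n * zC C X) (dl := (1, -1))
    (dr := (-1, 0)) (De_q2 a i).2 e2 hi' hD (by decide : rotL (0, -1) = ((1, -1) : Pt))
    (by decide : rotR (0, -1) = ((-1, 0) : Pt))] at f2
  have n1 : C.nb (_root_.EXL.B a i, ((0, 1) : Pt)) ∉ D := by
    have : C.nb (_root_.EXL.B a i, ((0, 1) : Pt)) = C.nm (_root_.EXL.A a (i + 1)) := by
      show C.nm (_root_.EXL.B a i + (0, 1)) = _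
      congr 1
      unfold _root_.EXL.A _root_.EXL.B
      ext <;> simp <;> ring
    rw [this]
    exact hAlow _
  have n2 : C.nb (_root_.EXL.B a i, ((-1, 0) : Pt)) ∉ D := by
    have : C.nb (_root_.EXL.B a i, ((-1, 0) : Pt)) = C.nm (_root_.EXL.A a i) := by
      show C.nm (_root_.EXL.B a i + (-1, 0)) = _
      congr 1
      unfold _root_.EXL.A _root_.EXL.B
      ext <;> simp
    rw [this]
    exact hAlow _
  rw [sum_dir hnmB hAD n1] at f1
  rw [sum_dir hnmB hAD n2] at f2
  simp only [Nm.vt_nil, Finset.sdiff_empty] at f1 f2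
  have hw0 : wind [] = 0 := rfl
  rw [hw0, List.length_nil] at f1 f2
  set X := (C.arr A (_root_.EXL.B a i, (1, -1))).filter (fun s => C.nb (C.le (_root_.EXL.B a i, (1, -1)) s) ∉ D) with hX
  have h3 : 2 * zC C D = 2 * (Real.cos (Real.pi / 8) * xc * zC C A) +
      ∑ s ∈ X, 2 * Real.cos (Real.pi / 8) * Real.cos (wind s * (Real.pi / 8)) * xc ^ (s.length + 1) *
        zC C (A \ C.vt (_root_.EXL.B a i, (1, -1)) s) := by
    have h4 : ∀ s ∈ X, 2 * Real.cos (Real.pi / 8) * Real.cos (wind s * (Real.pi / 8)) * xc ^ (s.length + 1) *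
        zC C (A \ C.vt (_root_.EXL.B a i, (1, -1)) s) =
        Real.cos (((1 + wind s : ℤ) : ℝ) * (Real.pi / 8)) * xc ^ (s.length + 1) *
          zC C (A \ C.vt (_root_.EXL.B a i, (1, -1)) s) +
        Real.cos (((-1 + wind s : ℤ) : ℝ) * (Real.pi / 8)) * xc ^ (s.length + 1) *
          zC C (A \ C.vt (_root_.EXL.B a i, (1, -1)) s) := by
      intro s _
      have e3 : ((1 + wind s : ℤ) : ℝ) * (Real.pi / 8) = wind s * (Real.pi / 8) + Real.pi / 8 := by
        push_cast
        ring
      have e4 : ((-1 + wind s : ℤ) : ℝ) * (Real.pi / 8) = wind s * (Real.pi / 8) - Real.pi / 8 := by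
        push_cast
        ring
      rw [e3, e4, Real.cos_add, Real.cos_sub]
      ring
    rw [Finset.sum_congr rfl h4, Finset.sum_add_distrib]
    have e5 : Real.cos (((1 + 0 : ℤ) : ℝ) * (Real.pi / 8)) = Real.cos (Real.pi / 8) := by
      congr 1
      push_cast
      ring
    have e6 : Real.cos (((-1 + 0 : ℤ) : ℝ) * (Real.pi / 8)) = Real.cos (Real.pi / 8) := by
      rw [← Real.cos_neg]
      congr 1
      push_cast
      ring
    rw [e5] at f1
    rw [e6] at f2
    rw [zero_add, pow_one] at f1 f2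
    linarith
  have h5 : 0 ≤ ∑ s ∈ X, 2 * Real.cos (Real.pi / 8) * Real.cos (wind s * (Real.pi / 8)) * xc ^ (s.length + 1) *
        zC C (A \ C.vt (_root_.EXL.B a i, (1, -1)) s) := by
    refine Finset.sum_nonneg fun s hs => ?_
    obtain ⟨h6, h7⟩ := Finset.mem_filter.1 hs
    have h8 : s ∈ exC C A (_root_.EXL.B a i, ax) := Finset.mem_filter.2 ⟨h6, fun h => h7 (hAD h)⟩
    have h9 : 0 ≤ Real.cos (Real.pi / 8) := by
      have := cos_nonneg4 (w := 1) (by norm_num)
      rwa [Int.cast_one, one_mul] at this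
    have h10 := cos_nonneg4 (hw s h8)
    have h11 : 0 < zC C (A \ C.vt (_root_.EXL.B a i, (1, -1)) s) := hp _ Finset.sdiff_subset
    have h12 : 0 < xc ^ (s.length + 1) := pow_pos xc_pos _
    positivity
  have h6 : 0 < Real.cos (Real.pi / 8) * xc * zC C A := by
    have h7 : 0 < Real.cos (Real.pi / 8) := by
      apply Real.cos_pos_of_mem_Ioo
      constructor <;> linarith [Real.pi_pos]
    exact mul_pos (mul_pos h7 xc_pos) (hp _ subset_rfl)
  linarith

/-- **positivity of the gas.** -/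
theorem zC_pos {a b : ℤ} {A : Finset Pt} (hA : A ⊆ rg N a b) : 0 < zC (Cy N hN) A := by
  have G := zC_gas (N := N) (hN := hN)
  suffices H : ∀ n : ℕ, ∀ A, A ⊆ rg N (b - n) b → 0 < zC (Cy N hN) A by
    refine H (b - a).toNat A (hA.trans (rg_mono ?_ le_rfl))
    omega
  clear hA A a
  intro n
  induction n with
  | zero =>
    intro A hA
    have : A = ∅ := by
      rw [Finset.eq_empty_iff_forall_notMem]
      intro v hv
      obtain ⟨k, i, h1, -⟩ := mem_rg.1 (hA hv)
      push_cast at h1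
      omega
    rw [this, zC_emp]
    exact one_pos
  | succ n ih =>
    set a : ℤ := b - (n + 1 : ℕ) with ha
    have ha1 : b - (n : ℤ) = a + 1 := by
      rw [ha]
      push_cast
      ring
    rw [ha1] at ih
    have hab : a < b := by
      rw [ha]
      push_cast
      omega
    have hr : rg N (a + 1) b ⊆ rg N a b := rg_mono (by omega) le_rfl
    -- the upper vertices
    have hU : ∀ j : ℕ, j ≤ N → ∀ D, D ⊆ rg N (a + 1) b ∪ (Finset.range j).image (fun i : ℕ => _root_.EXL.B a i) →
        0 < zC (Cy N hN) D := by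
      intro j
      induction j with
      | zero =>
        intro _ D hD
        refine ih D ?_
        simpa using hD
      | succ j ihj =>
        intro hj D hD
        have h0 := ihj (by omega)
        set U := rg N (a + 1) b ∪ (Finset.range j).image (fun i : ℕ => _root_.EXL.B a i) with hUdef
        have e1 : rg N (a + 1) b ∪ (Finset.range (j + 1)).image (fun i : ℕ => _root_.EXL.B a i) =
            insert (_root_.EXL.B a j) U := by
          rw [Finset.range_add_one, Finset.image_insert, Finset.union_insert]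
        rw [e1] at hD
        have hUr : U ⊆ rg N a b := by
          refine Finset.union_subset hr fun v hv => ?_
          obtain ⟨i, hi, rfl⟩ := Finset.mem_image.1 hv
          rw [Finset.mem_range] at hi
          exact mem_rg.2 ⟨a, i, ⟨le_rfl, hab⟩, ⟨by positivity, by exact_mod_cast (by omega : i < N)⟩, Or.inr rfl⟩
        have hUA : ∀ i : ℤ, _root_.EXL.A a i ∉ U := by
          intro i hi
          rcases Finset.mem_union.1 hi with h | h
          · have := rg_A h
            omega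
          · obtain ⟨i', -, e⟩ := Finset.mem_image.1 h
            have := congrArg lev e
            simp only [lev_A, lev_B] at this
            omega
        have hUB : _root_.EXL.B a j ∉ U := by
          intro hi
          rcases Finset.mem_union.1 hi with h | h
          · have := rg_B h
            omega
          · obtain ⟨i', h1, e⟩ := Finset.mem_image.1 h
            rw [Finset.mem_range] at h1
            have := congrArg ri e
            simp only [ri_B] at this
            omega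
        have hjN : 0 ≤ (j : ℤ) ∧ (j : ℤ) < N := ⟨by positivity, by exact_mod_cast hj⟩
        exact G.pos h0 (ins_upp hab hUr hUA hjN hUB h0
          (fun t ht => wind_upp hUr Finset.subset_union_left hUA hjN hUB ht)) D hD
    -- the lower vertices
    have hL : ∀ j : ℕ, j ≤ N → ∀ D, D ⊆ (rg N (a + 1) b ∪ (Finset.range N).image (fun i : ℕ => _root_.EXL.B a i)) ∪
        (Finset.range j).image (fun i : ℕ => _root_.EXL.A a i) → 0 < zC (Cy N hN) D := by
      intro j
      induction j with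
      | zero =>
        intro _ D hD
        refine hU N le_rfl D ?_
        simpa using hD
      | succ j ihj =>
        intro hj D hD
        have h0 := ihj (by omega)
        set U := (rg N (a + 1) b ∪ (Finset.range N).image (fun i : ℕ => _root_.EXL.B a i)) ∪
          (Finset.range j).image (fun i : ℕ => _root_.EXL.A a i) with hUdef
        have e1 : (rg N (a + 1) b ∪ (Finset.range N).image (fun i : ℕ => _root_.EXL.B a i)) ∪
            (Finset.range (j + 1)).image (fun i : ℕ => _root_.EXL.A a i) = insert (_root_.EXL.A a j) U := by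
          rw [Finset.range_add_one, Finset.image_insert, Finset.union_insert]
        rw [e1] at hD
        have hUr : U ⊆ rg N a b := by
          refine Finset.union_subset (Finset.union_subset hr fun v hv => ?_) fun v hv => ?_
          · obtain ⟨i, hi, rfl⟩ := Finset.mem_image.1 hv
            rw [Finset.mem_range] at hi
            exact mem_rg.2 ⟨a, i, ⟨le_rfl, hab⟩, ⟨by positivity, by exact_mod_cast hi⟩, Or.inr rfl⟩
          · obtain ⟨i, hi, rfl⟩ := Finset.mem_image.1 hv
            rw [Finset.mem_range] at hi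
            exact mem_rg.2 ⟨a, i, ⟨le_rfl, hab⟩, ⟨by positivity, by exact_mod_cast (by omega : i < N)⟩, Or.inl rfl⟩
        have hjN : 0 ≤ (j : ℤ) ∧ (j : ℤ) < N := ⟨by positivity, by exact_mod_cast hj⟩
        have hUB : ∀ i : ℤ, 0 ≤ i → i < N → _root_.EXL.B a i ∈ U := by
          intro i h1 h2
          obtain ⟨i, rfl⟩ := Int.eq_ofNat_of_zero_le h1
          refine Finset.mem_union_left _ (Finset.mem_union_right _ (Finset.mem_image_of_mem _ ?_))
          rw [Finset.mem_range]
          exact_mod_cast h2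
        have hU1 : rg N (a + 1) b ⊆ U := Finset.subset_union_left.trans Finset.subset_union_left
        have hI : insert (_root_.EXL.A a j) U ⊆ rg N a b :=
          Finset.insert_subset (mem_rg.2 ⟨a, j, ⟨le_rfl, hab⟩, hjN, Or.inl rfl⟩) hUr
        exact G.pos h0 (ins_low hab hUr hU1 hUB hjN h0
          (fun t ht => wind_low hI (hU1.trans (Finset.subset_insert _ _))
            (fun i h1 h2 => Finset.mem_insert_of_mem (hUB i (by positivity) (by exact_mod_cast h2))) hjN
            (Finset.mem_insert_self _ _) ht)) D hD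
    intro A hA
    refine hL N le_rfl A fun v hv => ?_
    obtain ⟨k, i, h1, h2, h3⟩ := mem_rg.1 (hA hv)
    rcases eq_or_lt_of_le h1.1 with e | h
    · subst e
      obtain ⟨i, rfl⟩ := Int.eq_ofNat_of_zero_le h2.1
      have hi : i ∈ Finset.range N := by
        rw [Finset.mem_range]
        exact_mod_cast h2.2
      rcases h3 with rfl | rfl
      · exact Finset.mem_union_right _ (Finset.mem_image_of_mem _ hi)
      · exact Finset.mem_union_left _ (Finset.mem_union_right _ (Finset.mem_image_of_mem _ hi))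
    · exact Finset.mem_union_left _ (Finset.mem_union_left _ (mem_rg.2 ⟨k, i, ⟨by omega, h1.2⟩, h2, h3⟩))

end ins

end Pool.Agent.GLD
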