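import Pool.Agent.GLD.Ax1
import Pool.Agent.GLD.Cross2
import Pool.Agent.GLD.Wind
import Pool.Agent.GLD.Pos

/-!
# GLd, Ax, part 2: exponential decay of the bridges of the cylinder (unconditional)
-/

set_option autoImplicit false

namespace Pool.Agent.GLD

open Pool.Agent.NUF.Cyl HexObs HexObs.LP Finset

theorem plIn (N : ℕ) (hN : 1 ≤ N) : PlIn N hN := ⟨arcM_le, brM_le, fun g => (arc_step g).2⟩

theorem axIn (N : ℕ) (hN : 1 ≤ N) : AxIn N hN where
  pos := fun _ _ _ hA => zC_pos hA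
  anti := fun _ _ A A' hA hs => GasS.anti (zC_gas (hN := hN)) (fun D' hD' => zC_pos (hD'.trans hA)) hs
  sub := fun _ _ A A' hA hd => GasS.sub (zC_gas (hN := hN)) (fun E hE => zC_pos (hE.trans hA)) hd
  tr := fun a b k => zC_tr a b k
  down := fun ht hd => wind_down ht hd
  up := fun ht hd => wind_up ht hd
  meets := fun ht hd _ hE hW => br_meets ht hd hE hW

/-- **Exponential decay of the bridges of the cylinder with `N` rows.** -/
theorem ax_dec : ∃ c : ℝ, 0 < c ∧ ∃ N0 : ℕ, ∀ (N : ℕ) (hN : 1 ≤ N), N0 ≤ N → ∀ h : ℕ,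
    brM N hN h ≤ Real.exp (1 - c * h / (N * Real.log N ^ 2)) :=
  ax_dec_of (fun N hN _ => axIn N hN) (fun N hN _ => plIn N hN)

end Pool.Agent.GLD
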