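import Pool.Agent.GLD.Defs
import Pool.Agent.Tight.Arcs

/-!
# Crossings on the cylinder (doc glink/GLD_STUBS, A5)

`br_meets`: a bridge of the cylinder meets every winding polygon.  `arc_short`: an arc of the cylinder ends less than
one period beside its start.
-/

set_option autoImplicit false

namespace HexObs

namespace Planar

open Finset

/-- one step of a path disjoint from `a`: the number of vertical edges to the left changes at the level of the ends -/
lemma JJ_adj {a : ℕ → ℤ × ℤ} {n : ℕ} (ha : ∀ i, i ≤ n → Adj (a i) (a (i + 1))) (h3 : (a 0).2 % 3 = 0)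
    (he : (a (n + 1)).2 = (a 0).2) {r r' : ℤ × ℤ} (h : EE r r')
    (hlr : ((a 0).1 + 1 < r.1 ∧ r.1 + 1 < (a (n + 1)).1) ∨ ((a (n + 1)).1 + 1 < r.1 ∧ r.1 + 1 < (a 0).1))
    (hr : ∀ i, i ≤ n + 1 → a i ≠ r) (hr' : ∀ i, i ≤ n + 1 → a i ≠ r') :
    KK a n r + (if r.2 < (a 0).2 then 1 else 0) = KK a n r' + (if r'.2 < (a 0).2 then 1 else 0) := by
  obtain ⟨e1, e2, e3⟩ := h
  have hsum : ∀ x y z w : ZMod 2, x + y = z + w → x + z = y + w := by decide
  rcases e3 with ⟨b1, b2⟩ | ⟨b1, b2⟩ | ⟨b1, b2⟩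
  · have h1 : KK a n r = KK a n r' := by
      unfold KK
      apply sum_congr rfl
      intro i hi
      rw [mem_range] at hi
      exact kap_vert (ha i (by omega)) e1 b1 b2
    have h2 : (r.2 < (a 0).2) ↔ (r'.2 < (a 0).2) := by omega
    rw [h1]
    simp only [h2]
  · apply hsum
    have h1 : ∀ i ∈ range (n + 1), kap (a i) (a (i + 1)) r + kap (a i) (a (i + 1)) r' =
        phi 1 r (a i) + phi 1 r (a (i + 1)) := by
      intro i hi
      rw [mem_range] at hi
      exact kap_right (ha i (by omega)) e1 e2 b1 b2 (hr' i (by omega)) (hr' (i + 1) (by omega))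
    unfold KK
    rw [← sum_add_distrib, sum_congr rfl h1, sum_tele (fun i => phi 1 r (a i)) n]
    unfold phi
    rcases hlr with hlr | hlr
    · have k2 : ¬ (((a (n + 1)).2 = r.2 ∧ (a (n + 1)).1 ≤ r.1) ∨
          ((a (n + 1)).2 = r.2 - 1 ∧ (a (n + 1)).1 ≤ r.1 + 1)) := by omega
      rw [if_neg k2]
      split_ifs <;> first | rfl | (exfalso; omega)
    · have k2 : ¬ (((a 0).2 = r.2 ∧ (a 0).1 ≤ r.1) ∨ ((a 0).2 = r.2 - 1 ∧ (a 0).1 ≤ r.1 + 1)) := by omega
      rw [if_neg k2]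
      split_ifs <;> first | rfl | (exfalso; omega)
  · apply hsum
    have h1 : ∀ i ∈ range (n + 1), kap (a i) (a (i + 1)) r + kap (a i) (a (i + 1)) r' =
        phi 0 r (a i) + phi 0 r (a (i + 1)) := by
      intro i hi
      rw [mem_range] at hi
      exact kap_left (ha i (by omega)) e1 e2 b1 b2 (hr i (by omega)) (hr (i + 1) (by omega))
    unfold KK
    rw [← sum_add_distrib, sum_congr rfl h1, sum_tele (fun i => phi 0 r (a i)) n]
    unfold phi
    rcases hlr with hlr | hlr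
    · have k2 : ¬ (((a (n + 1)).2 = r.2 ∧ (a (n + 1)).1 ≤ r.1) ∨
          ((a (n + 1)).2 = r.2 - 1 ∧ (a (n + 1)).1 ≤ r.1 + 0)) := by omega
      rw [if_neg k2]
      split_ifs <;> first | rfl | (exfalso; omega)
    · have k2 : ¬ (((a 0).2 = r.2 ∧ (a 0).1 ≤ r.1) ∨ ((a 0).2 = r.2 - 1 ∧ (a 0).1 ≤ r.1 + 0)) := by omega
      rw [if_neg k2]
      split_ifs <;> first | rfl | (exfalso; omega)

/-- a path from the far left to the far right is met by every path from below it to above it -/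
theorem cross_inf {a g : ℕ → ℤ × ℤ} {n m : ℕ} (ha : ∀ i, i ≤ n → Adj (a i) (a (i + 1)))
    (hg : ∀ j, j < m → Adj (g j) (g (j + 1))) (h3 : (a 0).2 % 3 = 0) (he : (a (n + 1)).2 = (a 0).2)
    (hlow : ∀ i, i ≤ n + 1 → (g 0).2 < (a i).2) (htop : ∀ i, i ≤ n + 1 → (a i).2 < (g m).2)
    (hlr : ∀ j, j ≤ m → ((a 0).1 + 2 < (g j).1 ∧ (g j).1 + 2 < (a (n + 1)).1) ∨
      ((a (n + 1)).1 + 2 < (g j).1 ∧ (g j).1 + 2 < (a 0).1))
    (hdis : ∀ i, i ≤ n + 1 → ∀ j, j ≤ m → a i ≠ g j) : False := by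
  have key : ∀ j, j ≤ m → KK a n (g j) + (if (g j).2 < (a 0).2 then 1 else 0) =
      KK a n (g 0) + (if (g 0).2 < (a 0).2 then 1 else 0) := by
    intro j
    induction j with
    | zero => intro _; rfl
    | succ j ih =>
      intro hj
      rw [← ih (by omega)]
      have l1 := hlr j (by omega)
      have l2 := hlr (j + 1) hj
      rcases hg j (by omega) with h | h
      · exact (JJ_adj ha h3 he h (by omega) (fun i hi => hdis i hi j (by omega))
          (fun i hi => hdis i hi (j + 1) hj)).symm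
      · exact JJ_adj ha h3 he h (by omega) (fun i hi => hdis i hi (j + 1) hj)
          (fun i hi => hdis i hi j (by omega))
  have k1 := key m le_rfl
  rw [KK_top htop] at k1
  have k2 : KK a n (g 0) = 0 := by
    unfold KK
    apply sum_eq_zero
    intro i hi
    rw [mem_range] at hi
    unfold kap
    rw [if_neg]
    have h1 := hlow i (by omega)
    have h2 := hlow (i + 1) (by omega)
    omega
  have k3 := htop 0 (by omega)
  have k4 := hlow 0 (by omega)
  rw [k2, if_neg (by omega), if_pos k4, add_zero, zero_add] at k1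
  revert k1
  decide

end Planar

end HexObs

namespace Pool.Agent.GLD

open Pool.Agent.NUF.Cyl HexObs HexObs.LP

variable {N : ℕ} {hN : 1 ≤ N}

namespace Crs

theorem ax_mem : ax ∈ dirs := by decide

theorem mem_rg {a b : ℤ} {v : Pt} : v ∈ rg N a b ↔ ∃ k i : ℤ, (a ≤ k ∧ k < b) ∧ (0 ≤ i ∧ i < N) ∧
    (v = _root_.EXL.A k i ∨ v = _root_.EXL.B k i) := by
  unfold rg
  simp only [Finset.mem_union, Finset.mem_image, Finset.mem_product, Finset.mem_Ico, Prod.exists]
  constructor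
  · rintro (⟨k, i, ⟨⟨h1, h2⟩, h3, h4⟩, rfl⟩ | ⟨k, i, ⟨⟨h1, h2⟩, h3, h4⟩, rfl⟩)
    · exact ⟨k, i, ⟨h1, h2⟩, ⟨h3, h4⟩, Or.inl rfl⟩
    · exact ⟨k, i, ⟨h1, h2⟩, ⟨h3, h4⟩, Or.inr rfl⟩
  · rintro ⟨k, i, ⟨h1, h2⟩, ⟨h3, h4⟩, rfl | rfl⟩
    · exact Or.inl ⟨k, i, ⟨⟨h1, h2⟩, h3, h4⟩, rfl⟩
    · exact Or.inr ⟨k, i, ⟨⟨h1, h2⟩, h3, h4⟩, rfl⟩

theorem lev_A (k i : ℤ) : lev (_root_.EXL.A k i) = 3 * k - 1 := by
  simp only [lev, _root_.EXL.A]
  ring

theorem lev_B (k i : ℤ) : lev (_root_.EXL.B k i) = 3 * k := by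
  simp only [lev, _root_.EXL.B]
  ring

theorem cl_iff (v : Pt) (c : ℤ) : cl v = (c : ZMod 3) ↔ lev v % 3 = c % 3 := by
  unfold cl lev
  rw [ZMod.intCast_eq_intCast_iff]
  rfl

theorem lev_mod {v : Pt} (hv : Vt v) : lev v % 3 = 0 ∨ lev v % 3 = 2 := by
  have h : ¬ (cl v = ((1 : ℤ) : ZMod 3)) := by
    intro h
    exact hv (by simpa using h)
  rw [cl_iff] at h
  omega

theorem lev_nm (v : Pt) : lev ((Cy N hN).nm v) = lev v := nn_nm hN v

theorem nm_ri (v : Pt) : (Cy N hN).nm v = tr (-((N : ℤ) * (ri v / N))) v := rfl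

theorem ri_nm (v : Pt) : 0 ≤ ri ((Cy N hN).nm v) ∧ ri ((Cy N hN).nm v) < N := by
  rw [nm_ri, ri_tr]
  have h1 : (0 : ℤ) < N := by omega
  have h2 := Int.emod_nonneg (ri v) h1.ne'
  have h3 := Int.emod_lt_of_pos (ri v) h1
  have h4 := Int.mul_ediv_add_emod (ri v) N
  constructor <;> linarith

theorem vt_form {u : Pt} (hu : Vt u) : (lev u % 3 = 2 ∧ u = _root_.EXL.A ((lev u + 1) / 3) (ri u)) ∨
    (lev u % 3 = 0 ∧ u = _root_.EXL.B (lev u / 3) (ri u)) := by
  rcases lev_mod hu with h | h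
  · refine Or.inr ⟨h, Prod.ext ?_ ?_⟩ <;> simp only [_root_.EXL.B, ri, lev] at h ⊢ <;> omega
  · refine Or.inl ⟨h, Prod.ext ?_ ?_⟩ <;> simp only [_root_.EXL.A, ri, lev] at h ⊢ <;> omega

/-- a vertex of the plane lies over the rings iff its level does. -/
theorem nm_rg {a b : ℤ} {v : Pt} (hv : Vt v) :
    (Cy N hN).nm v ∈ rg N a b ↔ 3 * a - 1 ≤ lev v ∧ lev v ≤ 3 * b - 3 := by
  rw [← lev_nm (hN := hN) v, mem_rg]
  constructor
  · rintro ⟨k, i, ⟨h1, h2⟩, -, h | h⟩
    · rw [h, lev_A]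
      omega
    · rw [h, lev_B]
      omega
  · intro h
    have h1 := ri_nm (hN := hN) v
    rcases vt_form (Nm.vt_nm (C := Cy N hN) |>.2 hv) with ⟨h2, h3⟩ | ⟨h2, h3⟩
    · exact ⟨_, _, by omega, h1, Or.inl h3⟩
    · exact ⟨_, _, by omega, h1, Or.inr h3⟩

theorem ft_lev (a i : ℤ) : lev (ft a i).1 = 3 * a - 3 := by
  unfold ft
  rw [lev_B]
  ring

theorem ft_cl (a i : ℤ) : cl (ft a i).1 = 0 := by
  have h := (cl_iff (ft a i).1 0).2 (by rw [ft_lev]; omega)
  simpa using h

theorem cl_ax : cl ax = 2 := by decide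

/-- the levels of the vertices of a word from a foot. -/
theorem vx_mod (a i : ℤ) (t : List Bool) (j : ℕ) :
    lev (vx (ft a i).1 ax t j) % 3 = if Even j then 0 else 2 := by
  have h : cl (vx (ft a i).1 ax t j) = if Even j then cl (ft a i).1 else cl (ft a i).1 + cl ax := cl_vs j
  rw [ft_cl, cl_ax, zero_add] at h
  split_ifs at h ⊢ with hj
  · exact (cl_iff _ 0).1 (by simpa using h)
  · exact (cl_iff _ 2).1 (by rw [h]; rfl)

theorem vx_vt (a i : ℤ) (t : List Bool) (j : ℕ) : Vt (vx (ft a i).1 ax t j) := by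
  have h := vx_mod a i t j
  intro h1
  have h2 := (cl_iff (vx (ft a i).1 ax t j) 1).1 (by simpa using h1)
  split_ifs at h <;> omega

theorem xy_lev (v0 v : Pt) : (xy v0 ax v).2 = lev v - lev v0 := ip_col v v0

theorem xy_fst (v0 v : Pt) : (xy v0 ax v).1 = (v0.1 + v0.2) - (v.1 + v.2) := by
  show -(cross ax (v - v0)) = _
  simp only [cross, ax, Prod.fst_sub, Prod.snd_sub]
  ring

theorem adj_of {v0 q e : Pt} (hv0 : cl v0 = 0) (he : e ∈ dirs) (h1 : Vt q) (h2 : Vt (q + e)) :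
    Planar.Adj (xy v0 ax q) (xy v0 ax (q + e)) := by
  have hc : ∀ d ∈ dirs, cl d ≠ 0 := by decide
  have h3 := hc e he
  unfold Vt at h1 h2
  rw [cl_add] at h2
  have key : ∀ x y : ZMod 3, x ≠ 1 → x + y ≠ 1 → y ≠ 0 → (x = 0 ∧ y = 2) ∨ (x + y = 0 ∧ -y = 2) := by decide
  rcases key _ _ h1 h2 h3 with ⟨e1, e2⟩ | ⟨e1, e2⟩
  · exact Or.inl (xy_edge ax_mem he (e1.trans hv0.symm) (e2.trans cl_ax.symm))
  · have h4 := xy_edge (v0 := v0) (p := q + e) (e := -e) ax_mem (neg_mem_dirs he) (by rw [cl_add, e1, hv0])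
      (by rw [cl_neg, e2, cl_ax])
    rw [add_neg_cancel_right] at h4
    exact Or.inr h4

/-- the ends of a bridge. -/
theorem tip_up {a b i : ℤ} {t : List Bool} (ht : t ∈ exC (Cy N hN) (rg N a b) (ft a i))
    (hd : dx ax t t.length = ax) (hab : a < b) : lev (tip (ft a i).1 ax t) = 3 * b - 1 := by
  unfold exC at ht
  rw [Finset.mem_filter, Nm.mem_arr] at ht
  obtain ⟨h1, h2⟩ := ht
  have e : (Cy N hN).nb ((Cy N hN).le (ft a i) t) = (Cy N hN).nm (tip (ft a i).1 ax t) := by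
    unfold Nm.nb Nm.le
    simp only
    rw [(Cy N hN).add]
    rfl
  have hl : lev (tip (ft a i).1 ax t) = lev (vx (ft a i).1 ax t t.length) + 2 := by
    show lev (vx (ft a i).1 ax t t.length + dx ax t t.length) = _
    rw [hd]
    simp only [lev, ax, Prod.fst_add, Prod.snd_add]
    ring
  rw [e] at h2
  have h3 := (not_congr (nm_rg (hN := hN) (a := a) (b := b) (vx_vt a i t (t.length + 1)))).1 h2
  change ¬ (3 * a - 1 ≤ lev (tip (ft a i).1 ax t) ∧ lev (tip (ft a i).1 ax t) ≤ 3 * b - 3) at h3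
  rw [hl] at h3 ⊢
  have h4 := vx_mod a i t t.length
  have h5 := vx_mod a i t (t.length + 1)
  have h6 : lev (vx (ft a i).1 ax t (t.length + 1)) = lev (vx (ft a i).1 ax t t.length) + 2 := hl
  rw [h6] at h5
  rcases Nat.eq_zero_or_pos t.length with h0 | h0
  · have h7 : lev (vx (ft a i).1 ax t t.length) = 3 * a - 3 := by
      rw [h0]
      exact ft_lev a i
    rw [h7] at h3 ⊢
    omega
  · have h7 := h1.mem t.length h0 le_rfl
    have h8 := (nm_rg (hN := hN) (vx_vt a i t t.length)).1 h7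
    split_ifs at h4 h5 with c1 c2 c2
    all_goals omega

/-- the ends of an arc. -/
theorem tip_down {a b i : ℤ} {t : List Bool} (ht : t ∈ exC (Cy N hN) (rg N a b) (ft a i))
    (hd : dx ax t t.length = -ax) : lev (tip (ft a i).1 ax t) = 3 * a - 3 ∧ 2 ≤ t.length := by
  unfold exC at ht
  rw [Finset.mem_filter, Nm.mem_arr] at ht
  obtain ⟨h1, h2⟩ := ht
  have e : (Cy N hN).nb ((Cy N hN).le (ft a i) t) = (Cy N hN).nm (tip (ft a i).1 ax t) := by
    unfold Nm.nb Nm.le
    simp only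
    rw [(Cy N hN).add]
    rfl
  have hl : lev (tip (ft a i).1 ax t) = lev (vx (ft a i).1 ax t t.length) - 2 := by
    show lev (vx (ft a i).1 ax t t.length + dx ax t t.length) = _
    rw [hd]
    simp only [lev, ax, Prod.fst_add, Prod.snd_add, Prod.fst_neg, Prod.snd_neg]
    ring
  have h0 : 2 ≤ t.length := by
    by_contra hcon
    rcases t with _ | ⟨b0, t⟩
    · have : ax = -ax := hd
      exact absurd this (by decide)
    · rcases t with _ | ⟨b1, t⟩
      · have h3 : turn b0 ax = -ax := hd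
        have key : ∀ b : Bool, turn b ax ≠ -ax := by decide
        exact key b0 h3
      · simp at hcon
  refine ⟨?_, h0⟩
  rw [e] at h2
  have h3 := (not_congr (nm_rg (hN := hN) (a := a) (b := b) (vx_vt a i t (t.length + 1)))).1 h2
  change ¬ (3 * a - 1 ≤ lev (tip (ft a i).1 ax t) ∧ lev (tip (ft a i).1 ax t) ≤ 3 * b - 3) at h3
  rw [hl] at h3 ⊢
  have h4 := vx_mod a i t t.length
  have h5 := vx_mod a i t (t.length + 1)
  have h6 : lev (vx (ft a i).1 ax t (t.length + 1)) = lev (vx (ft a i).1 ax t t.length) - 2 := hl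
  rw [h6] at h5
  have h7 := h1.mem t.length (by omega) le_rfl
  have h8 := (nm_rg (hN := hN) (vx_vt a i t t.length)).1 h7
  split_ifs at h4 h5 with c1 c2 c2
  all_goals omega

/-- horizontal extent of a word. -/
theorem xy_bd (a i : ℤ) (t : List Bool) (j : ℕ) : |(xy (ft a i).1 ax (vx (ft a i).1 ax t j)).1| ≤ j := by
  induction j with
  | zero =>
    rw [xy_fst]
    show |((ft a i).1.1 + (ft a i).1.2) - ((ft a i).1.1 + (ft a i).1.2)| ≤ _
    rw [sub_self, abs_zero]
    exact le_rfl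
  | succ j ih =>
    have h := xy_adj (v0 := (ft a i).1) (v1 := (ft a i).1) ax_mem rfl t j
    unfold Planar.Adj Planar.EE at h
    rw [abs_le] at ih ⊢
    push_cast
    rcases h with ⟨-, -, h⟩ | ⟨-, -, h⟩ <;> constructor <;> omega

theorem sum_cE {C : Nm} {p : Pt × Pt} {s : List Bool} (h : C.Clo p s) :
    ∑ q ∈ C.cE p s, q.2 = vx p.1 p.2 s s.length - p.1 := by
  unfold Nm.cE
  rw [Finset.sum_image]
  · have key : ∀ n, ∑ i ∈ Finset.range n, dx p.2 s i = vx p.1 p.2 s n - p.1 := by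
      intro n
      induction n with
      | zero =>
        rw [Finset.sum_range_zero]
        exact (sub_self p.1).symm
      | succ n ih =>
        rw [Finset.sum_range_succ, ih]
        show _ = vx p.1 p.2 s n + dx p.2 s n - p.1
        abel
    exact key _
  · intro i hi k hk e
    rw [Finset.mem_coe, Finset.mem_range] at hi hk
    exact h.inj0 hi hk (congrArg Prod.fst e)

/-- a polygon has a half edge of every type. -/
theorem root0 {C : Nm} {E : Finset (Pt × Pt)} (h : C.IsP E) : ∃ p s, C.Clo p s ∧ C.cE p s = E ∧ cl p.1 = 0 := by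
  obtain ⟨q, hq⟩ := h.nonempty
  by_cases hc : cl q.1 = 0
  · obtain ⟨s, h1, h2⟩ := h.root hq
    exact ⟨q, s, h1, h2, hc⟩
  · have h3 := h.VE_nb hq
    obtain ⟨d, hd⟩ := Nm.mem_VE.1 h3
    obtain ⟨s, h1, h2⟩ := h.root hd
    refine ⟨_, s, h1, h2, ?_⟩
    have h4 := (h.de hq).1
    have h5 := (h.nm_VE h3).2
    have h6 : cl (C.nb q) = cl q.1 + cl q.2 := by
      unfold Nm.nb
      rw [C.cl, cl_add]
    unfold Vt at h5
    show cl (C.nb q) = 0
    rw [h6] at h5 ⊢
    have hcd : ∀ d ∈ dirs, cl d ≠ 0 := by decide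
    have key : ∀ x y : ZMod 3, x ≠ 0 → x ≠ 1 → y ≠ 0 → x + y ≠ 1 → x + y = 0 := by decide
    exact key _ _ hc h4.2.1 (hcd _ h4.1) h5

end Crs

open Crs

/-- **A5.** A bridge of the cylinder meets every winding polygon. -/
theorem br_meets {a b i : ℤ} {t : List Bool} (ht : t ∈ exC (Cy N hN) (rg N a b) (ft a i))
    (hd : dx ax t t.length = ax) {E : Finset (Pt × Pt)} (hE : E ∈ (Cy N hN).polys (rg N a b)) (hW : Wnd E) :
    ¬ Disjoint (VE E) ((Cy N hN).vt (ft a i) t) := by
  intro hdj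
  rw [Nm.mem_polys] at hE
  obtain ⟨hP, hV⟩ := hE
  obtain ⟨p, s, hc, rfl, hp0⟩ := root0 hP
  -- the levels of the polygon
  have hlevP : ∀ j, j < s.length → 3 * a - 1 ≤ lev (vx p.1 p.2 s j) ∧ lev (vx p.1 p.2 s j) ≤ 3 * b - 3 := by
    intro j hj
    have h1 := hV (Nm.mem_VE_cE.2 ⟨j, hj, rfl⟩)
    have h2 : Vt (vx p.1 p.2 s j) := by
      have := (Nm.De_vx hc.de s j).1.2.1
      exact Nm.vt_nm (C := Cy N hN) |>.1 this
    exact (nm_rg h2).1 h1
  have hpos := hc.pos
  have hab : a < b := by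
    have := hlevP 0 hpos
    omega
  have htip := tip_up ht hd hab
  have ht' := ht
  unfold exC at ht'
  rw [Finset.mem_filter, Nm.mem_arr] at ht'
  obtain ⟨hA, -⟩ := ht'
  -- the displacement
  have hQ0 : vx p.1 p.2 s s.length - p.1 ≠ 0 := by
    rw [← sum_cE hc]
    exact hW
  obtain ⟨z, hz⟩ : ∃ z : ℤ, vx p.1 p.2 s s.length = tr (N * z) p.1 := by
    have h1 := (Nm.clo_nm hc.le).1
    obtain ⟨u, hu⟩ : ∃ u, u = vx p.1 p.2 s s.length := ⟨_, rfl⟩
    rw [← hu] at h1 ⊢
    rw [nm_ri] at h1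
    refine ⟨ri u / N, ?_⟩
    rw [← h1]
    simp only [tr]
    refine Prod.ext ?_ ?_ <;> simp only <;> ring
  have hz0 : z ≠ 0 := by
    rintro rfl
    apply hQ0
    rw [hz, sub_eq_zero]
    simp [tr]
  -- the lift
  obtain ⟨v0, hv0⟩ : ∃ v0, v0 = (ft a i).1 := ⟨_, rfl⟩
  obtain ⟨X, hX⟩ : ∃ X, X = (xy v0 ax p.1).1 := ⟨_, rfl⟩
  obtain ⟨K, hK⟩ : ∃ K : ℕ, K = X.natAbs + t.length + 5 := ⟨_, rfl⟩
  obtain ⟨n, hn⟩ : ∃ n, n = s.length := ⟨_, rfl⟩
  obtain ⟨Lf, hLf⟩ : ∃ Lf : ℕ → Pt, ∀ j, Lf j = tr (N * z * (((j / n : ℕ) : ℤ) - K)) (vx p.1 p.2 s (j % n)) :=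
    ⟨_, fun _ => rfl⟩
  rw [← hn] at hpos hz
  have hlevt : ∀ c v, lev (tr c v) = lev v := fun c v => by
    simp only [lev, tr]
    ring
  have hVt : ∀ c v, Vt (tr c v) ↔ Vt v := fun c v => by
    have e : cl (tr c v) = cl v := by
      simp only [cl, tr]
      congr 1
      ring
    unfold Vt
    rw [e]
  have hmod : ∀ j, j % n < n := fun j => Nat.mod_lt _ hpos
  have hLlev : ∀ j, 3 * a - 1 ≤ lev (Lf j) ∧ lev (Lf j) ≤ 3 * b - 3 := fun j => by
    rw [hLf, hlevt]
    exact hlevP _ (by rw [← hn]; exact hmod j)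
  have hLnm : ∀ j, (Cy N hN).nm (Lf j) ∈ VE ((Cy N hN).cE p s) := fun j => by
    rw [hLf, mul_assoc]
    have e : (Cy N hN).nm (tr (N * (z * (((j / n : ℕ) : ℤ) - K))) (vx p.1 p.2 s (j % n))) =
        (Cy N hN).nm (vx p.1 p.2 s (j % n)) := nmN_tr N hN _ _
    rw [e]
    exact Nm.mem_VE_cE.2 ⟨_, by rw [← hn]; exact hmod j, rfl⟩
  have hnext : ∀ j, Lf (j + 1) = Lf j + dx p.2 s (j % n) := by
    intro j
    have hvx : vx p.1 p.2 s (j % n + 1) = vx p.1 p.2 s (j % n) + dx p.2 s (j % n) := rfl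
    have e : Lf (j + 1) = tr (N * z * (((j / n : ℕ) : ℤ) - K)) (vx p.1 p.2 s (j % n + 1)) := by
      rw [hLf]
      have hdm := Nat.div_add_mod j n
      rcases Nat.lt_or_ge (j % n + 1) n with c | c
      · have e1 : (j + 1) / n = j / n := by
          have e3 : j + 1 = n * (j / n) + (j % n + 1) := by omega
          rw [e3, Nat.mul_add_div hpos, Nat.div_eq_of_lt c, Nat.add_zero]
        have e2 : (j + 1) % n = j % n + 1 := by
          have e3 : j + 1 = n * (j / n) + (j % n + 1) := by omega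
          conv_lhs => rw [e3]
          rw [Nat.mul_add_mod, Nat.mod_eq_of_lt c]
        rw [e1, e2]
      · have c' : j % n + 1 = n := by
          have := hmod j
          omega
        have e3 : j + 1 = n * (j / n + 1) := by
          rw [Nat.mul_add, Nat.mul_one]
          omega
        have e1 : (j + 1) / n = j / n + 1 := by
          rw [e3, Nat.mul_div_cancel_left _ hpos]
        have e2 : (j + 1) % n = 0 := by
          rw [e3, Nat.mul_mod_right]
        rw [e1, e2, c', hz]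
        have e4 : vx p.1 p.2 s 0 = p.1 := rfl
        rw [e4]
        simp only [tr]
        push_cast
        refine Prod.ext ?_ ?_ <;> simp only <;> ring
    rw [e, hvx, hLf]
    simp only [tr]
    refine Prod.ext ?_ ?_ <;> simp only [Prod.fst_add, Prod.snd_add] <;> ring
  have hLV : ∀ j, Vt (Lf j) := fun j => by
    rw [hLf, hVt]
    exact Nm.vt_nm (C := Cy N hN) |>.1 (Nm.De_vx hc.de s (j % n)).1.2.1
  have hclv : cl v0 = 0 := by
    rw [hv0]
    exact ft_cl a i
  have hlv0 : lev v0 = 3 * a - 3 := by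
    rw [hv0]
    exact ft_lev a i
  have hKp : 0 < K := by omega
  have h2K : 2 * K * n - 1 + 1 = 2 * K * n := Nat.sub_add_cancel (Nat.mul_pos (by omega) hpos)
  have hL0 : Lf 0 = tr (N * z * (-(K : ℤ))) p.1 := by
    rw [hLf, Nat.zero_div, Nat.zero_mod]
    show tr (N * z * (((0 : ℕ) : ℤ) - K)) p.1 = _
    congr 2
    push_cast
    ring
  have hLe : Lf (2 * K * n - 1 + 1) = tr (N * z * K) p.1 := by
    rw [h2K, hLf, Nat.mul_div_cancel _ hpos, Nat.mul_mod_left]
    show tr (N * z * (((2 * K : ℕ) : ℤ) - K)) p.1 = _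
    congr 2
    push_cast
    ring
  have hx : ∀ c, (xy v0 ax (tr c p.1)).1 = X - 2 * c := fun c => by
    rw [hX, xy_fst, xy_fst]
    simp only [tr]
    ring
  have hgb : ∀ j, j ≤ t.length + 1 → |(xy v0 ax (vx v0 ax t j)).1| ≤ t.length + 1 := by
    intro j hj
    have h1 := xy_bd a i t j
    rw [← hv0] at h1
    have h2 : (j : ℤ) ≤ t.length + 1 := by exact_mod_cast hj
    linarith
  have hXb : -(X.natAbs : ℤ) ≤ X ∧ X ≤ X.natAbs := by omega
  have hN1 : (1 : ℤ) ≤ N := by exact_mod_cast hN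
  refine Planar.cross_inf (a := fun j => xy v0 ax (Lf j)) (g := fun j => xy v0 ax (vx v0 ax t j))
    (n := 2 * K * n - 1) (m := t.length + 1) ?_ ?_ ?_ ?_ ?_ ?_ ?_ ?_
  · intro j _
    have h1 := hLV (j + 1)
    rw [hnext] at h1
    show Planar.Adj (xy v0 ax (Lf j)) (xy v0 ax (Lf (j + 1)))
    rw [hnext]
    exact adj_of hclv (Nm.De_vx hc.de s (j % n)).1.1 (hLV j) h1
  · intro j _
    exact xy_adj ax_mem rfl t j
  · show (xy v0 ax (Lf 0)).2 % 3 = 0
    rw [xy_lev, hL0, hlevt, hlv0]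
    have := (cl_iff p.1 0).1 (by simpa using hp0)
    omega
  · show (xy v0 ax (Lf (2 * K * n - 1 + 1))).2 = (xy v0 ax (Lf 0)).2
    rw [xy_lev, xy_lev, hL0, hLe, hlevt, hlevt]
  · intro j _
    show (xy v0 ax v0).2 < (xy v0 ax (Lf j)).2
    rw [xy_lev, xy_lev, hlv0]
    have := hLlev j
    omega
  · intro j _
    show (xy v0 ax (Lf j)).2 < (xy v0 ax (vx v0 ax t (t.length + 1))).2
    rw [xy_lev, xy_lev]
    have h1 := hLlev j
    have h2 : lev (vx v0 ax t (t.length + 1)) = 3 * b - 1 := by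
      rw [hv0]
      exact htip
    omega
  · intro j hj
    have h1 := abs_le.1 (hgb j hj)
    show ((xy v0 ax (Lf 0)).1 + 2 < (xy v0 ax (vx v0 ax t j)).1 ∧
      (xy v0 ax (vx v0 ax t j)).1 + 2 < (xy v0 ax (Lf (2 * K * n - 1 + 1))).1) ∨
      ((xy v0 ax (Lf (2 * K * n - 1 + 1))).1 + 2 < (xy v0 ax (vx v0 ax t j)).1 ∧
      (xy v0 ax (vx v0 ax t j)).1 + 2 < (xy v0 ax (Lf 0)).1)
    rw [hL0, hLe, hx, hx]
    have hKz : (K : ℤ) = X.natAbs + t.length + 5 := by
      rw [hK]
      push_cast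
      ring
    rcases lt_or_gt_of_ne hz0 with h | h
    · have h3 : (N : ℤ) * z ≤ -1 := by nlinarith
      have h4 : (N : ℤ) * z * K ≤ -1 * K := mul_le_mul_of_nonneg_right h3 (by omega)
      left
      constructor <;> linarith
    · have h3 : (1 : ℤ) ≤ N * z := by nlinarith
      have h4 : 1 * (K : ℤ) ≤ N * z * K := mul_le_mul_of_nonneg_right h3 (by omega)
      right
      constructor <;> linarith
  · intro j _ k hk he
    have h1 : Lf j = vx v0 ax t k := xy_inj ax_mem he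
    have h2 := hLlev j
    rw [h1] at h2
    rcases Nat.eq_zero_or_pos k with h0 | h0
    · rw [h0] at h2
      have h3 : lev (vx v0 ax t 0) = 3 * a - 3 := hlv0
      omega
    · rcases Nat.lt_or_ge t.length k with c | c
      · have c' : k = t.length + 1 := by omega
        rw [c'] at h2
        have h3 : lev (vx v0 ax t (t.length + 1)) = 3 * b - 1 := by
          rw [hv0]
          exact htip
        omega
      · have h3 := hLnm j
        rw [h1, hv0] at h3
        refine Finset.disjoint_left.1 hdj h3 ?_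
        unfold Nm.vt
        rw [Finset.mem_image]
        refine ⟨k - 1, Finset.mem_range.2 (by omega), ?_⟩
        rw [Nat.sub_add_cancel h0]
        rfl

/-- **A5.** An arc of the cylinder ends less than one period beside its start. -/
theorem arc_short {a b i : ℤ} {t : List Bool} (ht : t ∈ exC (Cy N hN) (rg N a b) (ft a i))
    (hd : dx ax t t.length = -ax) : |(tip (ft a i).1 ax t).1 - (ft a i).1.1| < N := by
  obtain ⟨htip, hlen⟩ := tip_down ht hd
  have ht' := ht
  unfold exC at ht'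
  rw [Finset.mem_filter, Nm.mem_arr] at ht'
  obtain ⟨hA, -⟩ := ht'
  obtain ⟨v0, hv0⟩ : ∃ v0, v0 = (ft a i).1 := ⟨_, rfl⟩
  obtain ⟨w, hw⟩ : ∃ w, w = tip (ft a i).1 ax t := ⟨_, rfl⟩
  obtain ⟨δ, hδ⟩ : ∃ δ, δ = w.1 - v0.1 := ⟨_, rfl⟩
  have hl0 : lev v0 = 3 * a - 3 := by
    rw [hv0]
    exact ft_lev a i
  have hlw : lev w = 3 * a - 3 := by
    rw [hw]
    exact htip
  have hwv : w = tr δ v0 := by
    simp only [lev] at hl0 hlw
    refine Prod.ext ?_ ?_ <;> simp only [tr] <;> omega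
  have hN1 : (1 : ℤ) ≤ N := by exact_mod_cast hN
  have hnmt : ∀ (z : ℤ) v, (Cy N hN).nm (tr (N * z) v) = (Cy N hN).nm v := fun z v => nmN_tr N hN z v
  have hlast : vx v0 ax t t.length = w + ax := by
    have h1 : w = vx v0 ax t t.length + dx ax t t.length := by
      rw [hw, hv0]
      rfl
    rw [h1, hd]
    abel
  have hinj : ∀ j k, 1 ≤ j → j ≤ t.length → 1 ≤ k → k ≤ t.length →
      (Cy N hN).nm (vx v0 ax t j) = (Cy N hN).nm (vx v0 ax t k) → j = k := by
    intro j k j1 j2 k1 k2 e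
    rw [hv0] at e
    rcases lt_trichotomy j k with h | h | h
    · exact absurd e (hA.inj j k j1 h k2)
    · exact h
    · exact absurd e.symm (hA.inj k j k1 h j2)
  -- the end is not over the start
  have hne : ∀ z : ℤ, δ ≠ N * z := by
    intro z h
    have h1 : (Cy N hN).nm (vx v0 ax t t.length) = (Cy N hN).nm (vx v0 ax t 1) := by
      have e1 : vx v0 ax t 1 = v0 + ax := rfl
      have e2 : w + ax = tr (N * z) (v0 + ax) := by
        rw [hwv, h]
        simp only [tr]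
        refine Prod.ext ?_ ?_ <;> simp only [Prod.fst_add, Prod.snd_add] <;> ring
      rw [hlast, e1, e2, hnmt]
    have h2 := hinj _ _ (by omega) le_rfl le_rfl (by omega) h1
    omega
  have hlevi : ∀ j, 1 ≤ j → j ≤ t.length → 3 * a - 1 ≤ lev (vx v0 ax t j) := by
    intro j j1 j2
    rw [hv0]
    exact ((nm_rg (hN := hN) (vx_vt a i t j)).1 (hA.mem j j1 j2)).1
  have hend : vx v0 ax t (t.length + 1) = w := by
    rw [hw, hv0]
    rfl
  have hltr : ∀ c v, lev (tr c v) = lev v := fun c v => by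
    simp only [lev, tr]
    ring
  have hfst : ∀ c v, (xy v0 ax (tr c v)).1 = (xy v0 ax v).1 - 2 * c := fun c v => by
    rw [xy_fst, xy_fst]
    simp only [tr]
    ring
  have hx0 : (xy v0 ax v0).1 = 0 := by
    rw [xy_fst]
    ring
  have hsh : ∀ v, xy v0 ax (tr N v) = ((xy v0 ax v).1 - 2 * N, (xy v0 ax v).2) := fun v => by
    refine Prod.ext (hfst _ _) ?_
    show (xy v0 ax (tr N v)).2 = (xy v0 ax v).2
    rw [xy_lev, xy_lev, hltr]
  have hlev0 : (xy v0 ax v0).2 = 0 := by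
    rw [xy_lev]
    ring
  have hlevw : (xy v0 ax w).2 = 0 := by
    rw [xy_lev, hl0, hlw]
    ring
  have hlevj : ∀ j, 1 ≤ j → j ≤ t.length → 0 < (xy v0 ax (vx v0 ax t j)).2 := by
    intro j j1 j2
    rw [xy_lev, hl0]
    have := hlevi j j1 j2
    omega
  have hadj : ∀ j, Planar.Adj (xy v0 ax (vx v0 ax t j)) (xy v0 ax (vx v0 ax t (j + 1))) :=
    fun j => xy_adj ax_mem rfl t j
  have key := Planar.arcs_abs (a := fun j => xy v0 ax (vx v0 ax t j)) (g := fun j => xy v0 ax (tr N (vx v0 ax t j)))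
    (n := t.length) (m := t.length) (fun j _ => hadj j) hlev0
    (by
      show (xy v0 ax (vx v0 ax t (t.length + 1))).2 = 0
      rw [hend]
      exact hlevw)
    hlevj
    (fun j _ => by
      show Planar.Adj (xy v0 ax (tr N (vx v0 ax t j))) (xy v0 ax (tr N (vx v0 ax t (j + 1))))
      have h := hadj j
      rw [hsh, hsh]
      unfold Planar.Adj Planar.EE at h ⊢
      simp only
      omega)
    (by
      show (xy v0 ax (tr N v0)).2 = 0
      rw [hsh]
      exact hlev0)
    (by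
      show (xy v0 ax (tr N (vx v0 ax t (t.length + 1)))).2 = 0
      rw [hsh, hend]
      exact hlevw)
    (fun j j1 j2 => by
      show 0 < (xy v0 ax (tr N (vx v0 ax t j))).2
      rw [hsh]
      exact hlevj j j1 j2)
    (by
      intro j hj k hk he
      have h1 : vx v0 ax t j = tr N (vx v0 ax t k) := xy_inj ax_mem he
      have hlvl : lev (vx v0 ax t j) = lev (vx v0 ax t k) := by rw [h1, hltr]
      have hcase : ∀ k, k ≤ t.length + 1 → (vx v0 ax t k = v0 ∨ vx v0 ax t k = w) ∨ (1 ≤ k ∧ k ≤ t.length) := by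
        intro k hk
        rcases Nat.eq_zero_or_pos k with h | h
        · rw [h]
          exact Or.inl (Or.inl rfl)
        · rcases Nat.lt_or_ge t.length k with h' | h'
          · have h'' : k = t.length + 1 := by omega
            rw [h'']
            exact Or.inl (Or.inr hend)
          · exact Or.inr ⟨h, h'⟩
      have hlow : ∀ k, (vx v0 ax t k = v0 ∨ vx v0 ax t k = w) → lev (vx v0 ax t k) = 3 * a - 3 := by
        intro k hk
        rcases hk with h | h
        · rw [h, hl0]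
        · rw [h, hlw]
      rcases hcase j hj with hj' | ⟨j1, j2⟩
      · rcases hcase k hk with hk' | ⟨k1, k2⟩
        · have d0 := hne 0
          have d1 := hne 1
          have d2 := hne (-1)
          rw [mul_zero] at d0
          rw [mul_one] at d1
          rw [hwv] at hj' hk'
          have h2 := congrArg Prod.fst h1
          rcases hj' with hj' | hj' <;> rcases hk' with hk' | hk' <;> rw [hj', hk'] at h2 <;>
            simp only [tr] at h2 <;> omega
        · have h3 := hlow j hj'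
          have h4 := hlevi k k1 k2
          omega
      · rcases hcase k hk with hk' | ⟨k1, k2⟩
        · have h3 := hlow k hk'
          have h4 := hlevi j j1 j2
          omega
        · have h3 : (Cy N hN).nm (vx v0 ax t j) = (Cy N hN).nm (vx v0 ax t k) := by
            rw [h1]
            have := hnmt 1 (vx v0 ax t k)
            rwa [mul_one] at this
          have h4 := hinj j k j1 j2 k1 k2 h3
          rw [h4] at h1
          have h5 := congrArg Prod.fst h1
          simp only [tr] at h5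
          omega)
  change ((xy v0 ax v0).1 < (xy v0 ax (tr N v0)).1 ↔
    (xy v0 ax (vx v0 ax t (t.length + 1))).1 < (xy v0 ax (tr N v0)).1) ↔
    ((xy v0 ax v0).1 < (xy v0 ax (tr N (vx v0 ax t (t.length + 1)))).1 ↔
    (xy v0 ax (vx v0 ax t (t.length + 1))).1 < (xy v0 ax (tr N (vx v0 ax t (t.length + 1)))).1) at key
  rw [hend, hfst, hfst, hwv, hfst, hx0] at key
  have d0 := hne 0
  have d1 := hne 1
  have d2 := hne (-1)
  rw [← hw, ← hv0, ← hδ, abs_lt]
  constructor <;> omega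

end Pool.Agent.GLD
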