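import Pool.Agent.GLD.W0
import Pool.Agent.BAR.Defs

/-!
# The words of the cylinder with rows at 0 are words of the plane (GLd, B2)

`PE M K`: words of the plane from the mid-edge of `{oo, up}` (upwards) to the mid-edge of the same level `K` lattice
steps to the side (arriving downwards), all vertices in the levels `(-3 M, 3 M]`; the two outer ends may be visited.
`Wm_le`: the words of the cylinder with `2 k` rows in `2 M` rings are bounded by the sum over `z` of the planar words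
with the displacement `(2 z + 1) k`.
-/

set_option autoImplicit false

namespace Pool.Agent.GLD

open HexObs HexObs.LP
open Pool.Agent.NUF.Cyl (Nm Cy pL nmN tr nm_eq)
open Pool.Agent.NUN (Om mem_Om)
open scoped ENNReal

/-! ### rotation by two units -/

/-- rotation by two units. -/
def rt2 (p : Pt) : Pt := (-p.1 - p.2, p.1)

theorem rt2_add (p q : Pt) : rt2 (p + q) = rt2 p + rt2 q := by
  refine Prod.ext ?_ ?_ <;> simp only [rt2, Prod.fst_add, Prod.snd_add] <;> ring

theorem rt2_sub (p q : Pt) : rt2 (p - q) = rt2 p - rt2 q := by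
  refine Prod.ext ?_ ?_ <;> simp only [rt2, Prod.fst_sub, Prod.snd_sub] <;> ring

theorem rt2_inj {p q : Pt} (h : rt2 p = rt2 q) : p = q := by
  simp only [rt2, Prod.ext_iff] at h
  refine Prod.ext ?_ ?_ <;> omega

theorem rt2_turn (b : Bool) (d : Pt) : rt2 (turn b d) = turn b (rt2 d) := by
  cases b <;> refine Prod.ext ?_ ?_ <;> simp only [rt2, turn, rotL, rotR, if_true, Bool.false_eq_true, if_false] <;> ring

theorem dx_rt2 (d : Pt) (t : List Bool) (i : ℕ) : dx (rt2 d) t i = rt2 (dx d t i) := by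
  unfold dx
  induction i with
  | zero => rfl
  | succ i ih => rw [ds_succ, ds_succ, ih, rt2_turn]

theorem vx_rt2 (v d : Pt) (t : List Bool) (i : ℕ) : vx oo (rt2 d) t i = rt2 (vx v d t i - v) := by
  unfold vx
  induction i with
  | zero =>
    show oo = rt2 (v - v)
    rw [sub_self]
    rfl
  | succ i ih =>
    have h := dx_rt2 d t i
    unfold dx at h
    rw [vs_succ, vs_succ, ih, h, ← rt2_add]
    congr 1
    abel

theorem rt2_start : rt2 (1, -1) = up := rfl

theorem lev_rt2 (v : Pt) (t : List Bool) (i : ℕ) :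
    lev t i = ((vx v (1, -1) t i).1 - (vx v (1, -1) t i).2) - (v.1 - v.2) := by
  unfold lev
  rw [← rt2_start, vx_rt2 v, rt2_start]
  simp only [ip, rt2, up, Prod.fst_sub, Prod.snd_sub]
  ring

/-! ### planar words -/

/-- words of the plane between two mid-edges of the same level, `K` steps apart, both ends above the mid-edges, in the
levels `(-3 M, 3 M]`. -/
def PE (M : ℕ) (K : ℤ) : Set (List Bool) := {t | 1 ≤ t.length ∧
  (∀ i j, 1 ≤ i → i < j → j ≤ t.length → vx oo up t i ≠ vx oo up t j) ∧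
  vx oo up t t.length = up + (-2 * K, K) ∧ dx up t t.length = -up ∧
  ∀ i, 1 ≤ i → i ≤ t.length → -3 * (M : ℤ) < lev t i ∧ lev t i ≤ 3 * M}

theorem PE_mono {M M' : ℕ} (h : M ≤ M') (K : ℤ) : PE M K ⊆ PE M' K := by
  rintro t ⟨h1, h2, h3, h4, h5⟩
  refine ⟨h1, h2, h3, h4, fun i hi hi' => ?_⟩
  obtain ⟨h6, h7⟩ := h5 i hi hi'
  omega

theorem PE_ext {M : ℕ} {K : ℤ} {t : List Bool} (h : t ∈ PE M K) : BAR.Ext (2 * M) t := by
  refine ⟨-M, fun i hi hi' => ?_⟩
  obtain ⟨h6, h7⟩ := h.2.2.2.2 i hi hi'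
  push_cast
  omega

variable {k : ℕ}

/-- **A word of the cylinder is a word of the plane.** -/
theorem lift_word (hk : 1 ≤ k) {M : ℕ} {t : List Bool}
    (ht : (Cy (2 * k) (two_k hk)).Arr (Om (2 * k) M) (pL 0) t)
    (he : (Cy (2 * k) (two_k hk)).rv ((Cy (2 * k) (two_k hk)).le (pL 0) t) = pL (k : ℤ)) :
    ∃ z : ℤ, t ∈ PE M ((2 * z + 1) * k) := by
  set C := Cy (2 * k) (two_k hk) with hC
  set v0 : Pt := _root_.EXL.B (-1) 0 with hv0
  have hp : (pL 0 : Pt × Pt) = (v0, (1, -1)) := rfl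
  have hN : (1 : ℕ) ≤ 2 * k := two_k hk
  have rot : ∀ i, vx oo up t i = rt2 (vx v0 (1, -1) t i - v0) := fun i => by
    rw [← rt2_start]
    exact vx_rt2 v0 (1, -1) t i
  have drot : ∀ i, dx up t i = rt2 (dx (1, -1) t i) := fun i => by
    rw [← rt2_start]
    exact dx_rt2 (1, -1) t i
  -- the end
  have h1 : C.nm (C.nm (vx v0 (1, -1) t t.length) + dx (1, -1) t t.length) = _root_.EXL.B (-1) k ∧
      -dx (1, -1) t t.length = (1, -1) := Prod.ext_iff.1 he
  have hd : dx (1, -1) t t.length = (-1, 1) := by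
    have := congrArg Neg.neg h1.2
    rw [neg_neg] at this
    rw [this]
    rfl
  have hne : 1 ≤ t.length := by
    rcases t with _ | ⟨b, t⟩
    · exfalso
      have : ((1, -1) : Pt) = (-1, 1) := hd
      exact absurd this (by decide)
    · simp
  have h2 : C.nm (vx v0 (1, -1) t t.length + (-1, 1)) = _root_.EXL.B (-1) k := by
    rw [← hd, ← C.add]
    exact h1.1
  have h3 : ∃ z : ℤ, vx v0 (1, -1) t t.length + (-1, 1) = tr (2 * k * z) (_root_.EXL.B (-1) k) := by
    have h4 : nmN (2 * k) (vx v0 (1, -1) t t.length + (-1, 1)) = _root_.EXL.B (-1) k := h2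
    unfold nmN at h4
    refine ⟨Pool.Agent.NUF.Cyl.ri (vx v0 (1, -1) t t.length + (-1, 1)) / ((2 * k : ℕ) : ℤ), ?_⟩
    rw [← h4]
    refine Prod.ext ?_ ?_ <;> simp only [tr] <;> push_cast <;> ring
  obtain ⟨z, hz⟩ := h3
  refine ⟨z, hne, ?_, ?_, ?_, ?_⟩
  · intro i j hi hij hj e
    rw [rot, rot] at e
    have e1 := rt2_inj e
    have e2 : vx v0 (1, -1) t i = vx v0 (1, -1) t j := sub_left_injective e1
    refine ht.inj i j hi hij hj ?_
    rw [hp]
    show C.nm (vx v0 (1, -1) t i) = C.nm (vx v0 (1, -1) t j)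
    rw [e2]
  · rw [rot]
    have e1 : vx v0 (1, -1) t t.length = tr (2 * k * z) (_root_.EXL.B (-1) k) - (-1, 1) := by
      rw [← hz]
      abel
    rw [e1, hv0]
    refine Prod.ext ?_ ?_ <;> simp only [rt2, tr, _root_.EXL.B, up, Prod.fst_sub, Prod.snd_sub, Prod.fst_add,
      Prod.snd_add] <;> ring
  · rw [drot, hd]
    rfl
  · intro i hi hi'
    have h4 := ht.mem i hi hi'
    rw [hp] at h4
    have h5 : C.nm (vx v0 (1, -1) t i) ∈ Om (2 * k) M := h4
    obtain ⟨a, b, ⟨a1, a2⟩, -, h6⟩ := mem_Om.1 h5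
    have h7 := Pool.Agent.NUF.Cyl.nn_nm hN (vx v0 (1, -1) t i)
    have h8 : C.nm (vx v0 (1, -1) t i) = (Cy (2 * k) hN).nm (vx v0 (1, -1) t i) := rfl
    rw [← h8] at h7
    rw [lev_rt2 v0, ← h7, hv0]
    rcases h6 with h6 | h6 <;> rw [h6] <;> simp only [_root_.EXL.A, _root_.EXL.B] <;> omega

theorem gf_iUnion_le {ι : Type*} [Countable ι] (F : ι → Set (List Bool)) : gf (⋃ i, F i) ≤ ∑' i, gf (F i) :=
  ENNReal.tsum_iUnion_le_tsum wE F

/-- **B2.** The words of the cylinder in the rings `-M, .., M - 1` are bounded by the planar words. -/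
theorem Wm_le_PE (hk : 1 ≤ k) (M : ℕ) :
    ENNReal.ofReal (Wm hk M) ≤ ∑' z : ℤ, gf (PE M ((2 * z + 1) * k)) := by
  classical
  refine le_trans ?_ (gf_iUnion_le fun z : ℤ => PE M ((2 * z + 1) * k))
  unfold Wm Nm.Ws
  rw [← gf_finset]
  refine gf_mono fun t ht => ?_
  rw [Finset.mem_coe, Finset.mem_filter, Nm.mem_arr, Finset.mem_singleton] at ht
  obtain ⟨z, hz⟩ := lift_word hk ht.1 ht.2
  exact Set.mem_iUnion.2 ⟨z, hz⟩

/-- The two-point function is bounded by the planar words of the rings `-M, .., M - 1` and the words of the cylinder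
that leave these rings. -/
theorem W0_split (hk : 1 ≤ k) (M : ℕ) {δ : ℝ} (hδ : ∀ m, M ≤ m → Wm hk m ≤ Wm hk M + δ) :
    ENNReal.ofReal (W0 hk).re ≤ (∑' z : ℤ, gf (PE M ((2 * z + 1) * k))) + ENNReal.ofReal δ := by
  have h1 : (W0 hk).re ≤ Wm hk M + δ :=
    le_of_tendsto (W0_real hk).2.2 (Filter.eventually_atTop.2 ⟨M, hδ⟩)
  refine (ENNReal.ofReal_le_ofReal h1).trans ?_
  refine ENNReal.ofReal_add_le.trans ?_
  gcongr
  exact Wm_le_PE hk M

end Pool.Agent.GLD
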