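import Pool.Agent.GLD.Cross
import Pool.Agent.GLD.Lift

/-!
# The cut of a long walk of the cylinder (GLd, A8)

`cut_w`: a word of the cylinder from the foot of ring `0` that goes `3 H + 2` levels away from its start is a product of
a planar word (reversed), a bridge of `H` rings of the cylinder and a planar word.
-/

set_option autoImplicit false

namespace Pool.Agent.GLD

open Pool.Agent.NUF.Cyl HexObs HexObs.LP

variable {N : ℕ} {hN : 1 ≤ N}

namespace Crs

/-! ### congruence modulo the period -/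

theorem nm_eq_iff {u v : Pt} : (Cy N hN).nm u = (Cy N hN).nm v ↔ ∃ z : ℤ, u = tr (N * z) v := by
  constructor
  · intro h
    rw [nm_ri, nm_ri] at h
    refine ⟨ri u / N - ri v / N, ?_⟩
    have h1 := congrArg Prod.fst h
    have h2 := congrArg Prod.snd h
    simp only [tr] at h1 h2
    refine Prod.ext ?_ ?_ <;> simp only [tr] <;> linarith
  · rintro ⟨z, rfl⟩
    exact nmN_tr N hN z v

/-! ### the two directions of the axis -/

theorem dx_neg (d : Pt) (s : List Bool) (i : ℕ) : dx (-d) s i = -dx d s i := by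
  induction i with
  | zero => rfl
  | succ i ih =>
    show turn (tf s i) (dx (-d) s i) = -turn (tf s i) (dx d s i)
    rw [ih]
    exact _root_.HexObs.turn_neg _ _

theorem vx_neg (v w d : Pt) (s : List Bool) (i : ℕ) : vx v (-d) s i = v + w - vx w d s i := by
  induction i with
  | zero =>
    show v = v + w - w
    abel
  | succ i ih =>
    show vx v (-d) s i + dx (-d) s i = v + w - (vx w d s i + dx d s i)
    rw [ih, dx_neg]
    abel

theorem vx_tr (v w d : Pt) (s : List Bool) (i : ℕ) : vx v d s i = vx w d s i + (v - w) := by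
  induction i with
  | zero =>
    show v = w + (v - w)
    abel
  | succ i ih =>
    show vx v d s i + dx d s i = vx w d s i + dx d s i + (v - w)
    rw [ih]
    abel

/-- a direction of the axis with its sign. -/
def Dir (e : Pt) (σ : ℤ) : Prop := (e = ax ∧ σ = 1) ∨ (e = -ax ∧ σ = -1)

theorem Dir.rel {e : Pt} {σ : ℤ} (h : Dir e σ) (v w : Pt) (s : List Bool) (i : ℕ) :
    (vx v e s i).1 = v.1 + σ * ((vx w ax s i).1 - w.1) ∧ (vx v e s i).2 = v.2 + σ * ((vx w ax s i).2 - w.2) := by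
  rcases h with ⟨rfl, rfl⟩ | ⟨rfl, rfl⟩
  · rw [vx_tr v w]
    constructor
    · rw [Prod.fst_add, Prod.fst_sub]
      ring
    · rw [Prod.snd_add, Prod.snd_sub]
      ring
  · rw [vx_neg v w]
    constructor
    · rw [Prod.fst_sub, Prod.fst_add]
      ring
    · rw [Prod.snd_sub, Prod.snd_add]
      ring

theorem Dir.sq {e : Pt} {σ : ℤ} (h : Dir e σ) : σ * σ = 1 := by
  rcases h with ⟨-, rfl⟩ | ⟨-, rfl⟩ <;> norm_num

theorem Dir.lev {e : Pt} {σ : ℤ} (h : Dir e σ) (v w : Pt) (s : List Bool) (i : ℕ) :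
    lev (vx w ax s i) - lev w = σ * (lev (vx v e s i) - lev v) := by
  obtain ⟨h1, h2⟩ := h.rel v w s i
  have h3 := h.sq
  simp only [GLD.lev]
  rw [h1, h2]
  linear_combination (-((vx w ax s i).1 - w.1) + ((vx w ax s i).2 - w.2)) * h3

theorem Dir.neg {e : Pt} {σ : ℤ} (h : Dir e σ) : Dir (-e) (-σ) := by
  rcases h with ⟨rfl, rfl⟩ | ⟨rfl, rfl⟩
  · exact Or.inr ⟨rfl, rfl⟩
  · exact Or.inl ⟨by rw [neg_neg], by norm_num⟩

theorem Dir.dx {e : Pt} {σ : ℤ} (h : Dir e σ) {s : List Bool} {i : ℕ} (hd : dx e s i = e) : HexObs.dx ax s i = ax := by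
  rcases h with ⟨rfl, -⟩ | ⟨rfl, -⟩
  · exact hd
  · rw [dx_neg] at hd
    exact neg_injective hd

theorem Dir.inj {e : Pt} {σ : ℤ} (h : Dir e σ) (v w : Pt) (s : List Bool) (i k : ℕ)
    (hik : (Cy N hN).nm (vx w ax s i) = (Cy N hN).nm (vx w ax s k)) :
    (Cy N hN).nm (vx v e s i) = (Cy N hN).nm (vx v e s k) := by
  rw [nm_eq_iff] at hik ⊢
  obtain ⟨z, hz⟩ := hik
  obtain ⟨h1, h2⟩ := h.rel v w s i
  obtain ⟨h3, h4⟩ := h.rel v w s k
  refine ⟨σ * z, ?_⟩
  have h5 := congrArg Prod.fst hz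
  have h6 := congrArg Prod.snd hz
  simp only [tr] at h5 h6
  refine Prod.ext ?_ ?_
  · simp only [tr]
    rw [h1, h3, h5]
    ring
  · simp only [tr]
    rw [h2, h4, h6]
    ring

/-- a bridge of the cylinder, from any base and in both directions. -/
theorem mem_brS_of {H : ℕ} {v e : Pt} {σ : ℤ} (he : Dir e σ) {s : List Bool}
    (hinj : ∀ i k, 1 ≤ i → i < k → k ≤ s.length → (Cy N hN).nm (vx v e s i) ≠ (Cy N hN).nm (vx v e s k))
    (hlev : ∀ i, 1 ≤ i → i ≤ s.length → 0 < σ * (lev (vx v e s i) - lev v) ∧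
      σ * (lev (vx v e s i) - lev v) < 3 * H + 2)
    (hd : HexObs.dx e s s.length = e) (htip : σ * (lev (vx v e s (s.length + 1)) - lev v) = 3 * H + 2) :
    s ∈ brS N hN H := by
  unfold brS
  rw [Finset.mem_filter]
  refine ⟨?_, he.dx hd⟩
  unfold exC
  rw [Finset.mem_filter, Nm.mem_arr]
  have hl0 : lev (ft 0 0).1 = -3 := ft_lev 0 0
  have e1 : (Cy N hN).nb ((Cy N hN).le (ft 0 0) s) = (Cy N hN).nm (vx (ft 0 0).1 ax s (s.length + 1)) := by
    unfold Nm.nb Nm.le
    simp only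
    rw [(Cy N hN).add]
    rfl
  refine ⟨⟨fun i h1 h2 => ?_, fun i k h1 h2 h3 h4 => ?_⟩, ?_⟩
  · refine (nm_rg (hN := hN) (vx_vt 0 0 s i)).2 ?_
    have h3 := hlev i h1 h2
    rw [← he.lev v (ft 0 0).1, hl0] at h3
    have h4 := vx_mod 0 0 s i
    split_ifs at h4 <;> omega
  · exact hinj i k h1 h2 h3 (he.inj v (ft 0 0).1 s i k h4)
  · rw [e1, nm_rg (vx_vt 0 0 s _)]
    rw [← he.lev v (ft 0 0).1, hl0] at htip
    omega

/-- a word in the standard position. -/
theorem up_of {v e : Pt} {σ : ℤ} (he : Dir e σ) (s : List Bool) (i : ℕ) :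
    HexObs.lev s i = σ * (lev (vx v e s i) - lev v) := by
  rw [← he.lev v v, lev_rt2 v]
  rfl

theorem up_inj {v e : Pt} {σ : ℤ} (he : Dir e σ) {s : List Bool} {i k : ℕ}
    (h : vx oo up s i = vx oo up s k) : vx v e s i = vx v e s k := by
  rw [← rt2_start, vx_rt2 v, vx_rt2 v] at h
  have h1 := sub_left_injective (rt2_inj h)
  obtain ⟨h2, h3⟩ := he.rel v v s i
  obtain ⟨h4, h5⟩ := he.rel v v s k
  change vx v ax s i = vx v ax s k at h1
  refine Prod.ext ?_ ?_
  · rw [h2, h4, h1]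
  · rw [h3, h5, h1]

/-! ### the cut of an integer sequence -/

theorem cut_seq {f : ℕ → ℤ} {n i0 j0 H : ℕ} (hstep : ∀ i, i < n →
      (f i % 3 = 0 ∧ (f (i + 1) = f i + 2 ∨ f (i + 1) = f i - 1)) ∨
      (f i % 3 = 2 ∧ (f (i + 1) = f i - 2 ∨ f (i + 1) = f i + 1)))
    (hi : f i0 ≤ 0) (hij : i0 < j0) (hj : j0 ≤ n) (hf : 3 * (H : ℤ) + 2 ≤ f j0) :
    ∃ I J, i0 ≤ I ∧ I < J ∧ J ≤ n ∧ f I = 0 ∧ f (I + 1) = 2 ∧ f (J - 1) = 3 * H ∧ f J = 3 * H + 2 ∧
      ∀ i, I < i → i < J → 0 < f i ∧ f i < 3 * H + 2 := by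
  classical
  have hex : ∃ j, i0 < j ∧ 3 * (H : ℤ) + 2 ≤ f j := ⟨j0, hij, hf⟩
  obtain ⟨J, hJ⟩ : ∃ J, J = Nat.find hex := ⟨_, rfl⟩
  have hJ1 := Nat.find_spec hex
  have hJmin : ∀ i, i0 < i → i < J → f i < 3 * H + 2 := by
    intro i h1 h2
    by_contra h3
    exact Nat.find_min hex (hJ ▸ h2) ⟨h1, not_lt.1 h3⟩
  rw [← hJ] at hJ1
  have hJn : J ≤ n := by
    rw [hJ]
    exact (Nat.find_min' hex ⟨hij, hf⟩).trans hj
  have hex2 : ∃ m, i0 ≤ J - 1 - m ∧ f (J - 1 - m) ≤ 0 := ⟨J - 1 - i0, by omega, by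
    have : J - 1 - (J - 1 - i0) = i0 := by omega
    rw [this]
    exact hi⟩
  obtain ⟨m, hm⟩ : ∃ m, m = Nat.find hex2 := ⟨_, rfl⟩
  have hm1 := Nat.find_spec hex2
  rw [← hm] at hm1
  have hmin : ∀ i, J - 1 - m < i → i < J → 0 < f i := by
    intro i h1 h2
    by_contra h3
    refine Nat.find_min hex2 (m := J - 1 - i) (by rw [← hm]; omega) ⟨by omega, ?_⟩
    have : J - 1 - (J - 1 - i) = i := by omega
    rw [this]
    exact not_lt.1 h3
  obtain ⟨I, hI⟩ : ∃ I, I = J - 1 - m := ⟨_, rfl⟩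
  rw [← hI] at hm1 hmin
  have hIJ : I < J := by omega
  have hI1 : 0 < f (I + 1) := by
    rcases Nat.lt_or_ge (I + 1) J with h | h
    · exact hmin _ (by omega) h
    · have : I + 1 = J := by omega
      rw [this]
      omega
  have hJ0 : f (J - 1) < 3 * H + 2 := by
    rcases Nat.lt_or_ge i0 (J - 1) with h | h
    · exact hJmin _ h (by omega)
    · have : J - 1 = i0 := by omega
      rw [this]
      omega
  have s1 := hstep I (by omega)
  have s2 := hstep (J - 1) (by omega)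
  have e2 : J - 1 + 1 = J := by omega
  rw [e2] at s2
  refine ⟨I, J, hm1.1, hIJ, hJn, by omega, by omega, by omega, by omega, fun i h1 h2 => ⟨hmin i h1 h2, ?_⟩⟩
  exact hJmin i (by omega) h2

/-! ### pieces of a word -/

theorem tf_drop (t : List Bool) (I k : ℕ) : tf (t.drop I) k = tf t (I + k) := by
  unfold tf
  rw [List.getD_eq_getElem?_getD, List.getD_eq_getElem?_getD, List.getElem?_drop]

theorem tf_take {t : List Bool} {I k : ℕ} (hk : k < I) : tf (t.take I) k = tf t k := by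
  unfold tf
  rw [List.getD_eq_getElem?_getD, List.getD_eq_getElem?_getD, List.getElem?_take_of_lt hk]

theorem vx_drop (v d : Pt) (t : List Bool) (I i : ℕ) :
    vx (vx v d t I) (dx d t I) (t.drop I) i = vx v d t (I + i) := by
  unfold vx dx
  rw [vs_shift]
  exact vs_congr i fun k _ => tf_drop t I k

theorem dx_drop (d : Pt) (t : List Bool) (I i : ℕ) : dx (dx d t I) (t.drop I) i = dx d t (I + i) := by
  unfold dx
  rw [ds_shift]
  exact ds_congr i fun k _ => tf_drop t I k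

theorem vx_take (v d : Pt) (t : List Bool) {I i : ℕ} (hi : i ≤ I + 1) : vx v d (t.take I) i = vx v d t i := by
  unfold vx
  exact vs_congr i fun k hk => tf_take (by omega)

theorem dx_take (d : Pt) (t : List Bool) {I i : ℕ} (hi : i ≤ I) : dx d (t.take I) i = dx d t i := by
  unfold dx
  exact ds_congr i fun k hk => tf_take (by omega)

/-- the levels of the steps. -/
theorem step_lev (v : Pt) (t : List Bool) (i : ℕ) :
    (Even i → (lev (vx v ax t (i + 1)) = lev (vx v ax t i) + 2 ∧ dx ax t i = ax) ∨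
      lev (vx v ax t (i + 1)) = lev (vx v ax t i) - 1) ∧
    (¬ Even i → (lev (vx v ax t (i + 1)) = lev (vx v ax t i) - 2 ∧ dx ax t i = -ax) ∨
      lev (vx v ax t (i + 1)) = lev (vx v ax t i) + 1) := by
  have h1 : vx v ax t (i + 1) = vx v ax t i + dx ax t i := rfl
  have h2 : lev (vx v ax t i + dx ax t i) = lev (vx v ax t i) + lev (dx ax t i) := by
    simp only [lev, Prod.fst_add, Prod.snd_add]
    ring
  have h3 := dx_mem ax_mem t i
  have h4 := cl_dx (d0 := ax) t i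
  rw [h1, h2]
  constructor
  · intro hi
    rw [if_pos hi] at h4
    have key : ∀ d ∈ dirs, cl d = cl ax → (lev d = 2 ∧ d = ax) ∨ lev d = -1 := by decide
    rcases key _ h3 h4 with ⟨h5, h6⟩ | h5
    · exact Or.inl ⟨by rw [h5], h6⟩
    · right
      rw [h5]
      ring
  · intro hi
    rw [if_neg hi] at h4
    have key : ∀ d ∈ dirs, cl d = -cl ax → (lev d = -2 ∧ d = -ax) ∨ lev d = 1 := by decide
    rcases key _ h3 h4 with ⟨h5, h6⟩ | h5
    · exact Or.inl ⟨by rw [h5]; ring, h6⟩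
    · right
      rw [h5]

end Crs

open Crs

/-- the planar words in a strip around their start. -/
def SPl (h : ℕ) : Set (List Bool) := {t | Saw Set.univ oo up t ∧ ∀ i, 1 ≤ i → i ≤ t.length → |HexObs.lev t i| ≤ 3 * h}

/-- **the cut of one word**. -/
theorem cut_one {A : Finset Pt} {H m : ℕ} (hH : 1 ≤ H) {t : List Bool} (ht : (Cy N hN).Arr A (ft 0 0) t)
    (hfar : ∃ i, i ≤ t.length ∧ 3 * (H : ℤ) + 2 ≤ |lev (vx (ft 0 0).1 ax t i) - lev (ft 0 0).1|)
    (hm : ∀ i, i ≤ t.length → |lev (vx (ft 0 0).1 ax t i) - lev (ft 0 0).1| ≤ 3 * m) :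
    ∃ a ∈ SPl (2 * m), ∃ s ∈ (brS N hN H : Set (List Bool)), ∃ c ∈ SPl (2 * m), t = rev a ++ (s ++ c) := by
  obtain ⟨v0, hv0⟩ : ∃ v0, v0 = (ft 0 0).1 := ⟨_, rfl⟩
  have hl0 : lev v0 = -3 := by
    rw [hv0]
    exact ft_lev 0 0
  have hinj : ∀ i k, 1 ≤ i → i < k → k ≤ t.length → (Cy N hN).nm (vx v0 ax t i) ≠ (Cy N hN).nm (vx v0 ax t k) := by
    intro i k h1 h2 h3
    rw [hv0]
    exact ht.inj i k h1 h2 h3
  have hmodl : ∀ i, lev (vx v0 ax t i) % 3 = if Even i then 0 else 2 := fun i => by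
    rw [hv0]
    exact vx_mod 0 0 t i
  rw [← hv0] at hfar hm
  -- the sign and the sequence
  obtain ⟨e, σ, b, i0, hdir, hb, hi0⟩ : ∃ (e : Pt) (σ b : ℤ) (i0 : ℕ), Dir e σ ∧
      ((σ = 1 ∧ b = lev v0 ∧ i0 = 0) ∨ (σ = -1 ∧ b = -(lev v0 + 2) ∧ i0 = 1)) ∧
      ∃ j, i0 < j ∧ j ≤ t.length ∧ 3 * (H : ℤ) + 2 ≤ σ * lev (vx v0 ax t j) - b := by
    obtain ⟨j, hj, hj'⟩ := hfar
    rcases le_total 0 (lev (vx v0 ax t j) - lev v0) with h | h
    · rw [abs_of_nonneg h] at hj'
      refine ⟨ax, 1, lev v0, 0, Or.inl ⟨rfl, rfl⟩, Or.inl ⟨rfl, rfl, rfl⟩, j, ?_, hj, by rw [one_mul]; exact hj'⟩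
      rcases Nat.eq_zero_or_pos j with h0 | h0
      · exfalso
        rw [h0] at hj'
        have : vx v0 ax t 0 = v0 := rfl
        rw [this] at hj'
        omega
      · exact h0
    · rw [abs_of_nonpos h] at hj'
      refine ⟨-ax, -1, -(lev v0 + 2), 1, Or.inr ⟨rfl, rfl⟩, Or.inr ⟨rfl, rfl, rfl⟩, j, ?_, hj, by omega⟩
      by_contra hcon
      have hj01 : j = 0 ∨ j = 1 := by omega
      rcases hj01 with h0 | h0
      · rw [h0] at hj'
        have : vx v0 ax t 0 = v0 := rfl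
        rw [this] at hj'
        omega
      · rw [h0] at hj'
        have h1 : vx v0 ax t 1 = v0 + ax := rfl
        have h2 : lev (v0 + ax) = lev v0 + 2 := by
          simp only [lev, ax, Prod.fst_add, Prod.snd_add]
          ring
        rw [h1, h2] at hj'
        omega
  obtain ⟨j0, hij, hj0, hf⟩ := hi0
  obtain ⟨f, hfd⟩ : ∃ f : ℕ → ℤ, ∀ i, f i = σ * lev (vx v0 ax t i) - b := ⟨_, fun _ => rfl⟩
  rw [← hfd] at hf
  have hstep : ∀ i, ((f i % 3 = 0 ∧ (f (i + 1) = f i + 2 ∨ f (i + 1) = f i - 1)) ∨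
      (f i % 3 = 2 ∧ (f (i + 1) = f i - 2 ∨ f (i + 1) = f i + 1))) ∧ (f (i + 1) = f i + 2 → dx ax t i = e) := by
    intro i
    have h1 := step_lev v0 t i
    have h2 := hmodl i
    rw [hfd, hfd]
    rcases hb with ⟨rfl, rfl, -⟩ | ⟨rfl, rfl, -⟩
    · have he : e = ax := by
        rcases hdir with ⟨h, -⟩ | ⟨-, h⟩
        · exact h
        · norm_num at h
      by_cases hi : Even i
      · rw [if_pos hi] at h2
        rcases h1.1 hi with ⟨h3, h4⟩ | h3
        · exact ⟨Or.inl ⟨by omega, Or.inl (by rw [h3]; ring)⟩, fun _ => by rw [h4, he]⟩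
        · refine ⟨Or.inl ⟨by omega, Or.inr (by rw [h3]; ring)⟩, fun h5 => ?_⟩
          rw [h3] at h5
          omega
      · rw [if_neg hi] at h2
        rcases h1.2 hi with ⟨h3, h4⟩ | h3
        · refine ⟨Or.inr ⟨by omega, Or.inl (by rw [h3]; ring)⟩, fun h5 => ?_⟩
          rw [h3] at h5
          omega
        · refine ⟨Or.inr ⟨by omega, Or.inr (by rw [h3]; ring)⟩, fun h5 => ?_⟩
          rw [h3] at h5
          omega
    · have he : e = -ax := by
        rcases hdir with ⟨-, h⟩ | ⟨h, -⟩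
        · norm_num at h
        · exact h
      by_cases hi : Even i
      · rw [if_pos hi] at h2
        rcases h1.1 hi with ⟨h3, h4⟩ | h3
        · refine ⟨Or.inr ⟨by omega, Or.inl (by rw [h3]; ring)⟩, fun h5 => ?_⟩
          rw [h3] at h5
          omega
        · refine ⟨Or.inr ⟨by omega, Or.inr (by rw [h3]; ring)⟩, fun h5 => ?_⟩
          rw [h3] at h5
          omega
      · rw [if_neg hi] at h2
        rcases h1.2 hi with ⟨h3, h4⟩ | h3
        · exact ⟨Or.inl ⟨by omega, Or.inl (by rw [h3]; ring)⟩, fun _ => by rw [h4, he]⟩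
        · refine ⟨Or.inl ⟨by omega, Or.inr (by rw [h3]; ring)⟩, fun h5 => ?_⟩
          rw [h3] at h5
          omega
  have hfi0 : f i0 ≤ 0 := by
    rw [hfd]
    rcases hb with ⟨rfl, rfl, rfl⟩ | ⟨rfl, rfl, rfl⟩
    · have : vx v0 ax t 0 = v0 := rfl
      rw [this]
      omega
    · have h1 : vx v0 ax t 1 = v0 + ax := rfl
      have h2 : lev (v0 + ax) = lev v0 + 2 := by
        simp only [lev, ax, Prod.fst_add, Prod.snd_add]
        ring
      rw [h1, h2]
      omega
  obtain ⟨I, J, h1, h2, h3, h4, h5, h6, h7, h8⟩ := cut_seq (fun i _ => (hstep i).1) hfi0 hij hj0 hf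
  have hdI : dx ax t I = e := (hstep I).2 (by rw [h5, h4]; norm_num)
  have hJ1 : J - 1 + 1 = J := by omega
  have hdJ : dx ax t (J - 1) = e := (hstep (J - 1)).2 (by rw [hJ1, h6, h7])
  have hIJ2 : I + 2 ≤ J := by
    by_contra hcon
    have : J = I + 1 := by omega
    rw [this, h5] at h7
    omega
  have hfσ : ∀ i k, σ * (lev (vx v0 ax t i) - lev (vx v0 ax t k)) = f i - f k := fun i k => by
    rw [hfd, hfd]
    ring
  have hσ1 : |σ| = 1 := by
    rcases hb with ⟨rfl, -, -⟩ | ⟨rfl, -, -⟩ <;> norm_num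
  have hlv : ∀ i k, i ≤ t.length → k ≤ t.length → |σ * (lev (vx v0 ax t i) - lev (vx v0 ax t k))| ≤ 3 * (2 * m : ℕ) := by
    intro i k hi hk
    rw [abs_mul, hσ1, one_mul]
    have a1 := abs_le.1 (hm i hi)
    have a2 := abs_le.1 (hm k hk)
    rw [abs_le]
    push_cast
    constructor <;> linarith
  have hneq : ∀ i k, 1 ≤ i → i < k → k ≤ t.length → vx v0 ax t i ≠ vx v0 ax t k := by
    intro i k a1 a2 a3 a4
    exact hinj i k a1 a2 a3 (by rw [a4])
  -- the three pieces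
  refine ⟨rev (t.take I), ?_, (t.drop I).take (J - 1 - I), ?_, t.drop (J - 1), ?_, ?_⟩
  · -- the reversed first piece
    have hlen : (t.take I).length = I := by
      rw [List.length_take]
      omega
    have hb1 : tip v0 ax (t.take I) = vx v0 ax t (I + 1) := by
      unfold tip
      rw [hlen]
      exact vx_take v0 ax t le_rfl
    have hb2 : -(dx ax (t.take I) (t.take I).length) = -e := by
      rw [hlen, dx_take ax t le_rfl, hdI]
    have hv : ∀ i, i ≤ I + 1 → vx (vx v0 ax t (I + 1)) (-e) (rev (t.take I)) i = vx v0 ax t (I + 1 - i) := by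
      intro i hi
      have := vx_rev v0 ax (t.take I) i (by rw [hlen]; exact hi)
      rw [hb1, hb2, hlen, vx_take v0 ax t (by omega)] at this
      exact this
    have hrl : (rev (t.take I)).length = I := by rw [rev_length, hlen]
    refine ⟨⟨fun i _ _ => Set.mem_univ _, fun i k hik hk e' => ?_⟩, fun i hi hk => ?_⟩
    · rw [hrl] at hk
      have e1 := up_inj (v := vx v0 ax t (I + 1)) hdir.neg e'
      rw [hv i (by omega), hv k (by omega)] at e1
      exact hneq (I + 1 - k) (I + 1 - i) (by omega) (by omega) (by omega) e1.symm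
    · rw [hrl] at hk
      rw [up_of (v := vx v0 ax t (I + 1)) hdir.neg, hv i (by omega), neg_mul, abs_neg]
      exact hlv _ _ (by omega) (by omega)
  · -- the bridge
    have hlen : ((t.drop I).take (J - 1 - I)).length = J - 1 - I := by
      rw [List.length_take, List.length_drop]
      omega
    have hv : ∀ i, i ≤ J - I → vx (vx v0 ax t I) e ((t.drop I).take (J - 1 - I)) i = vx v0 ax t (I + i) := by
      intro i hi
      rw [vx_take _ _ _ (by omega), ← hdI, vx_drop]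
    rw [Finset.mem_coe]
    refine mem_brS_of (v := vx v0 ax t I) hdir ?_ ?_ ?_ ?_
    · intro i k hi hik hk
      rw [hlen] at hk
      rw [hv i (by omega), hv k (by omega)]
      exact hinj _ _ (by omega) (by omega) (by omega)
    · intro i hi hk
      rw [hlen] at hk
      rw [hv i (by omega), hfσ, h4, sub_zero]
      exact h8 _ (by omega) (by omega)
    · rw [hlen, dx_take _ _ le_rfl]
      have : dx e (t.drop I) (J - 1 - I) = dx (dx ax t I) (t.drop I) (J - 1 - I) := by rw [hdI]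
      rw [this, dx_drop]
      have e2 : I + (J - 1 - I) = J - 1 := by omega
      rw [e2, hdJ]
    · rw [hlen]
      have e2 : J - 1 - I + 1 = J - I := by omega
      rw [e2, hv _ le_rfl, hfσ, h4, sub_zero]
      have e3 : I + (J - I) = J := by omega
      rw [e3, h7]
  · -- the last piece
    have hv : ∀ i, vx (vx v0 ax t (J - 1)) e (t.drop (J - 1)) i = vx v0 ax t (J - 1 + i) := by
      intro i
      rw [← hdJ, vx_drop]
    have hlen : (t.drop (J - 1)).length = t.length - (J - 1) := List.length_drop ..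
    refine ⟨⟨fun i _ _ => Set.mem_univ _, fun i k hik hk e' => ?_⟩, fun i hi hk => ?_⟩
    · rw [hlen] at hk
      have e1 := up_inj (v := vx v0 ax t (J - 1)) hdir e'
      rw [hv, hv] at e1
      exact hneq _ _ (by omega) (by omega) (by omega) e1
    · rw [hlen] at hk
      rw [up_of (v := vx v0 ax t (J - 1)) hdir, hv]
      exact hlv _ _ (by omega) (by omega)
  · rw [rev_rev]
    have e1 : t.drop (J - 1) = (t.drop I).drop (J - 1 - I) := by
      rw [List.drop_drop]
      congr 1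
      omega
    rw [e1, List.take_append_drop, List.take_append_drop]

/-- products of three words. -/
theorem gf_triple {P Q1 Q2 Q3 : Set (List Bool)}
    (h : ∀ t ∈ P, ∃ a ∈ Q1, ∃ b ∈ Q2, ∃ c ∈ Q3, t = rev a ++ (b ++ c)) : gf P ≤ gf Q1 * (gf Q2 * gf Q3) := by
  have h1 : gf P ≤ 1 * (gf Q1 * gf {x | ∃ b ∈ Q2, ∃ c ∈ Q3, x = b ++ c}) := by
    choose! a ha b hb c hc ht using h
    refine gf_le_pair 1 a (fun t => b t ++ c t) ha (fun t ht' => ⟨b t, hb t ht', c t, hc t ht', rfl⟩) ?_ ?_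
    · intro s hs t ht' e1 e2
      rw [ht s hs, ht t ht', e1]
      exact congrArg _ e2
    · intro t ht'
      rw [one_mul]
      conv_lhs => rw [ht t ht']
      rw [wE_append, wE_rev]
  have h2 : gf {x | ∃ b ∈ Q2, ∃ c ∈ Q3, x = b ++ c} ≤ 1 * (gf Q2 * gf Q3) := by
    have h3 : ∀ x ∈ {x : List Bool | ∃ b ∈ Q2, ∃ c ∈ Q3, x = b ++ c}, ∃ b ∈ Q2, ∃ c ∈ Q3, x = b ++ c :=
      fun x hx => hx
    choose! b hb c hc ht using h3
    refine gf_le_pair 1 b c hb hc ?_ ?_
    · intro s hs t ht' e1 e2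
      rw [ht s hs, ht t ht', e1, e2]
    · intro t ht'
      rw [one_mul]
      conv_lhs => rw [ht t ht']
      rw [wE_append]
  rw [one_mul] at h1 h2
  exact h1.trans (mul_le_mul_right h2 _)

/-- **the words of the cylinder that go `3 H + 2` levels away.** -/
theorem cut_w (A : Finset Pt) {H : ℕ} (hH : 1 ≤ H) (m : ℕ) :
    gf {t | (Cy N hN).Arr A (ft 0 0) t ∧
      (∃ i, i ≤ t.length ∧ 3 * (H : ℤ) + 2 ≤ |lev (vx (ft 0 0).1 ax t i) - lev (ft 0 0).1|) ∧
      (∀ i, i ≤ t.length → |lev (vx (ft 0 0).1 ax t i) - lev (ft 0 0).1| ≤ 3 * m)} ≤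
      gf (SPl (2 * m)) * (ENNReal.ofReal (brM N hN H) * gf (SPl (2 * m))) := by
  have e : ENNReal.ofReal (brM N hN H) = gf (brS N hN H : Set (List Bool)) := by
    rw [gf_finset]
    rfl
  rw [e]
  exact gf_triple fun t ht => cut_one hH ht.1 ht.2.1 ht.2.2

end Pool.Agent.GLD
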