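import Pool.Agent.NUNC.Gas
import Pool.Agent.NUN.Sort

/-!
# GLd: axial decay on the honeycomb cylinder; common definitions (doc glink/AXIAL_h87)

`C = Cy N hN` is the honeycomb cylinder with `N` rows, the levels `lev v = v.1 - v.2` grow along `(1, -1)`; the ring
number `k` consists of the vertices `A k i` (lower) and `B k i` (upper), `0 ≤ i < N`.
-/

set_option autoImplicit false

namespace Pool.Agent.GLD

open Pool.Agent.NUF.Cyl HexObs

/-- the level of a vertex. -/
def lev (v : Pt) : ℤ := v.1 - v.2

/-- the direction of the axis. -/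
def ax : Pt := (1, -1)

/-- the rings `a, ..., b - 1`. -/
noncomputable def rg (N : ℕ) (a b : ℤ) : Finset Pt :=
  ((Finset.Ico a b ×ˢ Finset.Ico (0 : ℤ) N).image fun p => _root_.EXL.A p.1 p.2) ∪
    ((Finset.Ico a b ×ˢ Finset.Ico (0 : ℤ) N).image fun p => _root_.EXL.B p.1 p.2)

/-- the lower vertex of ring `k` below which a bridge starts: the foot. -/
def ft (k i : ℤ) : Pt × Pt := (_root_.EXL.B (k - 1) i, ax)

/-- the winding polygons: the lift is not closed. -/
def Wnd (E : Finset (Pt × Pt)) : Prop := ∑ q ∈ E, q.2 ≠ 0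

instance : DecidablePred Wnd := fun E => inferInstanceAs (Decidable (∑ q ∈ E, q.2 ≠ 0))

/-- the weight of an oriented winding polygon. -/
noncomputable def wW (E : Finset (Pt × Pt)) : ℝ := -(√2 / 2) * xc ^ E.card

/-- the gas of the disjoint winding polygons with the weight `-√2`. -/
noncomputable def zC (C : Nm) (A : Finset Pt) : ℝ := GP wW ((C.polys A).filter Wnd)

/-- the words of the cylinder that leave the domain with their last step. -/
noncomputable def exC (C : Nm) (A : Finset Pt) (p : Pt × Pt) : Finset (List Bool) :=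
  (C.arr A p).filter (fun t => C.nb (C.le p t) ∉ A)

/-- arcs of the cylinder from the foot of ring 0 that leave `g` rings downwards. -/
noncomputable def arcS (N : ℕ) (hN : 1 ≤ N) (g : ℕ) : Finset (List Bool) :=
  (exC (Cy N hN) (rg N 0 g) (ft 0 0)).filter (fun t => dx ax t t.length = -ax)

/-- bridges of the cylinder of height `H` rings from the foot of ring 0. -/
noncomputable def brS (N : ℕ) (hN : 1 ≤ N) (H : ℕ) : Finset (List Bool) :=
  (exC (Cy N hN) (rg N 0 H) (ft 0 0)).filter (fun t => dx ax t t.length = ax)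

/-- the mass of the arcs in at most `g` rings. -/
noncomputable def arcM (N : ℕ) (hN : 1 ≤ N) (g : ℕ) : ℝ := ∑ t ∈ arcS N hN g, xc ^ t.length

/-- the mass of the bridges of height `H`. -/
noncomputable def brM (N : ℕ) (hN : 1 ≤ N) (H : ℕ) : ℝ := ∑ t ∈ brS N hN H, xc ^ t.length

end Pool.Agent.GLD
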