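import Pool.Agent.GLD.Turn0
import Pool.Agent.PLW.CylRev

/-!
# GLd, module A3, part A: words of the cylinder, concatenation; the winding of a closed part of a word
-/

set_option autoImplicit false

namespace Pool.Agent.GLD

open Pool.Agent.NUF.Cyl HexObs HexObs.LP Finset Pool.Agent.EXL

/-- the translations keep the levels. -/
structure Per (C : Nm) : Prop where
  lv : ∀ v, lev (C.nm v) = lev v
  eq : ∀ v w, C.nm v = C.nm w → ∃ D : Pt, w = v + D ∧ ∀ u, C.nm (u + D) = C.nm u

theorem Cy_per {N : ℕ} (hN : 1 ≤ N) : Per (Cy N hN) := by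
  refine ⟨fun v => nn_nm hN v, fun v w h => ?_⟩
  rw [nm_eq, nm_eq] at h
  unfold nmN at h
  set a := ri v / N
  set b := ri w / N
  refine ⟨((N : ℤ) * (b - a), (N : ℤ) * (b - a)), ?_, fun u => ?_⟩
  · simp only [tr, Prod.mk.injEq] at h
    apply Prod.ext
    · simp only [Prod.fst_add]
      linarith [h.1]
    · simp only [Prod.snd_add]
      linarith [h.2]
  · exact nmN_tr N hN (b - a) u

section

variable {C : Nm}

theorem Per.lv_eq (hC : Per C) {v w : Pt} (h : C.nm v = C.nm w) : lev v = lev w := by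
  rw [← hC.lv v, h, hC.lv]

/-! ### concatenation -/

theorem le_append {p : Pt × Pt} (hp : C.nm p.1 = p.1) (t u : List Bool) : C.le p (t ++ u) = C.le (C.le p t) u := by
  induction t generalizing p with
  | nil => rw [List.nil_append, Nm.le_nil hp]
  | cons b s ih => rw [List.cons_append, Nm.le_cons, Nm.le_cons, ih (C.nm_nb _)]

theorem le_nm (p : Pt × Pt) (t : List Bool) : C.nm (C.le p t).1 = (C.le p t).1 := C.idem _

theorem vt_append {p : Pt × Pt} (hp : C.nm p.1 = p.1) (t u : List Bool) :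
    C.vt p (t ++ u) = C.vt p t ∪ C.vt (C.le p t) u := by
  induction t generalizing p with
  | nil => rw [List.nil_append, Nm.le_nil hp, Nm.vt_nil, Finset.empty_union]
  | cons b s ih => rw [List.cons_append, Nm.vt_cons, Nm.vt_cons, Nm.le_cons, ih (C.nm_nb _), Finset.insert_union]

theorem arr_append {A : Finset Pt} {p : Pt × Pt} (hp : C.nm p.1 = p.1) (t u : List Bool) :
    C.Arr A p (t ++ u) ↔ C.Arr A p t ∧ C.Arr (A \ C.vt p t) (C.le p t) u := by
  induction t generalizing p A with
  | nil =>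
    rw [List.nil_append, Nm.le_nil hp, Nm.vt_nil, Finset.sdiff_empty]
    refine ⟨fun h => ⟨⟨fun i h1 h2 => by simp at h2; omega, fun i k h1 h2 h3 => by simp at h3; omega⟩, h⟩,
      fun h => h.2⟩
  | cons b s ih =>
    rw [List.cons_append, Nm.arr_cons, Nm.arr_cons, Nm.le_cons, Nm.vt_cons, ih (C.nm_nb _)]
    have e : A \ insert (C.nb p) (C.vt (C.nb p, turn b p.2) s) =
        A.erase (C.nb p) \ C.vt (C.nb p, turn b p.2) s := by
      ext v
      simp only [Finset.mem_sdiff, Finset.mem_insert, Finset.mem_erase]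
      tauto
    rw [e]
    tauto

theorem arr_nil (A : Finset Pt) (p : Pt × Pt) : C.Arr A p [] :=
  ⟨fun i h1 h2 => by simp at h2; omega, fun i k h1 h2 h3 => by simp at h3; omega⟩

theorem arr_one {A : Finset Pt} {p : Pt × Pt} (hp : C.nm p.1 = p.1) (t : List Bool) (b : Bool) :
    C.Arr A p (t ++ [b]) ↔ C.Arr A p t ∧ C.nb (C.le p t) ∈ A \ C.vt p t := by
  rw [arr_append hp, Nm.arr_cons]
  exact ⟨fun h => ⟨h.1, h.2.1⟩, fun h => ⟨h.1, h.2, arr_nil _ _⟩⟩

theorem vt_one {p : Pt × Pt} (hp : C.nm p.1 = p.1) (t : List Bool) (b : Bool) :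
    C.vt p (t ++ [b]) = insert (C.nb (C.le p t)) (C.vt p t) := by
  rw [vt_append hp, Nm.vt_cons, Nm.vt_nil]
  ext v
  simp only [Finset.mem_union, Finset.mem_insert, Finset.notMem_empty, or_false]
  tauto

theorem le_one {p : Pt × Pt} (hp : C.nm p.1 = p.1) (t : List Bool) (b : Bool) :
    C.le p (t ++ [b]) = (C.nb (C.le p t), turn b (C.le p t).2) := by
  rw [le_append hp, Nm.le_cons, Nm.le_nil (C.nm_nb _)]

theorem nb_le (p : Pt × Pt) (t : List Bool) : C.nb (C.le p t) = C.nm (tip p.1 p.2 t) := by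
  unfold Nm.nb Nm.le
  simp only
  rw [C.add]
  rfl

theorem vt_sub {A : Finset Pt} {p : Pt × Pt} {t : List Bool} (h : C.Arr A p t) : C.vt p t ⊆ A := by
  intro v hv
  unfold Nm.vt at hv
  rw [Finset.mem_image] at hv
  obtain ⟨i, hi, rfl⟩ := hv
  rw [Finset.mem_range] at hi
  exact h.mem (i + 1) (by omega) (by omega)

theorem mem_vt {p : Pt × Pt} {t : List Bool} {v : Pt} :
    v ∈ C.vt p t ↔ ∃ i, i < t.length ∧ C.nm (vx p.1 p.2 t (i + 1)) = v := by
  unfold Nm.vt
  simp only [Finset.mem_image, Finset.mem_range]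

/-- the last vertex before the last step: the start or a vertex of the word. -/
theorem le_fst {p : Pt × Pt} (hp : C.nm p.1 = p.1) (t : List Bool) :
    (t = [] ∧ C.le p t = p) ∨ (t ≠ [] ∧ (C.le p t).1 ∈ C.vt p t) := by
  rcases Nat.eq_zero_or_pos t.length with h | h
  · have : t = [] := List.length_eq_zero_iff.1 h
    subst this
    exact Or.inl ⟨rfl, Nm.le_nil hp⟩
  · refine Or.inr ⟨by rintro rfl; simp at h, mem_vt.2 ⟨t.length - 1, by omega, ?_⟩⟩
    rw [Nat.sub_add_cancel h]
    rfl

/-! ### displacement -/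

theorem vx_sum (v d : Pt) (t : List Bool) (n : ℕ) : vx v d t n = v + ∑ i ∈ range n, dx d t i := by
  induction n with
  | zero => simp [vx, vs]
  | succ n ih =>
    rw [Finset.sum_range_succ, ← add_assoc, ← ih]
    rfl

theorem vx_trans (v d D : Pt) (t : List Bool) (i : ℕ) : vx (v + D) d t i = vx v d t i + D := vs_trans v d D (tf t) i

/-- the displacement of a closed word. -/
theorem dsp_cE {p : Pt × Pt} {t : List Bool} (h : C.Clo p t) :
    ∑ q ∈ C.cE p t, q.2 = vx p.1 p.2 t t.length - p.1 := by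
  have h4 := h.card
  unfold Nm.cE at h4 ⊢
  rw [Finset.sum_image (Finset.card_image_iff.1 (by rw [h4, Finset.card_range])), vx_sum]
  simp

theorem wnd_iff {p : Pt × Pt} {t : List Bool} (h : C.Clo p t) : Wnd (C.cE p t) ↔ vx p.1 p.2 t t.length ≠ p.1 := by
  unfold Wnd
  rw [dsp_cE h, ne_eq, sub_eq_zero]

theorem wind_cons (b : Bool) (t : List Bool) : wind (b :: t) = sgn b + wind t := by
  unfold wind
  simp

/-- **winding closed words have the turning number 0.** -/
theorem wind_clo (hC : Per C) {p : Pt × Pt} {t : List Bool} (h : C.Clo p t) (hw : vx p.1 p.2 t t.length ≠ p.1) :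
    wind t = 0 := by
  obtain ⟨h1, h2⟩ := Nm.clo_nm h.le
  obtain ⟨D, hD, hD'⟩ := hC.eq p.1 (vx p.1 p.2 t t.length) (by rw [h1]; exact h.de.2)
  have hD0 : D ≠ 0 := by
    rintro rfl
    rw [add_zero] at hD
    exact hw hD
  have hpos := h.pos
  set L := t.length with hL
  set τ : ℕ → Bool := fun j => tf t (j % L) with hτ
  have hper : ∀ i, τ (i + L) = τ i := by
    intro i
    simp only [hτ]
    rw [Nat.add_mod_right]
  have hds : ds p.2 τ L = p.2 := by
    have := Nm.ds_tau (d := p.2) (t := t) (i := L) le_rfl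
    rw [hτ, this, h2]
  have hvs : vs p.1 p.2 τ L = p.1 + D := by
    have := Nm.vs_tau (v := p.1) (d := p.2) (t := t) (i := L) (by omega)
    rw [hτ, this, hD]
  have hpv : ∀ i, vs p.1 p.2 τ (i + L) = vs p.1 p.2 τ i + D := by
    intro i
    rw [add_comm, vs_shift, hds, hvs, vs_trans]
    congr 1
    exact vs_congr i (fun k _ => by rw [add_comm, hper])
  have hpvn : ∀ n i, vs p.1 p.2 τ (i + n * L) = vs p.1 p.2 τ i + n • D := by
    intro n i
    induction n with
    | zero => simp
    | succ n ih =>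
      rw [Nat.succ_mul, ← add_assoc, hpv, ih, succ_nsmul, add_assoc]
  have hnmn : ∀ (n : ℕ) u, C.nm (u + n • D) = C.nm u := by
    intro n u
    induction n with
    | zero => simp
    | succ n ih => rw [succ_nsmul, ← add_assoc, hD', ih]
  have hinj : ∀ i k, i < k → vs p.1 p.2 τ i ≠ vs p.1 p.2 τ k := by
    intro i k hik heq
    have ei : i = i % L + (i / L) * L := by rw [mul_comm]; exact (Nat.mod_add_div i L).symm
    have ek : k = k % L + (k / L) * L := by rw [mul_comm]; exact (Nat.mod_add_div k L).symm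
    have hi : i % L < L := Nat.mod_lt _ (by omega)
    have hk : k % L < L := Nat.mod_lt _ (by omega)
    rw [ei, ek, hpvn, hpvn] at heq
    have e1 : C.nm (vx p.1 p.2 t (i % L)) = C.nm (vx p.1 p.2 t (k % L)) := by
      have a1 := Nm.vs_tau (v := p.1) (d := p.2) (t := t) (i := i % L) (by omega)
      have a2 := Nm.vs_tau (v := p.1) (d := p.2) (t := t) (i := k % L) (by omega)
      rw [← a1, ← a2, ← hnmn (i / L), heq, hnmn]
    have e2 := h.inj0 hi hk e1
    rw [e2] at heq
    have e3 : (i / L) • D = (k / L) • D := add_left_cancel heq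
    have e4 : i / L = k / L := by
      by_contra hne
      apply hD0
      have h5 := congrArg Prod.fst e3
      have h6 := congrArg Prod.snd e3
      simp only [Prod.smul_fst, Prod.smul_snd, nsmul_eq_mul] at h5 h6
      have h7 : ((i / L : ℕ) : ℤ) ≠ ((k / L : ℕ) : ℤ) := by exact_mod_cast hne
      apply Prod.ext
      · by_contra h8
        exact h7 (mul_right_cancel₀ h8 h5)
      · by_contra h8
        exact h7 (mul_right_cancel₀ h8 h6)
    rw [ei, ek, e2, e4] at hik
    omega
  have hlD : lev D = 0 := by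
    have h8 := hC.lv_eq (hD' 0)
    rw [zero_add] at h8
    rw [h8]
    rfl
  have key := turn_zero h.de.1.1 (by omega) hper hds hvs hlD hinj
  rw [wind_sum, ← key, ← hL]
  apply Finset.sum_congr rfl
  intro i hi
  rw [Finset.mem_range] at hi
  simp only [hτ]
  rw [Nat.mod_eq_of_lt hi]

end

theorem turn0 {N : ℕ} {hN : 1 ≤ N} {p : Pt × Pt} {t : List Bool} (h : (Cy N hN).Clo p t)
    (hw : vx p.1 p.2 t t.length ≠ p.1) : wind t = 0 := wind_clo (Cy_per hN) h hw

end Pool.Agent.GLD
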