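import Pool.Agent.GLD.FluxA

/-!
# GLd, module A3, part B: the words that return to a visited vertex
-/

set_option autoImplicit false

namespace Pool.Agent.GLD

open Pool.Agent.NUF.Cyl HexObs HexObs.LP Finset

section

variable {C : Nm}

/-- the words whose next vertex is free. -/
noncomputable def exteC (C : Nm) (A : Finset Pt) (p : Pt × Pt) : Finset (List Bool) :=
  (C.arr A p).filter (fun t => C.nb (C.le p t) ∈ A \ C.vt p t)

/-- the words that are back at a visited vertex. -/
noncomputable def backC (C : Nm) (A : Finset Pt) (p : Pt × Pt) : Finset (List Bool) :=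
  (C.arr A p).filter (fun t => C.nb (C.le p t) ∈ C.vt p t)

theorem mem_exF {A : Finset Pt} {p : Pt × Pt} {t : List Bool} :
    t ∈ exC C A p ↔ C.Arr A p t ∧ C.nb (C.le p t) ∉ A := by
  unfold exC
  rw [Finset.mem_filter, Nm.mem_arr]

theorem mem_exteC {A : Finset Pt} {p : Pt × Pt} {t : List Bool} :
    t ∈ exteC C A p ↔ C.Arr A p t ∧ C.nb (C.le p t) ∈ A \ C.vt p t := by
  unfold exteC
  rw [Finset.mem_filter, Nm.mem_arr]

theorem mem_backC {A : Finset Pt} {p : Pt × Pt} {t : List Bool} :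
    t ∈ backC C A p ↔ C.Arr A p t ∧ C.nb (C.le p t) ∈ C.vt p t := by
  unfold backC
  rw [Finset.mem_filter, Nm.mem_arr]

theorem sum_arrC (A : Finset Pt) (p : Pt × Pt) (f : List Bool → ℂ) :
    ∑ t ∈ C.arr A p, f t = ∑ t ∈ exC C A p, f t + ∑ t ∈ exteC C A p, f t + ∑ t ∈ backC C A p, f t := by
  have h1 := Finset.sum_filter_add_sum_filter_not (C.arr A p) (fun t => C.nb (C.le p t) ∈ A) f
  have h2 := Finset.sum_filter_add_sum_filter_not ((C.arr A p).filter (fun t => C.nb (C.le p t) ∈ A))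
    (fun t => C.nb (C.le p t) ∈ C.vt p t) f
  rw [Finset.filter_filter, Finset.filter_filter] at h2
  have h3 : (C.arr A p).filter (fun t => C.nb (C.le p t) ∈ A ∧ C.nb (C.le p t) ∈ C.vt p t) = backC C A p := by
    ext t
    rw [Finset.mem_filter, Nm.mem_arr, mem_backC]
    exact ⟨fun h => ⟨h.1, h.2.2⟩, fun h => ⟨h.1, vt_sub h.1 h.2, h.2⟩⟩
  have h4 : (C.arr A p).filter (fun t => C.nb (C.le p t) ∈ A ∧ ¬ C.nb (C.le p t) ∈ C.vt p t) = exteC C A p := by
    ext t
    rw [Finset.mem_filter, Nm.mem_arr, mem_exteC, Finset.mem_sdiff]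
  rw [h3, h4] at h2
  have h5 : (C.arr A p).filter (fun t => ¬ C.nb (C.le p t) ∈ A) = exC C A p := rfl
  rw [h5] at h1
  rw [← h1, ← h2]
  ring

theorem wt_append (t s : List Bool) : wt (t ++ s) = wt t * wt s := by
  unfold wt
  rw [wind_append, List.length_append, pow_add]
  have e : ((((wind t + wind s : ℤ) : ℝ) * (Real.pi / 8) : ℝ) : ℂ) * Complex.I =
      (((wind t : ℝ) * (Real.pi / 8) : ℝ) : ℂ) * Complex.I + (((wind s : ℝ) * (Real.pi / 8) : ℝ) : ℂ) * Complex.I := by
    push_cast
    ring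
  rw [e, Complex.exp_add]
  ring

/-- the words with one more letter. -/
theorem sum_arrC' (A : Finset Pt) {p : Pt × Pt} (hp : C.nm p.1 = p.1) (z : Finset Pt → ℂ) :
    ∑ t ∈ C.arr A p, wt t * z (A \ C.vt p t) = z A +
      ∑ t ∈ exteC C A p, wt t * z ((A \ C.vt p t).erase (C.nb (C.le p t))) := by
  classical
  have hnil : [] ∈ C.arr A p := Nm.mem_arr.2 (arr_nil A p)
  rw [← Finset.add_sum_erase _ _ hnil, wt_nil, Nm.vt_nil, Finset.sdiff_empty, one_mul]
  congr 1
  have h1 : ∑ t ∈ exteC C A p, wt t * z ((A \ C.vt p t).erase (C.nb (C.le p t))) =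
      ∑ t ∈ exteC C A p, ∑ b : Bool, wt (t ++ [b]) * z (A \ C.vt p (t ++ [b])) := by
    apply Finset.sum_congr rfl
    intro t _
    have e : ∀ b : Bool, A \ C.vt p (t ++ [b]) = (A \ C.vt p t).erase (C.nb (C.le p t)) := by
      intro b
      rw [vt_one hp]
      ext v
      simp only [Finset.mem_sdiff, Finset.mem_insert, Finset.mem_erase]
      tauto
    rw [Fintype.sum_bool, e, e, ← wt_extend]
    ring
  rw [h1, ← Finset.sum_product' (f := fun t b => wt (t ++ [b]) * z (A \ C.vt p (t ++ [b])))]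
  symm
  refine Finset.sum_bij (fun q _ => q.1 ++ [q.2]) ?_ ?_ ?_ ?_
  · rintro ⟨t, b⟩ hq
    rw [Finset.mem_product, mem_exteC] at hq
    rw [Finset.mem_erase, Nm.mem_arr]
    exact ⟨by simp, (arr_one hp t b).2 hq.1⟩
  · rintro ⟨t, b⟩ _ ⟨s, c⟩ _ h
    have := List.append_inj' h rfl
    simp only [List.cons.injEq, and_true] at this
    exact Prod.ext this.1 this.2
  · intro t ht
    rw [Finset.mem_erase, Nm.mem_arr] at ht
    obtain ⟨hne, harr⟩ := ht
    have h2 := List.dropLast_append_getLast hne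
    refine ⟨(t.dropLast, t.getLast hne), ?_, h2⟩
    rw [Finset.mem_product, mem_exteC]
    refine ⟨?_, Finset.mem_univ _⟩
    rw [← h2] at harr
    exact (arr_one hp _ _).1 harr
  · intro q _
    rfl

/-! ### the decomposition of the words that return -/

/-- the third direction. -/
theorem third : ∀ d ∈ dirs, ∀ e ∈ dirs, ∀ b c : Bool, turn c e = turn b d → c = !b ∨ e = d := by
  decide

/-- the first half edge of the loop. -/
def qd (C : Nm) (p : Pt × Pt) (t : List Bool) (b : Bool) : Pt × Pt := (C.nb (C.le p t), turn b (C.le p t).2)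

theorem De_le {p : Pt × Pt} (hp : C.De p) (t : List Bool) : C.De (C.le p t) := Nm.De_vx hp t t.length

theorem De_qd {p : Pt × Pt} (hp : C.De p) (t : List Bool) (b : Bool) : C.De (qd C p t b) := by
  have h := De_le hp t
  exact Nm.De.turn (v := (C.le p t).1) (d := (C.le p t).2) h b

/-- the neighbour along the first edge does not belong to the rest of the domain. -/
theorem prev_notMem {A : Finset Pt} {p : Pt × Pt} (hp : C.De p)
    (hl : ∀ v ∈ A, lev p.1 < lev v) {t : List Bool} : (C.le p t).1 ∉ A \ C.vt p t := by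
  intro h
  rw [Finset.mem_sdiff] at h
  rcases le_fst hp.2 t with ⟨-, h1⟩ | ⟨-, h1⟩
  · rw [h1] at h
    exact lt_irrefl _ (hl _ h.1)
  · exact h.2 h1

/-- the last turn of a closed word through the tip of a word. -/
theorem last_turn {A : Finset Pt} {p : Pt × Pt} (hp : C.De p) (hl : ∀ v ∈ A, lev p.1 < lev v)
    {t : List Bool} {b c : Bool} {s : List Bool} (h : C.Clo (qd C p t b) (s ++ [c]))
    (hs : VE (C.cE (qd C p t b) (s ++ [c])) ⊆ A \ C.vt p t) : c = !b := by
  have hq := De_qd hp t b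
  have hle := h.le
  rw [le_one hq.2] at hle
  have h1 : C.nb (C.le (qd C p t b) s) = C.nb (C.le p t) := congrArg Prod.fst hle
  have h2 : turn c (C.le (qd C p t b) s).2 = turn b (C.le p t).2 := congrArg Prod.snd hle
  have d1 := De_le hp t
  have d2 := De_le hq s
  rcases third _ d1.1.1 _ d2.1.1 b c h2 with h3 | h3
  · exact h3
  · exfalso
    have h4 : C.rv (C.le (qd C p t b) s) = C.rv (C.le p t) := by
      unfold Nm.rv
      rw [h1, h3]
    have h5 : C.le (qd C p t b) s = C.le p t := by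
      rw [← Nm.rv_rv (le_nm (C := C) (qd C p t b) s), h4, Nm.rv_rv (le_nm p t)]
    apply prev_notMem hp hl (t := t)
    rw [← h5]
    apply hs
    rw [Nm.mem_VE_cE]
    refine ⟨s.length, by simp, ?_⟩
    rw [Nm.vx_app _ _ c le_rfl]
    rfl

/-- a closed word through the tip of a word gives a word that returns. -/
theorem back_of_clo {A : Finset Pt} {p : Pt × Pt} (hp : C.De p)
    {t : List Bool} (ht : t ∈ exteC C A p) {b c : Bool} {s : List Bool} (h : C.Clo (qd C p t b) (s ++ [c]))
    (hs : VE (C.cE (qd C p t b) (s ++ [c])) ⊆ A \ C.vt p t) :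
    t ++ b :: s ∈ backC C A p ∧ C.nb (C.le p (t ++ b :: s)) = C.nb (C.le p t) ∧
      A \ C.vt p (t ++ b :: s) = (A \ C.vt p t) \ VE (C.cE (qd C p t b) (s ++ [c])) := by
  have hq := De_qd hp t b
  obtain ⟨t1, t2⟩ := mem_exteC.1 ht
  have h1 := h.arr.2 hs
  have hle := h.le
  rw [le_one hq.2] at hle
  have h2 : C.nb (C.le (qd C p t b) s) = C.nb (C.le p t) := congrArg Prod.fst hle
  have h3 := (arr_one hq.2 s c).1 h1
  have h4 : C.Arr (A \ C.vt p t) (C.le p t) (b :: s) := by
    rw [Nm.arr_cons]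
    refine ⟨t2, ?_⟩
    constructor
    · intro i hi1 hi2
      rw [Finset.mem_erase]
      refine ⟨fun e => ?_, h3.1.mem i hi1 hi2⟩
      apply (Finset.mem_sdiff.1 h3.2).2
      rw [h2, mem_vt]
      refine ⟨i - 1, by omega, ?_⟩
      rw [Nat.sub_add_cancel hi1]
      exact e
    · exact h3.1.inj
  have h5 : C.le p (t ++ b :: s) = C.le (qd C p t b) s := by
    rw [le_append hp.2, Nm.le_cons]
    rfl
  have h6 : C.vt p (t ++ b :: s) = C.vt p t ∪ insert (C.nb (C.le p t)) (C.vt (qd C p t b) s) := by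
    rw [vt_append hp.2, Nm.vt_cons]
    rfl
  refine ⟨mem_backC.2 ⟨(arr_append hp.2 _ _).2 ⟨t1, h4⟩, ?_⟩, ?_, ?_⟩
  · rw [h5, h2, h6]
    simp
  · rw [h5, h2]
  · rw [h6, ← h.vt, vt_one hq.2, h2]
    ext v
    simp only [Finset.mem_sdiff, Finset.mem_union, Finset.mem_insert]
    tauto

/-- every word that returns is of this form. -/
theorem back_split {A : Finset Pt} {p : Pt × Pt} (hp : C.De p) {t' : List Bool} (h : t' ∈ backC C A p) :
    ∃ t b s, t' = t ++ b :: s ∧ t ∈ exteC C A p ∧ C.nb (C.le p t') = C.nb (C.le p t) := by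
  obtain ⟨h1, h2⟩ := mem_backC.1 h
  obtain ⟨i, hi, e⟩ := mem_vt.1 h2
  have e1 : t' = t'.take i ++ t'[i] :: t'.drop (i + 1) := by
    conv_lhs => rw [← List.take_append_drop i t']
    congr 1
    exact List.drop_eq_getElem_cons hi
  refine ⟨t'.take i, t'[i], t'.drop (i + 1), e1, ?_, ?_⟩
  · rw [mem_exteC]
    rw [e1, arr_append hp.2, Nm.arr_cons] at h1
    exact ⟨h1.1, h1.2.1⟩
  · rw [← e, nb_le]
    congr 1
    have hl : (t'.take i).length = i := by
      rw [List.length_take]
      omega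
    unfold tip
    rw [hl]
    conv_lhs => rw [e1]
    rw [vx_append (by rw [hl])]

theorem back_uniq {A : Finset Pt} {p : Pt × Pt} {t b s t1 b1 s1}
    (h : t ++ b :: s ∈ backC C A p) (he : t ++ b :: s = t1 ++ b1 :: s1)
    (h1 : C.nb (C.le p (t ++ b :: s)) = C.nb (C.le p t))
    (h2 : C.nb (C.le p (t1 ++ b1 :: s1)) = C.nb (C.le p t1)) : t = t1 ∧ b = b1 ∧ s = s1 := by
  obtain ⟨h3, -⟩ := mem_backC.1 h
  have key : ∀ (u : List Bool) (c : Bool) (v : List Bool), t ++ b :: s = u ++ c :: v →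
      C.nm (vx p.1 p.2 (t ++ b :: s) (u.length + 1)) = C.nb (C.le p u) := by
    intro u c v e
    rw [e, nb_le]
    unfold tip
    rw [vx_append le_rfl]
  have k1 := key t b s rfl
  have k2 := key t1 b1 s1 he
  have k3 : C.nb (C.le p t) = C.nb (C.le p t1) := by rw [← h1, ← h2, he]
  have hlen : t.length = t1.length := by
    have l1 : t.length + 1 ≤ (t ++ b :: s).length := by simp
    have l2 : t1.length + 1 ≤ (t ++ b :: s).length := by rw [he]; simp
    by_contra hne
    rcases lt_or_gt_of_ne hne with c | c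
    · exact h3.inj (t.length + 1) (t1.length + 1) (by omega) (by omega) l2 (by rw [k1, k2, k3])
    · exact h3.inj (t1.length + 1) (t.length + 1) (by omega) (by omega) l1 (by rw [k1, k2, k3])
  obtain ⟨a1, a2⟩ := List.append_inj he hlen
  rw [List.cons.injEq] at a2
  exact ⟨a1, a2.1, a2.2⟩

/-- the closed word of a word that returns. -/
theorem clo_of_back {A : Finset Pt} {p : Pt × Pt} (hp : C.De p) (hl : ∀ v ∈ A, lev p.1 < lev v)
    {t : List Bool} {b : Bool} {s : List Bool} (h : t ++ b :: s ∈ backC C A p)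
    (he : C.nb (C.le p (t ++ b :: s)) = C.nb (C.le p t)) :
    ∃ c, C.Clo (qd C p t b) (s ++ [c]) ∧ VE (C.cE (qd C p t b) (s ++ [c])) ⊆ A \ C.vt p t := by
  have hq := De_qd hp t b
  obtain ⟨h1, -⟩ := mem_backC.1 h
  have h5 : C.le p (t ++ b :: s) = C.le (qd C p t b) s := by
    rw [le_append hp.2, Nm.le_cons]
    rfl
  rw [h5] at he
  rw [arr_append hp.2, Nm.arr_cons] at h1
  obtain ⟨t1, t2, t3⟩ := h1
  change C.Arr ((A \ C.vt p t).erase (C.nb (C.le p t))) (qd C p t b) s at t3
  have t3' : C.Arr (A \ C.vt p t) (qd C p t b) s :=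
    ⟨fun i a1 a2 => Finset.mem_of_mem_erase (t3.mem i a1 a2), t3.inj⟩
  have d1 := De_le hp t
  have d2 := De_le hq s
  -- the direction of the return
  have hV : C.nb (C.le (qd C p t b) s) ∉ C.vt (qd C p t b) s := by
    rw [he]
    intro hm
    exact (Finset.mem_erase.1 (vt_sub t3 hm)).1 rfl
  have key : ∃ c, turn c (C.le (qd C p t b) s).2 = turn b (C.le p t).2 := by
    -- the class of the direction
    have hcl : cl (C.le (qd C p t b) s).2 = cl (C.le p t).2 := by
      have a1 : Vt (C.nb (C.le p t)) := hq.1.2.1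
      have b1 := d1.1.2.1
      have b2 := d2.1.2.1
      have c1 : cl (C.nb (C.le p t)) = cl (C.le p t).1 + cl (C.le p t).2 := by
        unfold Nm.nb
        rw [C.cl, cl_add]
      have c2 : cl (C.nb (C.le p t)) = cl (C.le (qd C p t b) s).1 + cl (C.le (qd C p t b) s).2 := by
        rw [← he]
        unfold Nm.nb
        rw [C.cl, cl_add]
      unfold Vt at a1 b1 b2
      have n1 := cl_dir_ne d1.1.1
      have n2 := cl_dir_ne d2.1.1
      revert a1 b1 b2 c1 c2 n1 n2
      generalize cl (C.nb (C.le p t)) = x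
      generalize cl (C.le p t).1 = y
      generalize cl (C.le (qd C p t b) s).1 = z
      generalize cl (C.le p t).2 = u
      generalize cl (C.le (qd C p t b) s).2 = w
      decide +revert
    have hne : (C.le (qd C p t b) s).2 ≠ (C.le p t).2 := by
      intro h3
      have h4 : C.rv (C.le (qd C p t b) s) = C.rv (C.le p t) := by
        unfold Nm.rv
        rw [he, h3]
      have h6 : C.le (qd C p t b) s = C.le p t := by
        rw [← Nm.rv_rv (le_nm (C := C) (qd C p t b) s), h4, Nm.rv_rv (le_nm p t)]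
      rcases le_fst hq.2 s with ⟨-, h7⟩ | ⟨-, h7⟩
      · rw [h7] at h6
        have h8 : C.nb (C.le p t) = (C.le p t).1 := congrArg Prod.fst h6
        exact Nm.nb_ne d1 h8
      · apply prev_notMem hp hl (t := t)
        rw [← h6]
        exact vt_sub t3' h7
    have hne2 : -(C.le (qd C p t b) s).2 ≠ turn b (C.le p t).2 := by
      intro h3
      -- the last step goes back along the first one
      have h4 : C.rv (C.le (qd C p t b) s) = qd C p t b := by
        show (C.nb (C.le (qd C p t b) s), -(C.le (qd C p t b) s).2) = qd C p t b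
        rw [he, h3]
        rfl
      have h6 : C.le (qd C p t b) s = C.rv (qd C p t b) := by
        have h7 := Nm.rv_rv (le_nm (C := C) (qd C p t b) s)
        rw [h4] at h7
        exact h7.symm
      rcases s with _ | ⟨a, s'⟩
      · rw [Nm.le_nil hq.2] at h6
        exact Nm.rv_ne hq h6
      · rw [Nm.le_cons] at h6
        have hq1 : C.De (C.nb (qd C p t b), turn a (qd C p t b).2) :=
          Nm.De.turn (v := (qd C p t b).1) (d := (qd C p t b).2) hq a
        rcases le_fst hq1.2 s' with ⟨-, h7⟩ | ⟨-, h7⟩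
        · rw [h7] at h6
          have h8 : turn a (qd C p t b).2 = -(qd C p t b).2 := congrArg Prod.snd h6
          have : ∀ d ∈ dirs, ∀ a : Bool, turn a d ≠ -d := by decide
          exact this _ hq.1.1 a h8
        · rw [h6] at h7
          have h8 : (C.rv (qd C p t b)).1 = C.nb (qd C p t b) := rfl
          rw [h8] at h7
          have h9 := (Nm.arr_cons.1 t3').2
          exact (Finset.mem_erase.1 (vt_sub h9 h7)).1 rfl
    have : ∀ d ∈ dirs, ∀ e ∈ dirs, ∀ b : Bool, cl e = cl d → e ≠ d → -e ≠ turn b d → ∃ c, turn c e = turn b d := by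
      decide
    exact this _ d1.1.1 _ d2.1.1 b hcl hne hne2
  obtain ⟨c, hc⟩ := key
  have hle : C.le (qd C p t b) (s ++ [c]) = qd C p t b := by
    rw [le_one hq.2, he, hc]
    rfl
  have harr : C.Arr (A \ C.vt p t) (qd C p t b) (s ++ [c]) := by
    rw [arr_one hq.2]
    refine ⟨t3', Finset.mem_sdiff.2 ⟨?_, hV⟩⟩
    rw [he]
    exact t2
  have hclo : C.Clo (qd C p t b) (s ++ [c]) := ⟨hq, by simp, hle, harr.inj⟩
  exact ⟨c, hclo, hclo.arr.1 harr⟩

end

end Pool.Agent.GLD
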