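import Pool.Agent.GLD.Lift
import Pool.Agent.GLow.LevDefs

/-!
# The first vertical step (GLd, hG)

`PE_sum_le`: the sum over all displacements `K` of the words between two mid-edges of the same level in the levels
`(-3 M, 3 M]` (whose outer ends may be visited) is at most a constant times the critical weight of the walks with an
extent of at most `2 M + 2` rows that end on one of the levels `-1, 0, 1`: the word is cut at its first vertical step.
-/

set_option autoImplicit false

namespace Pool.Agent.GLD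

open HexObs HexObs.LP
open HexObs.BAR (TwoL Ext tsum_lev pos_drop)
open scoped ENNReal

/-- the words before the first vertical step. -/
def Zg : Set (List Bool) := {p | 1 ≤ p.length ∧ (dx up p p.length = up ∨ dx up p p.length = -up) ∧
  ∀ i, 1 ≤ i → i < p.length → dx up p i ≠ up ∧ dx up p i ≠ -up}

theorem turn_det : ∀ d ∈ dirs, d ≠ up → d ≠ -up → ∀ b c : Bool,
    ((turn b d = up ∨ turn b d = -up) ↔ (turn c d = up ∨ turn c d = -up)) → b = c := by
  decide

theorem Zg_inj {p q : List Bool} (hp : p ∈ Zg) (hq : q ∈ Zg) (h0 : tf p 0 = tf q 0) (hl : p.length = q.length) :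
    p = q := by
  obtain ⟨p1, p2, p3⟩ := hp
  obtain ⟨q1, q2, q3⟩ := hq
  have key : ∀ i, i < p.length → tf p i = tf q i := by
    intro i
    induction i using Nat.strong_induction_on with
    | _ i ih =>
      intro hi
      rcases Nat.eq_zero_or_pos i with rfl | h1
      · exact h0
      · have e1 : dx up p i = dx up q i := ds_congr i fun k hk => ih k hk (by omega)
        obtain ⟨n1, n2⟩ := p3 i h1 hi
        refine turn_det _ (ds_mem upd i) n1 n2 _ _ ?_
        have e2 : turn (tf p i) (ds up (tf p) i) = dx up p (i + 1) := rfl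
        have e3 : turn (tf q i) (ds up (tf p) i) = dx up q (i + 1) := by
          have : ds up (tf p) i = ds up (tf q) i := e1
          rw [this]
          rfl
        rw [e2, e3]
        rcases Nat.lt_or_ge (i + 1) p.length with h2 | h2
        · obtain ⟨m1, m2⟩ := p3 (i + 1) (by omega) h2
          obtain ⟨m3, m4⟩ := q3 (i + 1) (by omega) (by omega)
          exact ⟨fun h => absurd h (by rintro (h | h); exacts [m1 h, m2 h]),
            fun h => absurd h (by rintro (h | h); exacts [m3 h, m4 h])⟩
        · have h3 : i + 1 = p.length := by omega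
          have h4 : i + 1 = q.length := by omega
          constructor
          · intro _
            rw [h4]
            exact q2
          · intro _
            rw [h3]
            exact p2
  refine List.ext_getElem hl fun i h1 h2 => ?_
  have := key i h1
  unfold tf at this
  rwa [List.getD_eq_getElem _ _ h1, List.getD_eq_getElem _ _ h2] at this

theorem xc_lt_one : xc < 1 := by
  have h1 : xc = 1 / (2 * Real.cos (Real.pi / 8)) := rfl
  have h2 : Real.cos (Real.pi / 6) ≤ Real.cos (Real.pi / 8) :=
    Real.cos_le_cos_of_nonneg_of_le_pi (by positivity) (by linarith [Real.pi_pos]) (by linarith [Real.pi_pos])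
  rw [Real.cos_pi_div_six] at h2
  have h3 : (1.7 : ℝ) ≤ Real.sqrt 3 := Real.le_sqrt_of_sq_le (by norm_num)
  rw [h1, div_lt_one (by linarith)]
  linarith

theorem gf_Zg_le : gf Zg ≤ ENNReal.ofReal (2 / (1 - xc)) := by
  have hx := xc_pos
  have hx1 := xc_lt_one
  let φ : Zg → Bool × ℕ := fun p => (tf p 0, (p : List Bool).length)
  have hφ : Function.Injective φ := by
    intro a b hab
    have h1 : tf a 0 = tf b 0 := congrArg Prod.fst hab
    have h2 : (a : List Bool).length = (b : List Bool).length := congrArg Prod.snd hab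
    exact Subtype.ext (Zg_inj a.2 b.2 h1 h2)
  unfold gf
  calc ∑' p : Zg, wE p = ∑' p : Zg, ENNReal.ofReal (xc ^ (φ p).2) := rfl
    _ ≤ ∑' q : Bool × ℕ, ENNReal.ofReal (xc ^ q.2) :=
        ENNReal.tsum_comp_le_tsum_of_injective hφ (fun q : Bool × ℕ => ENNReal.ofReal (xc ^ q.2))
    _ = ∑' _b : Bool, ∑' n : ℕ, ENNReal.ofReal (xc ^ n) := ENNReal.tsum_prod (f := fun _ n => ENNReal.ofReal (xc ^ n))
    _ = ENNReal.ofReal (2 / (1 - xc)) := by
        rw [← ENNReal.ofReal_tsum_of_nonneg (fun n => pow_nonneg hx.le n) (summable_geometric_of_lt_one hx.le hx1),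
          tsum_geometric_of_lt_one hx.le hx1, tsum_fintype, Finset.sum_const, Finset.card_univ, Fintype.card_bool,
          nsmul_eq_mul, div_eq_mul_inv, ENNReal.ofReal_mul (by norm_num)]
        norm_num

/-- the walks with an extent of at most `m` rows that end on one of the levels `-1, 0, 1`. -/
def Q3 (m : ℕ) : Set (List Bool) := {t | (Saw Set.univ oo up t ∧ Ext m t) ∧ -1 ≤ lev t t.length ∧ lev t t.length ≤ 1}

theorem gf_Q3_le (m : ℕ) : gf (Q3 m) ≤ ∑ c ∈ Finset.Icc (-1 : ℤ) 1, TwoL m c := by
  have h := tsum_lev (Q3 m) fun t => lev t t.length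
  rw [← h]
  rw [tsum_eq_sum (s := Finset.Icc (-1 : ℤ) 1)]
  · exact Finset.sum_le_sum fun c _ => gf_mono fun t ht => ⟨ht.1.1, ht.2⟩
  · intro c hc
    have : {t | t ∈ Q3 m ∧ lev t t.length = c} = ∅ := by
      ext t
      simp only [Set.mem_ofPred_eq, Set.mem_empty_iff_false, iff_false]
      rintro ⟨⟨-, h1, h2⟩, h3⟩
      exact hc (Finset.mem_Icc.2 ⟨by omega, by omega⟩)
    rw [this]
    unfold gf
    simp

/-- the level before the first vertical step. -/
theorem lev_pre {t : List Bool} {n : ℕ} (h : ∀ i, 1 ≤ i → i < n → dx up t i ≠ up ∧ dx up t i ≠ -up) :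
    ∀ i, 1 ≤ i → i ≤ n → lev t i = 2 ∨ lev t i = 3 := by
  intro i hi
  induction i, hi using Nat.le_induction with
  | base =>
    intro _
    left
    show ip (oo + up) up = 2
    decide
  | succ i hi ih =>
    intro hn
    have h1 := ih (by omega)
    obtain ⟨n1, n2⟩ := h i hi (by omega)
    have h2 := lev_succ t i
    have h3 := lev_mod t i
    have h4 := lev_mod t (i + 1)
    have h5 : ∀ d ∈ dirs, d ≠ up → d ≠ -up → ip d up = 1 ∨ ip d up = -1 := by decide
    have h6 := h5 _ (ds_mem upd i : ds up (tf t) i ∈ dirs) n1 n2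
    have h7 : ip (ds up (tf t) i) up = ip (dx up t i) up := rfl
    rw [h7] at h6
    rcases Nat.even_or_odd i with he | ho
    · have h8 : ¬ Even (i + 1) := by
        rw [Nat.even_add_one]
        exact fun h => h he
      rw [if_pos he] at h3
      rw [if_neg h8] at h4
      omega
    · have h8 : Even (i + 1) := by
        rw [Nat.even_add_one]
        exact Nat.not_even_iff_odd.2 ho
      rw [if_neg (Nat.not_even_iff_odd.2 ho)] at h3
      rw [if_pos h8] at h4
      omega

/-- all displacements. -/
def PU (M : ℕ) : Set (List Bool) := {t | ∃ K : ℤ, t ∈ PE M K}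

theorem PU_sum (M : ℕ) : ∑' K : ℤ, gf (PE M K) = gf (PU M) := by
  rw [← tsum_lev (PU M) fun t => (vx oo up t t.length).2 - 1]
  refine tsum_congr fun K => ?_
  congr 1
  ext t
  simp only [Set.mem_ofPred_eq]
  constructor
  · intro h
    refine ⟨⟨K, h⟩, ?_⟩
    rw [h.2.2.1]
    simp [up]
  · rintro ⟨⟨K', h⟩, e⟩
    rw [h.2.2.1] at e
    have : K' = K := by
      simp [up] at e
      exact e
    rw [← this]
    exact h

theorem PU_split {M : ℕ} {t : List Bool} (ht : t ∈ PU M) : ∃ a ∈ Zg, ∃ b ∈ Q3 (2 * M + 2), t = a ++ b := by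
  classical
  obtain ⟨K, h1, h2, h3, h4, h5⟩ := ht
  have hex : ∃ i, 1 ≤ i ∧ i ≤ t.length ∧ (dx up t i = up ∨ dx up t i = -up) := ⟨t.length, h1, le_rfl, Or.inr h4⟩
  obtain ⟨hi1, hi2, hi3⟩ := Nat.find_spec hex
  have hmin : ∀ j, 1 ≤ j → j < Nat.find hex → dx up t j ≠ up ∧ dx up t j ≠ -up := by
    intro j hj hj'
    have := Nat.find_min hex hj'
    refine ⟨fun h => this ⟨hj, by omega, Or.inl h⟩, fun h => this ⟨hj, by omega, Or.inr h⟩⟩
  set i := Nat.find hex with hi
  have hlen : (t.take i).length = i := by rw [List.length_take]; omega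
  have hdt : ∀ j, j ≤ i → dx up (t.take i) j = dx up t j := by
    intro j hj
    have := dx_append (d0 := up) (t := t.take i) (s := t.drop i) (i := j) (by rw [hlen]; exact hj)
    rw [List.take_append_drop] at this
    exact this.symm
  refine ⟨t.take i, ⟨by rw [hlen]; exact hi1, ?_, ?_⟩, t.drop i, ?_, (List.take_append_drop i t).symm⟩
  · rw [hlen, hdt i le_rfl]
    exact hi3
  · intro j hj hj'
    rw [hlen] at hj'
    rw [hdt j hj'.le]
    exact hmin j hj hj'
  · -- the rest
    have hlev := lev_pre hmin i hi1 le_rfl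
    have hdl : (t.drop i).length = t.length - i := List.length_drop
    have hend : lev t t.length = 2 := by
      unfold lev
      rw [h3]
      simp only [ip, up, Prod.fst_add, Prod.snd_add]
      ring
    have hpos : ∃ s : ℤ, (s = 1 ∨ s = -1) ∧ ∀ j, vx oo up (t.drop i) j = s • (vx oo up t (i + j) - vx oo up t i) := by
      rcases hi3 with h | h
      · refine ⟨1, Or.inl rfl, fun j => ?_⟩
        have := pos_drop t i oo j
        rw [h] at this
        rw [this, one_smul]
        exact add_zero _
      · refine ⟨-1, Or.inr rfl, fun j => ?_⟩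
        have := pos_drop t i oo j
        rw [h, vx_turned] at this
        have e : vx oo up (t.drop i) j = oo - (vx oo up t (i + j) - vx oo up t i + oo) := by
          rw [← this]
          abel
        rw [e]
        have e2 : (oo : Pt) = 0 := rfl
        rw [e2]
        simp
    obtain ⟨s, hs, hpos⟩ := hpos
    have hlv : ∀ j, lev (t.drop i) j = s * (lev t (i + j) - lev t i) := by
      intro j
      unfold lev
      rw [hpos]
      simp only [ip, Prod.smul_fst, Prod.smul_snd, Prod.fst_sub, Prod.snd_sub, smul_eq_mul]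
      ring
    refine ⟨⟨⟨fun _ _ _ => trivial, ?_⟩, -(M : ℤ) - 1, ?_⟩, ?_⟩
    · intro j l hjl hl e
      rw [hdl] at hl
      rw [hpos, hpos] at e
      refine h2 (i + j) (i + l) (by omega) (by omega) (by omega) ?_
      rcases hs with rfl | rfl
      · rw [one_smul, one_smul] at e
        exact sub_left_injective e
      · have e2 := neg_injective (by simpa using e : -(vx oo up t (i + j) - vx oo up t i) = -(vx oo up t (i + l) - vx oo up t i))
        exact sub_left_injective e2
    · intro j hj hj'
      rw [hdl] at hj'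
      obtain ⟨h6, h7⟩ := h5 (i + j) (by omega) (by omega)
      rw [hlv]
      rcases hs with rfl | rfl <;> push_cast <;> constructor <;> omega
    · rw [hlv, hdl, show i + (t.length - i) = t.length by omega, hend]
      rcases hs with rfl | rfl <;> constructor <;> omega

/-- **All displacements together.** -/
theorem PE_sum_le (M : ℕ) : ∑' K : ℤ, gf (PE M K) ≤
    ENNReal.ofReal (2 / (1 - xc)) * ∑ c ∈ Finset.Icc (-1 : ℤ) 1, TwoL (2 * M + 2) c := by
  rw [PU_sum]
  calc gf (PU M) ≤ gf Zg * gf (Q3 (2 * M + 2)) := gf_le_mul fun t ht => PU_split ht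
    _ ≤ _ := mul_le_mul' gf_Zg_le (gf_Q3_le _)

theorem TwoL_mono {m n : ℕ} (h : m ≤ n) (c : ℤ) : TwoL m c ≤ TwoL n c := by
  refine gf_mono fun t ht => ⟨⟨ht.1.1, ?_⟩, ht.2⟩
  obtain ⟨a, ha⟩ := ht.1.2
  refine ⟨a, fun i hi hi' => ?_⟩
  obtain ⟨h1, h2⟩ := ha i hi hi'
  have : (m : ℤ) ≤ n := by exact_mod_cast h
  omega

/-- **The hypothesis hG of the end of the lower bound.** -/
theorem hG : ∃ A : ℝ, 0 < A ∧ ∃ q : ℕ, 1 ≤ q ∧ ∃ c0 : ℕ, ∀ R : ℕ, 1 ≤ R →
    ∑ K ∈ Finset.Icc 1 R, (gf (PE R (K : ℤ)) + gf (PE R (-(K : ℤ)))) ≤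
      ENNReal.ofReal A * ∑ c ∈ Finset.Icc (-(c0 : ℤ)) c0, TwoL (q * R) c := by
  have hx1 := xc_lt_one
  refine ⟨2 / (1 - xc), div_pos two_pos (by linarith), 4, by norm_num, 1, fun R hR => ?_⟩
  calc ∑ K ∈ Finset.Icc 1 R, (gf (PE R (K : ℤ)) + gf (PE R (-(K : ℤ))))
      ≤ ∑' K : ℤ, gf (PE R K) := by
        rw [Finset.sum_add_distrib]
        have e1 : ∑ K ∈ Finset.Icc 1 R, gf (PE R (K : ℤ)) =
            ∑ K ∈ (Finset.Icc 1 R).image (fun K : ℕ => (K : ℤ)), gf (PE R K) := by
          rw [Finset.sum_image]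
          intro a _ b _ h
          exact Int.natCast_inj.1 h
        have e2 : ∑ K ∈ Finset.Icc 1 R, gf (PE R (-(K : ℤ))) =
            ∑ K ∈ (Finset.Icc 1 R).image (fun K : ℕ => -(K : ℤ)), gf (PE R K) := by
          rw [Finset.sum_image]
          intro a _ b _ h
          have : -(a : ℤ) = -(b : ℤ) := h
          omega
        rw [e1, e2, ← Finset.sum_union]
        · exact ENNReal.sum_le_tsum _
        · rw [Finset.disjoint_left]
          intro x h1 h2
          rw [Finset.mem_image] at h1 h2
          obtain ⟨a, ha, rfl⟩ := h1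
          obtain ⟨b, hb, hb'⟩ := h2
          rw [Finset.mem_Icc] at ha hb
          omega
    _ ≤ _ := PE_sum_le R
    _ ≤ _ := by
        refine mul_le_mul' le_rfl ?_
        have e : ((1 : ℕ) : ℤ) = 1 := rfl
        rw [e]
        exact Finset.sum_le_sum fun c _ => TwoL_mono (by omega) c

end Pool.Agent.GLD
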