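import Pool.Agent.GLD.Lift
import Pool.Agent.GLD.Defs

/-!
# The two-point function and the planar words (GLd, hGd)

`hGd_of`: from the axial decay of the walks of the cylinder (`WalksH`) and the lateral decay of the walks of a strip
(`TailH`): the two-point function `W0 hk` is at most the sum over the multiples `K ≤ R` of `k` of the weights of the
planar words with displacement `± K` in the levels `(-3 R, 3 R]`, plus `C / k`, for every `R ≥ k ^ (1 + ε)`.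
-/

set_option autoImplicit false

namespace Pool.Agent.GLD

open HexObs HexObs.LP
open Pool.Agent.NUF.Cyl (Nm Cy pL nmN tr nm_eq)
open Pool.Agent.NUN (Om mem_Om)
open scoped ENNReal

open Classical in
/-- axial decay of the walks of the cylinder that start with the cut edge `pL 0`. -/
def WalksH (a : ℕ) : Prop := ∃ N0 : ℕ, ∀ (N : ℕ) (hN : 1 ≤ N), N0 ≤ N → ∀ A : Finset Pt,
  ∀ R : ℝ, N * Real.log N ^ a ≤ R →
    (∑ t ∈ ((Cy N hN).arr A (pL 0)).filter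
      (fun t => ∃ i, i ≤ t.length ∧ R ≤ |((lev (vx (pL 0).1 (pL 0).2 t i) - lev (pL 0).1 : ℤ) : ℝ)|),
      xc ^ t.length) ≤ 1 / (N : ℝ) ^ 10

/-- lateral decay of the words of a strip. -/
def TailH (b : ℕ) : Prop := ∃ C : ℝ, 0 < C ∧ ∀ R : ℕ, 2 ≤ R → ∀ S : ℕ, (R : ℝ) * Real.log R ^ b ≤ S →
  ∑' K : {K : ℤ // (S : ℤ) ≤ |K|}, gf (PE R K) ≤ ENNReal.ofReal (C / (S : ℝ) ^ 10)

variable {k : ℕ}

/-- the words of the plane: displacements up to `R` and larger displacements. -/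
theorem gf_good (hk : 1 ≤ k) {R1 R : ℕ} (hR : R1 ≤ R) :
    gf {t | ∃ z : ℤ, t ∈ PE R1 ((2 * z + 1) * k)} ≤
      ∑ K ∈ (Finset.Icc 1 R).filter (k ∣ ·), (gf (PE R (K : ℤ)) + gf (PE R (-(K : ℤ)))) +
        ∑' K : {K : ℤ // (R : ℤ) ≤ |K|}, gf (PE R1 K) := by
  classical
  have h1 : {t | ∃ z : ℤ, t ∈ PE R1 ((2 * z + 1) * k)} ⊆
      (⋃ K ∈ (Finset.Icc 1 R).filter (k ∣ ·), (PE R (K : ℤ) ∪ PE R (-(K : ℤ)))) ∪
        ⋃ K : {K : ℤ // (R : ℤ) ≤ |K|}, PE R1 K := by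
    rintro t ⟨z, ht⟩
    rcases lt_or_ge (|(2 * z + 1) * (k : ℤ)|) R with h | h
    · left
      rw [Set.mem_iUnion₂]
      have hne : (2 * z + 1) * (k : ℤ) ≠ 0 := by
        apply mul_ne_zero
        · omega
        · omega
      refine ⟨((2 * z + 1) * (k : ℤ)).natAbs, ?_, ?_⟩
      · rw [Finset.mem_filter, Finset.mem_Icc]
        refine ⟨⟨?_, ?_⟩, ?_⟩
        · have := Int.natAbs_pos.2 hne
          omega
        · have e : (((2 * z + 1) * (k : ℤ)).natAbs : ℤ) = |(2 * z + 1) * (k : ℤ)| := Int.natCast_natAbs _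
          omega
        · rw [Int.natAbs_mul, Int.natAbs_natCast]
          exact dvd_mul_left _ _
      · have e : (((2 * z + 1) * (k : ℤ)).natAbs : ℤ) = |(2 * z + 1) * (k : ℤ)| := Int.natCast_natAbs _
        rw [e]
        rcases abs_choice ((2 * z + 1) * (k : ℤ)) with h2 | h2
        · left
          rw [h2]
          exact PE_mono hR _ ht
        · right
          rw [h2, neg_neg]
          exact PE_mono hR _ ht
    · right
      exact Set.mem_iUnion.2 ⟨⟨_, h⟩, ht⟩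
  refine (gf_mono h1).trans ((gf_union_le _ _).trans (add_le_add ?_ (gf_iUnion_le _)))
  refine le_trans (ENNReal.tsum_biUnion_le wE _ _) ?_
  exact Finset.sum_le_sum fun K _ => gf_union_le _ _

open Classical in
/-- the words of the cylinder: good words and far words. -/
theorem Wm_le_good (hk : 1 ≤ k) (m R1 : ℕ) :
    ENNReal.ofReal (Wm hk m) ≤ gf {t | ∃ z : ℤ, t ∈ PE R1 ((2 * z + 1) * k)} +
      ENNReal.ofReal (∑ t ∈ ((Cy (2 * k) (two_k hk)).arr (Om (2 * k) m) (pL 0)).filter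
        (fun t => ∃ i, i ≤ t.length ∧ (R1 : ℝ) ≤ |((lev (vx (pL 0).1 (pL 0).2 t i) - lev (pL 0).1 : ℤ) : ℝ)|),
        xc ^ t.length) := by
  set s := ((Cy (2 * k) (two_k hk)).arr (Om (2 * k) m) (pL 0)).filter
    (fun t => (Cy (2 * k) (two_k hk)).rv ((Cy (2 * k) (two_k hk)).le (pL 0) t) ∈ ({pL (k : ℤ)} : Finset (Pt × Pt)))
    with hs
  set P : List Bool → Prop := fun t => ∃ i, i ≤ t.length ∧
    (R1 : ℝ) ≤ |((lev (vx (pL 0).1 (pL 0).2 t i) - lev (pL 0).1 : ℤ) : ℝ)| with hP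
  have h0 : Wm hk m = ∑ t ∈ s, xc ^ t.length := by
    unfold Wm Nm.Ws
    refine Finset.sum_congr ?_ fun _ _ => rfl
    rw [hs]
  have h1 : Wm hk m = ∑ t ∈ s.filter (fun t => ¬ P t), xc ^ t.length + ∑ t ∈ s.filter P, xc ^ t.length := by
    rw [h0, add_comm, Finset.sum_filter_add_sum_filter_not]
  rw [h1]
  refine ENNReal.ofReal_add_le.trans (add_le_add ?_ (ENNReal.ofReal_le_ofReal ?_))
  · rw [← gf_finset]
    refine gf_mono fun t ht => ?_
    rw [Finset.mem_coe, Finset.mem_filter, hs, Finset.mem_filter, Nm.mem_arr, Finset.mem_singleton] at ht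
    obtain ⟨⟨h2, h3⟩, h4⟩ := ht
    obtain ⟨z, hz⟩ := lift_word hk h2 h3
    refine ⟨z, hz.1, hz.2.1, hz.2.2.1, hz.2.2.2.1, fun i hi hi' => ?_⟩
    have h5 : ¬ (R1 : ℝ) ≤ |((lev (vx (pL 0).1 (pL 0).2 t i) - lev (pL 0).1 : ℤ) : ℝ)| :=
      fun h => h4 ⟨i, hi', h⟩
    have h6 : HexObs.lev t i = lev (vx (pL 0).1 (pL 0).2 t i) - lev (pL 0).1 := lev_rt2 (pL 0).1 t i
    rw [← h6, not_le] at h5
    have h7 : |HexObs.lev t i| < (R1 : ℤ) := by
      have : ((|HexObs.lev t i| : ℤ) : ℝ) < ((R1 : ℤ) : ℝ) := by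
        rw [Int.cast_abs]
        exact_mod_cast h5
      exact_mod_cast this
    rw [abs_lt] at h7
    constructor <;> omega
  · refine Finset.sum_le_sum_of_subset_of_nonneg ?_ fun _ _ _ => pow_nonneg xc_pos.le _
    intro t ht
    rw [Finset.mem_filter, hs, Finset.mem_filter] at ht
    rw [Finset.mem_filter]
    exact ⟨ht.1.1, ht.2⟩

/-- the choice of the scales. -/
theorem scales (a b : ℕ) {ε : ℝ} (hε : 0 < ε) : ∃ k0 : ℕ, ∀ k : ℕ, k0 ≤ k → ∃ R1 : ℕ, 2 ≤ R1 ∧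
    ((2 * k : ℕ) : ℝ) * Real.log ((2 * k : ℕ) : ℝ) ^ a ≤ R1 ∧ (R1 : ℝ) ≤ (k : ℝ) ^ (1 + ε) ∧
    (R1 : ℝ) * Real.log R1 ^ b ≤ (k : ℝ) ^ (1 + ε) := by
  set δ : ℝ := min ε 1 / 4 with hδ
  have hδ0 : 0 < δ := by positivity
  have hδ1 : δ ≤ ε / 4 := by
    rw [hδ]
    linarith [min_le_left ε 1]
  have hδ2 : δ ≤ 1 / 4 := by
    rw [hδ]
    linarith [min_le_right ε 1]
  have key : ∀ n : ℕ, ∃ x0 : ℝ, ∀ x : ℝ, x0 ≤ x → Real.log x ^ n ≤ x ^ δ := by
    intro n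
    have h := (isLittleO_log_rpow_rpow_atTop (n : ℝ) hδ0).def (c := 1) one_pos
    rw [Filter.eventually_atTop] at h
    obtain ⟨x0, hx⟩ := h
    refine ⟨max x0 1, fun x hx' => ?_⟩
    have h1 := hx x ((le_max_left _ _).trans hx')
    have h2 : 1 ≤ x := (le_max_right _ _).trans hx'
    rw [one_mul, Real.norm_of_nonneg (Real.rpow_nonneg (Real.log_nonneg h2) _),
      Real.norm_of_nonneg (Real.rpow_nonneg (by linarith) _), Real.rpow_natCast] at h1
    exact h1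
  obtain ⟨xa, ha⟩ := key a
  obtain ⟨xb, hb⟩ := key b
  obtain ⟨x64, h64⟩ : ∃ x0 : ℝ, ∀ x : ℝ, x0 ≤ x → 64 ≤ x ^ (ε / 4) := by
    have h := (tendsto_rpow_atTop (y := ε / 4) (by positivity)).eventually_ge_atTop 64
    rw [Filter.eventually_atTop] at h
    exact h
  obtain ⟨k0, hk0⟩ := exists_nat_ge (max (max xa xb) (max x64 3))
  refine ⟨k0, fun k hk => ?_⟩
  have hkr : (k0 : ℝ) ≤ k := by exact_mod_cast hk
  have hk1 : xa ≤ k := ((le_max_left _ _).trans (le_max_left _ _)).trans (hk0.trans hkr)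
  have hk2 : xb ≤ k := ((le_max_right _ _).trans (le_max_left _ _)).trans (hk0.trans hkr)
  have hk3 : x64 ≤ k := ((le_max_left _ _).trans (le_max_right _ _)).trans (hk0.trans hkr)
  have hk4 : (3 : ℝ) ≤ k := ((le_max_right _ _).trans (le_max_right _ _)).trans (hk0.trans hkr)
  have hN : ((2 * k : ℕ) : ℝ) = 2 * k := by push_cast; ring
  have hlog : 1 ≤ Real.log ((2 * k : ℕ) : ℝ) := by
    rw [hN, Real.le_log_iff_exp_le (by linarith)]
    linarith [Real.exp_one_lt_d9]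
  set y : ℝ := ((2 * k : ℕ) : ℝ) * Real.log ((2 * k : ℕ) : ℝ) ^ a with hy
  have hyN : 2 * (k : ℝ) ≤ y := by
    rw [hy, hN]
    rw [hN] at hlog
    exact le_mul_of_one_le_right (by linarith) (one_le_pow₀ hlog)
  set R1 : ℕ := ⌈y⌉₊ with hR1
  have hR1y : y ≤ R1 := Nat.le_ceil y
  have hR1u : (R1 : ℝ) < y + 1 := Nat.ceil_lt_add_one (by linarith)
  have hR2 : (2 : ℝ) ≤ R1 := by linarith
  have hyu : y ≤ (2 * (k : ℝ)) ^ (1 + δ) := by
    rw [Real.rpow_add (by linarith), Real.rpow_one, hy, hN]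
    exact mul_le_mul_of_nonneg_left (ha _ (by linarith)) (by linarith)
  have hku : (2 * (k : ℝ)) ^ (1 + δ) ≤ 4 * (k : ℝ) ^ (1 + δ) := by
    rw [Real.mul_rpow (by norm_num) (by linarith)]
    refine mul_le_mul_of_nonneg_right ?_ (Real.rpow_nonneg (by linarith) _)
    calc (2 : ℝ) ^ (1 + δ) ≤ 2 ^ (2 : ℝ) := Real.rpow_le_rpow_of_exponent_le (by norm_num) (by linarith)
      _ = 4 := by norm_num
  have hone : (1 : ℝ) ≤ (k : ℝ) ^ (1 + δ) := Real.one_le_rpow (by linarith) (by linarith)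
  have hR8 : (R1 : ℝ) ≤ 8 * (k : ℝ) ^ (1 + δ) := by linarith
  have hR9 : (R1 : ℝ) ^ (1 + δ) ≤ (k : ℝ) ^ (1 + ε) := by
    have e1 : (R1 : ℝ) ^ (1 + δ) ≤ (8 * (k : ℝ) ^ (1 + δ)) ^ (1 + δ) :=
      Real.rpow_le_rpow (by linarith) hR8 (by linarith)
    have e2 : (8 * (k : ℝ) ^ (1 + δ)) ^ (1 + δ) ≤ 64 * (k : ℝ) ^ (1 + 3 * δ) := by
      rw [Real.mul_rpow (by norm_num) (Real.rpow_nonneg (by linarith) _), ← Real.rpow_mul (by linarith)]
      refine mul_le_mul ?_ (Real.rpow_le_rpow_of_exponent_le (by linarith) (by nlinarith))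
        (Real.rpow_nonneg (by linarith) _) (by norm_num)
      calc (8 : ℝ) ^ (1 + δ) ≤ 8 ^ (2 : ℝ) := Real.rpow_le_rpow_of_exponent_le (by norm_num) (by linarith)
        _ = 64 := by norm_num
    have e3 : 64 * (k : ℝ) ^ (1 + 3 * δ) ≤ (k : ℝ) ^ (ε / 4) * (k : ℝ) ^ (1 + 3 * δ) :=
      mul_le_mul_of_nonneg_right (h64 _ hk3) (Real.rpow_nonneg (by linarith) _)
    have e4 : (k : ℝ) ^ (ε / 4) * (k : ℝ) ^ (1 + 3 * δ) ≤ (k : ℝ) ^ (1 + ε) := by
      rw [← Real.rpow_add (by linarith)]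
      exact Real.rpow_le_rpow_of_exponent_le (by linarith) (by linarith)
    linarith
  have hRR : (R1 : ℝ) * Real.log R1 ^ b ≤ (R1 : ℝ) ^ (1 + δ) := by
    rw [Real.rpow_add (by linarith), Real.rpow_one]
    exact mul_le_mul_of_nonneg_left (hb _ (by linarith)) (by linarith)
  have hR1' : (R1 : ℝ) ≤ (R1 : ℝ) ^ (1 + δ) := by
    conv_lhs => rw [← Real.rpow_one (R1 : ℝ)]
    exact Real.rpow_le_rpow_of_exponent_le (by linarith) (by linarith)
  refine ⟨R1, by exact_mod_cast hR2, hR1y, hR1'.trans hR9, hRR.trans hR9⟩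

/-- **hGd.** -/
theorem hGd_of {a b : ℕ} (hw : WalksH a) (ht : TailH b) : ∀ ε : ℝ, 0 < ε → ∃ C : ℝ, 0 < C ∧ ∃ k0 : ℕ, ∀ k : ℕ,
    k0 ≤ k → ∀ hk : 1 ≤ k, ∀ R : ℕ, (k : ℝ) ^ (1 + ε) ≤ R →
      ENNReal.ofReal (W0 hk).re ≤
        ∑ K ∈ (Finset.Icc 1 R).filter (k ∣ ·), (gf (PE R (K : ℤ)) + gf (PE R (-(K : ℤ)))) +
          ENNReal.ofReal (C / k) := by
  classical
  intro ε hε
  obtain ⟨N0, hw⟩ := hw
  obtain ⟨C, hC, ht⟩ := ht
  obtain ⟨k0, hs⟩ := scales a b hε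
  refine ⟨C + 1, by positivity, max k0 N0, fun k hk0 hk R hR => ?_⟩
  obtain ⟨R1, h2, h3, h4, h5⟩ := hs k ((le_max_left _ _).trans hk0)
  have hkr : (1 : ℝ) ≤ k := by exact_mod_cast hk
  have hR1 : R1 ≤ R := by
    have : (R1 : ℝ) ≤ R := h4.trans hR
    exact_mod_cast this
  have hkR : (k : ℝ) ≤ R := by
    refine le_trans ?_ hR
    conv_lhs => rw [← Real.rpow_one (k : ℝ)]
    exact Real.rpow_le_rpow_of_exponent_le hkr (by linarith)
  rw [W0_iSup]
  refine iSup_le fun m => ?_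
  refine (Wm_le_good hk m R1).trans ?_
  have e1 := ht R1 h2 R (h5.trans hR)
  have e2 := hw (2 * k) (two_k hk) (by have := (le_max_right k0 N0).trans hk0; omega) (Om (2 * k) m) R1 h3
  have p10 : ∀ x : ℝ, (k : ℝ) ≤ x → x ^ 10 ≥ k := by
    intro x hx
    have hx1 : 1 ≤ x := hkr.trans hx
    calc x ^ 10 ≥ x ^ 1 := pow_le_pow_right₀ hx1 (by norm_num)
      _ ≥ k := by rw [pow_one]; exact hx
  have e3 : C / (R : ℝ) ^ 10 ≤ C / k := div_le_div_of_nonneg_left hC.le (by linarith) (p10 R hkR)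
  have e4 : 1 / ((2 * k : ℕ) : ℝ) ^ 10 ≤ 1 / k :=
    div_le_div_of_nonneg_left zero_le_one (by linarith) (p10 _ (by push_cast; linarith))
  calc _ ≤ (∑ K ∈ (Finset.Icc 1 R).filter (k ∣ ·), (gf (PE R (K : ℤ)) + gf (PE R (-(K : ℤ)))) +
        ENNReal.ofReal (C / k)) + ENNReal.ofReal (1 / k) := by
        refine add_le_add ((gf_good hk hR1).trans (add_le_add le_rfl (e1.trans (ENNReal.ofReal_le_ofReal e3))))
          (ENNReal.ofReal_le_ofReal (le_trans ?_ (e2.trans e4)))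
        exact le_of_eq (Finset.sum_congr (by congr) fun _ _ => rfl)
    _ = _ := by
        rw [add_assoc, ← ENNReal.ofReal_add (by positivity) (by positivity), add_div]

end Pool.Agent.GLD
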