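import Pool.Agent.GLD.HGd

/-!
# The literal interface of the end of the lower bound (GLd -> GLe)
-/

set_option autoImplicit false

namespace Pool.Agent.GLD

open HexObs
open scoped ENNReal

/-- the two-point function of the cylinder with `2 k` rows at 0 between two antipodal cut edges. -/
noncomputable def Wk (k : ℕ) : ℝ≥0∞ := if hk : 1 ≤ k then ENNReal.ofReal (W0 hk).re else 0

theorem Wk_eq {k : ℕ} (hk : 1 ≤ k) : Wk k = ENNReal.ofReal (W0 hk).re := dif_pos hk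

/-- the planar words with displacement `± K` in the levels `(-3 R, 3 R]`. -/
noncomputable def GRK (R K : ℕ) : ℝ≥0∞ := gf (PE R (K : ℤ)) + gf (PE R (-(K : ℤ)))

/-- **hGd**, literal form. -/
theorem hGd_lit {a b : ℕ} (hw : WalksH a) (ht : TailH b) : ∀ ε : ℝ, 0 < ε → ∃ C : ℝ, 0 < C ∧ ∃ k0 : ℕ, ∀ k : ℕ,
    k0 ≤ k → ∀ R : ℕ, (k : ℝ) ^ (1 + ε) ≤ R →
      Wk k ≤ ENNReal.ofReal (C * (k : ℝ) ^ ε) * ∑ K ∈ (Finset.Icc 1 R).filter (fun K => k ∣ K), GRK R K +
        ENNReal.ofReal (C * (k : ℝ) ^ (-1 : ℝ)) := by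
  intro ε hε
  obtain ⟨C, hC, k0, h⟩ := hGd_of hw ht ε hε
  refine ⟨C + 1, by positivity, max k0 1, fun k hk R hR => ?_⟩
  have hk1 : 1 ≤ k := (le_max_right _ _).trans hk
  have hkr : (1 : ℝ) ≤ k := by exact_mod_cast hk1
  rw [Wk_eq hk1]
  refine (h k ((le_max_left _ _).trans hk) hk1 R hR).trans (add_le_add ?_ (ENNReal.ofReal_le_ofReal ?_))
  · have e1 : (1 : ℝ≥0∞) ≤ ENNReal.ofReal ((C + 1) * (k : ℝ) ^ ε) := by
      rw [← ENNReal.ofReal_one]
      refine ENNReal.ofReal_le_ofReal ?_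
      have e2 : (1 : ℝ) ≤ (k : ℝ) ^ ε := Real.one_le_rpow hkr hε.le
      nlinarith
    exact le_mul_of_one_le_left' e1
  · rw [Real.rpow_neg_one, div_eq_mul_inv]
    exact mul_le_mul_of_nonneg_right (by linarith) (by positivity)

end Pool.Agent.GLD
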