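import Pool.Agent.GLD.TwoCut
import Pool.Agent.MXR.Fin
import Pool.Agent.NUNC.Lists

/-!
# The two halves of the cylinder with rows at 0: words (GLd, B1)

`rings_eq0`: the iterated rings of the two halves of the cylinder with `N` equal rows, evaluated on the glued
indicator of the arc of the right ends of the rows `i`, `j`, are the sum over all words of the cylinder in the rings
`-m, .., m - 1` from the cut edge of the row `i` to the cut edge of the row `j`.
-/

set_option autoImplicit false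

namespace Pool.Agent.GLD

open Pool.Agent.EXL hiding cc
open Pool.Agent.EXL.Pat Pool.Agent.EXL.Net HexObs HexObs.LP
open Pool.Agent.NUF.Cyl (Nm Cy pL HT HLeft VT nb_A_W mem_HT mem_HLc Co_eq_glue A_inj)
open Pool.Agent.NUN (cc Xr Xl fr Fr fr_inj Om A_mem_Om)
open Pool.Agent.NUNC
open Pool.Agent.MXR (XR XL gS Rest Co_lft ind_lft)

variable {K : Type*} [CommRing K] {N : ℕ}

/-- the left leg of the first vertex of the row `r`. -/
def aW (r : ℕ) : Pt × Pt := (_root_.EXL.A 0 r, (-1, 1))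

theorem aW_inj {r s : ℕ} (h : aW r = aW s) : r = s := by
  have h1 := (A_inj.1 (congrArg Prod.fst h)).2
  exact_mod_cast h1

theorem rv_aW (hN : 1 ≤ N) {r : ℕ} (h : r < N) : (Cy N hN).rv (aW r) = pL (r : ℤ) := by
  unfold Nm.rv aW pL
  rw [nb_A_W hN 0 (by positivity) (by exact_mod_cast h)]
  norm_num

theorem CoS_aW (hN : 1 ≤ N) {r : ℕ} (h : r < N) :
    (CoS ((Cy N hN).ed (aW r)) : Op Lab K) = Co (lW 0 (r : ℤ)) (lE (-1) (r : ℤ)) := by
  rw [Nm.CoS_ed, rv_aW hN h]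
  rfl

theorem HLeft_eq (N : ℕ) : HLeft N = (List.range N).map aW := rfl

theorem aW_mem_HA {m r : ℕ} (h : r < N) : aW r ∈ HA N m := by
  unfold HA
  rw [HLeft_eq]
  exact List.mem_append.2 (Or.inr (List.mem_map.2 ⟨r, List.mem_range.2 h, rfl⟩))

/-- the contractions without the two cut edges. -/
def HB (N m : ℕ) (l : List (Fin N)) : List (Pt × Pt) := HT N m ++ HTl N m ++ l.map (fun a : Fin N => aW (a : ℕ))

theorem HB_sub {m : ℕ} {l : List (Fin N)} : ∀ h ∈ HB N m l, h ∈ HA N m := by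
  intro h hh
  unfold HB at hh
  rcases List.mem_append.1 hh with hh | hh
  · unfold HA
    exact List.mem_append.2 (Or.inl hh)
  · obtain ⟨a, -, rfl⟩ := List.mem_map.1 hh
    exact aW_mem_HA a.2

theorem nodup_HA (hN : 1 ≤ N) (m : ℕ) : (HA N m).Nodup := List.Nodup.of_map _ (nodup_ed_all hN m)

theorem nodup_HB (hN : 1 ≤ N) {m : ℕ} {l : List (Fin N)} (hl : l.Nodup) : (HB N m l).Nodup := by
  have h1 := nodup_HA hN m
  unfold HA at h1
  unfold HB
  rw [List.nodup_append] at h1 ⊢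
  refine ⟨h1.1, hl.map fun a b e => Fin.ext (aW_inj e), ?_⟩
  intro a ha b hb
  refine h1.2.2 a ha b ?_
  obtain ⟨c, -, rfl⟩ := List.mem_map.1 hb
  rw [HLeft_eq]
  exact List.mem_map.2 ⟨c, List.mem_range.2 c.2, rfl⟩

theorem ed_inj_HA (hN : 1 ≤ N) {m : ℕ} {h k : Pt × Pt} (hh : h ∈ HA N m) (hk : k ∈ HA N m)
    (e : (Cy N hN).ed h = (Cy N hN).ed k) : h = k :=
  List.inj_on_of_nodup_map (nodup_ed_all hN m) hh hk e

/-- the edges without the two cut edges. -/
def EB (m : ℕ) (hN : 1 ≤ N) (l : List (Fin N)) : Finset (Sym2 Lab) := ((HB N m l).map (Cy N hN).ed).toFinset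

theorem mem_EB {m : ℕ} {hN : 1 ≤ N} {l : List (Fin N)} {e : Sym2 Lab} :
    e ∈ EB m hN l ↔ ∃ h ∈ HB N m l, (Cy N hN).ed h = e := by
  unfold EB
  rw [List.mem_toFinset, List.mem_map]

theorem edg_EB (m : ℕ) (hN : 1 ≤ N) (l : List (Fin N)) : (Cy N hN).Edg (EB m hN l) := by
  intro e he
  obtain ⟨h, hh, rfl⟩ := mem_EB.1 he
  exact ⟨h, De_HA hN (HB_sub h hh), rfl⟩

theorem aW_notMem (hN : 1 ≤ N) {m : ℕ} {l : List (Fin N)} {i : Fin N} (hi : i ∉ l) :
    (Cy N hN).ed (aW (i : ℕ)) ∉ EB m hN l := by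
  intro h
  obtain ⟨k, hk, e⟩ := mem_EB.1 h
  have h1 := ed_inj_HA hN (HB_sub k hk) (aW_mem_HA i.2) e
  subst h1
  unfold HB at hk
  rcases List.mem_append.1 hk with hk | hk
  · have h2 := nodup_HA hN m
    unfold HA at h2
    rw [List.nodup_append] at h2
    refine h2.2.2 _ hk (aW (i : ℕ)) ?_ rfl
    rw [HLeft_eq]
    exact List.mem_map.2 ⟨i, List.mem_range.2 i.2, rfl⟩
  · obtain ⟨a, ha, e⟩ := List.mem_map.1 hk
    exact hi (by rw [← Fin.ext (aW_inj e)]; exact ha)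

theorem EA_eq (hN : 1 ≤ N) {m : ℕ} {l : List (Fin N)} {i j : Fin N} (hl : Rest l i j) :
    EA N m hN = insert ((Cy N hN).ed (aW (i : ℕ))) (insert ((Cy N hN).ed (aW (j : ℕ))) (EB m hN l)) := by
  ext e
  rw [Finset.mem_insert, Finset.mem_insert, mem_EA, mem_EB]
  constructor
  · rintro ⟨h, hh, rfl⟩
    unfold HA at hh
    rcases List.mem_append.1 hh with hh | hh
    · exact Or.inr (Or.inr ⟨h, List.mem_append.2 (Or.inl hh), rfl⟩)
    · rw [HLeft_eq] at hh
      obtain ⟨a, ha, rfl⟩ := List.mem_map.1 hh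
      rw [List.mem_range] at ha
      by_cases h1 : a = i
      · exact Or.inl (by rw [h1])
      by_cases h2 : a = j
      · exact Or.inr (Or.inl (by rw [h2]))
      refine Or.inr (Or.inr ⟨aW a, List.mem_append.2 (Or.inr (List.mem_map.2 ⟨⟨a, ha⟩, ?_, rfl⟩)), rfl⟩)
      exact (hl.2 _).2 ⟨fun e => h1 (by rw [← e]), fun e => h2 (by rw [← e])⟩
  · rintro (rfl | rfl | ⟨h, hh, rfl⟩)
    · exact ⟨_, aW_mem_HA i.2, rfl⟩
    · exact ⟨_, aW_mem_HA j.2, rfl⟩
    · exact ⟨h, HB_sub h hh, rfl⟩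

/-- the network of the rings with the glued function, sorted. -/
theorem sorted0 (x : K) (hN : 1 ≤ N) {m : ℕ} {l : List (Fin N)} (hl : l.Nodup) (F : Pat Lab → K) :
    (rTot x N m * lTot x N m)
      ((l.map fun a : Fin N => (Co (lW 0 ((a : ℕ) : ℤ)) (lE (-1) ((a : ℕ) : ℤ)) : Op Lab K)).prod F) Pat.empty =
      (CR x (Om N m) * Nm.CO K (EB m hN l) (edg_EB m hN l)) F Pat.empty := by
  classical
  rw [tot_sort x hN]
  have e1 : ((VT N m ++ VTl N m).map (Crv x : Pt → Op Lab K)).prod = CR x (Om N m) := by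
    unfold CR
    have h1 : (VA N m).toFinset = Om N m := VA_Om N m
    have h2 := Finset.noncommProd_toFinset (VA N m) (Crv x : Pt → Op Lab K)
      (fun v _ w _ h => Crv_comm x h) (nodup_VA N m)
    refine h2.symm.trans ?_
    exact Finset.noncommProd_congr h1 (fun _ _ => rfl) _
  have e2 : (l.map fun a : Fin N => (Co (lW 0 ((a : ℕ) : ℤ)) (lE (-1) ((a : ℕ) : ℤ)) : Op Lab K)) =
      (l.map (fun a : Fin N => aW (a : ℕ))).map (fun h => (CoS ((Cy N hN).ed h) : Op Lab K)) := by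
    rw [List.map_map]
    exact List.map_congr_left fun a _ => (CoS_aW hN a.2).symm
  have e3 : ((HT N m ++ HTl N m).map (fun h => (CoS ((Cy N hN).ed h) : Op Lab K))).prod *
      ((l.map (fun a : Fin N => aW (a : ℕ))).map (fun h => (CoS ((Cy N hN).ed h) : Op Lab K))).prod =
      Nm.CO K (EB m hN l) (edg_EB m hN l) := by
    rw [← List.prod_append, ← List.map_append]
    have hn : ((HB N m l).map (Cy N hN).ed).Nodup :=
      (nodup_HB hN hl).map_on fun h hh k hk e => ed_inj_HA hN (HB_sub h hh) (HB_sub k hk) e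
    have h2 := Finset.noncommProd_toFinset ((HB N m l).map (Cy N hN).ed) (CoS : Sym2 Lab → Op Lab K)
      (fun e he f hf' h => by
        obtain ⟨a, ha, rfl⟩ := edg_EB m hN l e he
        obtain ⟨b, hb, rfl⟩ := edg_EB m hN l f hf'
        exact Nm.CoS_comm ha.2 hb.2 h) hn
    rw [List.map_map] at h2
    exact h2.symm
  rw [e1, e2, ← e3]
  rfl

theorem gS_lft0 (l : List (Fin N)) (s t : NUF.St N) (q : Pat (NUF.St N)) :
    ((l.map fun a : Fin N => (Co (lW 0 ((a : ℕ) : ℤ)) (lE (-1) ((a : ℕ) : ℤ)) : Op Lab K)).prod)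
      (HS.ind (cup (fr N (fun _ => 0) (fun _ => -1) false 0 0 s) (fr N (fun _ => 0) (fun _ => -1) false 0 0 t)
        Pat.empty)) (Fr (fun _ => 0) (fun _ => -1) false 0 0 q) = gS K l (HS.ind (cup s t Pat.empty)) q := by
  induction l generalizing q with
  | nil => exact ind_lft _ (fr_inj _ _ _ _ _) s t q
  | cons a l ih =>
    unfold gS at ih ⊢
    rw [List.map_cons, List.prod_cons, List.map_cons, List.prod_cons, Module.End.mul_apply, Module.End.mul_apply,
      ← funext ih]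
    exact Co_lft (fr N (fun _ => 0) (fun _ => -1) false 0 0) (fr_inj _ _ _ _ _) (Xr a) (Xl a) _ q

/-- **The rings of both halves = the words of the cylinder.** -/
theorem rings_eq0 (x : K) (hN : 1 ≤ N) {m : ℕ} (hm : 1 ≤ m) {i j : Fin N} (hij : i ≠ j) {l : List (Fin N)}
    (hl : Rest l i j) :
    (NUG.ringF (fun _ => hexW x) cc dd (XR N))^[m] ((NUG.ringF (fun _ => hexW x) cc dd (XL N))^[m]
      (gS K l (HS.ind (cup (Xr i) (Xr j) Pat.empty)))) Pat.empty =
      (Cy N hN).Ws x (Om N m) {pL ((j : ℕ) : ℤ)} (pL ((i : ℕ) : ℤ)) := by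
  have t := tot_eq x N m (((l.map fun a : Fin N =>
    (Co (lW 0 ((a : ℕ) : ℤ)) (lE (-1) ((a : ℕ) : ℤ)) : Op Lab K)).prod)
      (HS.ind (cup (lW 0 ((i : ℕ) : ℤ)) (lW 0 ((j : ℕ) : ℤ)) Pat.empty)))
  have e : (fun q => ((l.map fun a : Fin N => (Co (lW 0 ((a : ℕ) : ℤ)) (lE (-1) ((a : ℕ) : ℤ)) :
      Op Lab K)).prod) (HS.ind (cup (lW 0 ((i : ℕ) : ℤ)) (lW 0 ((j : ℕ) : ℤ)) Pat.empty))
        (Fr (fun _ => 0) (fun _ => -1) false 0 0 q)) =
      gS K l (HS.ind (cup (Xr i) (Xr j) Pat.empty)) := funext fun q => gS_lft0 l (Xr i) (Xr j) q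
  rw [e] at t
  refine t.symm.trans ?_
  rw [sorted0 x hN hl.1]
  have hi : i ∉ l := fun h => ((hl.2 i).1 h).1 rfl
  have hj : j ∉ l := fun h => ((hl.2 j).1 h).2 rfl
  have h1 := two_cut x (A := Om N m) (E := EB m hN l) (E' := EA N m hN) (edg_EB m hN l) (edg_EA N m hN)
    (a := aW (i : ℕ)) (b := aW (j : ℕ)) (De_HA hN (aW_mem_HA (m := m) i.2)) (De_HA hN (aW_mem_HA (m := m) j.2))
    (aW_notMem hN hi) (aW_notMem hN hj) (fun e => hij (Fin.ext (aW_inj
      (ed_inj_HA (m := m) hN (aW_mem_HA i.2) (aW_mem_HA j.2) e)))) (EA_eq hN hl)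
    (A_mem_Om (by omega) (by omega) (by positivity) (by exact_mod_cast i.2))
    (A_mem_Om (by omega) (by omega) (by positivity) (by exact_mod_cast j.2))
    (fun e => hij (Fin.ext (by exact_mod_cast (A_inj.1 e).2))) (ed_mem_EA hN m)
  rw [rv_aW hN i.2, rv_aW hN j.2] at h1
  exact h1

end Pool.Agent.GLD
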