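import Pool.Agent.GLD.Lift
import Pool.Agent.NUN.F3d
import Pool.Agent.MXR.Arc

/-!
# The two-point function with rows at 0 as the generating function of a set of planar words (GLd)

`PC k`: words of the plane whose vertices `1, …, |t|` are pairwise different modulo `2 k (-2, 1)`, from the mid-edge
of `{oo, up}` (upwards) to the mid-edge `(2 z + 1) k` lattice steps to the side (downwards).
`W0_eq_gf`: `ofReal (W0 hk).re = gf (PC k)`.
-/

set_option autoImplicit false

namespace Pool.Agent.GLD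

open HexObs HexObs.LP
open Pool.Agent.NUF.Cyl (Nm Cy pL nmN tr nm_eq ri ri_A ri_B nm_B nmN_tr)
open Pool.Agent.NUN (Om mem_Om)
open scoped ENNReal

/-- words of the plane, self-avoiding modulo `2 k (-2, 1)`, between two antipodal mid-edges of one level. -/
def PC (k : ℕ) : Set (List Bool) := {t | 1 ≤ t.length ∧
  (∀ i j, 1 ≤ i → i < j → j ≤ t.length → ∀ z : ℤ, vx oo up t i ≠ vx oo up t j + (-2 * (2 * k * z), 2 * k * z)) ∧
  (∃ z : ℤ, vx oo up t t.length = up + (-2 * ((2 * z + 1) * k), (2 * z + 1) * k)) ∧ dx up t t.length = -up}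

theorem nm_tr_iff {N : ℕ} (hN : 1 ≤ N) {v w : Pt} : (Cy N hN).nm v = (Cy N hN).nm w ↔ ∃ z : ℤ, v = tr (N * z) w := by
  rw [nm_eq, nm_eq]
  constructor
  · intro h
    refine ⟨ri v / N - ri w / N, ?_⟩
    unfold nmN at h
    simp only [tr, Prod.ext_iff] at h ⊢
    constructor
    · linear_combination h.1
    · linear_combination h.2
  · rintro ⟨z, rfl⟩
    exact nmN_tr N hN z w

theorem nm_range {N : ℕ} (hN : 1 ≤ N) (v : Pt) : 0 ≤ ri ((Cy N hN).nm v) ∧ ri ((Cy N hN).nm v) < N := by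
  have h1 := (Cy N hN).idem v
  exact (Pool.Agent.NUNC.nm_fix_iff (hN := hN)).1 h1

theorem exists_Om {N : ℕ} (hN : 1 ≤ N) {v : Pt} (hv : Vt v) : ∃ m : ℕ, (Cy N hN).nm v ∈ Om N m := by
  have h1 : Vt ((Cy N hN).nm v) := Nm.vt_nm.2 hv
  obtain ⟨a, i, h⟩ := Pool.Agent.NUN.exists_cell h1
  have h2 := nm_range hN v
  have h3 : ri ((Cy N hN).nm v) = i := by
    rcases h with h | h
    · rw [h, ri_A]
    · rw [h, ri_B]
  rw [h3] at h2
  have b1 := neg_abs_le a
  have b2 := le_abs_self a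
  refine ⟨a.natAbs + 1, mem_Om.2 ⟨a, i, ⟨?_, ?_⟩, h2, h⟩⟩
  · push_cast
    linarith
  · push_cast
    linarith

variable {k : ℕ}

/-- **A planar word of `PC k` is a word of the cylinder.** -/
theorem word_of_PC (hk : 1 ≤ k) {t : List Bool} (ht : t ∈ PC k) : ∃ M : ℕ, ∀ m : ℕ, M ≤ m →
    (Cy (2 * k) (two_k hk)).Arr (Om (2 * k) m) (pL 0) t ∧
    (Cy (2 * k) (two_k hk)).rv ((Cy (2 * k) (two_k hk)).le (pL 0) t) = pL (k : ℤ) := by
  obtain ⟨h1, h2, ⟨z, h3⟩, h4⟩ := ht
  set C := Cy (2 * k) (two_k hk) with hC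
  set v0 : Pt := _root_.EXL.B (-1) 0 with hv0
  have hp : (pL 0 : Pt × Pt) = (v0, (1, -1)) := rfl
  have hN : (1 : ℕ) ≤ 2 * k := two_k hk
  have rot : ∀ i, vx oo up t i = rt2 (vx v0 (1, -1) t i - v0) := fun i => by
    rw [← rt2_start]
    exact vx_rt2 v0 (1, -1) t i
  have drot : ∀ i, dx up t i = rt2 (dx (1, -1) t i) := fun i => by
    rw [← rt2_start]
    exact dx_rt2 (1, -1) t i
  have hvt : ∀ i, Vt (vx v0 (1, -1) t i) := fun i => Pool.Agent.MXR.Vt_vx t i
  have h5 : ∀ i, ∃ m : ℕ, C.nm (vx v0 (1, -1) t i) ∈ Om (2 * k) m := fun i => exists_Om hN (hvt i)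
  choose f hf using h5
  refine ⟨∑ i ∈ Finset.range (t.length + 1), f i, fun m hm => ⟨⟨?_, ?_⟩, ?_⟩⟩
  · intro i hi hi'
    rw [hp]
    show C.nm (vx v0 (1, -1) t i) ∈ Om (2 * k) m
    refine Om_mono (le_trans ?_ hm) (hf i)
    exact Finset.single_le_sum (f := f) (fun _ _ => Nat.zero_le _) (Finset.mem_range.2 (by omega))
  · intro i j hi hij hj
    rw [hp]
    show C.nm (vx v0 (1, -1) t i) ≠ C.nm (vx v0 (1, -1) t j)
    intro e
    obtain ⟨y, hy⟩ := (nm_tr_iff hN).1 e
    refine h2 i j hi hij hj y ?_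
    rw [rot, rot, hy]
    refine Prod.ext ?_ ?_ <;> simp only [rt2, tr, Prod.fst_sub, Prod.snd_sub, Prod.fst_add, Prod.snd_add] <;>
      push_cast <;> ring
  · have d1 : dx (1, -1) t t.length = (-1, 1) := by
      apply rt2_inj
      rw [← drot, h4]
      rfl
    have e1 : vx v0 (1, -1) t t.length + (-1, 1) = tr (2 * k * z) (_root_.EXL.B (-1) k) := by
      have e2 : vx v0 (1, -1) t t.length = v0 + (1, -1) + ((2 * z + 1) * k, (2 * z + 1) * k) := by
        have e3 : vx v0 (1, -1) t t.length - v0 = (1, -1) + ((2 * z + 1) * k, (2 * z + 1) * k) := by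
          apply rt2_inj
          rw [← rot, h3]
          refine Prod.ext ?_ ?_ <;> simp only [rt2, up, Prod.fst_add, Prod.snd_add] <;> ring
        rw [add_assoc, ← e3]
        abel
      rw [e2, hv0]
      refine Prod.ext ?_ ?_ <;> simp only [tr, _root_.EXL.B, Prod.fst_add, Prod.snd_add] <;> ring
    have e2 : C.nm (vx v0 (1, -1) t t.length + (-1, 1)) = _root_.EXL.B (-1) k := by
      rw [e1]
      have := nmN_tr (2 * k) hN z (_root_.EXL.B (-1) k)
      have e3 : ((2 * k : ℕ) : ℤ) * z = 2 * k * z := by push_cast; ring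
      rw [e3] at this
      show nmN (2 * k) (tr (2 * k * z) (_root_.EXL.B (-1) k)) = _root_.EXL.B (-1) k
      rw [this]
      exact nm_B hN (-1) (by positivity) (by omega)
    show (C.nm (C.nm (vx v0 (1, -1) t t.length) + dx (1, -1) t t.length), -dx (1, -1) t t.length) =
      (_root_.EXL.B (-1) k, ((1, -1) : Pt))
    rw [C.add, d1, e2]
    rfl

/-- a word of the cylinder is in `PC k`. -/
theorem PC_of_word (hk : 1 ≤ k) {m : ℕ} {t : List Bool}
    (ht : (Cy (2 * k) (two_k hk)).Arr (Om (2 * k) m) (pL 0) t)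
    (he : (Cy (2 * k) (two_k hk)).rv ((Cy (2 * k) (two_k hk)).le (pL 0) t) = pL (k : ℤ)) : t ∈ PC k := by
  obtain ⟨z, h1, h2, h3, h4, -⟩ := lift_word hk ht he
  refine ⟨h1, ?_, ⟨z, h3⟩, h4⟩
  intro i j hi hij hj y e
  refine ht.inj i j hi hij hj ?_
  have hN : (1 : ℕ) ≤ 2 * k := two_k hk
  set v0 : Pt := _root_.EXL.B (-1) 0 with hv0
  have hp : (pL 0 : Pt × Pt) = (v0, (1, -1)) := rfl
  have rot : ∀ i, vx oo up t i = rt2 (vx v0 (1, -1) t i - v0) := fun i => by
    rw [← rt2_start]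
    exact vx_rt2 v0 (1, -1) t i
  rw [hp]
  refine (nm_tr_iff hN).2 ⟨y, ?_⟩
  have e1 : vx v0 (1, -1) t i - v0 = vx v0 (1, -1) t j - v0 + (2 * k * y, 2 * k * y) := by
    apply rt2_inj
    rw [rt2_add, ← rot, ← rot, e]
    refine Prod.ext ?_ ?_ <;> simp only [rt2, Prod.fst_add, Prod.snd_add] <;> ring
  have e2 : vx v0 (1, -1) t i = vx v0 (1, -1) t j + (2 * k * y, 2 * k * y) := by
    have := congrArg (fun p => p + v0) e1
    simp only [sub_add_cancel] at this
    rw [this]
    abel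
  show vx v0 (1, -1) t i = tr (((2 * k : ℕ) : ℤ) * y) (vx v0 (1, -1) t j)
  rw [e2]
  refine Prod.ext ?_ ?_ <;> simp only [tr, Prod.fst_add, Prod.snd_add] <;> push_cast <;> ring

/-- **The two-point function is the generating function of the planar words modulo the period.** -/
theorem W0_eq_gf (hk : 1 ≤ k) : ENNReal.ofReal (W0 hk).re = gf (PC k) := by
  classical
  rw [W0_iSup]
  apply le_antisymm
  · refine iSup_le fun m => ?_
    unfold Wm Nm.Ws
    rw [← gf_finset]
    refine gf_mono fun t ht => ?_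
    rw [Finset.mem_coe, Finset.mem_filter, Nm.mem_arr, Finset.mem_singleton] at ht
    exact PC_of_word hk ht.1 ht.2
  · refine gf_le_of_finset fun s hs => ?_
    have h1 : ∀ t : List Bool, ∃ M : ℕ, t ∈ s → ∀ m : ℕ, M ≤ m →
        (Cy (2 * k) (two_k hk)).Arr (Om (2 * k) m) (pL 0) t ∧
        (Cy (2 * k) (two_k hk)).rv ((Cy (2 * k) (two_k hk)).le (pL 0) t) = pL (k : ℤ) := by
      intro t
      by_cases h : t ∈ s
      · obtain ⟨M, hM⟩ := word_of_PC hk (hs h)
        exact ⟨M, fun _ => hM⟩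
      · exact ⟨0, fun h' => absurd h' h⟩
    choose f hf using h1
    refine le_trans ?_ (le_iSup _ (∑ t ∈ s, f t))
    unfold Wm Nm.Ws
    rw [← gf_finset]
    refine gf_mono fun t ht => ?_
    rw [Finset.mem_coe, Finset.mem_filter, Nm.mem_arr, Finset.mem_singleton]
    exact hf t ht _ (Finset.single_le_sum (f := f) (fun _ _ => Nat.zero_le _) ht)

/-- an injective word in a vertical strip of width less than `4 k` (first coordinates) from the mid-edge to the
mid-edge `k` steps to the side. -/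
theorem PC_of_strip {t : List Bool} (h1 : 1 ≤ t.length)
    (hinj : ∀ i j, 1 ≤ i → i < j → j ≤ t.length → vx oo up t i ≠ vx oo up t j)
    (hstr : ∀ i j, 1 ≤ i → i < j → j ≤ t.length → |(vx oo up t i).1 - (vx oo up t j).1| < 4 * k)
    (hend : vx oo up t t.length = up + (-2 * (k : ℤ), (k : ℤ))) (hdir : dx up t t.length = -up) : t ∈ PC k := by
  refine ⟨h1, ?_, ⟨0, by rw [hend, mul_zero, zero_add, one_mul]⟩, hdir⟩
  intro i j hi hij hj z e
  have h2 := hstr i j hi hij hj
  rw [e, Prod.fst_add, add_sub_cancel_left, abs_lt] at h2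
  simp only at h2
  have hz : z = 0 := by
    rcases lt_trichotomy z 0 with hz | hz | hz
    · exfalso
      have : (4 : ℤ) * k * 1 ≤ 4 * k * (-z) := mul_le_mul_of_nonneg_left (by omega) (by positivity)
      nlinarith [h2.2]
    · exact hz
    · exfalso
      have : (4 : ℤ) * k * 1 ≤ 4 * k * z := mul_le_mul_of_nonneg_left (by omega) (by positivity)
      nlinarith [h2.1]
  subst hz
  refine hinj i j hi hij hj ?_
  rw [e]
  refine Prod.ext ?_ ?_ <;> simp only [Prod.fst_add, Prod.snd_add] <;> ring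

end Pool.Agent.GLD
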