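import Pool.Agent.GLD.Defs

/-!
# The gas of hard objects with non positive activities (GLd, module A1)

`GasS S P w z`: `P D` is the set of the objects in `D`, `S i` the vertices of the object `i`, and `z D` = sum over the
sets of disjoint objects in `D` of the product of the weights `- w i`, given by its recursion. As long as `z` is positive,
the ratios `z (D ∪ v) / z D` are decreasing in `D` (Shearer).  `zC_gas`: the gas of the winding polygons of the cylinder;
`zC_tr`: it does not change under the translations along the axis.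
-/

set_option autoImplicit false

namespace Pool.Agent.GLD

open Finset

structure GasS {V ι : Type*} [DecidableEq V] (S : ι → Finset V) (P : Finset V → Finset ι) (w : ι → ℝ)
    (z : Finset V → ℝ) : Prop where
  mem : ∀ D D' i, D ⊆ D' → (i ∈ P D ↔ i ∈ P D' ∧ S i ⊆ D)
  nn : ∀ i, 0 ≤ w i
  emp : z ∅ = 1
  step : ∀ D v, v ∈ D → z D = z (D.erase v) - ∑ i ∈ (P D).filter (fun i => v ∈ S i), w i * z (D \ S i)

namespace GasS

variable {V ι : Type*} [DecidableEq V] {S : ι → Finset V} {P : Finset V → Finset ι} {w : ι → ℝ} {z : Finset V → ℝ}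

/-- the recursion for a new vertex. -/
theorem ins (G : GasS S P w z) {D : Finset V} {v : V} (hv : v ∉ D) :
    z (insert v D) = z D - ∑ i ∈ (P (insert v D)).filter (fun i => v ∈ S i), w i * z (D \ S i) := by
  rw [G.step (insert v D) v (mem_insert_self _ _), erase_insert hv]
  congr 1
  refine sum_congr rfl fun i hi => ?_
  rw [insert_sdiff_of_mem _ (mem_filter.1 hi).2]

/-- the induction step: quotients along a set of removed vertices. -/
theorem quot_aux {n : ℕ} (hr : ∀ D : Finset V, D.card < n → (∀ D', D' ⊆ D → 0 < z D') → ∀ D', D' ⊆ D → ∀ v, v ∉ D →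
      z (insert v D) * z D' ≤ z (insert v D') * z D)
    {D : Finset V} (hn : D.card ≤ n) (hp : ∀ D', D' ⊆ D → 0 < z D') {D' : Finset V} (hD : D' ⊆ D) (L : Finset V)
    (hL : L ⊆ D') : z D * z (D' \ L) ≤ z (D \ L) * z D' := by
  induction L using Finset.induction_on with
  | empty => simp only [sdiff_empty]; exact le_rfl
  | insert u L hu ih =>
    have h1 : u ∈ D' := hL (mem_insert_self _ _)
    have h2 : L ⊆ D' := (subset_insert _ _).trans hL
    have h3 := ih h2
    have e1 : ∀ E : Finset V, u ∈ E → E \ L = insert u (E \ insert u L) := by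
      intro E hE
      ext x
      simp only [mem_sdiff, mem_insert]
      constructor
      · rintro ⟨h4, h5⟩
        by_cases c : x = u
        · exact Or.inl c
        · exact Or.inr ⟨h4, fun h => h.elim c h5⟩
      · rintro (rfl | ⟨h4, h5⟩)
        · exact ⟨hE, hu⟩
        · exact ⟨h4, fun h => h5 (Or.inr h)⟩
    have h4 : (D \ insert u L).card < n := by
      refine lt_of_lt_of_le (card_lt_card ?_) hn
      refine ssubset_of_subset_of_ne sdiff_subset fun e => ?_
      have : u ∈ D \ insert u L := by rw [e]; exact hD h1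
      exact (mem_sdiff.1 this).2 (mem_insert_self _ _)
    have h5 := hr (D \ insert u L) h4 (fun E hE => hp E (hE.trans sdiff_subset)) (D' \ insert u L)
      (sdiff_subset_sdiff hD le_rfl) u (fun h => (mem_sdiff.1 h).2 (mem_insert_self _ _))
    rw [← e1 D (hD h1), ← e1 D' h1] at h5
    have p1 : 0 < z (D \ L) := hp _ sdiff_subset
    have p2 : 0 < z (D' \ L) := hp _ (sdiff_subset.trans hD)
    have p3 : 0 < z (D' \ insert u L) := hp _ (sdiff_subset.trans hD)
    have p4 : 0 < z D := hp _ subset_rfl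
    have p5 : 0 < z D' := hp _ hD
    have p6 : 0 < z (D \ insert u L) := hp _ sdiff_subset
    refine le_of_mul_le_mul_right ?_ (mul_pos p1 p2)
    calc z D * z (D' \ insert u L) * (z (D \ L) * z (D' \ L))
        = (z D * z (D' \ L)) * (z (D \ L) * z (D' \ insert u L)) := by ring
      _ ≤ (z (D \ L) * z D') * (z (D' \ L) * z (D \ insert u L)) :=
          mul_le_mul h3 h5 (mul_pos p1 p3).le (mul_pos p1 p5).le
      _ = z (D \ insert u L) * z D' * (z (D \ L) * z (D' \ L)) := by ring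

/-- **the ratios are decreasing.** -/
theorem ratio (G : GasS S P w z) {D : Finset V} (hp : ∀ D', D' ⊆ D → 0 < z D') {D' : Finset V} (hD : D' ⊆ D) {v : V}
    (hv : v ∉ D) : z (insert v D) * z D' ≤ z (insert v D') * z D := by
  suffices H : ∀ n : ℕ, ∀ D : Finset V, D.card < n → (∀ D', D' ⊆ D → 0 < z D') → ∀ D', D' ⊆ D → ∀ v, v ∉ D →
      z (insert v D) * z D' ≤ z (insert v D') * z D from H _ D (Nat.lt_succ_self _) hp D' hD v hv
  clear hp hD hv D D' v
  intro n
  induction n with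
  | zero => exact fun D h => absurd h (Nat.not_lt_zero _)
  | succ n ih =>
    intro D hn hp D' hD v hv
    have hv' : v ∉ D' := fun h => hv (hD h)
    rw [G.ins hv, G.ins hv']
    have p1 : 0 < z D := hp _ subset_rfl
    have p2 : 0 < z D' := hp _ hD
    have e1 : ∀ (E : Finset V) (i : ι), v ∉ E → E \ S i = E \ (S i).erase v := by
      intro E i hE
      ext x
      simp only [mem_sdiff, mem_erase]
      constructor
      · rintro ⟨h4, h5⟩
        exact ⟨h4, fun h => h5 h.2⟩
      · rintro ⟨h4, h5⟩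
        exact ⟨h4, fun h => h5 ⟨fun e => hE (e ▸ h4), h⟩⟩
    have h1 : (∑ i ∈ (P (insert v D')).filter (fun i => v ∈ S i), w i * z (D' \ S i)) * z D ≤
        (∑ i ∈ (P (insert v D)).filter (fun i => v ∈ S i), w i * z (D \ S i)) * z D' := by
      rw [sum_mul, sum_mul]
      have hsub : (P (insert v D')).filter (fun i => v ∈ S i) ⊆ (P (insert v D)).filter (fun i => v ∈ S i) := by
        intro i hi
        rw [mem_filter] at hi ⊢
        exact ⟨((G.mem _ _ i (insert_subset_insert v hD)).1 hi.1).1, hi.2⟩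
      refine le_trans (sum_le_sum fun i hi => ?_) (sum_le_sum_of_subset_of_nonneg hsub fun i _ _ =>
        mul_nonneg (mul_nonneg (G.nn i) (hp _ sdiff_subset).le) p2.le)
      rw [mem_filter] at hi
      have h2 : (S i).erase v ⊆ D' := by
        intro x hx
        have h3 := ((G.mem _ _ i subset_rfl).1 hi.1).2 (mem_of_mem_erase hx)
        exact (mem_insert.1 h3).resolve_left (ne_of_mem_erase hx)
      have h3 := quot_aux ih (Nat.lt_succ_iff.1 hn) hp hD _ h2
      rw [e1 D i hv, e1 D' i hv']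
      have h4 := mul_le_mul_of_nonneg_left h3 (G.nn i)
      linarith [h4, mul_assoc (w i) (z (D' \ (S i).erase v)) (z D), mul_comm (z (D' \ (S i).erase v)) (z D),
        mul_assoc (w i) (z (D \ (S i).erase v)) (z D')]
    nlinarith [h1]

/-- the quotients along a set of removed vertices. -/
theorem quot (G : GasS S P w z) {D : Finset V} (hp : ∀ D', D' ⊆ D → 0 < z D') {D' : Finset V} (hD : D' ⊆ D)
    {L : Finset V} (hL : L ⊆ D') : z D * z (D' \ L) ≤ z (D \ L) * z D' :=
  quot_aux (n := D.card) (fun _ _ h1 _ h2 _ h3 => G.ratio h1 h2 h3) le_rfl hp hD L hL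

/-- **positivity of all subsets.** -/
theorem pos (G : GasS S P w z) {D : Finset V} {v : V} (h : ∀ D', D' ⊆ D → 0 < z D') (hv : 0 < z (insert v D)) :
    ∀ D', D' ⊆ insert v D → 0 < z D' := by
  intro D' hD'
  by_cases c : v ∈ D
  · exact h D' (by rwa [insert_eq_of_mem c] at hD')
  by_cases c' : v ∈ D'
  · have h1 : D'.erase v ⊆ D := by
      intro x hx
      exact (mem_insert.1 (hD' (mem_of_mem_erase hx))).resolve_left (ne_of_mem_erase hx)
    have h2 := G.ratio h h1 c
    rw [insert_erase c'] at h2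
    have p1 := h _ h1
    have p2 := h _ subset_rfl
    by_contra c2
    push Not at c2
    have h3 : z D' * z D ≤ 0 := mul_nonpos_of_nonpos_of_nonneg c2 p2.le
    have h4 : 0 < z (insert v D) * z (D'.erase v) := mul_pos hv p1
    linarith
  · exact h D' fun x hx => (mem_insert.1 (hD' hx)).resolve_left fun e => c' (e ▸ hx)

/-- one vertex. -/
theorem ins_le (G : GasS S P w z) {D : Finset V} (h : ∀ D', D' ⊆ D → 0 < z D') (v : V) : z (insert v D) ≤ z D := by
  by_cases c : v ∈ D
  · rw [insert_eq_of_mem c]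
  · rw [G.ins c]
    have : 0 ≤ ∑ i ∈ (P (insert v D)).filter (fun i => v ∈ S i), w i * z (D \ S i) :=
      sum_nonneg fun i _ => mul_nonneg (G.nn i) (h _ sdiff_subset).le
    linarith

/-- **the gas is decreasing.** -/
theorem anti (G : GasS S P w z) {D D' : Finset V} (h : ∀ D', D' ⊆ D → 0 < z D') (hs : D' ⊆ D) : z D ≤ z D' := by
  suffices H : ∀ L : Finset V, L ⊆ D → z (D' ∪ L) ≤ z D' by
    have := H D subset_rfl
    rwa [union_eq_right.2 hs] at this
  intro L
  induction L using Finset.induction_on with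
  | empty => intro _; rw [union_empty]
  | insert u L hu ih =>
    intro hL
    rw [union_insert]
    have h1 : D' ∪ L ⊆ D := union_subset hs ((subset_insert _ _).trans hL)
    exact (G.ins_le (fun E hE => h E (hE.trans h1)) u).trans (ih ((subset_insert _ _).trans hL))

/-- the gas is at most 1. -/
theorem le_one (G : GasS S P w z) {D : Finset V} (h : ∀ D', D' ⊆ D → 0 < z D') : z D ≤ 1 := by
  have := G.anti h (empty_subset D)
  rwa [G.emp] at this

/-- **the gas is submultiplicative.** -/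
theorem sub (G : GasS S P w z) {D D' : Finset V} (h : ∀ E, E ⊆ D ∪ D' → 0 < z E) (hd : Disjoint D D') :
    z (D ∪ D') ≤ z D * z D' := by
  induction D' using Finset.induction_on with
  | empty => rw [union_empty, G.emp, mul_one]
  | insert u D' hu ih =>
    have hd' : Disjoint D D' := hd.mono_right (subset_insert _ _)
    have h1 : ∀ E, E ⊆ D ∪ D' → 0 < z E := fun E hE => h E (hE.trans (union_subset_union subset_rfl (subset_insert _ _)))
    have h2 := ih h1 hd'
    have hu' : u ∉ D ∪ D' := fun hh => (mem_union.1 hh).elim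
      (fun h3 => disjoint_left.1 hd h3 (mem_insert_self _ _)) hu
    have h3 := G.ratio h1 (D' := D') subset_union_right hu'
    rw [union_insert]
    have p1 : 0 < z D' := h1 _ subset_union_right
    have p2 : 0 < z D := h1 _ subset_union_left
    have p3 : 0 < z (insert u D') := h _ (subset_union_right)
    refine le_of_mul_le_mul_right ?_ p1
    calc z (insert u (D ∪ D')) * z D' ≤ z (insert u D') * z (D ∪ D') := h3
      _ ≤ z (insert u D') * (z D * z D') := mul_le_mul_of_nonneg_left h2 p3.le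
      _ = z D * z (insert u D') * z D' := by ring

end GasS

/-! ### the gas of the winding polygons of the cylinder -/

section cyl

open Pool.Agent.NUF.Cyl HexObs HexObs.LP

variable {N : ℕ} {hN : 1 ≤ N}

theorem wW_nonpos (E : Finset (Pt × Pt)) : 0 ≤ -wW E := by
  unfold wW
  have h1 : 0 ≤ xc ^ E.card := pow_nonneg xc_pos.le _
  have h2 : 0 ≤ √2 / 2 := by positivity
  have := mul_nonneg h2 h1
  linarith

theorem zC_emp (C : Nm) : zC C ∅ = 1 := by
  unfold zC
  rw [Nm.polys_empty, Finset.filter_empty, GP_empty]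

/-- **the recursion of the gas of the winding polygons.** -/
theorem zC_gas : GasS (fun E => VE E) (fun A => ((Cy N hN).polys A).filter Wnd) (fun E => -wW E) (zC (Cy N hN)) where
  mem D D' E h := by
    simp only [Finset.mem_filter, Nm.mem_polys]
    constructor
    · rintro ⟨⟨h1, h2⟩, h3⟩
      exact ⟨⟨⟨h1, h2.trans h⟩, h3⟩, h2⟩
    · rintro ⟨⟨⟨h1, -⟩, h3⟩, h2⟩
      exact ⟨⟨h1, h2⟩, h3⟩
  nn E := wW_nonpos E
  emp := zC_emp _
  step D v _ := by
    have h := Nm.GP_vertex (C := Cy N hN) wW Wnd D v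
    unfold zC
    rw [h, sub_eq_add_neg, ← Finset.sum_neg_distrib]
    congr 1
    refine Finset.sum_congr rfl fun E _ => ?_
    ring

/-! ### translations -/

/-- the translation of the vertices of the cylinder. -/
def Tv (C : Nm) (s v : Pt) : Pt := C.nm (v + s)

/-- the translation of the half edges of the cylinder. -/
def Tq (C : Nm) (s : Pt) (q : Pt × Pt) : Pt × Pt := (Tv C s q.1, q.2)

theorem Tv_nm (C : Nm) (s v : Pt) : Tv C s (C.nm v) = C.nm (v + s) := C.add v s

theorem Tv_neg (C : Nm) (s v : Pt) : Tv C (-s) (Tv C s v) = C.nm v := by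
  unfold Tv
  rw [C.add, add_neg_cancel_right]

theorem Tv_neg' (C : Nm) (s v : Pt) : Tv C s (Tv C (-s) v) = C.nm v := by
  have := Tv_neg C (-s) v
  rwa [neg_neg] at this

theorem Tv_inj {C : Nm} {s v w : Pt} (hv : C.nm v = v) (hw : C.nm w = w) (h : Tv C s v = Tv C s w) : v = w := by
  have := congrArg (Tv C (-s)) h
  rwa [Tv_neg, Tv_neg, hv, hw] at this

theorem Tv_rep (C : Nm) (s v : Pt) : C.nm (Tv C s v) = Tv C s v := C.idem _

theorem cl_Tv {C : Nm} {s : Pt} (hs : cl s = 0) (v : Pt) : cl (Tv C s v) = cl v := by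
  unfold Tv
  rw [C.cl, cl_add, hs, add_zero]

theorem vx_add (v s d : Pt) (t : List Bool) (i : ℕ) : vx (v + s) d t i = vx v d t i + s := by
  induction i with
  | zero => rfl
  | succ i ih =>
    change vx (v + s) d t i + dx d t i = vx v d t i + dx d t i + s
    rw [ih, add_right_comm]

theorem nm_vx_Tv (C : Nm) (s v d : Pt) (t : List Bool) (i : ℕ) :
    C.nm (vx (Tv C s v) d t i) = Tv C s (C.nm (vx v d t i)) := by
  unfold Tv
  rw [Nm.nm_vx, vx_add, C.add]

theorem De_Tq {C : Nm} {s : Pt} (hs : cl s = 0) {p : Pt × Pt} (hp : C.De p) : C.De (Tq C s p) := by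
  obtain ⟨⟨h1, h2, h3⟩, h4⟩ := hp
  have e : cl (Tv C s p.1) = cl p.1 := cl_Tv hs p.1
  refine ⟨⟨h1, ?_, ?_⟩, Tv_rep C s p.1⟩
  · show cl (Tv C s p.1) ≠ 1
    rw [e]
    exact h2
  · show cl (Tv C s p.1 + p.2) ≠ 1
    rw [cl_add, e, ← cl_add]
    exact h3

theorem le_Tq (C : Nm) (s : Pt) (p : Pt × Pt) (t : List Bool) : C.le (Tq C s p) t = Tq C s (C.le p t) :=
  Prod.ext (nm_vx_Tv C s p.1 p.2 t _) rfl

theorem nb_Tq (C : Nm) (s : Pt) (p : Pt × Pt) : C.nb (Tq C s p) = Tv C s (C.nb p) := by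
  show C.nm (C.nm (p.1 + s) + p.2) = C.nm (C.nm (p.1 + p.2) + s)
  rw [C.add, C.add, add_right_comm]

theorem vt_Tq (C : Nm) (s : Pt) (p : Pt × Pt) (t : List Bool) : C.vt (Tq C s p) t = (C.vt p t).image (Tv C s) := by
  unfold Nm.vt
  rw [Finset.image_image]
  exact Finset.image_congr fun i _ => nm_vx_Tv C s p.1 p.2 t _

theorem Clo_Tq {C : Nm} {s : Pt} (hs : cl s = 0) {p : Pt × Pt} {t : List Bool} (h : C.Clo p t) :
    C.Clo (Tq C s p) t where
  de := De_Tq hs h.de
  pos := h.pos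
  le := by rw [le_Tq, h.le]
  inj i k h1 h2 h3 e := by
    have e' : Tv C s (C.nm (vx p.1 p.2 t i)) = Tv C s (C.nm (vx p.1 p.2 t k)) := by
      rw [← nm_vx_Tv, ← nm_vx_Tv]
      exact e
    exact h.inj i k h1 h2 h3 (Tv_inj (C.idem _) (C.idem _) e')

theorem cE_Tq (C : Nm) (s : Pt) (p : Pt × Pt) (t : List Bool) : C.cE (Tq C s p) t = (C.cE p t).image (Tq C s) := by
  unfold Nm.cE
  rw [Finset.image_image]
  exact Finset.image_congr fun i _ => Prod.ext (nm_vx_Tv C s p.1 p.2 t i) rfl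

theorem VE_Tq (C : Nm) (s : Pt) (E : Finset (Pt × Pt)) : VE (E.image (Tq C s)) = (VE E).image (Tv C s) := by
  unfold VE
  rw [Finset.image_image, Finset.image_image]
  rfl

theorem IsP_Tq {C : Nm} {s : Pt} (hs : cl s = 0) {E : Finset (Pt × Pt)} (h : C.IsP E) : C.IsP (E.image (Tq C s)) := by
  obtain ⟨p, t, h1, rfl⟩ := h
  exact ⟨Tq C s p, t, Clo_Tq hs h1, cE_Tq C s p t⟩

theorem Tq_neg {C : Nm} (s : Pt) {q : Pt × Pt} (hq : C.nm q.1 = q.1) : Tq C (-s) (Tq C s q) = q :=
  Prod.ext ((Tv_neg C s q.1).trans hq) rfl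

theorem im_Tq_neg {C : Nm} (s : Pt) {E : Finset (Pt × Pt)} (hE : ∀ q ∈ E, C.nm q.1 = q.1) :
    (E.image (Tq C s)).image (Tq C (-s)) = E := by
  rw [Finset.image_image]
  conv_rhs => rw [← Finset.image_id (s := E)]
  exact Finset.image_congr fun q hq => Tq_neg s (hE q (Finset.mem_coe.1 hq))

theorem im_Tv_neg {C : Nm} (s : Pt) {A : Finset Pt} (hA : ∀ v ∈ A, C.nm v = v) :
    (A.image (Tv C s)).image (Tv C (-s)) = A := by
  rw [Finset.image_image]
  conv_rhs => rw [← Finset.image_id (s := A)]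
  exact Finset.image_congr fun v hv => (Tv_neg C s v).trans (hA v (Finset.mem_coe.1 hv))

theorem polys_Tv {C : Nm} {s : Pt} (hs : cl s = 0) {A : Finset Pt} (hA : ∀ v ∈ A, C.nm v = v) :
    C.polys (A.image (Tv C s)) = (C.polys A).image (fun E => E.image (Tq C s)) := by
  have hs' : cl (-s) = 0 := by
    rw [cl_neg, hs, neg_zero]
  ext E
  rw [Finset.mem_image]
  constructor
  · intro h
    obtain ⟨h1, h2⟩ := Nm.mem_polys.1 h
    refine ⟨E.image (Tq C (-s)), Nm.mem_polys.2 ⟨IsP_Tq hs' h1, ?_⟩, ?_⟩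
    · rw [VE_Tq]
      refine (Finset.image_subset_image h2).trans ?_
      rw [im_Tv_neg s hA]
    · have := im_Tq_neg (C := C) (-s) (E := E) (fun q hq => (h1.de hq).2)
      rwa [neg_neg] at this
  · rintro ⟨F, hF, rfl⟩
    obtain ⟨h1, h2⟩ := Nm.mem_polys.1 hF
    exact Nm.mem_polys.2 ⟨IsP_Tq hs h1, by rw [VE_Tq]; exact Finset.image_subset_image h2⟩

theorem Tq_injOn {C : Nm} {s : Pt} {E : Finset (Pt × Pt)} (hE : ∀ q ∈ E, C.nm q.1 = q.1) :
    Set.InjOn (Tq C s) (E : Set (Pt × Pt)) := by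
  intro q hq r hr e
  have := congrArg (Tq C (-s)) e
  rwa [Tq_neg s (hE q hq), Tq_neg s (hE r hr)] at this

/-- **translations do not change the gas.** -/
theorem zC_Tv {C : Nm} {s : Pt} (hs : cl s = 0) {A : Finset Pt} (hA : ∀ v ∈ A, C.nm v = v) :
    zC C (A.image (Tv C s)) = zC C A := by
  have hrep : ∀ E ∈ C.polys A, ∀ q ∈ E, C.nm q.1 = q.1 := fun E hE q hq => ((Nm.mem_polys.1 hE).1.de hq).2
  have hsum : ∀ E ∈ C.polys A, (∑ q ∈ E.image (Tq C s), q.2) = ∑ q ∈ E, q.2 := fun E hE =>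
    Finset.sum_image (f := fun q : Pt × Pt => q.2) (Tq_injOn (hrep E hE))
  have e1 : (C.polys (A.image (Tv C s))).filter Wnd =
      ((C.polys A).filter Wnd).image (fun E => E.image (Tq C s)) := by
    rw [polys_Tv hs hA, Finset.filter_image]
    congr 1
    refine Finset.filter_congr fun E hE => ?_
    unfold Wnd
    rw [hsum E hE]
  unfold zC GP
  rw [e1]
  have h0 := NUHC.P_image (inc := Shr) (inc' := Shr) (fun E : Finset (Pt × Pt) => E.image (Tq C s)) wW
    ((C.polys A).filter Wnd) ?_ ?_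
  · trans NUHC.P Shr (fun E => wW (E.image (Tq C s))) ((C.polys A).filter Wnd)
    · rw [← h0]
      congr
      exact Subsingleton.elim _ _
    · apply NUHC.P_congr
      intro E hE
      unfold wW
      rw [Finset.card_image_of_injOn (Tq_injOn (hrep E (Finset.mem_filter.1 hE).1))]
  · intro E hE F hF e
    have : (E.image (Tq C s)).image (Tq C (-s)) = (F.image (Tq C s)).image (Tq C (-s)) :=
      congrArg (fun G : Finset (Pt × Pt) => G.image (Tq C (-s))) e
    rwa [im_Tq_neg s (hrep E (Finset.mem_filter.1 hE).1), im_Tq_neg s (hrep F (Finset.mem_filter.1 hF).1)] at this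
  · intro E hE F hF
    unfold Shr
    rw [VE_Tq, VE_Tq, not_iff_not]
    have h1 : ∀ E ∈ C.polys A, ∀ v ∈ VE E, C.nm v = v := by
      intro E hE v hv
      obtain ⟨d, hd⟩ := Nm.mem_VE.1 hv
      exact hrep E hE _ hd
    constructor
    · intro h
      rw [Finset.disjoint_left] at h ⊢
      exact fun v hv hv' => h (Finset.mem_image_of_mem _ hv) (Finset.mem_image_of_mem _ hv')
    · intro h
      rw [Finset.disjoint_left] at h ⊢
      intro v hv hv'
      obtain ⟨a, ha, rfl⟩ := Finset.mem_image.1 hv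
      obtain ⟨b, hb, e⟩ := Finset.mem_image.1 hv'
      have e2 := Tv_inj (h1 F (Finset.mem_filter.1 hF).1 b hb) (h1 E (Finset.mem_filter.1 hE).1 a ha) e
      exact h ha (e2 ▸ hb)

/-- **translations of words.** -/
theorem arr_Tq {C : Nm} {s : Pt} {A : Finset Pt} (hA : ∀ v ∈ A, C.nm v = v) (p : Pt × Pt) :
    C.arr (A.image (Tv C s)) (Tq C s p) = C.arr A p := by
  ext t
  rw [Nm.mem_arr, Nm.mem_arr]
  have e : ∀ i, C.nm (vx (Tq C s p).1 (Tq C s p).2 t i) = Tv C s (C.nm (vx p.1 p.2 t i)) :=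
    fun i => nm_vx_Tv C s p.1 p.2 t i
  constructor
  · intro h
    constructor
    · intro i h1 h2
      have h3 := h.mem i h1 h2
      rw [e, Finset.mem_image] at h3
      obtain ⟨v, hv, h4⟩ := h3
      rw [← Tv_inj (hA v hv) (C.idem _) h4]
      exact hv
    · intro i k h1 h2 h3 h4
      have h5 := h.inj i k h1 h2 h3
      rw [e, e, h4] at h5
      exact h5 rfl
  · intro h
    constructor
    · intro i h1 h2
      rw [e]
      exact Finset.mem_image_of_mem _ (h.mem i h1 h2)
    · intro i k h1 h2 h3 h4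
      rw [e, e] at h4
      exact h.inj i k h1 h2 h3 (Tv_inj (C.idem _) (C.idem _) h4)

theorem mem_im_Tv {C : Nm} {s : Pt} {A : Finset Pt} (hA : ∀ v ∈ A, C.nm v = v) {v : Pt} (hv : C.nm v = v) :
    Tv C s v ∈ A.image (Tv C s) ↔ v ∈ A := by
  rw [Finset.mem_image]
  constructor
  · rintro ⟨w, hw, e⟩
    rw [← Tv_inj (hA w hw) hv e]
    exact hw
  · exact fun h => ⟨v, h, rfl⟩

theorem exC_Tq {C : Nm} {s : Pt} {A : Finset Pt} (hA : ∀ v ∈ A, C.nm v = v) (p : Pt × Pt) :
    exC C (A.image (Tv C s)) (Tq C s p) = exC C A p := by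
  unfold exC
  rw [arr_Tq hA]
  refine Finset.filter_congr fun t _ => ?_
  rw [le_Tq, nb_Tq, mem_im_Tv hA (C.nm_nb _)]

/-! ### rings -/

theorem mem_rg {a b : ℤ} {v : Pt} : v ∈ rg N a b ↔ ∃ k i : ℤ, (a ≤ k ∧ k < b) ∧ (0 ≤ i ∧ i < N) ∧
    (v = _root_.EXL.A k i ∨ v = _root_.EXL.B k i) := by
  unfold rg
  simp only [Finset.mem_union, Finset.mem_image, Finset.mem_product, Finset.mem_Ico, Prod.exists]
  constructor
  · rintro (⟨k, i, ⟨h1, h2⟩, rfl⟩ | ⟨k, i, ⟨h1, h2⟩, rfl⟩)
    · exact ⟨k, i, h1, h2, Or.inl rfl⟩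
    · exact ⟨k, i, h1, h2, Or.inr rfl⟩
  · rintro ⟨k, i, h1, h2, rfl | rfl⟩
    · exact Or.inl ⟨k, i, ⟨h1, h2⟩, rfl⟩
    · exact Or.inr ⟨k, i, ⟨h1, h2⟩, rfl⟩

theorem rg_nm {a b : ℤ} {v : Pt} (h : v ∈ rg N a b) : (Cy N hN).nm v = v := by
  obtain ⟨k, i, -, h2, rfl | rfl⟩ := mem_rg.1 h
  · exact nm_A hN k h2.1 h2.2
  · exact nm_B hN k h2.1 h2.2

theorem Vt_A (k i : ℤ) : Vt (_root_.EXL.A k i) := by
  unfold Vt cl _root_.EXL.A
  have : ((2 * k + i - (-k + 1 + i) : ℤ) : ZMod 3) = ((3 * k : ℤ) : ZMod 3) - 1 := by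
    push_cast
    ring
  simp only [this]
  have h3 : ((3 * k : ℤ) : ZMod 3) = 0 := by
    rw [Int.cast_mul]
    have : ((3 : ℤ) : ZMod 3) = 0 := by decide
    rw [this, zero_mul]
  rw [h3]
  decide

theorem cl_ax3 (k : ℤ) : cl ((2 * k, -k) : Pt) = 0 := by
  unfold cl
  have : ((2 * k - -k : ℤ) : ZMod 3) = ((3 * k : ℤ) : ZMod 3) := by
    congr 1
    ring
  simp only [this]
  rw [Int.cast_mul]
  have : ((3 : ℤ) : ZMod 3) = 0 := by decide
  rw [this, zero_mul]

theorem A_ax (k j i : ℤ) : _root_.EXL.A j i + ((2 * k, -k) : Pt) = _root_.EXL.A (j + k) i := by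
  unfold _root_.EXL.A
  ext
  · simp only [Prod.fst_add]
    ring
  · simp only [Prod.snd_add]
    ring

theorem B_ax (k j i : ℤ) : _root_.EXL.B j i + ((2 * k, -k) : Pt) = _root_.EXL.B (j + k) i := by
  unfold _root_.EXL.B
  ext
  · simp only [Prod.fst_add]
    ring
  · simp only [Prod.snd_add]
    ring

theorem rg_Tv (a b k : ℤ) : (rg N a b).image (Tv (Cy N hN) (2 * k, -k)) = rg N (a + k) (b + k) := by
  ext v
  rw [Finset.mem_image, mem_rg]
  constructor
  · rintro ⟨w, hw, rfl⟩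
    obtain ⟨j, i, h1, h2, rfl | rfl⟩ := mem_rg.1 hw
    · refine ⟨j + k, i, by omega, h2, Or.inl ?_⟩
      unfold Tv
      rw [A_ax, nm_A hN _ h2.1 h2.2]
    · refine ⟨j + k, i, by omega, h2, Or.inr ?_⟩
      unfold Tv
      rw [B_ax, nm_B hN _ h2.1 h2.2]
  · rintro ⟨j, i, h1, h2, rfl | rfl⟩
    · refine ⟨_root_.EXL.A (j - k) i, mem_rg.2 ⟨j - k, i, by omega, h2, Or.inl rfl⟩, ?_⟩
      unfold Tv
      rw [A_ax, sub_add_cancel, nm_A hN _ h2.1 h2.2]
    · refine ⟨_root_.EXL.B (j - k) i, mem_rg.2 ⟨j - k, i, by omega, h2, Or.inr rfl⟩, ?_⟩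
      unfold Tv
      rw [B_ax, sub_add_cancel, nm_B hN _ h2.1 h2.2]

/-- **the gas does not change along the axis.** -/
theorem zC_tr (a b k : ℤ) : zC (Cy N hN) (rg N (a + k) (b + k)) = zC (Cy N hN) (rg N a b) := by
  rw [← rg_Tv (hN := hN) a b k]
  exact zC_Tv (cl_ax3 k) (fun v hv => rg_nm hv)

end cyl

end Pool.Agent.GLD
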