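import Pool.Agent.BAR.ColE

/-!
# GLd, module A8, part (w1): polynomial bound of all words of a given extent

`BAR.Chi m` is the critical weight of all self-avoiding words (started by the half edge `oo up`) whose vertices lie in a
window of `m` rows.
-/

set_option autoImplicit false

namespace Pool.Agent.GLD

open Finset ENNReal HexObs HexObs.BAR HexObs.SDN

/-- polynomial bound of all words of extent at most `m` rows -/
theorem chi_poly : ∃ A B : ℝ, 1 ≤ A ∧ 0 ≤ B ∧ ∀ m : ℕ, 1 ≤ m → Chi m ≤ ENNReal.ofReal (A * (m : ℝ) ^ B) := by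
  obtain ⟨L1, hL1⟩ := lat_small (η := 1 / 2) (by norm_num) (by norm_num)
  obtain ⟨C', hC', hpoly⟩ := SAL_poly
  obtain ⟨Q, hQ⟩ : ∃ Q : ℝ, Q = (100 * (4 ^ L1 * 16)) ^ C' * C' := ⟨_, rfl⟩
  have hQ0 : 0 < Q := by rw [hQ]; positivity
  refine ⟨Q + 1, 4 * C', by linarith, by positivity, fun m hm => ?_⟩
  have hm1 : (1 : ℝ) ≤ m := by exact_mod_cast hm
  obtain ⟨n, hn⟩ : ∃ n, n = Nat.log 2 m := ⟨_, rfl⟩
  obtain ⟨L, hL⟩ : ∃ L, L = L1 + 2 * (n + 1) := ⟨_, rfl⟩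
  have h1 : m < 2 ^ (n + 1) := hn ▸ Nat.lt_pow_succ_log_self (by norm_num) m
  have h2 : 2 ^ n ≤ m := hn ▸ Nat.pow_log_le_self 2 (by omega)
  have h3 : (m : ℝ) ≤ (2 : ℝ) ^ ((1 - 1 / 2 : ℝ) * L) := by
    have e1 : (m : ℝ) ≤ (2 : ℝ) ^ ((n + 1 : ℕ) : ℝ) := by
      rw [Real.rpow_natCast]
      exact_mod_cast h1.le
    refine e1.trans (Real.rpow_le_rpow_of_exponent_le (by norm_num) ?_)
    rw [hL]
    push_cast
    have : (0 : ℝ) ≤ L1 := Nat.cast_nonneg _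
    linarith
  have h4 := hL1 L (by omega) m h3
  have hsub : {t | Saw Set.univ oo up t ∧ Ext m t} ⊆ {t | t ∈ SA ∧ Ext m t ∧ t ∉ WL L} ∪ SAL (100 * 4 ^ L) := by
    intro w hw
    obtain ⟨e1, e2⟩ := hw
    by_cases h5 : w ∈ WL L
    · exact Or.inr ⟨e1, WL_length h5⟩
    · exact Or.inl ⟨e1, e2, h5⟩
  have h5 := hpoly (100 * 4 ^ L) (by
    have : 1 ≤ 4 ^ L := Nat.one_le_pow _ _ (by norm_num)
    omega)
  have h6 : ((100 * 4 ^ L : ℕ) : ℝ) ^ C' * C' ≤ Q * (m : ℝ) ^ (4 * C') := by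
    have e1 : ((100 * 4 ^ L : ℕ) : ℝ) ≤ 100 * (4 ^ L1 * 16) * (m : ℝ) ^ (4 : ℝ) := by
      have e2 : (4 : ℝ) ^ L = 4 ^ L1 * 16 * ((2 : ℝ) ^ n) ^ 4 := by
        rw [hL, pow_add, ← pow_mul, show (4 : ℝ) = 2 ^ 2 by norm_num, ← pow_mul, ← pow_mul]
        rw [show (16 : ℝ) = 2 ^ 4 by norm_num, mul_assoc, ← pow_add]
        ring
      have e3 : ((2 : ℝ) ^ n) ^ 4 ≤ (m : ℝ) ^ 4 := by
        apply pow_le_pow_left₀ (by positivity)
        exact_mod_cast h2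
      have e4 : (m : ℝ) ^ (4 : ℝ) = (m : ℝ) ^ 4 := by
        rw [← Real.rpow_natCast]
        norm_num
      push_cast
      rw [e4, e2]
      have e5 : (0 : ℝ) ≤ 100 * (4 ^ L1 * 16) := by positivity
      nlinarith
    have e2 : ((100 * 4 ^ L : ℕ) : ℝ) ^ C' ≤ (100 * (4 ^ L1 * 16) * (m : ℝ) ^ (4 : ℝ)) ^ C' :=
      Real.rpow_le_rpow (by positivity) e1 hC'.le
    rw [Real.mul_rpow (by positivity) (by positivity), ← Real.rpow_mul (by positivity)] at e2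
    calc ((100 * 4 ^ L : ℕ) : ℝ) ^ C' * C' ≤ ((100 * (4 ^ L1 * 16)) ^ C' * (m : ℝ) ^ (4 * C')) * C' :=
          mul_le_mul_of_nonneg_right e2 hC'.le
      _ = Q * (m : ℝ) ^ (4 * C') := by
          rw [hQ]
          ring
  have h7 : 1 ≤ (m : ℝ) ^ (4 * C') := Real.one_le_rpow hm1 (by positivity)
  calc Chi m ≤ 1 + ENNReal.ofReal (Q * (m : ℝ) ^ (4 * C')) :=
        (gf_mono hsub).trans ((gf_union_le _ _).trans (add_le_add h4 (h5.trans (ENNReal.ofReal_le_ofReal h6))))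
    _ = ENNReal.ofReal (1 + Q * (m : ℝ) ^ (4 * C')) := by
        rw [ENNReal.ofReal_add (by norm_num) (by positivity), ENNReal.ofReal_one]
    _ ≤ _ := ENNReal.ofReal_le_ofReal (by nlinarith)

/-- polynomial bound of the words all whose vertices have levels of absolute value at most `3 h` -/
theorem strip_poly : ∃ A B : ℝ, 1 ≤ A ∧ 0 ≤ B ∧ ∀ h : ℕ,
    gf {t | Saw Set.univ oo up t ∧ ∀ i, 1 ≤ i → i ≤ t.length → |HexObs.lev t i| ≤ 3 * (h : ℤ)} ≤
      ENNReal.ofReal (A * ((h : ℝ) + 1) ^ B) := by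
  obtain ⟨A, B, hA, hB, h1⟩ := chi_poly
  refine ⟨A * 3 ^ B, B, ?_, hB, fun h => ?_⟩
  · have : (1 : ℝ) ≤ 3 ^ B := Real.one_le_rpow (by norm_num) hB
    nlinarith
  · have h2 := h1 (2 * h + 1) (by omega)
    refine (gf_mono ?_).trans (h2.trans (ENNReal.ofReal_le_ofReal ?_))
    · intro t ht
      refine ⟨ht.1, -((h : ℤ) + 1), fun i hi hi2 => ?_⟩
      have h3 := abs_le.1 (ht.2 i hi hi2)
      push_cast
      constructor <;> omega
    · push_cast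
      rw [mul_assoc]
      refine mul_le_mul_of_nonneg_left ?_ (by linarith)
      rw [← Real.mul_rpow (by norm_num) (by positivity)]
      refine Real.rpow_le_rpow (by positivity) ?_ hB
      have : (0 : ℝ) ≤ h := Nat.cast_nonneg _
      linarith

end Pool.Agent.GLD
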