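import Pool.Agent.GLD.TailCore
import Pool.Agent.GLD.HGd
import Pool.Agent.BAR.LatLog

/-!
GLd: the tail of the words of the plane in a strip, summed over the displacements.
-/

set_option autoImplicit false

namespace Pool.Agent.GLD

open HexObs HexObs.BAR HexObs.SDN
open scoped ENNReal

/-- words of a strip whose last vertex is at least S steps to the side, S at least R log^3 R -/
theorem gf_FarW_small {Q : ℝ} (hQ : 0 < Q) : ∃ C : ℝ, 0 < C ∧ ∀ R S : ℕ, 2 ≤ R → (R : ℝ) * (Real.log R) ^ 3 ≤ S →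
    gf (Tail.FarW R S) ≤ ENNReal.ofReal (C * (S : ℝ) ^ (-Q)) :=
  Tail.far_tail (fun _ hQ => lat_log hQ) (fun _ _ => WL_length) SAL_poly hQ

/-- **GLD.tail**: the planar words of the levels (- 3 R, 3 R] with a displacement of at least S ≥ R log^3 R steps. -/
theorem tail {Q : ℝ} (hQ : 0 < Q) : ∃ C : ℝ, 0 < C ∧ ∀ R S : ℕ, 2 ≤ R → (R : ℝ) * (Real.log R) ^ 3 ≤ S →
    ∑' K : {K : ℤ // (S : ℤ) ≤ |K|}, gf (PE R K) ≤ ENNReal.ofReal (C * (S : ℝ) ^ (-Q)) := by
  obtain ⟨C, hC, h⟩ := gf_FarW_small hQ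
  refine ⟨C, hC, fun R S hR hS => le_trans ?_ (h R S hR hS)⟩
  refine Tail.tsum_gf_le (fun K : {K : ℤ // (S : ℤ) ≤ |K|} => PE R K) ?_ ?_
  · intro i j t h1 h2
    have e1 : (up + (-2 * i.1, i.1) : Pt) = up + (-2 * j.1, j.1) := h1.2.2.1.symm.trans h2.2.2.1
    have e2 := congrArg Prod.snd e1
    simp only [up, Prod.snd_add] at e2
    have e3 : i.1 = j.1 := by omega
    exact Subtype.ext e3
  · rintro ⟨K, hK⟩ t ⟨h1, h2, h3, -, h5⟩
    exact ⟨h1, h2, ⟨K, hK, h3⟩, h5⟩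

/-- the tail in the form of the assembly. -/
theorem tailH : TailH 3 := by
  obtain ⟨C, hC, h⟩ := tail (Q := 10) (by norm_num)
  refine ⟨C, hC, fun R hR S hS => (h R S hR hS).trans (le_of_eq ?_)⟩
  congr 1
  rw [Real.rpow_neg (Nat.cast_nonneg S), div_eq_mul_inv]
  congr 2
  exact_mod_cast Real.rpow_natCast (S : ℝ) 10

end Pool.Agent.GLD
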