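import Pool.Agent.SDN.Defs
import Pool.Agent.BAR.Defs

/-!
GLd: words of a strip of `6 R` levels that may visit their start and whose last vertex is at least `S` steps to the side.
Part 1: the reduction to self-avoiding words (cut at the visit of the start) and the numerical part.
-/

set_option autoImplicit false

namespace Pool.Agent.GLD

open HexObs HexObs.BAR HexObs.SDN
open scoped ENNReal

namespace Tail

/-- words of a strip of `6 R` levels (the start may be visited) whose last vertex is at least `S` steps to the side -/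
def FarW (R S : ℕ) : Set (List Bool) := {t | 1 ≤ t.length ∧
  (∀ i j, 1 ≤ i → i < j → j ≤ t.length → vx oo up t i ≠ vx oo up t j) ∧
  (∃ K : ℤ, (S : ℤ) ≤ |K| ∧ vx oo up t t.length = up + (-2 * K, K)) ∧
  ∀ i, 1 ≤ i → i ≤ t.length → -3 * (R : ℤ) < lev t i ∧ lev t i ≤ 3 * R}

/-- self-avoiding words of at most m rows whose last vertex is at least s rows to the side -/
def EE (m : ℕ) (s : ℤ) : Set (List Bool) := {t | t ∈ SA ∧ Ext m t ∧ s ≤ |row true (vx oo up t t.length)|}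

lemma EE_zero (m : ℕ) (s : ℤ) : EE m s ⊆ EE m 0 := fun _ h => ⟨h.1, h.2.1, abs_nonneg _⟩

lemma FarW_mono {R R' : ℕ} (h : R ≤ R') (S : ℕ) : FarW R S ⊆ FarW R' S := by
  rintro t ⟨h1, h2, h3, h4⟩
  refine ⟨h1, h2, h3, fun i hi hi' => ?_⟩
  obtain ⟨h5, h6⟩ := h4 i hi hi'
  omega

lemma row_true (v : Pt) : row true v = (-(2 * v.1) - v.2) / 3 := by
  unfold row lvl
  congr 1
  simp only [hd, ip, if_true]
  ring

lemma row_end (K : ℤ) : row true (up + (-2 * K, K)) = K - 1 := by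
  rw [row_true]
  simp only [up, Prod.fst_add, Prod.snd_add]
  omega

lemma row_end' (K : ℤ) : row true (up - (up + (-2 * K, K))) = -K := by
  rw [row_true]
  simp only [up, Prod.fst_add, Prod.snd_add, Prod.fst_sub, Prod.snd_sub]
  omega

lemma tf_dr (t : List Bool) (a k : ℕ) : tf (t.drop a) k = tf t (a + k) := by
  unfold tf
  rw [List.getD_eq_getElem?_getD, List.getD_eq_getElem?_getD, List.getElem?_drop]

lemma vx_dr (t : List Bool) (a i : ℕ) : vx oo up t (a + i) = vx (vx oo up t a) (dx up t a) (t.drop a) i := by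
  unfold vx dx
  rw [vs_shift]
  apply vs_congr
  intro k _
  exact (tf_dr t a k).symm

lemma vx_co (v d : Pt) (b : Bool) (t : List Bool) (i : ℕ) : vx v d (b :: t) (i + 1) = vx (v + d) (turn b d) t i := by
  unfold vx
  rw [add_comm i 1, vs_shift]
  have h1 : vs v d (tf (b :: t)) 1 = v + d := rfl
  have h2 : ds d (tf (b :: t)) 1 = turn b d := rfl
  rw [h1, h2]
  apply vs_congr
  intro k _
  rw [add_comm 1 k]
  rfl

lemma vx_tu (x : Pt) (t : List Bool) (j : ℕ) : vx x (-up) t j = x - vx oo up t j := by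
  have h := vx_mulE (-1, 0) oo x up t j
  have e : mulE (-1, 0) up = -up := by decide
  have e2 : ∀ p : Pt, mulE (-1, 0) p = -p := by
    intro p
    ext <;> simp [mulE]
  rw [e, e2] at h
  rw [h]
  have : vx oo up t j - oo = vx oo up t j := sub_zero _
  rw [this]
  abel

lemma vx_take (t : List Bool) {k i : ℕ} (hk : k ≤ t.length) (hi : i ≤ k + 1) : vx oo up (t.take k) i = vx oo up t i := by
  have h1 : vx oo up (t.take k ++ t.drop k) i = vx oo up (t.take k) i := vx_append (by rw [List.length_take]; omega)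
  rw [List.take_append_drop] at h1
  exact h1.symm

lemma lev_vx {s t : List Bool} {i j : ℕ} (h : vx oo up s i = vx oo up t j) : lev s i = lev t j := by
  unfold lev
  rw [h]

/-- the word after the visit of the start, with a step downwards in front, turned -/
lemma vx_tail {t : List Bool} {i : ℕ} (hv : vx oo up t i = oo) {c : Bool} (hc : turn c (-up) = dx up t i) (j : ℕ) :
    vx oo up (c :: t.drop i) (j + 1) = up - vx oo up t (i + j) := by
  have h1 := vx_tu up (c :: t.drop i) (j + 1)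
  have h2 := vx_co up (-up) c (t.drop i) j
  rw [add_neg_cancel, hc] at h2
  have h3 := vx_dr t i j
  rw [hv] at h3
  have h4 : vx oo up t (i + j) = up - vx oo up (c :: t.drop i) (j + 1) := by
    rw [h3, ← h1, h2]
    rfl
  rw [h4]
  abel

lemma dir_dn {d : Pt} (h : d ∈ dirs) (h2 : cl d = 0 ∨ cl d = 2) (h3 : d ≠ up) : ∃ c, turn c (-up) = d := by
  revert h2 h3
  revert d
  decide

lemma sub_level (v : Pt) : ip (up - v) up = 2 - ip v up := by
  unfold ip up
  simp only [Prod.fst_sub, Prod.snd_sub]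
  ring

/-- a word that avoids its start -/
lemma caseA {R S : ℕ} {t : List Bool} (ht : t ∈ FarW R S) (h0 : ∀ i, 1 ≤ i → i ≤ t.length → vx oo up t i ≠ oo) :
    t ∈ EE (2 * R + 1) ((S : ℤ) - 1) := by
  obtain ⟨h1, h2, ⟨K, hK, h3⟩, h4⟩ := ht
  refine ⟨⟨fun i _ _ => Set.mem_univ _, fun i k hik hk => ?_⟩, ⟨-R, fun i hi hi' => ?_⟩, ?_⟩
  · rcases Nat.eq_zero_or_pos i with hi | hi
    · subst hi
      exact fun h => h0 k (by omega) hk h.symm
    · exact h2 i k hi hik hk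
  · obtain ⟨h5, h6⟩ := h4 i hi hi'
    push_cast
    omega
  · rw [h3, row_end]
    rcases abs_cases K with ⟨h7, _⟩ | ⟨h7, _⟩ <;> rcases abs_cases (K - 1) with ⟨h8, _⟩ | ⟨h8, _⟩ <;> omega

/-- a word that visits its start -/
lemma caseB {R S : ℕ} {t : List Bool} (ht : t ∈ FarW R S) {i : ℕ} (hi : 1 ≤ i) (hi' : i ≤ t.length)
    (hv : vx oo up t i = oo) : ∃ c : Bool, 2 ≤ i ∧ i < t.length ∧ t.take (i - 1) ∈ EE (2 * R + 1) 0 ∧
      c :: t.drop i ∈ EE (2 * R + 1) ((S : ℤ) - 1) := by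
  obtain ⟨h1, h2, ⟨K, hK, h3⟩, h4⟩ := ht
  have hi2 : 2 ≤ i := by
    by_contra hcon
    have h5 : i = 1 := by omega
    subst h5
    have h6 : up = oo := hv
    exact absurd h6 (by decide)
  have hin : i < t.length := by
    rcases Nat.lt_or_ge i t.length with h | h
    · exact h
    · exfalso
      have h5 : i = t.length := by omega
      rw [h5, h3] at hv
      have h6 := congrArg Prod.fst hv
      have h7 := congrArg Prod.snd hv
      simp only [up, oo, Prod.fst_add, Prod.snd_add] at h6 h7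
      omega
  -- the direction after the visit
  have hd : dx up t i ∈ dirs := dx_mem (by decide) t i
  have hn : vx oo up t (i + 1) = dx up t i := by
    have h5 : vx oo up t (i + 1) = vx oo up t i + dx up t i := vx_succ ..
    rw [h5, hv]
    exact zero_add _
  have hcl : cl (dx up t i) = 0 ∨ cl (dx up t i) = 2 := by
    have h5 := vx_hex oo up t (i + 1)
    have e : IsHex oo up (vx oo up t (i + 1)) ↔ (cl (vx oo up t (i + 1)) = 0 ∨ cl (vx oo up t (i + 1)) = 2) := by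
      have e0 : cl oo = 0 := by decide
      have e2 : cl oo + cl up = 2 := by decide
      unfold IsHex
      rw [e2, e0]
    rw [← hn]
    exact e.1 h5
  have hnu : dx up t i ≠ up := by
    intro h5
    rw [h5] at hn
    exact h2 1 (i + 1) le_rfl (by omega) (by omega) (by rw [hn]; rfl)
  obtain ⟨c, hc⟩ := dir_dn hd hcl hnu
  have hl1 : (t.take (i - 1)).length = i - 1 := by
    rw [List.length_take]
    omega
  have hl2 : (c :: t.drop i).length = t.length - i + 1 := by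
    rw [List.length_cons, List.length_drop]
  have hw := vx_tail hv hc
  refine ⟨c, hi2, hin, ⟨⟨fun j _ _ => Set.mem_univ _, fun j k hjk hk => ?_⟩, ⟨-R, fun j hj hj' => ?_⟩, abs_nonneg _⟩,
    ⟨⟨fun j _ _ => Set.mem_univ _, fun j k hjk hk => ?_⟩, ⟨-R, fun j hj hj' => ?_⟩, ?_⟩⟩
  · rw [hl1] at hk
    rw [vx_take t (by omega) (by omega), vx_take t (by omega) (by omega)]
    rcases Nat.eq_zero_or_pos j with h5 | h5
    · subst h5
      intro h6
      have h7 : vx oo up t k = vx oo up t i := by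
        rw [hv]
        exact h6.symm
      exact h2 k i (by omega) (by omega) hi' h7
    · exact h2 j k h5 hjk (by omega)
  · rw [hl1] at hj'
    rw [lev_vx (vx_take t (by omega) (by omega))]
    obtain ⟨h5, h6⟩ := h4 j hj (by omega)
    push_cast
    omega
  · rw [hl2] at hk
    obtain ⟨k, rfl⟩ : ∃ k', k = k' + 1 := ⟨k - 1, by omega⟩
    rw [hw k]
    rcases Nat.eq_zero_or_pos j with h5 | h5
    · subst h5
      intro h6
      have h7 : vx oo up t 1 = vx oo up t (i + k) := by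
        have h8 : (oo : Pt) = up - vx oo up t (i + k) := h6
        have h9 : ∀ X : Pt, oo = up - X → X = up := by
          intro X hX
          have e1 := congrArg Prod.fst hX
          have e2 := congrArg Prod.snd hX
          simp only [oo, up, Prod.fst_sub, Prod.snd_sub] at e1 e2
          refine Prod.ext ?_ ?_ <;> simp only [up] <;> omega
        rw [h9 _ h8]
        exact zero_add up
      exact h2 1 (i + k) le_rfl (by omega) (by omega) h7
    · obtain ⟨j, rfl⟩ : ∃ j', j = j' + 1 := ⟨j - 1, by omega⟩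
      rw [hw j]
      intro h6
      exact h2 (i + j) (i + k) (by omega) (by omega) (by omega) (sub_right_injective h6)
  · rw [hl2] at hj'
    obtain ⟨j, rfl⟩ : ∃ j', j = j' + 1 := ⟨j - 1, by omega⟩
    have h5 : lev (c :: t.drop i) (j + 1) = 2 - lev t (i + j) := by
      unfold lev
      rw [hw j, sub_level]
    rw [h5]
    obtain ⟨h6, h7⟩ := h4 (i + j) (by omega) (by omega)
    push_cast
    omega
  · rw [hl2, hw (t.length - i), show i + (t.length - i) = t.length by omega, h3, row_end', abs_neg]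
    omega

/-- **the cut at the visit of the start** -/
theorem gf_FarW (R S : ℕ) : gf (FarW R S) ≤ gf (EE (2 * R + 1) ((S : ℤ) - 1)) +
    2 * (gf (EE (2 * R + 1) 0) * gf (EE (2 * R + 1) ((S : ℤ) - 1))) := by
  obtain ⟨P, hP⟩ : ∃ P : Bool → Set (List Bool), P = fun b => {t | t ∈ FarW R S ∧ ∃ i, 1 ≤ i ∧ i ≤ t.length ∧
    vx oo up t i = oo ∧ tf t (i - 1) = b} := ⟨_, rfl⟩
  have hsub : FarW R S ⊆ EE (2 * R + 1) ((S : ℤ) - 1) ∪ (P true ∪ P false) := by
    intro t ht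
    by_cases h0 : ∀ i, 1 ≤ i → i ≤ t.length → vx oo up t i ≠ oo
    · exact Or.inl (caseA ht h0)
    · push Not at h0
      obtain ⟨i, h1, h2, h3⟩ := h0
      right
      rw [hP]
      cases hb : tf t (i - 1)
      · exact Or.inr ⟨ht, i, h1, h2, h3, hb⟩
      · exact Or.inl ⟨ht, i, h1, h2, h3, hb⟩
  have hb : ∀ b, gf (P b) ≤ gf (EE (2 * R + 1) 0) * gf (EE (2 * R + 1) ((S : ℤ) - 1)) := by
    intro b
    have h1 : ∀ t ∈ P b, ∃ (i : ℕ) (c : Bool), tf t (i - 1) = b ∧ 2 ≤ i ∧ i < t.length ∧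
        t.take (i - 1) ∈ EE (2 * R + 1) 0 ∧ c :: t.drop i ∈ EE (2 * R + 1) ((S : ℤ) - 1) := by
      intro t ht
      rw [hP] at ht
      obtain ⟨h1, i, h2, h3, h4, h5⟩ := ht
      obtain ⟨c, h6⟩ := caseB h1 h2 h3 h4
      exact ⟨i, c, h5, h6⟩
    choose! f g h1 h2 h3 h4 h5 using h1
    have h6 := gf_le_pair (P := P b) 1 (fun t => t.take (f t - 1)) (fun t => g t :: t.drop (f t)) h4 h5 ?_ ?_
    · rwa [one_mul] at h6
    · intro s hs t ht e1 e2
      have e3 : s.drop (f s) = t.drop (f t) := (List.cons.inj e2).2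
      have e1' : s.take (f s - 1) = t.take (f t - 1) := e1
      have e4 : f s = f t := by
        have e5 := congrArg List.length e1'
        rw [List.length_take, List.length_take] at e5
        have := h2 s hs
        have := h2 t ht
        have := h3 s hs
        have := h3 t ht
        omega
      have key : ∀ r ∈ P b, r = r.take (f r - 1) ++ b :: r.drop (f r) := by
        intro r hr
        have k1 := h2 r hr
        have k2 := h3 r hr
        have k3 : f r - 1 < r.length := by omega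
        have k4 : r.drop (f r - 1) = b :: r.drop (f r) := by
          rw [List.drop_eq_getElem_cons k3, show f r - 1 + 1 = f r by omega]
          congr 1
          have k5 := h1 r hr
          unfold tf at k5
          rwa [List.getD_eq_getElem _ _ k3] at k5
        rw [← k4, List.take_append_drop]
      rw [key s hs, key t ht, e1', e3]
    · intro t ht
      have k1 := h2 t ht
      have k2 := h3 t ht
      rw [one_mul, ← wE_append]
      apply le_of_eq
      unfold wE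
      congr 2
      rw [List.length_append, List.length_take, List.length_cons, List.length_drop]
      omega
  calc gf (FarW R S) ≤ gf (EE (2 * R + 1) ((S : ℤ) - 1) ∪ (P true ∪ P false)) := gf_mono hsub
    _ ≤ gf (EE (2 * R + 1) ((S : ℤ) - 1)) + gf (P true ∪ P false) := gf_union_le _ _
    _ ≤ gf (EE (2 * R + 1) ((S : ℤ) - 1)) + (gf (P true) + gf (P false)) := by
        gcongr
        exact gf_union_le _ _
    _ ≤ gf (EE (2 * R + 1) ((S : ℤ) - 1)) + (gf (EE (2 * R + 1) 0) * gf (EE (2 * R + 1) ((S : ℤ) - 1)) +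
        gf (EE (2 * R + 1) 0) * gf (EE (2 * R + 1) ((S : ℤ) - 1))) := by
        have h1 := hb true
        have h2 := hb false
        gcongr
    _ = _ := by
        rw [← two_mul]

/-- the sum over disjoint sets of words -/
theorem tsum_gf_le {ι : Type*} (F : ι → Set (List Bool)) (h : ∀ i j t, t ∈ F i → t ∈ F j → i = j)
    {P : Set (List Bool)} (hP : ∀ i, F i ⊆ P) : ∑' i, gf (F i) ≤ gf P := by
  have e : ∀ Q : Set (List Bool), gf Q = ∑' t : List Bool, Q.indicator wE t := by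
    intro Q
    rw [← _root_.tsum_subtype]
    rfl
  rw [tsum_congr fun i => e (F i), ENNReal.tsum_comm, e P]
  refine ENNReal.tsum_le_tsum fun t => ?_
  by_cases ht : ∃ i, t ∈ F i
  · obtain ⟨i, hi⟩ := ht
    rw [tsum_eq_single i, Set.indicator_of_mem hi, Set.indicator_of_mem (hP i hi)]
    intro j hj
    exact Set.indicator_of_notMem (fun h' => hj (h j i t h' hi)) _
  · push Not at ht
    rw [ENNReal.tsum_eq_zero.2 fun i => Set.indicator_of_notMem (ht i) _]
    exact zero_le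

/-! ### The numerical part -/

section Num

/-- one scale -/
theorem far_pow
    (hlat : ∀ Q : ℝ, 0 < Q → ∃ K : ℕ, ∀ L m : ℕ, K * (L + 1) * (m + 1) ≤ 2 ^ L →
      gf {t | t ∈ SA ∧ Ext m t ∧ t ∉ WL L} ≤ ENNReal.ofReal ((2 : ℝ) ^ (-(Q * L))))
    (hlen : ∀ (L : ℕ) (t : List Bool), t ∈ WL L → t.length ≤ 100 * 4 ^ L)
    (hpoly : ∃ C : ℝ, 0 < C ∧ ∀ Λ : ℕ, 1 ≤ Λ → gf (SAL Λ) ≤ ENNReal.ofReal ((Λ : ℝ) ^ C * C))
    {Q : ℝ} (hQ : 0 < Q) : ∃ K0 : ℕ, ∃ C : ℝ, 0 < C ∧
      (∀ L R : ℕ, K0 * (L + 1) * (R + 1) ≤ 2 ^ L → gf (EE (2 * R + 1) 0) ≠ ∞) ∧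
      ∀ L R S : ℕ, K0 * (L + 1) * (R + 1) ≤ 2 ^ L → 2 ^ L + 1 < S →
      gf (FarW R S) ≤ ENNReal.ofReal (C * ((2 : ℝ) ^ L) ^ (-Q)) := by
  obtain ⟨C', hC', hp⟩ := hpoly
  obtain ⟨K, hK⟩ := hlat (Q + 2 * C') (by positivity)
  obtain ⟨A, hA⟩ : ∃ A : ℝ, A = (100 : ℝ) ^ C' * C' := ⟨_, rfl⟩
  have hA0 : 0 < A := by rw [hA]; positivity
  have hz : ∀ L : ℕ, (2 : ℝ) ^ (-((Q + 2 * C') * L)) = ((2 : ℝ) ^ L) ^ (-(Q + 2 * C')) := by
    intro L
    rw [← Real.rpow_natCast, ← Real.rpow_mul (by norm_num)]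
    congr 1
    ring
  have hG : ∀ L R : ℕ, 2 * K * (L + 1) * (R + 1) ≤ 2 ^ L →
      gf (EE (2 * R + 1) 0) ≤ ENNReal.ofReal (A * ((2 : ℝ) ^ L) ^ (2 * C') + 1) := by
    intro L R hm
    have hKm : K * (L + 1) * ((2 * R + 1) + 1) ≤ 2 ^ L := by
      refine le_trans (le_of_eq ?_) hm
      ring
    have h1 := hK L (2 * R + 1) hKm
    have hZ1 : (1 : ℝ) ≤ (2 : ℝ) ^ L := one_le_pow₀ (by norm_num)
    have hsub : EE (2 * R + 1) 0 ⊆ SAL (100 * 4 ^ L) ∪ {t | t ∈ SA ∧ Ext (2 * R + 1) t ∧ t ∉ WL L} := by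
      rintro t ⟨h2, h3, -⟩
      by_cases h4 : t ∈ WL L
      · exact Or.inl ⟨h2, hlen L t h4⟩
      · exact Or.inr ⟨h2, h3, h4⟩
    have h5 := hp (100 * 4 ^ L) (by have : 1 ≤ 4 ^ L := Nat.one_le_pow _ _ (by norm_num); omega)
    have h6 : ((100 * 4 ^ L : ℕ) : ℝ) ^ C' * C' = A * ((2 : ℝ) ^ L) ^ (2 * C') := by
      have e1 : ((100 * 4 ^ L : ℕ) : ℝ) = 100 * ((2 : ℝ) ^ L * (2 : ℝ) ^ L) := by
        push_cast
        rw [← mul_pow]
        norm_num
      rw [e1, Real.mul_rpow (by norm_num) (by positivity), Real.mul_rpow (by positivity) (by positivity),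
        ← Real.rpow_add (by positivity), hA]
      have : C' + C' = 2 * C' := by ring
      rw [this]
      ring
    rw [h6] at h5
    have h7 : ((2 : ℝ) ^ (-((Q + 2 * C') * L))) ≤ 1 := by
      rw [hz]
      exact Real.rpow_le_one_of_one_le_of_nonpos hZ1 (by linarith)
    calc gf (EE (2 * R + 1) 0) ≤ gf (SAL (100 * 4 ^ L) ∪ {t | t ∈ SA ∧ Ext (2 * R + 1) t ∧ t ∉ WL L}) := gf_mono hsub
      _ ≤ gf (SAL (100 * 4 ^ L)) + gf {t | t ∈ SA ∧ Ext (2 * R + 1) t ∧ t ∉ WL L} := gf_union_le _ _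
      _ ≤ ENNReal.ofReal (A * ((2 : ℝ) ^ L) ^ (2 * C')) + ENNReal.ofReal 1 := by
          gcongr
          exact h1.trans (ENNReal.ofReal_le_ofReal h7)
      _ = _ := (ENNReal.ofReal_add (by positivity) (by norm_num)).symm
  refine ⟨2 * K, 3 + 2 * A, by positivity, fun L R hm => ne_top_of_le_ne_top ENNReal.ofReal_ne_top (hG L R hm),
    fun L R S hm hS => ?_⟩
  have hKm : K * (L + 1) * ((2 * R + 1) + 1) ≤ 2 ^ L := by
    refine le_trans (le_of_eq ?_) hm
    ring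
  have h1 := hK L (2 * R + 1) hKm
  rw [hz] at h1
  obtain ⟨Z, hZ⟩ : ∃ Z : ℝ, Z = (2 : ℝ) ^ L := ⟨_, rfl⟩
  have hZ1 : 1 ≤ Z := by rw [hZ]; exact one_le_pow₀ (by norm_num)
  have h2 := hG L R hm
  rw [← hZ] at h1 h2 ⊢
  have hE : gf (EE (2 * R + 1) ((S : ℤ) - 1)) ≤ ENNReal.ofReal (Z ^ (-(Q + 2 * C'))) := by
    refine (gf_mono ?_).trans h1
    rintro t ⟨h3, h4, h5⟩
    refine ⟨h3, h4, fun h6 => ?_⟩
    have h7 := h6.2 t.length le_rfl true
    have h8 : (2 : ℤ) ^ L + 1 < S := by exact_mod_cast hS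
    linarith
  obtain ⟨z, hzz⟩ : ∃ z : ℝ, z = Z ^ (-(Q + 2 * C')) := ⟨_, rfl⟩
  have hz0 : 0 < z := by rw [hzz]; positivity
  have hz1 : z * Z ^ (2 * C') = Z ^ (-Q) := by
    rw [hzz, ← Real.rpow_add (by linarith)]
    congr 1
    ring
  have hz2 : z ≤ Z ^ (-Q) := by
    rw [hzz]
    exact Real.rpow_le_rpow_of_exponent_le hZ1 (by linarith)
  rw [← hzz] at hE
  calc gf (FarW R S) ≤ gf (EE (2 * R + 1) ((S : ℤ) - 1)) +
        2 * (gf (EE (2 * R + 1) 0) * gf (EE (2 * R + 1) ((S : ℤ) - 1))) := gf_FarW R S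
    _ ≤ ENNReal.ofReal z + ENNReal.ofReal 2 * (ENNReal.ofReal (A * Z ^ (2 * C') + 1) * ENNReal.ofReal z) := by
        have e2 : (2 : ℝ≥0∞) = ENNReal.ofReal 2 := by norm_num
        rw [e2]
        gcongr
    _ = ENNReal.ofReal (z + 2 * ((A * Z ^ (2 * C') + 1) * z)) := by
        rw [← ENNReal.ofReal_mul (by positivity), ← ENNReal.ofReal_mul (by norm_num),
          ← ENNReal.ofReal_add hz0.le (by positivity)]
    _ ≤ _ := by
        apply ENNReal.ofReal_le_ofReal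
        have e3 : (A * Z ^ (2 * C') + 1) * z = A * (z * Z ^ (2 * C')) + z := by ring
        rw [e3, hz1]
        nlinarith

lemma exists_L (c : ℕ) : ∃ L : ℕ, c * (L + 1) ≤ 2 ^ L := by
  refine ⟨2 * c + 2, ?_⟩
  have h1 : c + 1 ≤ 2 ^ c := Nat.lt_two_pow_self
  have h2 : 2 ^ (2 * c + 2) = 4 * (2 ^ c * 2 ^ c) := by
    rw [pow_add, two_mul, pow_add]
    ring
  have h3 : (c + 1) * (c + 1) ≤ 2 ^ c * 2 ^ c := Nat.mul_le_mul h1 h1
  rw [h2]
  nlinarith

/-- finitely many sizes -/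
lemma far_fin {K0 : ℕ} (h : ∀ L R : ℕ, K0 * (L + 1) * (R + 1) ≤ 2 ^ L → gf (EE (2 * R + 1) 0) ≠ ∞) (R0 : ℕ) :
    ∃ C : ℝ, 0 ≤ C ∧ ∀ R S : ℕ, R ≤ R0 → gf (FarW R S) ≤ ENNReal.ofReal C := by
  obtain ⟨L, hL⟩ := exists_L (K0 * (R0 + 1))
  have hG := h L R0 (by
    refine le_trans (le_of_eq ?_) hL
    ring)
  obtain ⟨g, hg⟩ : ∃ g : ℝ, g = (gf (EE (2 * R0 + 1) 0)).toReal := ⟨_, rfl⟩
  have hg0 : 0 ≤ g := by rw [hg]; exact ENNReal.toReal_nonneg
  have hG' : gf (EE (2 * R0 + 1) 0) = ENNReal.ofReal g := by rw [hg, ENNReal.ofReal_toReal hG]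
  refine ⟨g + 2 * (g * g), by positivity, fun R S hR => ?_⟩
  have hE : gf (EE (2 * R0 + 1) ((S : ℤ) - 1)) ≤ ENNReal.ofReal g := by
    rw [← hG']
    exact gf_mono (EE_zero _ _)
  calc gf (FarW R S) ≤ gf (FarW R0 S) := gf_mono (FarW_mono hR S)
    _ ≤ gf (EE (2 * R0 + 1) ((S : ℤ) - 1)) +
        2 * (gf (EE (2 * R0 + 1) 0) * gf (EE (2 * R0 + 1) ((S : ℤ) - 1))) := gf_FarW R0 S
    _ ≤ ENNReal.ofReal g + ENNReal.ofReal 2 * (ENNReal.ofReal g * ENNReal.ofReal g) := by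
        have e2 : (2 : ℝ≥0∞) = ENNReal.ofReal 2 := by norm_num
        rw [e2, hG']
        gcongr
    _ = _ := by
        rw [← ENNReal.ofReal_mul hg0, ← ENNReal.ofReal_mul (by norm_num),
          ← ENNReal.ofReal_add hg0 (by positivity)]

lemma num_log {c : ℝ} (hc : 0 < c) : ∃ S0 : ℕ, ∀ R S : ℕ, 2 ≤ R → S0 ≤ S → (R : ℝ) * (Real.log R) ^ 3 ≤ S →
    (R : ℝ) * Real.log S ≤ c * S := by
  have h1 : ∀ᶠ x : ℝ in Filter.atTop, ‖Real.log x‖ ≤ c * ‖x ^ (1 / 2 : ℝ)‖ :=
    (isLittleO_log_rpow_atTop (by norm_num : (0 : ℝ) < 1 / 2)).def hc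
  have h2 : ∀ᶠ x : ℝ in Filter.atTop, 8 / c + 1 ≤ Real.log x := Real.tendsto_log_atTop.eventually_ge_atTop _
  obtain ⟨X, hX⟩ := Filter.eventually_atTop.1 (h1.and h2)
  obtain ⟨S0, hS0⟩ := exists_nat_ge (max X 1)
  refine ⟨S0, fun R S hR hS h => ?_⟩
  have hSS : (S0 : ℝ) ≤ S := by exact_mod_cast hS
  have hS1 : (1 : ℝ) ≤ S := (le_max_right _ _).trans (hS0.trans hSS)
  obtain ⟨h3, h4⟩ := hX S ((le_max_left _ _).trans (hS0.trans hSS))
  have h8c : 0 < 8 / c := by positivity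
  have hl : 1 ≤ Real.log S := by linarith
  have hR2 : (2 : ℝ) ≤ R := by exact_mod_cast hR
  obtain ⟨u, hu⟩ : ∃ u : ℝ, u = (S : ℝ) ^ (1 / 2 : ℝ) := ⟨_, rfl⟩
  have hu0 : 0 < u := by rw [hu]; positivity
  have huu : u * u = S := by
    rw [hu, ← Real.rpow_add (by linarith)]
    norm_num
  rw [← hu, Real.norm_of_nonneg (by linarith), Real.norm_of_nonneg hu0.le] at h3
  rcases le_or_gt (R : ℝ) u with hc1 | hc1
  · calc (R : ℝ) * Real.log S ≤ u * (c * u) := mul_le_mul hc1 h3 (by linarith) hu0.le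
      _ = c * (u * u) := by ring
      _ = _ := by rw [huu]
  · have h5 : Real.log S ≤ 2 * Real.log R := by
      have e1 : Real.log ((R : ℝ) ^ 2) = 2 * Real.log R := by
        rw [Real.log_pow]
        norm_num
      rw [← e1]
      apply Real.log_le_log (by linarith)
      nlinarith
    have h6 : (Real.log S / 2) ^ 3 ≤ (Real.log R) ^ 3 := pow_le_pow_left₀ (by linarith) (by linarith) 3
    have h7 : (R : ℝ) * (Real.log S / 2) ^ 3 ≤ S := le_trans (mul_le_mul_of_nonneg_left h6 (by linarith)) h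
    have h9 : 8 / c ≤ (Real.log S) ^ 2 := by nlinarith
    have h10 : 8 ≤ c * (Real.log S) ^ 2 := by
      rw [div_le_iff₀ hc] at h9
      linarith
    have h11 : (R : ℝ) * Real.log S * 8 ≤ (R : ℝ) * Real.log S * (c * (Real.log S) ^ 2) :=
      mul_le_mul_of_nonneg_left h10 (by positivity)
    have h12 : (R : ℝ) * Real.log S * (c * (Real.log S) ^ 2) = 8 * c * ((R : ℝ) * (Real.log S / 2) ^ 3) := by ring
    have h13 : 8 * c * ((R : ℝ) * (Real.log S / 2) ^ 3) ≤ 8 * c * S := mul_le_mul_of_nonneg_left h7 (by positivity)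
    linarith

/-- **the tail of the words of a strip**, under the lateral bound of the self-avoiding words -/
theorem far_tail
    (hlat : ∀ Q : ℝ, 0 < Q → ∃ K : ℕ, ∀ L m : ℕ, K * (L + 1) * (m + 1) ≤ 2 ^ L →
      gf {t | t ∈ SA ∧ Ext m t ∧ t ∉ WL L} ≤ ENNReal.ofReal ((2 : ℝ) ^ (-(Q * L))))
    (hlen : ∀ (L : ℕ) (t : List Bool), t ∈ WL L → t.length ≤ 100 * 4 ^ L)
    (hpoly : ∃ C : ℝ, 0 < C ∧ ∀ Λ : ℕ, 1 ≤ Λ → gf (SAL Λ) ≤ ENNReal.ofReal ((Λ : ℝ) ^ C * C))
    {Q : ℝ} (hQ : 0 < Q) : ∃ C : ℝ, 0 < C ∧ ∀ R S : ℕ, 2 ≤ R → (R : ℝ) * (Real.log R) ^ 3 ≤ S →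
      gf (FarW R S) ≤ ENNReal.ofReal (C * (S : ℝ) ^ (-Q)) := by
  obtain ⟨K0, C1, hC1, hfin, hpow⟩ := far_pow hlat hlen hpoly hQ
  have hl2 : 0 < Real.log 2 := Real.log_pos (by norm_num)
  obtain ⟨S1, hS1⟩ := num_log (c := Real.log 2 / (8 * (K0 + 1))) (by positivity)
  obtain ⟨S0, hS0⟩ : ∃ S0 : ℕ, S0 = S1 + 4 := ⟨_, rfl⟩
  obtain ⟨C2, hC2, hf⟩ := far_fin hfin (S0 + 2)
  refine ⟨C1 * (4 : ℝ) ^ Q + C2 * (S0 : ℝ) ^ Q + 1, by positivity, fun R S hR h => ?_⟩
  have hR2 : (2 : ℝ) ≤ R := by exact_mod_cast hR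
  have hlR : 0 < Real.log R := Real.log_pos (by linarith)
  have hSp : (0 : ℝ) < S := lt_of_lt_of_le (by positivity) h
  have hSn : 1 ≤ S := by
    have : 0 < S := by exact_mod_cast hSp
    omega
  have hSQ : 0 < (S : ℝ) ^ (-Q) := by positivity
  have h4Q : 0 < (4 : ℝ) ^ Q := by positivity
  have hS0Q : 0 < (S0 : ℝ) ^ Q := by
    have : (0 : ℝ) < S0 := by
      rw [hS0]
      positivity
    positivity
  rcases Nat.lt_or_ge S S0 with hc | hc
  · -- small S
    have hRR : R ≤ S0 + 2 := by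
      by_contra hcon
      have h3 : 3 ≤ R := by omega
      have h3' : (3 : ℝ) ≤ R := by exact_mod_cast h3
      have h4 : 1 ≤ Real.log R := by
        rw [Real.le_log_iff_exp_le (by linarith)]
        have := Real.exp_one_lt_d9
        linarith
      have h5 : (R : ℝ) ≤ R * (Real.log R) ^ 3 := by
        have : (1 : ℝ) ≤ (Real.log R) ^ 3 := one_le_pow₀ h4
        nlinarith
      have h6 : (R : ℝ) ≤ S := h5.trans h
      have h7 : R ≤ S := by exact_mod_cast h6
      omega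
    refine (hf R S hRR).trans (ENNReal.ofReal_le_ofReal ?_)
    have h8 : 1 ≤ (S0 : ℝ) ^ Q * (S : ℝ) ^ (-Q) := by
      rw [Real.rpow_neg hSp.le, ← div_eq_mul_inv, ← Real.div_rpow (by positivity) hSp.le]
      apply Real.one_le_rpow _ hQ.le
      rw [le_div_iff₀ hSp, one_mul]
      exact_mod_cast hc.le
    have h9 : C2 ≤ C2 * ((S0 : ℝ) ^ Q * (S : ℝ) ^ (-Q)) := le_mul_of_one_le_right hC2 h8
    have h10 : 0 ≤ C1 * (4 : ℝ) ^ Q * (S : ℝ) ^ (-Q) := by positivity
    nlinarith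
  · -- large S
    have hS1' := hS1 R S hR (by omega) h
    obtain ⟨n, hn⟩ : ∃ n : ℕ, n = Nat.log 2 S := ⟨_, rfl⟩
    have hn2 : 2 ≤ n := by
      rw [hn]
      exact (Nat.le_log_iff_pow_le (by norm_num) (by omega)).2 (by omega)
    have hp1 : 2 ^ n ≤ S := by
      rw [hn]
      exact Nat.pow_log_le_self 2 (by omega)
    have hp2 : S < 2 ^ (n + 1) := by
      rw [hn]
      exact Nat.lt_pow_succ_log_self (by norm_num) S
    obtain ⟨L, rfl⟩ : ∃ L, n = L + 1 := ⟨n - 1, by omega⟩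
    have e1 : 2 ^ (L + 1) = 2 * 2 ^ L := by ring
    have e2 : 2 ^ (L + 1 + 1) = 4 * 2 ^ L := by ring
    have e3 : 2 ≤ 2 ^ L := by
      calc 2 = 2 ^ 1 := by norm_num
        _ ≤ 2 ^ L := Nat.pow_le_pow_right (by norm_num) (by omega)
    have hSL : (S : ℝ) < 4 * (2 : ℝ) ^ L := by
      rw [e2] at hp2
      exact_mod_cast hp2
    have hlog : ((L : ℝ) + 1) * Real.log 2 ≤ Real.log S := by
      have h5 : Real.log ((2 : ℝ) ^ (L + 1)) = ((L : ℝ) + 1) * Real.log 2 := by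
        rw [Real.log_pow]
        push_cast
        ring
      rw [← h5]
      apply Real.log_le_log (by positivity)
      exact_mod_cast hp1
    have hcond : K0 * (L + 1) * (R + 1) ≤ 2 ^ L := by
      have h6 : (K0 : ℝ) * ((L : ℝ) + 1) * ((R : ℝ) + 1) ≤ (2 : ℝ) ^ L := by
        have h7 : (K0 : ℝ) * ((L : ℝ) + 1) * ((R : ℝ) + 1) ≤ ((K0 : ℝ) + 1) * ((L : ℝ) + 1) * (2 * (R : ℝ)) := by
          gcongr <;> linarith
        have h8 : ((K0 : ℝ) + 1) * ((L : ℝ) + 1) * (2 * (R : ℝ)) * Real.log 2 ≤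
            2 * ((K0 : ℝ) + 1) * (R * Real.log S) := by
          have h9 : ((K0 : ℝ) + 1) * ((L : ℝ) + 1) * (2 * (R : ℝ)) * Real.log 2 =
              2 * ((K0 : ℝ) + 1) * (R * (((L : ℝ) + 1) * Real.log 2)) := by ring
          rw [h9]
          gcongr
        have h10 : 2 * ((K0 : ℝ) + 1) * (R * Real.log S) ≤
            2 * ((K0 : ℝ) + 1) * (Real.log 2 / (8 * (K0 + 1)) * S) := by gcongr
        have h11 : 2 * ((K0 : ℝ) + 1) * (Real.log 2 / (8 * (K0 + 1)) * S) = S / 4 * Real.log 2 := by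
          field_simp
          ring
        have h12 : ((K0 : ℝ) + 1) * ((L : ℝ) + 1) * (2 * (R : ℝ)) * Real.log 2 ≤ S / 4 * Real.log 2 := by
          rw [← h11]
          exact h8.trans h10
        have h13 := le_of_mul_le_mul_right h12 hl2
        linarith
      exact_mod_cast h6
    refine (hpow L R S hcond (by omega)).trans (ENNReal.ofReal_le_ofReal ?_)
    have h14 : ((2 : ℝ) ^ L) ^ (-Q) ≤ (4 : ℝ) ^ Q * (S : ℝ) ^ (-Q) := by
      have h15 : ((2 : ℝ) ^ L) ^ (-Q) ≤ ((S : ℝ) / 4) ^ (-Q) :=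
        Real.rpow_le_rpow_of_nonpos (by positivity) (by linarith) (by linarith)
      refine h15.trans (le_of_eq ?_)
      rw [Real.div_rpow hSp.le (by norm_num), Real.rpow_neg (by norm_num : (0 : ℝ) ≤ 4), div_inv_eq_mul, mul_comm]
    have h16 : C1 * ((2 : ℝ) ^ L) ^ (-Q) ≤ C1 * ((4 : ℝ) ^ Q * (S : ℝ) ^ (-Q)) := by gcongr
    have h17 : 0 ≤ C2 * (S0 : ℝ) ^ Q * (S : ℝ) ^ (-Q) := by positivity
    nlinarith

end Num

end Tail

end Pool.Agent.GLD
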