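import Pool.Agent.BAR.LatA
import Pool.Agent.W47.K4
import Pool.Agent.HexStep.Two

/-!
GLd, A7, first part: the arcs of the strip of height `T` with displacement at least `j` have total
weight at most `C q ^ (j / T)`.
-/

set_option autoImplicit false

namespace HexObs

namespace GLd

open Complex Finset ENNReal LP BAR

/-- arcs of the strip with displacement at least j -/
def AF (T j : ℕ) : Set (List Bool) := {t | ∃ k : ℕ, j ≤ k ∧ t ∈ Arc (St T) ∅ oo up (foot oo up k)}

lemma foot_eq (k : ℤ) : foot oo up k = (2 * k, -k) := by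
  have h : hz up = (2, -1) := by decide
  unfold foot
  rw [h]
  show ((0 : ℤ), (0 : ℤ)) + (k * 2, k * (-1)) = _
  ext <;> simp <;> ring

lemma foot_inj {a b : ℤ} (h : foot oo up a = foot oo up b) : a = b := by
  rw [foot_eq, foot_eq] at h
  have := (Prod.mk.injEq _ _ _ _ ▸ h : _ ∧ _).1
  omega

/-- the tail as one set of words -/
lemma tail_eq_gf (T j : ℕ) : tail T j = gf (AF T j) := by
  have e1 : gf (AF T j) = ∑' t : List Bool, (AF T j).indicator wE t := by
    rw [← _root_.tsum_subtype]
    rfl
  have e2 : ∀ k : ℕ, GG T (j + k) =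
      ∑' t : List Bool, (Arc (St T) ∅ oo up (foot oo up ((j + k : ℕ) : ℤ))).indicator wE t := by
    intro k
    rw [← _root_.tsum_subtype]
    rfl
  unfold tail
  rw [e1, tsum_congr e2, ENNReal.tsum_comm]
  refine tsum_congr fun t => ?_
  by_cases ht : t ∈ AF T j
  · obtain ⟨k, hk, hk'⟩ := ht
    have hm : t ∈ AF T j := ⟨k, hk, hk'⟩
    rw [Set.indicator_of_mem hm, tsum_eq_single (k - j)]
    · rw [show j + (k - j) = k by omega, Set.indicator_of_mem hk']
    · intro l hl
      apply Set.indicator_of_notMem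
      intro h
      apply hl
      have h1 := foot_inj (h.2.symm.trans hk'.2)
      omega
  · rw [Set.indicator_of_notMem ht, ENNReal.tsum_eq_zero]
    intro k
    apply Set.indicator_of_notMem
    intro h
    exact ht ⟨j + k, by omega, h⟩

lemma nn_le (t : List Bool) : ∀ i : ℕ, |LP.nn (vx oo up t i)| ≤ 2 * i := by
  intro i
  induction i with
  | zero =>
      have h0 : LP.nn (vx oo up t 0) = 0 := by
        show LP.nn oo = 0
        decide
      rw [h0]
      simp
  | succ i ih =>
      have h1 := nn_step t i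
      rw [abs_le] at ih h1 ⊢
      push_cast
      constructor <;> omega

/-- an arc is an exit of a long parallelogram -/
lemma arc_exits {T j : ℕ} (hj : 1 ≤ j) {t : List Bool} (ht : t ∈ AF T j) {A : ℕ} (hA : t.length + 1 ≤ A) :
    t ∈ exits (Par T A A) oo up ∧ CMP.Far j t := by
  obtain ⟨k, hk, ⟨hS, hout, hd⟩, htip⟩ := ht
  have hmem : ∀ i, 1 ≤ i → i ≤ t.length → vx oo up t i ∈ Par T A A := by
    intro i h1 h2
    have h3 := (hS.mem i h1 h2).1
    rw [mem_St] at h3
    have h4 : lev t i = (vx oo up t i).1 + 2 * (vx oo up t i).2 := by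
      unfold lev
      simp only [ip, up]
      ring
    rw [h4] at h3
    have h5 : cl (vx oo up t i) = 0 ∨ cl (vx oo up t i) = 2 := by
      have := vx_hex oo up t i
      have e : IsHex oo up (vx oo up t i) ↔ (cl (vx oo up t i) = 0 ∨ cl (vx oo up t i) = 2) := by
        have e0 : cl oo = 0 := by decide
        have e2 : cl oo + cl up = 2 := by decide
        unfold IsHex
        rw [e2, e0]
      exact e.1 this
    have h6 := nn_le t i
    unfold LP.nn at h6
    rw [abs_le] at h6
    have h7 : (i : ℤ) ≤ t.length := by exact_mod_cast h2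
    have h8 : (t.length : ℤ) + 1 ≤ A := by exact_mod_cast hA
    rw [arcA_par]
    exact ⟨h5, h3.1, h3.2, by omega, by omega⟩
  have htip' : tip oo up t ∉ Par T A A := by
    rw [htip, foot_eq, arcA_par]
    rintro ⟨_, h, _⟩
    simp only at h
    omega
  have hn : t.length ≠ 0 := by
    intro h0
    have h1 : t = [] := List.length_eq_zero_iff.1 h0
    subst h1
    have h2 : tip oo up [] = up := by
      show vx oo up [] 1 = up
      decide
    rw [h2, foot_eq] at htip
    have := congrArg Prod.fst htip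
    have h3 := congrArg Prod.snd htip
    simp only [up] at this h3
    omega
  refine ⟨mem_exits.2 ⟨⟨hmem, hS.inj⟩, htip'⟩, t.length, by omega, le_rfl, Or.inl ?_⟩
  have h1 : vx oo up t (t.length + 1) = vx oo up t t.length + dx up t t.length := vx_succ ..
  have h2 : vx oo up t (t.length + 1) = foot oo up k := htip
  rw [h2, hd, foot_eq] at h1
  have h3 := congrArg LP.nn h1
  rw [LP.nn_add] at h3
  have h4 : LP.nn (-up) = 1 := by decide
  have h5 : LP.nn ((2 * (k : ℤ), -(k : ℤ)) : Pt) = 3 * k := by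
    unfold LP.nn
    simp only
    ring
  rw [h4, h5] at h3
  have h6 : (j : ℤ) ≤ k := by exact_mod_cast hk
  omega

/-- **exponential decay of the tail** -/
theorem tail_exp : ∃ C q : ℝ, 0 < C ∧ 0 < q ∧ q < 1 ∧ ∀ T j : ℕ, 1 ≤ T → 1 ≤ j →
    tail T j ≤ ENNReal.ofReal (C * q ^ (j / T)) := by
  classical
  obtain ⟨C, q, hC, hq, hq1, h⟩ := CMP.lat_tail
  have hc := cos_three_pos
  refine ⟨C / Real.cos (3 * Real.pi / 8), q, by positivity, hq, hq1, fun T j hT hj => ?_⟩
  rw [tail_eq_gf]
  unfold gf
  rw [ENNReal.tsum_eq_iSup_sum]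
  refine iSup_le fun s => ?_
  -- a common size
  obtain ⟨A, hA⟩ : ∃ A : ℕ, ∀ t ∈ s, t.1.length + 1 ≤ A :=
    ⟨s.sup (fun t => t.1.length + 1), fun t ht => Finset.le_sup (f := fun t : AF T j => t.1.length + 1) ht⟩
  have h1 := h T (A + 1) (A + 1) j hT (by omega) (by omega) hj
  have h2 : s.image (fun t => t.1) ⊆ (exits (Par T (A + 1) (A + 1)) oo up).filter (CMP.Far j) := by
    intro t ht
    obtain ⟨t', ht', rfl⟩ := Finset.mem_image.1 ht
    have h3 := arc_exits hj t'.2 (A := A + 1) (by have := hA t' ht'; omega)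
    exact Finset.mem_filter.2 h3
  have h3 : ∑ a ∈ s, wE a.1 = ENNReal.ofReal (∑ t ∈ s.image (fun t => t.1), xc ^ t.length) := by
    rw [ENNReal.ofReal_sum_of_nonneg (fun t _ => pow_nonneg xc_pos.le _),
      Finset.sum_image (fun a _ b _ hab => Subtype.ext hab)]
    rfl
  rw [h3]
  apply ENNReal.ofReal_le_ofReal
  rw [div_mul_eq_mul_div, le_div_iff₀ hc, Finset.sum_mul]
  refine le_trans (Finset.sum_le_sum (f := fun t : List Bool => xc ^ t.length * Real.cos (3 * Real.pi / 8))
    (g := fun t => cw t) fun t ht => ?_) (le_trans ?_ h1)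
  · rw [mul_comm]
    exact cw_ge (Tube.dm_wind upd true hT (by omega) (by omega) (Finset.mem_filter.1 (h2 ht)).1)
  · refine Finset.sum_le_sum_of_subset_of_nonneg h2 fun t ht _ => ?_
    have h4 := cw_ge (Tube.dm_wind upd true hT (by omega) (by omega) (Finset.mem_filter.1 ht).1)
    have h5 : 0 ≤ Real.cos (3 * Real.pi / 8) * xc ^ t.length := mul_nonneg hc.le (pow_nonneg xc_pos.le _)
    linarith

end GLd

end HexObs
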