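import Pool.Agent.GLD.Sh

/-!
# The masses do not depend on the foot (GLd)

Translations by `k` rings and `i` rows.
-/

set_option autoImplicit false

namespace Pool.Agent.GLD

open Pool.Agent.NUF.Cyl HexObs HexObs.LP

variable {N : ℕ} {hN : 1 ≤ N}

/-- the translation by `k` rings and `i` rows. -/
def sK (k i : ℤ) : Pt := (2 * k + i, -k + i)

theorem cl_sK (k i : ℤ) : cl (sK k i) = 0 := by
  unfold cl sK
  have : ((2 * k + i - (-k + i) : ℤ) : ZMod 3) = ((3 * k : ℤ) : ZMod 3) := by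
    congr 1
    ring
  simp only [this]
  rw [Int.cast_mul]
  have : ((3 : ℤ) : ZMod 3) = 0 := by decide
  rw [this, zero_mul]

theorem neg_sK (k i : ℤ) : -sK k i = sK (-k) (-i) := by
  unfold sK
  ext
  · simp only [Prod.fst_neg]
    ring
  · simp only [Prod.snd_neg]
    ring

theorem A_sK (k i j r : ℤ) : _root_.EXL.A j r + sK k i = _root_.EXL.A (j + k) (r + i) := by
  unfold _root_.EXL.A sK
  ext
  · simp only [Prod.fst_add]
    ring
  · simp only [Prod.snd_add]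
    ring

theorem B_sK (k i j r : ℤ) : _root_.EXL.B j r + sK k i = _root_.EXL.B (j + k) (r + i) := by
  unfold _root_.EXL.B sK
  ext
  · simp only [Prod.fst_add]
    ring
  · simp only [Prod.snd_add]
    ring

theorem nm_A_mod (hN : 1 ≤ N) (k i : ℤ) : (Cy N hN).nm (_root_.EXL.A k i) = _root_.EXL.A k (i % N) := by
  rw [nm_eq, nmN, ri_A]
  simp only [tr, _root_.EXL.A, Prod.mk.injEq]
  have := Int.emod_add_mul_ediv i N
  constructor <;> linarith

theorem nm_B_mod (hN : 1 ≤ N) (k i : ℤ) : (Cy N hN).nm (_root_.EXL.B k i) = _root_.EXL.B k (i % N) := by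
  rw [nm_eq, nmN, ri_B]
  simp only [tr, _root_.EXL.B, Prod.mk.injEq]
  have := Int.emod_add_mul_ediv i N
  constructor <;> linarith

theorem Tv_sK_mem {a b : ℤ} (k i : ℤ) {v : Pt} (hv : v ∈ rg N a b) :
    Tv (Cy N hN) (sK k i) v ∈ rg N (a + k) (b + k) := by
  have hN0 : (0 : ℤ) < N := by exact_mod_cast hN
  obtain ⟨j, r, h1, h2, rfl | rfl⟩ := mem_rg.1 hv
  · unfold Tv
    rw [A_sK, nm_A_mod]
    exact mem_rg.2 ⟨j + k, (r + i) % N, by omega, ⟨Int.emod_nonneg _ hN0.ne', Int.emod_lt_of_pos _ hN0⟩, Or.inl rfl⟩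
  · unfold Tv
    rw [B_sK, nm_B_mod]
    exact mem_rg.2 ⟨j + k, (r + i) % N, by omega, ⟨Int.emod_nonneg _ hN0.ne', Int.emod_lt_of_pos _ hN0⟩, Or.inr rfl⟩

theorem rg_sK (a b k i : ℤ) : (rg N a b).image (Tv (Cy N hN) (sK k i)) = rg N (a + k) (b + k) := by
  ext v
  rw [Finset.mem_image]
  constructor
  · rintro ⟨w, hw, rfl⟩
    exact Tv_sK_mem k i hw
  · intro hv
    refine ⟨Tv (Cy N hN) (-sK k i) v, ?_, ?_⟩
    · rw [neg_sK]
      have := Tv_sK_mem (hN := hN) (-k) (-i) hv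
      rwa [← sub_eq_add_neg, ← sub_eq_add_neg, add_sub_cancel_right, add_sub_cancel_right] at this
    · rw [Tv_neg', rg_nm hv]

theorem ft_sK (k i a r : ℤ) : Tq (Cy N hN) (sK k i) (ft a r) = ((Cy N hN).nm (_root_.EXL.B (a + k - 1) (r + i)), ax) := by
  unfold Tq Tv ft
  simp only
  rw [B_sK]
  congr 3
  ring

/-- **the exits do not depend on the foot.** -/
theorem exC_ft (a b k : ℤ) {i : ℤ} (h1 : 0 ≤ i) (h2 : i < N) :
    exC (Cy N hN) (rg N (a + k) (b + k)) (ft (a + k) i) = exC (Cy N hN) (rg N a b) (ft a 0) := by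
  rw [← exC_Tq (C := Cy N hN) (s := sK k i) (A := rg N a b) (fun v hv => rg_nm hv) (ft a 0), rg_sK, ft_sK, zero_add,
    nm_B hN _ h1 h2]
  rfl

theorem arr_ft (a b k : ℤ) {i : ℤ} (h1 : 0 ≤ i) (h2 : i < N) :
    (Cy N hN).arr (rg N (a + k) (b + k)) (ft (a + k) i) = (Cy N hN).arr (rg N a b) (ft a 0) := by
  rw [← arr_Tq (C := Cy N hN) (s := sK k i) (A := rg N a b) (fun v hv => rg_nm hv) (ft a 0), rg_sK, ft_sK, zero_add,
    nm_B hN _ h1 h2]
  rfl

theorem exC_foot (a : ℤ) (H : ℕ) {i : ℤ} (h1 : 0 ≤ i) (h2 : i < N) :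
    exC (Cy N hN) (rg N a (a + H)) (ft a i) = exC (Cy N hN) (rg N 0 H) (ft 0 0) := by
  have := exC_ft (hN := hN) 0 (H : ℤ) a h1 h2
  rwa [zero_add, add_comm (H : ℤ) a] at this

/-- **the masses of the bridges do not depend on the foot.** -/
theorem br_tr (a : ℤ) (H : ℕ) {i : ℤ} (h1 : 0 ≤ i) (h2 : i < N) :
    ∑ t ∈ (exC (Cy N hN) (rg N a (a + H)) (ft a i)).filter (fun t => dx ax t t.length = ax), xc ^ t.length =
      brM N hN H := by
  rw [exC_foot a H h1 h2]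
  rfl

/-- **the masses of the arcs do not depend on the foot.** -/
theorem arc_tr (a : ℤ) (H : ℕ) {i : ℤ} (h1 : 0 ≤ i) (h2 : i < N) :
    ∑ t ∈ (exC (Cy N hN) (rg N a (a + H)) (ft a i)).filter (fun t => dx ax t t.length = -ax), xc ^ t.length =
      arcM N hN H := by
  rw [exC_foot a H h1 h2]
  rfl

/-- the gas of `H` rings. -/
theorem zC_foot (a : ℤ) (H : ℕ) : zC (Cy N hN) (rg N a (a + H)) = zC (Cy N hN) (rg N 0 H) := by
  have := zC_tr (N := N) (hN := hN) 0 H a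
  rwa [zero_add, add_comm (H : ℤ) a] at this

end Pool.Agent.GLD
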