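import Pool.Agent.GLD.Defs
import Pool.Agent.MXR.LoopN

/-!
# GLd, module A2: a winding closed word of the cylinder has the turning number 0

The path that follows the polygon once, resp. twice, from a lowest vertex is an arc of the half plane: its winding is
`± 3`.
-/

set_option autoImplicit false

namespace Pool.Agent.GLD

open Pool.Agent.NUF.Cyl HexObs HexObs.LP Finset

theorem lev_add (v w : Pt) : lev (v + w) = lev v + lev w := by
  simp only [lev, Prod.fst_add, Prod.snd_add]
  ring

theorem lev_sub (v w : Pt) : lev (v - w) = lev v - lev w := by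
  simp only [lev, Prod.fst_sub, Prod.snd_sub]
  ring

theorem ip_ax (v : Pt) : ip v ax = lev v := by
  simp only [ip, ax, lev]
  ring

theorem ax_mem : ax ∈ dirs := by decide

theorem vs_trans (v0 d0 D : Pt) (τ : ℕ → Bool) (i : ℕ) : vs (v0 + D) d0 τ i = vs v0 d0 τ i + D := by
  induction i with
  | zero => rfl
  | succ i ih =>
    rw [vs_succ, vs_succ, ih]
    abel

/-- the word of the first `n` turns. -/
def wl (f : ℕ → Bool) (n : ℕ) : List Bool := (List.range n).map f

theorem wl_length (f : ℕ → Bool) (n : ℕ) : (wl f n).length = n := by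
  simp [wl]

theorem tf_wl {f : ℕ → Bool} {n i : ℕ} (h : i < n) : tf (wl f n) i = f i := by
  show (wl f n).getD i true = _
  rw [List.getD_eq_getElem _ _ (by rw [wl_length]; exact h)]
  simp [wl]

theorem vx_wl {v0 d0 : Pt} {f : ℕ → Bool} {n i : ℕ} (h : i ≤ n + 1) : vx v0 d0 (wl f n) i = vs v0 d0 f i :=
  vs_congr i (fun k hk => tf_wl (by omega))

theorem dx_wl {d0 : Pt} {f : ℕ → Bool} {n i : ℕ} (h : i ≤ n) : dx d0 (wl f n) i = ds d0 f i :=
  ds_congr i (fun k hk => tf_wl (by omega))

theorem wind_wl (f : ℕ → Bool) (n : ℕ) : wind (wl f n) = ∑ i ∈ range n, sgn (f i) := by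
  rw [wind_sum, wl_length]
  apply Finset.sum_congr rfl
  intro i hi
  rw [Finset.mem_range] at hi
  rw [tf_wl hi]

/-- directions at a lowest vertex. -/
theorem low_dir : ∀ e ∈ dirs, ∀ b : Bool, lev e ≤ 0 → 0 ≤ lev (turn b e) →
    turn (!b) ax = turn b e ∧ turn (!b) e = -ax := by
  decide

/-- the arc that follows the periodic path for `n` steps. -/
theorem arc_wind {v0 d0 : Pt} {τ : ℕ → Bool} (h0 : d0 ∈ dirs) {n : ℕ} (hn : 1 ≤ n)
    (hlow : ∀ i, i ≤ n → lev v0 ≤ lev (vs v0 d0 τ i)) (hend : lev (vs v0 d0 τ n) = lev v0)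
    (hd : turn (τ (n - 1)) (ds d0 τ (n - 1)) = d0)
    (hinj : ∀ i k, i < k → k ≤ n → vs v0 d0 τ i ≠ vs v0 d0 τ k) :
    ∑ i ∈ range n, sgn (τ i) = 3 * sgn (τ (n - 1)) + 3 ∨ ∑ i ∈ range n, sgn (τ i) = 3 * sgn (τ (n - 1)) - 3 := by
  obtain ⟨m, rfl⟩ : ∃ m, n = m + 1 := ⟨n - 1, by omega⟩
  rw [Nat.add_sub_cancel] at hd ⊢
  set e := ds d0 τ m with he
  have hem : e ∈ dirs := ds_mem h0 m
  have hle : lev e ≤ 0 := by
    have h1 := hlow m (by omega)
    have h2 : vs v0 d0 τ (m + 1) = vs v0 d0 τ m + e := rfl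
    rw [h2, lev_add] at hend
    omega
  have hge : 0 ≤ lev (turn (τ m) e) := by
    rw [hd]
    have h1 := hlow 1 (by omega)
    have h2 : vs v0 d0 τ 1 = v0 + d0 := rfl
    rw [h2, lev_add] at h1
    omega
  obtain ⟨k1, k2⟩ := low_dir e hem (τ m) hle hge
  rw [hd] at k1
  set b0 := !(τ m) with hb0
  -- the turns of the arc
  set f : ℕ → Bool := fun i => if i = 0 then b0 else if i = m + 1 then b0 else τ (i - 1) with hf
  have f0 : f 0 = b0 := by simp [hf]
  have f1 : f (m + 1) = b0 := by simp [hf]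
  have f2 : ∀ i, i < m → f (1 + i) = τ i := by
    intro i hi
    simp only [hf]
    rw [if_neg (by omega), if_neg (by omega)]
    congr 1
    omega
  set s0 : Pt := v0 - ax with hs0
  have e1 : ∀ i, i ≤ m + 1 → vs s0 ax f (1 + i) = vs v0 d0 τ i := by
    intro i hi
    rw [vs_shift]
    have a1 : vs s0 ax f 1 = v0 := by
      show s0 + ax = v0
      rw [hs0]
      abel
    have a2 : ds ax f 1 = d0 := by
      show turn (f 0) ax = d0
      rw [f0, k1]
    rw [a1, a2]
    exact vs_congr i (fun k hk => f2 k (by omega))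
  have e2 : ds ax f (m + 1) = e := by
    rw [add_comm, ds_shift]
    have a2 : ds ax f 1 = d0 := by
      show turn (f 0) ax = d0
      rw [f0, k1]
    rw [a2]
    exact ds_congr m (fun k hk => f2 k hk)
  set t := wl f (m + 2) with ht
  have hl : t.length = m + 2 := wl_length _ _
  have hdx : dx ax t t.length = -ax := by
    rw [hl, ht, dx_wl le_rfl]
    show turn (f (m + 1)) (ds ax f (m + 1)) = -ax
    rw [f1, e2, k2]
  have hv : ∀ i, 1 ≤ i → i ≤ m + 2 → vx s0 ax t i = vs v0 d0 τ (i - 1) := by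
    intro i h1 h2
    rw [ht, vx_wl (by omega), ← e1 (i - 1) (by omega)]
    congr 1
    omega
  have hlv : ∀ i, 1 ≤ i → i ≤ m + 2 → lev v0 ≤ lev (vx s0 ax t i) := by
    intro i h1 h2
    rw [hv i h1 h2]
    exact hlow _ (by omega)
  have hs : lev s0 = lev v0 - 2 := by
    rw [hs0, lev_sub]
    rfl
  have htip : lev (tip s0 ax t) = lev v0 - 2 := by
    have h1 : tip s0 ax t = vx s0 ax t t.length + dx ax t t.length := rfl
    rw [h1, hdx, hl, hv _ (by omega) le_rfl, lev_add]
    have h2 : m + 2 - 1 = m + 1 := by omega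
    rw [h2, hend]
    rfl
  have key := wind_exit (v0 := s0) ax_mem (t := t) ?_ ?_ ?_
  · have hw : wind t = 2 * sgn b0 + ∑ i ∈ range m, sgn (τ i) := by
      rw [ht, wind_wl, Finset.sum_range_succ, Finset.sum_range_succ', f0, f1]
      have : ∑ i ∈ range m, sgn (f (i + 1)) = ∑ i ∈ range m, sgn (τ i) := by
        apply Finset.sum_congr rfl
        intro i hi
        rw [Finset.mem_range] at hi
        rw [add_comm i 1, f2 i hi]
      rw [this]
      ring
    rw [hdx, hw] at key
    have hs1 : sgn b0 = - sgn (τ m) := by rw [hb0, sgn_not]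
    rw [Finset.sum_range_succ]
    rw [hs1] at key
    rcases key with ⟨h1, -⟩ | ⟨h1, -⟩ | ⟨h1, -⟩ | ⟨h1, -⟩ | ⟨h1, -⟩ | ⟨-, h1⟩
    · exact absurd h1 (by decide)
    · exact absurd h1 (by decide)
    · exact absurd h1 (by decide)
    · exact absurd h1 (by decide)
    · exact absurd h1 (by decide)
    · rcases h1 with h1 | h1
      · left
        omega
      · right
        omega
  · intro i k hik hk
    rw [hl] at hk
    rcases Nat.eq_zero_or_pos i with h1 | h1
    · subst h1
      intro h2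
      have h3 := hlv k (by omega) hk
      rw [← h2] at h3
      have h4 : lev (vx s0 ax t 0) = lev s0 := rfl
      omega
    · rw [hv i h1 (by omega), hv k (by omega) hk]
      exact hinj _ _ (by omega) (by omega)
  · intro i h1 h2
    rw [hl] at h2
    rw [ip_ax, lev_sub, hs]
    have := hlv i h1 h2
    omega
  · intro i h1 h2
    rw [hl] at h2
    rw [hdx, ip_comm, ip_neg_left, ip_comm, ip_ax, lev_sub, htip]
    have := hlv i h1 h2
    omega

theorem sum_shift (f : ℕ → ℤ) (L : ℕ) (hf : ∀ i, f (i + L) = f i) (a : ℕ) :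
    ∑ i ∈ range L, f (a + i) = ∑ i ∈ range L, f i := by
  induction a with
  | zero => simp
  | succ a ih =>
    rw [← ih]
    have h1 := Finset.sum_range_succ (fun i => f (a + i)) L
    have h2 := Finset.sum_range_succ' (fun i => f (a + i)) L
    have h3 : f (a + L) = f (a + 0) := by rw [hf, add_zero]
    have h4 : ∑ i ∈ range L, f (a + 1 + i) = ∑ i ∈ range L, f (a + (i + 1)) := by
      apply Finset.sum_congr rfl
      intro i _
      congr 1
      omega
    rw [h4]
    linarith

/-- **The turning number of a periodic path.** -/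
theorem turn_zero {v0 d0 : Pt} {τ : ℕ → Bool} (h0 : d0 ∈ dirs) {L : ℕ} (hL : 1 ≤ L) (hper : ∀ i, τ (i + L) = τ i)
    (hd : ds d0 τ L = d0) {D : Pt} (hv : vs v0 d0 τ L = v0 + D) (hD : lev D = 0)
    (hinj : ∀ i k, i < k → vs v0 d0 τ i ≠ vs v0 d0 τ k) : ∑ i ∈ range L, sgn (τ i) = 0 := by
  have hpv : ∀ i, vs v0 d0 τ (i + L) = vs v0 d0 τ i + D := by
    intro i
    rw [add_comm, vs_shift, hd, hv, vs_trans]
    congr 1
    exact vs_congr i (fun k _ => by rw [add_comm, hper])
  have hpd : ∀ i, ds d0 τ (i + L) = ds d0 τ i := by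
    intro i
    rw [add_comm, ds_shift, hd]
    exact ds_congr i (fun k _ => by rw [add_comm, hper])
  have hplev : ∀ i, lev (vs v0 d0 τ (i + L)) = lev (vs v0 d0 τ i) := by
    intro i
    rw [hpv, lev_add, hD, add_zero]
  -- a lowest vertex
  obtain ⟨a, ha, hmin⟩ := Finset.exists_min_image (range L) (fun i => lev (vs v0 d0 τ i)) ⟨0, by simp; omega⟩
  rw [Finset.mem_range] at ha
  have hmin' : ∀ i, lev (vs v0 d0 τ a) ≤ lev (vs v0 d0 τ i) := by
    intro i
    induction i using Nat.strong_induction_on with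
    | _ i ih =>
      rcases Nat.lt_or_ge i L with h1 | h1
      · exact hmin i (by simpa using h1)
      · have h2 := ih (i - L) (by omega)
        have h3 := hplev (i - L)
        rw [Nat.sub_add_cancel h1] at h3
        rw [h3]
        exact h2
  -- shifted path
  set w0 := vs v0 d0 τ a with hw0
  set e0 := ds d0 τ a with he0
  set σ : ℕ → Bool := fun k => τ (a + k) with hσ
  have he0m : e0 ∈ dirs := ds_mem h0 a
  have hvs : ∀ i, vs w0 e0 σ i = vs v0 d0 τ (a + i) := fun i => (vs_shift v0 d0 τ a i).symm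
  have hds : ∀ i, ds e0 σ i = ds d0 τ (a + i) := fun i => (ds_shift d0 τ a i).symm
  have hper' : ∀ i, σ (i + L) = σ i := by
    intro i
    simp only [hσ]
    rw [← add_assoc, hper]
  have hlow : ∀ i, lev w0 ≤ lev (vs w0 e0 σ i) := by
    intro i
    rw [hvs]
    exact hmin' _
  have hinj' : ∀ i k, i < k → vs w0 e0 σ i ≠ vs w0 e0 σ k := by
    intro i k hik
    rw [hvs, hvs]
    exact hinj _ _ (by omega)
  have hdL : ds e0 σ L = e0 := by rw [hds, hpd]
  have hdL2 : ds e0 σ (2 * L) = e0 := by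
    rw [hds, show a + 2 * L = a + L + L by ring, hpd, hpd]
  have hlL : lev (vs w0 e0 σ L) = lev w0 := by rw [hvs, hplev]
  have hlL2 : lev (vs w0 e0 σ (2 * L)) = lev w0 := by
    rw [hvs, show a + 2 * L = a + L + L by ring, hplev, hplev]
  have key1 := arc_wind he0m hL (fun i _ => hlow i) hlL (by
    have : L - 1 + 1 = L := by omega
    rw [← ds_succ, this, hdL]) (fun i k hik _ => hinj' i k hik)
  have key2 := arc_wind he0m (n := 2 * L) (by omega) (fun i _ => hlow i) hlL2 (by
    have : 2 * L - 1 + 1 = 2 * L := by omega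
    rw [← ds_succ, this, hdL2]) (fun i k hik _ => hinj' i k hik)
  have e1 : σ (2 * L - 1) = σ (L - 1) := by
    rw [show 2 * L - 1 = L - 1 + L by omega, hper']
  have e2 : ∑ i ∈ range (2 * L), sgn (σ i) = 2 * ∑ i ∈ range L, sgn (σ i) := by
    rw [two_mul L, Finset.sum_range_add, two_mul]
    congr 1
    apply Finset.sum_congr rfl
    intro i _
    rw [add_comm, hper']
  have e3 : ∑ i ∈ range L, sgn (σ i) = ∑ i ∈ range L, sgn (τ i) :=
    sum_shift (fun i => sgn (τ i)) L (fun i => by rw [hper]) a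
  rw [e1, e2] at key2
  rw [← e3]
  have hs : sgn (σ (L - 1)) = 1 ∨ sgn (σ (L - 1)) = -1 := by
    cases σ (L - 1)
    · right
      rfl
    · left
      rfl
  rcases hs with hs | hs <;> rw [hs] at key1 key2 <;> omega

end Pool.Agent.GLD
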