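import Pool.Agent.MXR.Ends
import Pool.Agent.EXL.Conj
import Pool.Agent.NUF.Cyl.Ring

/-!
# Networks evaluated on an arc between two legs of inner vertices (GLd, rows at 0)

`two_cut`: the network of the domain `A` without the two edges of the half edges `a`, `b` (`a.1`, `b.1` in `A`),
evaluated at the empty state on the indicator of the arc of `a` and `b`, is the sum over the words from `C.rv a` to
`C.rv b` in `A`; the outer ends of the two edges may be visited.
-/

set_option autoImplicit false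

namespace Pool.Agent.GLD

open Pool.Agent.EXL Pool.Agent.EXL.Pat Pool.Agent.EXL.Net HexObs HexObs.LP
open Pool.Agent.MXR (cup_e ne_of_ed CR_cupO_comm CO_cupO_comm CR_PO_comm CR_PO_comm' CO_PO_comm CO_PO_comm' be_ne ta_ne
  dlt_eq)
open Pool.Agent.NUF.Cyl (PO PO_apply PO_cupO_comm PO_Co_comm PO_Crv_comm cupO_Crv_comm Nm Co_eq_glue)

variable {K : Type*} [CommRing K]

section gen

variable {α : Type*} [DecidableEq α]

theorem sw_cupO (a b : α) (F : Pat α → K) (i j : α) :
    sw a b (cupO (Equiv.swap a b i) (Equiv.swap a b j) F) = cupO i j (sw a b F) := by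
  funext q
  show cupO (Equiv.swap a b i) (Equiv.swap a b j) F (swap a b q) = cupO i j (sw a b F) q
  rw [← swE_st, cupO_apply, cupO_apply]
  have h1 : ∀ x, (swE a b).st q (Equiv.swap a b x) = Equiv.swap a b (q x) := fun x => (swE a b).st_apply q x
  have h2 : F (cup (Equiv.swap a b i) (Equiv.swap a b j) ((swE a b).st q)) = sw a b F (cup i j q) := by
    show F _ = F (swap a b (cup i j q))
    rw [← swE_st]
    exact congrArg F (Pat.Emb.st_cup (swE a b) q i j)
  simp only [h1, (Equiv.swap a b).injective.eq_iff, h2]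

theorem sw_Co (a b : α) (F : Pat α → K) (i j : α) :
    sw a b (Co (Equiv.swap a b i) (Equiv.swap a b j) F) = Co i j (sw a b F) := by
  rw [Co_eq_glue, Co_eq_glue]
  exact sw_glue a b F i j

/-- the operator commutes with the exchange of the labels. -/
def Inv (a b : α) (X : Op α K) : Prop := ∀ F : Pat α → K, sw a b (X F) = X (sw a b F)

theorem inv_cupO {a b i j : α} (h1 : i ≠ a) (h2 : i ≠ b) (h3 : j ≠ a) (h4 : j ≠ b) :
    Inv a b (cupO i j : Op α K) := by
  intro F
  have h := sw_cupO a b F i j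
  rw [Equiv.swap_apply_of_ne_of_ne h1 h2, Equiv.swap_apply_of_ne_of_ne h3 h4] at h
  exact h

theorem inv_Co {a b i j : α} (h1 : i ≠ a) (h2 : i ≠ b) (h3 : j ≠ a) (h4 : j ≠ b) :
    Inv a b (Co i j : Op α K) := by
  intro F
  have h := sw_Co a b F i j
  rw [Equiv.swap_apply_of_ne_of_ne h1 h2, Equiv.swap_apply_of_ne_of_ne h3 h4] at h
  exact h

theorem Inv.mul {a b : α} {X Y : Op α K} (hX : Inv a b X) (hY : Inv a b Y) : Inv a b (X * Y) := by
  intro F
  rw [Module.End.mul_apply, Module.End.mul_apply, hX, hY]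

theorem inv_one (a b : α) : Inv a b (1 : Op α K) := fun _ => rfl

theorem Inv.add {a b : α} {X Y : Op α K} (hX : Inv a b X) (hY : Inv a b Y) : Inv a b (X + Y) := by
  intro F
  funext q
  have h1 := congrFun (hX F) q
  have h2 := congrFun (hY F) q
  show X F (swap a b q) + Y F (swap a b q) = X (sw a b F) q + Y (sw a b F) q
  rw [← h1, ← h2]
  rfl

theorem Inv.smul {a b : α} {X : Op α K} (hX : Inv a b X) (y : K) : Inv a b (y • X) := by
  intro F
  funext q
  have h1 := congrFun (hX F) q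
  show y * X F (swap a b q) = y * X (sw a b F) q
  rw [← h1]
  rfl

theorem sw_ind (a b : α) (p : Pat α) : sw a b (HS.ind p : Pat α → K) = HS.ind (swap a b p) := by
  funext q
  show HS.ind p (swap a b q) = HS.ind (swap a b p) q
  have h : ∀ r : Pat α, swap a b (swap a b r) = r := by
    intro r
    ext x
    simp [swap]
  by_cases c : q = swap a b p
  · rw [c, h, HS.ind_self, HS.ind_self]
  · rw [HS.ind_ne c, HS.ind_ne]
    intro e
    exact c (by rw [← e, h])

theorem swap_cup (a b i j : α) (p : Pat α) :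
    swap a b (cup i j p) = cup (Equiv.swap a b i) (Equiv.swap a b j) (swap a b p) := by
  rw [← swE_st, ← swE_st]
  exact (Pat.Emb.st_cup (swE a b) p i j).symm

theorem swap_empty (a b : α) : swap a b (Pat.empty : Pat α) = Pat.empty := by
  ext x
  simp [swap, Pat.empty]

end gen

section net

variable {C : Nm}

theorem inv_Crv {a b : Lab} (y : K) {v : Pt} (ha : ∀ d, a ≠ hf (v, d)) (hb : ∀ d, b ≠ hf (v, d)) :
    Inv a b (Crv y v : Op Lab K) := by
  unfold Crv Cr
  exact (inv_one _ _).add ((((inv_cupO (ha _).symm (hb _).symm (ha _).symm (hb _).symm).add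
    (inv_cupO (ha _).symm (hb _).symm (ha _).symm (hb _).symm)).add
    (inv_cupO (ha _).symm (hb _).symm (ha _).symm (hb _).symm)).smul y)

theorem inv_CR {a b : Lab} (y : K) {A : Finset Pt} (ha : ∀ v ∈ A, ∀ d, a ≠ hf (v, d))
    (hb : ∀ v ∈ A, ∀ d, b ≠ hf (v, d)) : Inv a b (CR y A : Op Lab K) := by
  refine Finset.noncommProd_induction A _ _ (fun B : Op Lab K => Inv a b B)
    (fun _ _ h1 h2 => h1.mul h2) (inv_one _ _) (fun v hv => ?_)
  exact inv_Crv y (ha v hv) (hb v hv)

theorem inv_CO {a b : Lab} {E : Finset (Sym2 Lab)} (hE : C.Edg E)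
    (ha : ∀ h, C.ed h ∈ E → C.De h → a ≠ hf h ∧ a ≠ hf (C.rv h))
    (hb : ∀ h, C.ed h ∈ E → C.De h → b ≠ hf h ∧ b ≠ hf (C.rv h)) : Inv a b (Nm.CO K E hE : Op Lab K) := by
  refine Finset.noncommProd_induction E _ _ (fun B : Op Lab K => Inv a b B)
    (fun _ _ h1 h2 => h1.mul h2) (inv_one _ _) (fun e he => ?_)
  obtain ⟨h, hh, rfl⟩ := hE e he
  rw [Nm.CoS_ed]
  obtain ⟨a1, a2⟩ := ha h he hh
  obtain ⟨b1, b2⟩ := hb h he hh
  exact inv_Co a1.symm b1.symm a2.symm b2.symm

/-- a commuting projection can be inserted behind the operator. -/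
theorem PO_ins {α : Type*} [DecidableEq α] {X : Op α K} {a : α} (h : Commute (PO a : Op α K) X) {p : Pat α}
    (hp : p a = a) (F : Pat α → K) : X F p = X (PO a F) p := by
  have h1 : (PO a * X : Op α K) F p = (X * PO a : Op α K) F p := by rw [h.eq]
  rw [Module.End.mul_apply, PO_apply, if_pos hp, Module.End.mul_apply] at h1
  exact h1

/-- the value is 0 if the label stays free and the function vanishes on such states. -/
theorem val_zero {α : Type*} [DecidableEq α] {X : Op α K} {a : α} (h : Commute (PO a : Op α K) X) {p : Pat α}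
    (hp : p a = a) {F : Pat α → K} (hF : ∀ q : Pat α, q a = a → F q = 0) : X F p = 0 := by
  rw [PO_ins h hp F]
  have e : (PO a F : Pat α → K) = 0 := by
    funext q
    rw [PO_apply]
    split_ifs with c
    · exact hF q c
    · rfl
  rw [e, map_zero]
  rfl

/-- **The arc between two legs whose vertices are outside of the domain.** -/
theorem arc_main (y : K) {A : Finset Pt} {E E' : Finset (Sym2 Lab)} (hE : C.Edg E) (hE' : C.Edg E')
    {a b h k : Pt × Pt} (ha : C.De a) (hb : C.De b) (hh : C.De h) (ea : C.ed a ∉ E)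
    (eb : C.ed b ∉ E) (hab : C.ed a ≠ C.ed b) (eE : E' = insert (C.ed a) (insert (C.ed b) E)) (aA : a.1 ∉ A)
    (bA : b.1 ∉ A) (h1 : h.1 = a.1) (k1 : k.1 = b.1) (hne : h ≠ a) (kne : k ≠ b) (uv : a.1 ≠ b.1)
    (incl : ∀ w ∈ A, ∀ d, C.De (w, d) → C.ed (w, d) ∈ E') (hin : C.ed h ∈ E') :
    (CR y A * Nm.CO K E hE) (HS.ind (cup (hf a) (hf b) Pat.empty))
      (cup (hf b) (hf k) (cup (hf a) (hf h) Pat.empty)) = C.Ws y A {k} h := by
  classical
  -- the labels
  have n1 : h ≠ b := fun e => uv (by rw [← h1, e])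
  have n2 : k ≠ a := fun e => uv (by rw [← k1, e])
  have n3 : h ≠ k := fun e => uv (by rw [← h1, ← k1, e])
  have n4 : a ≠ b := fun e => uv (by rw [e])
  set X : Op Lab K := CR y A * Nm.CO K E hE with hX
  have legs : ∀ (c : Pt × Pt), c.1 ∉ A → ∀ v ∈ A, ∀ d, (hf c : Lab) ≠ hf (v, d) := by
    intro c hc v hv d e
    rw [Sum.inl.injEq] at e
    exact hc (by rw [e]; exact hv)
  have ia : Inv be (hf a) X := (inv_CR y (fun v _ d => be_ne (v, d)) (legs a aA)).mul
    (inv_CO hE (fun h _ _ => ⟨be_ne _, be_ne _⟩) (fun h hh' hd => ne_of_ed hd.2 ea hh'))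
  have ib : Inv ta (hf b) X := (inv_CR y (fun v _ d => ta_ne (v, d)) (legs b bA)).mul
    (inv_CO hE (fun h _ _ => ⟨ta_ne _, ta_ne _⟩) (fun h hh' hd => ne_of_ed hd.2 eb hh'))
  have hfi : ∀ {c d : Pt × Pt}, c ≠ d → (hf c : Lab) ≠ hf d := by
    intro c d hcd e
    exact hcd (Sum.inl_injective e)
  have bt : (be : Lab) ≠ ta := by simp
  set P0 : Pat Lab := cup ta (hf k) (cup be (hf h) Pat.empty) with hP0
  -- relabelling of the state
  have s1 : swap be (hf a) (swap ta (hf b) P0) = cup (hf b) (hf k) (cup (hf a) (hf h) Pat.empty) := by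
    rw [hP0]
    simp only [swap_cup, swap_empty]
    rw [Equiv.swap_apply_left ta,
      Equiv.swap_apply_of_ne_of_ne (ta_ne k).symm (hfi kne),
      Equiv.swap_apply_of_ne_of_ne bt (be_ne b), Equiv.swap_apply_of_ne_of_ne (ta_ne h).symm (hfi n1),
      Equiv.swap_apply_left,
      Equiv.swap_apply_of_ne_of_ne (be_ne b).symm (hfi n4.symm),
      Equiv.swap_apply_of_ne_of_ne (be_ne k).symm (hfi n2),
      Equiv.swap_apply_of_ne_of_ne (be_ne h).symm (hfi hne)]
  have s2 : sw ta (hf b) (sw be (hf a) (HS.ind (cup (hf a) (hf b) Pat.empty) : Pat Lab → K)) = dlt K := by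
    rw [sw_ind, sw_ind, swap_cup, swap_empty, Equiv.swap_apply_right,
      Equiv.swap_apply_of_ne_of_ne (be_ne b).symm (hfi n4.symm), swap_cup, swap_empty, Equiv.swap_apply_right,
      Equiv.swap_apply_of_ne_of_ne bt (be_ne b), dlt_eq]
  have s3 : X (HS.ind (cup (hf a) (hf b) Pat.empty)) (cup (hf b) (hf k) (cup (hf a) (hf h) Pat.empty)) =
      X (dlt K) P0 := by
    rw [← s1]
    show sw ta (hf b) (sw be (hf a) (X (HS.ind (cup (hf a) (hf b) Pat.empty)))) P0 = _
    rw [ia, ib, s2]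
  rw [s3]
  -- the edges of the cut
  have ka : (P0 : Pat Lab) (hf a) = hf a := by
    rw [hP0, cup_e, if_neg (ta_ne a).symm, if_neg (hfi n2.symm), cup_e rfl rfl, if_neg (be_ne a).symm,
      if_neg (hfi hne.symm)]
    · rfl
    · rw [cup_e rfl rfl, if_neg bt.symm, if_neg (ta_ne h)]
      rfl
    · rw [cup_e rfl rfl, if_neg (be_ne k).symm, if_neg (hfi n3.symm)]
      rfl
  have kb : (P0 : Pat Lab) (hf b) = hf b := by
    rw [hP0, cup_e, if_neg (ta_ne b).symm, if_neg (hfi kne.symm), cup_e rfl rfl, if_neg (be_ne b).symm,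
      if_neg (hfi n1.symm)]
    · rfl
    · rw [cup_e rfl rfl, if_neg bt.symm, if_neg (ta_ne h)]
      rfl
    · rw [cup_e rfl rfl, if_neg (be_ne k).symm, if_neg (hfi n3.symm)]
      rfl
  have pa : Commute (PO (hf a) : Op Lab K) X := (CR_PO_comm y aA).mul_right (CO_PO_comm hE ea)
  have pb : Commute (PO (hf b) : Op Lab K) X := (CR_PO_comm y bA).mul_right (CO_PO_comm hE eb)
  have e4 : C.ed a ∉ insert (C.ed b) E := by
    rw [Finset.mem_insert, not_or]
    exact ⟨hab, ea⟩
  subst eE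
  have hE1 : C.Edg (insert (C.ed b) E) := fun e he => hE' e (Finset.mem_insert_of_mem he)
  have eCO : Nm.CO K (insert (C.ed a) (insert (C.ed b) E)) hE' =
      CoS (C.ed a) * (CoS (C.ed b) * Nm.CO K E hE) := by
    unfold Nm.CO
    rw [Finset.noncommProd_insert_of_notMem _ _ _ _ e4, Finset.noncommProd_insert_of_notMem _ _ _ _ eb]
  have c1 : Commute (CoS (C.ed a) : Op Lab K) (Nm.CO K E hE) := by
    refine Finset.noncommProd_commute E _ _ _ (fun e he => ?_)
    obtain ⟨h, hh, rfl⟩ := hE e he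
    exact Nm.CoS_comm ha.2 hh.2 (fun e => ea (by rw [e]; exact he))
  have c2 : Commute (CoS (C.ed b) : Op Lab K) (Nm.CO K E hE) := by
    refine Finset.noncommProd_commute E _ _ _ (fun e he => ?_)
    obtain ⟨h, hh, rfl⟩ := hE e he
    exact Nm.CoS_comm hb.2 hh.2 (fun e => eb (by rw [e]; exact he))
  have eX : (CR y A * Nm.CO K (insert (C.ed a) (insert (C.ed b) E)) hE' : Op Lab K) =
      X * (CoS (C.ed a) * CoS (C.ed b)) := by
    rw [eCO, c2.eq, hX]
    calc _ = CR y A * ((CoS (C.ed a) * Nm.CO K E hE) * CoS (C.ed b)) := by simp only [mul_assoc]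
      _ = _ := by
        rw [c1.eq]
        simp only [mul_assoc]
  have s4 : X (dlt K) P0 = (CR y A * Nm.CO K (insert (C.ed a) (insert (C.ed b) E)) hE' : Op Lab K) (dlt K) P0 := by
    have e6 : (X * (CoS (C.ed a) * CoS (C.ed b)) : Op Lab K) (dlt K) P0 =
        X ((CoS (C.ed a) * CoS (C.ed b) : Op Lab K) (dlt K)) P0 := rfl
    rw [eX, e6, PO_ins pa ka (dlt K), PO_ins pb kb (PO (hf a) (dlt K)),
      PO_ins pa ka ((CoS (C.ed a) * CoS (C.ed b) : Op Lab K) (dlt K)),
      PO_ins pb kb (PO (hf a) ((CoS (C.ed a) * CoS (C.ed b) : Op Lab K) (dlt K)))]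
    suffices hs : (PO (hf b) (PO (hf a) (dlt K)) : Pat Lab → K) =
        PO (hf b) (PO (hf a) ((CoS (C.ed a) * CoS (C.ed b) : Op Lab K) (dlt K))) by rw [hs]
    funext q
    rw [PO_apply, PO_apply, PO_apply, PO_apply]
    by_cases q1 : q (hf b) = hf b
    swap
    · rw [if_neg q1, if_neg q1]
    by_cases q2 : q (hf a) = hf a
    swap
    · rw [if_pos q1, if_pos q1, if_neg q2, if_neg q2]
    rw [if_pos q1, if_pos q1, if_pos q2, if_pos q2, Module.End.mul_apply, Nm.CoS_ed, Nm.CoS_ed, Co_apply]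
    have dz : ∀ p : Pt × Pt, q (hf p) ≠ hf p → (dlt K : Pat Lab → K) q = 0 := by
      intro p hp
      unfold dlt
      rw [if_neg]
      rintro rfl
      exact hp (full_hf p)
    by_cases q3 : q (hf (C.rv a)) = hf (C.rv a)
    · rw [if_pos ⟨q2, q3⟩, Co_apply]
      by_cases q4 : q (hf (C.rv b)) = hf (C.rv b)
      · rw [if_pos ⟨q1, q4⟩]
      · rw [if_neg (fun h => q4 h.2), if_pos (Or.inl q1), dz _ q4]
    · rw [if_neg (fun h => q3 h.2), if_pos (Or.inl q2), dz _ q3]
  rw [s4]
  -- the end at k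
  have hm := Nm.main y {k} _ A rfl _ hE' h hh (by rw [h1]; exact aA) hin incl (by
      intro g hg
      rw [Finset.mem_singleton] at hg
      rw [hg, k1]
      exact bA) (by
      rw [Finset.mem_singleton]
      exact n3)
  rw [← hm]
  have eEN : (EN K true {k} : Op Lab K) = En ta (hf k) := Finset.noncommProd_singleton _ _
  have c5 : Commute (cupO ta (hf k) : Op Lab K) (CR y A) := CR_cupO_comm y ta_ne (by rw [k1]; exact bA)
  rw [eEN]
  unfold En
  have e5 : (CR y A * (1 + cupO ta (hf k)) * Nm.CO K (insert (C.ed a) (insert (C.ed b) E)) hE' : Op Lab K) =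
      CR y A * Nm.CO K (insert (C.ed a) (insert (C.ed b) E)) hE' +
      cupO ta (hf k) * (CR y A * Nm.CO K (insert (C.ed a) (insert (C.ed b) E)) hE') := by
    rw [mul_add, mul_one, add_mul, ← c5.eq]
    simp only [mul_assoc]
  have t1 : (st h : Pat Lab) ta = ta := by
    show cup be (hf h) Pat.empty ta = ta
    rw [cup_e rfl rfl, if_neg bt.symm, if_neg (ta_ne h)]
    rfl
  have t2 : (st h : Pat Lab) (hf k) = hf k := by
    show cup be (hf h) Pat.empty (hf k) = hf k
    rw [cup_e rfl rfl, if_neg (be_ne k).symm, if_neg (hfi n3.symm)]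
    rfl
  have z : (CR y A * Nm.CO K (insert (C.ed a) (insert (C.ed b) E)) hE' : Op Lab K) (dlt K) (st h) = 0 := by
    refine val_zero (a := ta) ((CR_PO_comm' y ta_ne).mul_right (CO_PO_comm' hE' ta_ne)) t1 ?_
    intro q hq
    unfold dlt
    rw [if_neg]
    rintro rfl
    rw [full_ta] at hq
    exact bt hq
  have e7 : (cupO ta (hf k) * (CR y A * Nm.CO K (insert (C.ed a) (insert (C.ed b) E)) hE') : Op Lab K) (dlt K)
      (st h) = (CR y A * Nm.CO K (insert (C.ed a) (insert (C.ed b) E)) hE' : Op Lab K) (dlt K) P0 := by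
    rw [Module.End.mul_apply (cupO ta (hf k)), cupO_apply, if_pos ⟨t1, t2⟩]
    rfl
  rw [e5, LinearMap.add_apply, Pi.add_apply, z, zero_add, e7]

/-- a vertex whose first leg must be used. -/
theorem Cr_val {α : Type*} [DecidableEq α] (y : K) {l1 l2 l3 : α} {p : Pat α} (h12 : l1 ≠ l2) (h13 : l1 ≠ l3)
    (p1 : p l1 = l1) (p2 : p l2 = l2) (p3 : p l3 = l3) {F : Pat α → K} (hF : ∀ q : Pat α, q l1 = l1 → F q = 0) :
    (Cr y l1 l2 l3 : Op α K) F p = y * (F (cup l1 l2 p) + F (cup l1 l3 p)) := by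
  unfold Cr
  simp only [LinearMap.add_apply, Module.End.one_apply, LinearMap.smul_apply, Pi.add_apply, Pi.smul_apply,
    smul_eq_mul, cupO_apply]
  rw [if_pos ⟨p1, p2⟩, if_pos ⟨p1, p3⟩, if_pos ⟨p2, p3⟩, hF p p1, hF (cup l2 l3 p), zero_add, add_zero]
  rw [cup_e p2 p3, if_neg h12, if_neg h13]
  exact p1

theorem turn_neg (d : Pt) : rotL (-d) = rotR (rotR d) ∧ rotR (-d) = rotL (rotL d) := by
  constructor <;> refine Prod.ext ?_ ?_ <;> simp only [rotL, rotR, Prod.fst_neg, Prod.snd_neg] <;> ring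

theorem turn_inv (s : Bool) (d e : Pt) : turn s d = e ↔ -d = turn (!s) (-e) := by
  cases s
  · simp only [turn, Bool.not_false, if_true, Bool.false_eq_true, if_false, rotL, rotR, Prod.ext_iff, Prod.fst_neg,
      Prod.snd_neg]
    constructor <;> rintro ⟨h1, h2⟩ <;> constructor <;> omega
  · simp only [turn, Bool.not_true, if_true, Bool.false_eq_true, if_false, rotL, rotR, Prod.ext_iff, Prod.fst_neg,
      Prod.snd_neg]
    constructor <;> rintro ⟨h1, h2⟩ <;> constructor <;> omega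

theorem arr_snoc {A : Finset Pt} {p : Pt × Pt} {t : List Bool} {s : Bool} {v : Pt}
    (hv : C.nm (vx p.1 p.2 t (t.length + 1)) = v) :
    C.Arr A p (t ++ [s]) ↔ v ∈ A ∧ C.Arr (A.erase v) p t := by
  have hl : (t ++ [s]).length = t.length + 1 := by simp
  have e1 : ∀ i, i ≤ t.length + 1 → vx p.1 p.2 (t ++ [s]) i = vx p.1 p.2 t i := fun i hi => vx_append hi
  constructor
  · intro h
    refine ⟨?_, fun i h1 h2 => ?_, fun i k h1 h2 h3 => ?_⟩
    · have := h.mem (t.length + 1) (by omega) (by omega)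
      rwa [e1 _ le_rfl, hv] at this
    · rw [Finset.mem_erase]
      have h3 := h.mem i h1 (by omega)
      have h4 := h.inj i (t.length + 1) h1 (by omega) (by omega)
      rw [e1 _ (by omega)] at h3 h4
      rw [e1 _ le_rfl, hv] at h4
      exact ⟨h4, h3⟩
    · have := h.inj i k h1 h2 (by omega)
      rwa [e1 _ (by omega), e1 _ (by omega)] at this
  · rintro ⟨h0, h⟩
    refine ⟨fun i h1 h2 => ?_, fun i k h1 h2 h3 => ?_⟩
    · rw [hl] at h2
      rw [e1 _ h2]
      rcases Nat.lt_or_ge t.length i with c | c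
      · have : i = t.length + 1 := by omega
        rw [this, hv]
        exact h0
      · exact Finset.mem_of_mem_erase (h.mem i h1 c)
    · rw [hl] at h3
      rw [e1 _ (by omega), e1 _ h3]
      rcases Nat.lt_or_ge t.length k with c | c
      · have : k = t.length + 1 := by omega
        rw [this, hv]
        have := h.mem i h1 (by omega)
        rw [Finset.mem_erase] at this
        exact this.1
      · exact h.inj i k h1 h2 c

/-- **The last vertex of the words.** -/
theorem Ws_last (y : K) {A : Finset Pt} {h b : Pt × Pt} (hb : C.nm b.1 = b.1) (hh : C.nm h.1 = h.1) (hA : b.1 ∈ A)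
    (hne : h ≠ b) :
    C.Ws y A {C.rv b} h = y * (C.Ws y (A.erase b.1) {(b.1, turn true (-b.2))} h +
      C.Ws y (A.erase b.1) {(b.1, turn false (-b.2))} h) := by
  classical
  have hle : ∀ t, C.rv (C.le h t) ∈ ({C.rv b} : Finset (Pt × Pt)) ↔ C.le h t = b := by
    intro t
    rw [Finset.mem_singleton]
    constructor
    · intro e
      have h1 := congrArg C.rv e
      rwa [Nm.rv_rv hb, Nm.rv_rv (C.idem _)] at h1
    · rintro e
      rw [e]
  have key : ∀ (t : List Bool) (s : Bool), (C.Arr A h (t ++ [s]) ∧ C.le h (t ++ [s]) = b) ↔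
      (C.Arr (A.erase b.1) h t ∧ C.rv (C.le h t) = (b.1, turn (!s) (-b.2))) := by
    intro t s
    have hl : (t ++ [s]).length = t.length + 1 := by simp
    have e1 : vx h.1 h.2 (t ++ [s]) (t.length + 1) = vx h.1 h.2 t (t.length + 1) := vx_append le_rfl
    have e2 : dx h.2 (t ++ [s]) (t.length + 1) = turn s (dx h.2 t t.length) := by
      show turn (tf (t ++ [s]) t.length) (dx h.2 (t ++ [s]) t.length) = _
      rw [dx_append le_rfl]
      have : tf (t ++ [s]) t.length = s := tf_append_right 0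
      rw [this]
    have e3 : C.nb (C.le h t) = C.nm (vx h.1 h.2 t (t.length + 1)) := by
      show C.nm (C.nm (vx h.1 h.2 t t.length) + dx h.2 t t.length) = _
      rw [C.add]
      rfl
    have e4 : C.le h (t ++ [s]) = b ↔ C.nm (vx h.1 h.2 t (t.length + 1)) = b.1 ∧ turn s (dx h.2 t t.length) = b.2 := by
      unfold Nm.le
      rw [hl, e1, e2, Prod.ext_iff]
    have e5 : C.rv (C.le h t) = (b.1, turn (!s) (-b.2)) ↔
        C.nm (vx h.1 h.2 t (t.length + 1)) = b.1 ∧ turn s (dx h.2 t t.length) = b.2 := by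
      rw [turn_inv]
      unfold Nm.rv
      rw [e3, Prod.ext_iff]
      rfl
    rw [e4, e5]
    constructor
    · rintro ⟨h1, h2, h3⟩
      exact ⟨((arr_snoc h2).1 h1).2, h2, h3⟩
    · rintro ⟨h1, h2, h3⟩
      exact ⟨(arr_snoc h2).2 ⟨hA, h1⟩, h2, h3⟩
  have hinj : ∀ s : Bool, Function.Injective (fun t : List Bool => t ++ [s]) := fun s => List.append_left_injective [s]
  unfold Nm.Ws
  have e : (C.arr A h).filter (fun t => C.rv (C.le h t) ∈ ({C.rv b} : Finset (Pt × Pt))) =
      ((C.arr (A.erase b.1) h).filter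
        (fun t => C.rv (C.le h t) ∈ ({(b.1, turn true (-b.2))} : Finset (Pt × Pt)))).image (fun t => t ++ [false]) ∪
      ((C.arr (A.erase b.1) h).filter
        (fun t => C.rv (C.le h t) ∈ ({(b.1, turn false (-b.2))} : Finset (Pt × Pt)))).image (fun t => t ++ [true]) := by
    ext t
    simp only [Finset.mem_union, Finset.mem_image, Finset.mem_filter, Nm.mem_arr, hle]
    constructor
    · rintro ⟨h1, h2⟩
      rcases List.eq_nil_or_concat t with rfl | ⟨t', s, rfl⟩
      · rw [Nm.le_nil hh] at h2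
        exact absurd h2 hne
      · rw [List.concat_eq_append] at h1 h2 ⊢
        have h3 := (key t' s).1 ⟨h1, h2⟩
        cases s
        · exact Or.inl ⟨t', ⟨h3.1, by rw [Finset.mem_singleton]; exact h3.2⟩, rfl⟩
        · exact Or.inr ⟨t', ⟨h3.1, by rw [Finset.mem_singleton]; exact h3.2⟩, rfl⟩
    · rintro (⟨t', ⟨h1, h2⟩, rfl⟩ | ⟨t', ⟨h1, h2⟩, rfl⟩)
      · rw [Finset.mem_singleton] at h2
        exact (key t' false).2 ⟨h1, h2⟩
      · rw [Finset.mem_singleton] at h2
        exact (key t' true).2 ⟨h1, h2⟩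
  have hd : Disjoint (((C.arr (A.erase b.1) h).filter
        (fun t => C.rv (C.le h t) ∈ ({(b.1, turn true (-b.2))} : Finset (Pt × Pt)))).image (fun t => t ++ [false]))
      (((C.arr (A.erase b.1) h).filter
        (fun t => C.rv (C.le h t) ∈ ({(b.1, turn false (-b.2))} : Finset (Pt × Pt)))).image
          (fun t => t ++ [true])) := by
    rw [Finset.disjoint_left]
    intro t h1 h2
    obtain ⟨s, -, rfl⟩ := Finset.mem_image.1 h1
    obtain ⟨r, -, hr⟩ := Finset.mem_image.1 h2
    have := congrArg List.getLast? hr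
    simp at this
  rw [e, Finset.sum_union hd, Finset.sum_image (fun a _ b _ hab => hinj false hab),
    Finset.sum_image (fun a _ b _ hab => hinj true hab), mul_add, Finset.mul_sum, Finset.mul_sum]
  simp only [List.length_append, List.length_singleton, pow_succ']

/-- **The network on the arc of two legs of inner vertices.** -/
theorem two_cut (y : K) {A : Finset Pt} {E E' : Finset (Sym2 Lab)} (hE : C.Edg E) (hE' : C.Edg E')
    {a b : Pt × Pt} (ha : C.De a) (hb : C.De b) (ea : C.ed a ∉ E)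
    (eb : C.ed b ∉ E) (hab : C.ed a ≠ C.ed b) (eE : E' = insert (C.ed a) (insert (C.ed b) E)) (aA : a.1 ∈ A)
    (bA : b.1 ∈ A) (uv : a.1 ≠ b.1)
    (incl : ∀ w ∈ A, ∀ d, C.De (w, d) → C.ed (w, d) ∈ E') :
    (CR y A * Nm.CO K E hE) (HS.ind (cup (hf a) (hf b) Pat.empty)) Pat.empty = C.Ws y A {C.rv b} (C.rv a) := by
  classical
  set A' := (A.erase a.1).erase b.1 with hA'
  have bA1 : b.1 ∈ A.erase a.1 := Finset.mem_erase.2 ⟨uv.symm, bA⟩
  have aA' : a.1 ∉ A' := fun h => Finset.notMem_erase a.1 A (Finset.mem_of_mem_erase h)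
  have bA' : b.1 ∉ A' := Finset.notMem_erase b.1 _
  set X : Op Lab K := CR y A' * Nm.CO K E hE with hX
  set F : Pat Lab → K := HS.ind (cup (hf a) (hf b) Pat.empty) with hF
  have hfi : ∀ {c d : Pt × Pt}, c ≠ d → (hf c : Lab) ≠ hf d := by
    intro c d hcd e
    exact hcd (Sum.inl_injective e)
  have nab : a ≠ b := fun e => uv (by rw [e])
  have pa : Commute (PO (hf a) : Op Lab K) X := (CR_PO_comm y aA').mul_right (CO_PO_comm hE ea)
  have pb : Commute (PO (hf b) : Op Lab K) X := (CR_PO_comm y bA').mul_right (CO_PO_comm hE eb)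
  have Fa : ∀ q : Pat Lab, q (hf a) = hf a → F q = 0 := by
    intro q hq
    rw [hF]
    apply HS.ind_ne
    rintro rfl
    rw [cup_e rfl rfl, if_pos rfl] at hq
    exact hfi nab.symm hq
  have Fb : ∀ q : Pat Lab, q (hf b) = hf b → F q = 0 := by
    intro q hq
    rw [hF]
    apply HS.ind_ne
    rintro rfl
    rw [cup_e rfl rfl, if_neg (hfi nab.symm), if_pos rfl] at hq
    exact hfi nab hq
  have e1 : (CR y A * Nm.CO K E hE : Op Lab K) = Crv y a.1 * (Crv y b.1 * X) := by
    rw [CR_erase y aA, CR_erase y bA1, hX]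
    simp only [mul_assoc]
    rfl
  have e2 : (CR y A * Nm.CO K E hE : Op Lab K) F Pat.empty = Crv y a.1 (Crv y b.1 (X F)) Pat.empty := by
    rw [e1]
    rfl
  have Xa : ∀ q : Pat Lab, q (hf a) = hf a → X F q = 0 := fun q hq => val_zero pa hq Fa
  have Xb : ∀ q : Pat Lab, q (hf b) = hf b → X F q = 0 := fun q hq => val_zero pb hq Fb
  have Ga : ∀ q : Pat Lab, q (hf a) = hf a → Crv y b.1 (X F) q = 0 := fun q hq =>
    val_zero (PO_Crv_comm y uv) hq Xa
  have rn : ∀ (c : Pt × Pt), c.2 ∈ dirs → ∀ s : Bool, turn s (-c.2) ≠ c.2 := by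
    intro c hc
    have key : ∀ d ∈ dirs, ∀ s : Bool, turn s (-d) ≠ d := by decide
    exact key c.2 hc
  have la : ∀ s : Bool, C.De (a.1, turn s (-a.2)) := by
    intro s
    have h1 := ha.rv'.turn s
    have h2 : C.nb (C.rv a) = a.1 := congrArg Prod.fst (Nm.rv_rv ha.2)
    have h3 : C.nb (C.nb a, -a.2) = a.1 := h2
    rw [h3] at h1
    exact h1
  have vala : ∀ G : Pat Lab → K, (∀ q : Pat Lab, q (hf a) = hf a → G q = 0) →
      Crv y a.1 G Pat.empty = y * (G (cup (hf a) (hf (a.1, turn true (-a.2))) Pat.empty) +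
        G (cup (hf a) (hf (a.1, turn false (-a.2))) Pat.empty)) := by
    intro G hG
    rw [Crv_eq y (v := a.1) (e := a.2) ha.1]
    have t1 : turn true (-a.2) = rotR (rotR a.2) := (turn_neg a.2).1
    have t2 : turn false (-a.2) = rotL (rotL a.2) := (turn_neg a.2).2
    rw [t1, t2, add_comm (G _)]
    have n1 := rn a ha.1.1 false
    have n2 := rn a ha.1.1 true
    rw [t2] at n1
    rw [t1] at n2
    refine Cr_val y ?_ ?_ rfl rfl rfl hG
    · exact hfi fun e => n1 (congrArg Prod.snd e).symm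
    · exact hfi fun e => n2 (congrArg Prod.snd e).symm
  have valb : ∀ (s : Bool), Crv y b.1 (X F) (cup (hf a) (hf (a.1, turn s (-a.2))) Pat.empty) =
      y * (X F (cup (hf b) (hf (b.1, turn true (-b.2))) (cup (hf a) (hf (a.1, turn s (-a.2))) Pat.empty)) +
        X F (cup (hf b) (hf (b.1, turn false (-b.2))) (cup (hf a) (hf (a.1, turn s (-a.2))) Pat.empty))) := by
    intro s
    rw [Crv_eq y (v := b.1) (e := b.2) hb.1]
    have t1 : turn true (-b.2) = rotR (rotR b.2) := (turn_neg b.2).1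
    have t2 : turn false (-b.2) = rotL (rotL b.2) := (turn_neg b.2).2
    rw [t1, t2, add_comm (X F _)]
    have n1 := rn b hb.1.1 false
    have n2 := rn b hb.1.1 true
    rw [t2] at n1
    rw [t1] at n2
    have fr : ∀ d, cup (hf a) (hf (a.1, turn s (-a.2))) (Pat.empty : Pat Lab) (hf (b.1, d)) = hf (b.1, d) := by
      intro d
      rw [cup_e rfl rfl, if_neg, if_neg]
      · rfl
      · exact hfi fun e => uv (congrArg Prod.fst e).symm
      · exact hfi fun e => uv (congrArg Prod.fst e).symm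
    refine Cr_val y ?_ ?_ (fr _) (fr _) (fr _) Xb
    · exact hfi fun e => n1 (congrArg Prod.snd e).symm
    · exact hfi fun e => n2 (congrArg Prod.snd e).symm
  have arc : ∀ (s s' : Bool), X F (cup (hf b) (hf (b.1, turn s' (-b.2)))
      (cup (hf a) (hf (a.1, turn s (-a.2))) Pat.empty)) =
      C.Ws y A' {(b.1, turn s' (-b.2))} (a.1, turn s (-a.2)) := by
    intro s s'
    have i1 : ∀ w ∈ A', ∀ d, C.De (w, d) → C.ed (w, d) ∈ E' := fun w hw d hd =>
      incl w (Finset.mem_of_mem_erase (Finset.mem_of_mem_erase hw)) d hd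
    exact arc_main y hE hE' ha hb (la s) ea eb hab eE aA' bA' rfl rfl
      (fun e => rn a ha.1.1 s (congrArg Prod.snd e)) (fun e => rn b hb.1.1 s' (congrArg Prod.snd e)) uv i1
      (incl a.1 aA _ (la s))
  rw [e2, vala _ Ga, valb, valb, arc, arc, arc, arc]
  -- the words
  have nba : C.nb (C.rv a) = a.1 := congrArg Prod.fst (Nm.rv_rv ha.2)
  have w1 := Nm.Ws_in (C := C) y (A := A) (T := {C.rv b}) (p := C.rv a) (Nm.nm_nb a) (by rw [nba]; exact aA) (by
    rw [Nm.rv_rv ha.2, Finset.mem_singleton]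
    intro e
    exact hab (by rw [e, Nm.ed_rv hb.2]))
  rw [nba] at w1
  have w2 : ∀ s : Bool, C.Ws y (A.erase a.1) {C.rv b} (a.1, turn s (-a.2)) =
      y * (C.Ws y A' {(b.1, turn true (-b.2))} (a.1, turn s (-a.2)) +
        C.Ws y A' {(b.1, turn false (-b.2))} (a.1, turn s (-a.2))) := fun s =>
    Ws_last y hb.2 ha.2 bA1 (fun e => uv (show ((a.1, turn s (-a.2)) : Pt × Pt).1 = b.1 by rw [e]))
  have w3 := w2 true
  have w4 := w2 false
  rw [← w3, ← w4]
  exact w1.symm

end net

end Pool.Agent.GLD
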