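import Mathlib

/-!
# GLd, A8: the sum over the slabs (a real lemma)
-/

set_option autoImplicit false

namespace Pool.Agent.GLD

open Finset

/-- polynomials against exponentials. -/
theorem pow_le_exp (m : ℕ) (x : ℝ) (hx : 0 ≤ x) : x ^ m ≤ m.factorial * Real.exp x := by
  have h := Real.pow_div_factorial_le_exp x hx m
  have hp : (0 : ℝ) < m.factorial := by exact_mod_cast m.factorial_pos
  rw [div_le_iff₀ hp] at h
  linarith

/-- one slab. -/
theorem slab (c : ℝ) (hc : 0 < c) (m : ℕ) : ∃ L0 : ℝ, 1 ≤ L0 ∧ ∀ N : ℕ, L0 ≤ Real.log N → ∀ R : ℝ,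
    N * Real.log N ^ 5 ≤ R → ∀ n : ℕ,
    ((n + 2) * R) ^ m * Real.exp (1 - c * ((n + 1) * R / 9) / (N * Real.log N ^ 2)) * N ^ 10 ≤ (1 / 2) ^ (n + 1) := by
  set K : ℝ := 2 ^ m * ((2 * m).factorial * (36 / c) ^ (2 * m)) with hK
  have hK0 : 0 ≤ K := by positivity
  refine ⟨1 + 36 * (m + 10) / c + 36 / c + 36 * (1 + K) / c, ?_, fun N hN R hR n => ?_⟩
  · have h1 : 0 ≤ 36 * ((m : ℝ) + 10) / c := by positivity
    have h2 : 0 ≤ 36 / c := by positivity
    have h3 : 0 ≤ 36 * (1 + K) / c := by positivity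
    linarith
  · set L := Real.log N with hL
    have h1 : 0 ≤ 36 * ((m : ℝ) + 10) / c := by positivity
    have h2 : 0 ≤ 36 / c := by positivity
    have h3 : 0 ≤ 36 * (1 + K) / c := by positivity
    have hL1 : 1 ≤ L := by linarith
    have hLm : 36 * ((m : ℝ) + 10) / c ≤ L := by linarith
    have hLc : 36 / c ≤ L := by linarith
    have hLK : 36 * (1 + K) / c ≤ L := by linarith
    have hNp : (0 : ℝ) < N := by
      rcases Nat.eq_zero_or_pos N with h | h
      · exfalso
        rw [hL, h] at hL1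
        simp at hL1
        linarith
      · exact_mod_cast h
    have hL0 : 0 < L := by linarith
    set s := ((n : ℝ) + 1) * R / (N * L ^ 2) with hs
    have hsd : 0 < (N : ℝ) * L ^ 2 := by positivity
    have hRpos : 0 < R := lt_of_lt_of_le (by positivity) hR
    have hs1 : ((n : ℝ) + 1) * L ^ 3 ≤ s := by
      rw [hs, le_div_iff₀ hsd]
      have : ((n : ℝ) + 1) * L ^ 3 * (N * L ^ 2) = (n + 1) * (N * L ^ 5) := by ring
      rw [this]
      exact mul_le_mul_of_nonneg_left hR (by positivity)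
    have hn1 : (1 : ℝ) ≤ n + 1 := by
      have : (0 : ℝ) ≤ n := Nat.cast_nonneg n
      linarith
    have hL3 : L ^ 3 ≤ s := by
      refine le_trans ?_ hs1
      have : 0 ≤ L ^ 3 := by positivity
      nlinarith
    have hL2 : L ^ 2 ≤ s := by
      refine le_trans ?_ hL3
      exact pow_le_pow_right₀ hL1 (by norm_num)
    have hLs : L ≤ s := by
      refine le_trans ?_ hL2
      nlinarith
    have hs0 : 0 < s := by linarith
    -- the exponent
    have e1 : c * ((n + 1) * R / 9) / (N * L ^ 2) = c * s / 9 := by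
      rw [hs]
      ring
    rw [e1]
    -- the base
    have e2 : ((n : ℝ) + 2) * R ≤ N * (2 * s * L ^ 2) := by
      have e3 : (N : ℝ) * (2 * s * L ^ 2) = 2 * ((n + 1) * R) := by
        rw [hs]
        field_simp
      rw [e3]
      nlinarith
    have e4 : (((n : ℝ) + 2) * R) ^ m ≤ N ^ m * (2 * s ^ 2) ^ m := by
      rw [← mul_pow]
      apply pow_le_pow_left₀ (by positivity)
      refine e2.trans ?_
      apply mul_le_mul_of_nonneg_left _ hNp.le
      nlinarith
    have e5 : (2 * s ^ 2) ^ m ≤ K * Real.exp (c * s / 36) := by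
      have h5 := pow_le_exp (2 * m) (c * s / 36) (by positivity)
      have h6 : s = (36 / c) * (c * s / 36) := by
        field_simp
      rw [mul_pow, ← pow_mul]
      calc 2 ^ m * s ^ (2 * m) = 2 ^ m * ((36 / c) ^ (2 * m) * (c * s / 36) ^ (2 * m)) := by
            rw [← mul_pow, ← h6]
        _ ≤ 2 ^ m * ((36 / c) ^ (2 * m) * ((2 * m).factorial * Real.exp (c * s / 36))) := by
            gcongr
        _ = K * Real.exp (c * s / 36) := by
            rw [hK]
            ring
    have e6 : (N : ℝ) ^ m * N ^ 10 ≤ Real.exp (c * s / 36) := by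
      rw [← pow_add]
      have h7 : (N : ℝ) = Real.exp L := (Real.exp_log hNp).symm
      rw [h7, ← Real.exp_nat_mul]
      apply Real.exp_le_exp.2
      push_cast
      have h8 : 36 * ((m : ℝ) + 10) ≤ c * L := by
        rw [div_le_iff₀ hc] at hLm
        linarith
      have h9 : c * L * L ≤ c * s := by nlinarith
      nlinarith
    have e7 : (2 : ℝ) ^ (n + 1) ≤ Real.exp (c * s / 36) := by
      have h7 : (2 : ℝ) ≤ Real.exp 1 := by
        have := Real.exp_one_gt_d9
        linarith
      calc (2 : ℝ) ^ (n + 1) ≤ Real.exp 1 ^ (n + 1) := pow_le_pow_left₀ (by norm_num) h7 _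
        _ = Real.exp ((n + 1 : ℕ) * 1) := (Real.exp_nat_mul 1 (n + 1)).symm
        _ ≤ Real.exp (c * s / 36) := by
          apply Real.exp_le_exp.2
          push_cast
          have h8 : 36 ≤ c * L := by
            rw [div_le_iff₀ hc] at hLc
            linarith
          have h9 : ((n : ℝ) + 1) * L ≤ s := by
            refine le_trans ?_ hs1
            apply mul_le_mul_of_nonneg_left _ (by positivity)
            calc L = L ^ 1 := (pow_one L).symm
              _ ≤ L ^ 3 := pow_le_pow_right₀ hL1 (by norm_num)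
          have h10 : ((n : ℝ) + 1) * 36 ≤ (n + 1) * (c * L) := mul_le_mul_of_nonneg_left h8 (by positivity)
          have h11 : c * (((n : ℝ) + 1) * L) ≤ c * s := mul_le_mul_of_nonneg_left h9 hc.le
          nlinarith
    have e8 : Real.exp 1 * K ≤ Real.exp (c * s / 36) := by
      have h7 : K ≤ Real.exp K := by
        have := Real.add_one_le_exp K
        linarith
      calc Real.exp 1 * K ≤ Real.exp 1 * Real.exp K := mul_le_mul_of_nonneg_left h7 (Real.exp_pos 1).le
        _ = Real.exp (1 + K) := (Real.exp_add 1 K).symm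
        _ ≤ Real.exp (c * s / 36) := by
          apply Real.exp_le_exp.2
          have h8 : 36 * (1 + K) ≤ c * L := by
            rw [div_le_iff₀ hc] at hLK
            linarith
          have h9 : c * L ≤ c * s := mul_le_mul_of_nonneg_left hLs hc.le
          linarith
    have e9 : Real.exp (1 - c * s / 9) = Real.exp 1 / Real.exp (c * s / 36) ^ 4 := by
      rw [← Real.exp_nat_mul, ← Real.exp_sub]
      congr 1
      push_cast
      ring
    rw [e9]
    set X := Real.exp (c * s / 36) with hX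
    have hX0 : 0 < X := Real.exp_pos _
    have e10 : (1 / 2 : ℝ) ^ (n + 1) = 1 / 2 ^ (n + 1) := by
      rw [div_pow, one_pow]
    rw [e10, le_div_iff₀ (by positivity)]
    have hpos : 0 ≤ Real.exp 1 / X ^ 4 := by positivity
    calc (((n : ℝ) + 2) * R) ^ m * (Real.exp 1 / X ^ 4) * N ^ 10 * 2 ^ (n + 1)
        ≤ (N ^ m * (K * X)) * (Real.exp 1 / X ^ 4) * N ^ 10 * 2 ^ (n + 1) := by
          gcongr
          exact e4.trans (mul_le_mul_of_nonneg_left e5 (by positivity))
      _ = (Real.exp 1 * K) * ((N : ℝ) ^ m * N ^ 10) * 2 ^ (n + 1) * X / X ^ 4 := by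
          ring
      _ ≤ X * X * X * X / X ^ 4 := by
          gcongr
      _ = 1 := by
          field_simp

/-- **the sum over the slabs.** -/
theorem slab_sum (c : ℝ) (hc : 0 < c) (m : ℕ) : ∃ N0 : ℕ, 3 ≤ N0 ∧ ∀ N : ℕ, N0 ≤ N → ∀ R : ℝ,
    N * Real.log N ^ 5 ≤ R → ∀ M : ℕ,
    ∑ n ∈ range M, ((n + 2) * R) ^ m * Real.exp (1 - c * ((n + 1) * R / 9) / (N * Real.log N ^ 2)) ≤
      1 / (N : ℝ) ^ 10 := by
  obtain ⟨L0, hL0, h⟩ := slab c hc m
  obtain ⟨N1, hN1⟩ := exists_nat_ge (Real.exp L0)
  refine ⟨max 3 N1, le_max_left _ _, fun N hN R hR M => ?_⟩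
  have hN3 : 3 ≤ N := (le_max_left _ _).trans hN
  have hNp : (0 : ℝ) < N := by
    have : 0 < N := by omega
    exact_mod_cast this
  have hlog : L0 ≤ Real.log N := by
    rw [Real.le_log_iff_exp_le hNp]
    refine hN1.trans ?_
    exact_mod_cast (le_max_right _ _).trans hN
  have key : ∀ n ∈ range M, ((n + 2) * R) ^ m * Real.exp (1 - c * ((n + 1) * R / 9) / (N * Real.log N ^ 2)) ≤
      (1 / 2 : ℝ) ^ (n + 1) / N ^ 10 := by
    intro n _
    rw [le_div_iff₀ (by positivity)]
    exact h N hlog R hR n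
  refine (Finset.sum_le_sum key).trans ?_
  rw [← Finset.sum_div]
  apply div_le_div_of_nonneg_right _ (by positivity)
  have hgeom : ∀ M : ℕ, ∑ n ∈ range M, (1 / 2 : ℝ) ^ (n + 1) = 1 - (1 / 2) ^ M := by
    intro M
    induction M with
    | zero => simp
    | succ M ih =>
      rw [Finset.sum_range_succ, ih, pow_succ]
      ring
  rw [hgeom]
  have : (0 : ℝ) ≤ (1 / 2) ^ M := by positivity
  linarith

end Pool.Agent.GLD
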