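import Pool.Agent.GLD.CutW
import Pool.Agent.GLD.HGd
import Pool.Agent.GLD.W3

/-!
# Axial decay of the walks of the cylinder (GLd, A8)

`walks_of`: from the exponential decay of the bridges of the cylinder and a polynomial bound for the planar words in a
strip (`SPl`) to `WalksH 5`.
-/

set_option autoImplicit false

namespace Pool.Agent.GLD

open HexObs HexObs.LP
open Pool.Agent.NUF.Cyl (Nm Cy pL)

variable {N : ℕ} {hN : 1 ≤ N}

theorem pL_ft : (pL 0 : Pt × Pt) = ft 0 0 := by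
  unfold ft
  rfl

/-- the extent of a word. -/
noncomputable def extW (t : List Bool) : ℕ :=
  (Finset.range (t.length + 1)).sup (fun i => (lev (vx (ft 0 0).1 ax t i) - lev (ft 0 0).1).natAbs)

theorem le_extW (t : List Bool) {i : ℕ} (hi : i ≤ t.length) :
    |lev (vx (ft 0 0).1 ax t i) - lev (ft 0 0).1| ≤ extW t := by
  rw [Int.abs_eq_natAbs]
  have h := Finset.le_sup (f := fun i => (lev (vx (ft 0 0).1 ax t i) - lev (ft 0 0).1).natAbs)
    (Finset.mem_range.2 (Nat.lt_succ_of_le hi))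
  exact_mod_cast h

theorem extW_eq (t : List Bool) : ∃ i, i ≤ t.length ∧ (extW t : ℤ) = |lev (vx (ft 0 0).1 ax t i) - lev (ft 0 0).1| := by
  obtain ⟨i, hi, h⟩ := Finset.exists_mem_eq_sup (Finset.range (t.length + 1)) ⟨0, Finset.mem_range.2 (Nat.succ_pos _)⟩
    (fun i => (lev (vx (ft 0 0).1 ax t i) - lev (ft 0 0).1).natAbs)
  refine ⟨i, by
    rw [Finset.mem_range] at hi
    omega, ?_⟩
  rw [Int.abs_eq_natAbs]
  exact congrArg Nat.cast h

/-- **one slab.** -/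
theorem slab_gf {A0 B c : ℝ} (hA1 : 1 ≤ A0) (hB : 0 ≤ B)
    (hpoly : ∀ h : ℕ, gf (SPl h) ≤ ENNReal.ofReal (A0 * ((h : ℝ) + 1) ^ B)) (hc : 0 < c) (hN3 : 3 ≤ N)
    (hdec : ∀ h : ℕ, brM N hN h ≤ Real.exp (1 - c * h / (N * Real.log N ^ 2))) (A : Finset Pt) {R : ℝ} (hR8 : 8 ≤ R)
    (hRA : A0 ≤ R) (n : ℕ) (F : Finset (List Bool)) (hF : ∀ t ∈ F, (Cy N hN).Arr A (ft 0 0) t ∧
      (n + 1) * R ≤ extW t ∧ (extW t : ℝ) < (n + 2) * R) :
    ∑ t ∈ F, xc ^ t.length ≤ ((n + 2) * R) ^ (⌈2 * B⌉₊ + 2) *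
      Real.exp (1 - c * ((n + 1) * R / 9) / (N * Real.log N ^ 2)) := by
  have hn0 : (0 : ℝ) ≤ n := Nat.cast_nonneg n
  obtain ⟨H, hH⟩ : ∃ H : ℕ, H = ⌊((n + 1) * R - 2) / 3⌋₊ := ⟨_, rfl⟩
  obtain ⟨m, hm⟩ : ∃ m : ℕ, m = ⌈(n + 2) * R / 3⌉₊ := ⟨_, rfl⟩
  have hnR : 8 ≤ (n + 1) * R := by nlinarith
  have hH1 : (H : ℝ) ≤ ((n + 1) * R - 2) / 3 := by
    rw [hH]
    exact Nat.floor_le (by linarith)
  have hH2 : ((n + 1) * R - 2) / 3 < H + 1 := by
    rw [hH]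
    exact Nat.lt_floor_add_one _
  have hH0 : 1 ≤ H := by
    have : (0 : ℝ) < H := by linarith
    have h2 : 0 < H := by exact_mod_cast this
    exact h2
  have hm1 : (n + 2) * R / 3 ≤ m := by
    rw [hm]
    exact Nat.le_ceil _
  have hm2 : (m : ℝ) < (n + 2) * R / 3 + 1 := by
    rw [hm]
    exact Nat.ceil_lt_add_one (by positivity)
  have hL : 0 < Real.log N := Real.log_pos (by
    have : (3 : ℝ) ≤ N := by exact_mod_cast hN3
    linarith)
  have hNp : (0 : ℝ) < N := by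
    have : (3 : ℝ) ≤ N := by exact_mod_cast hN3
    linarith
  -- the set
  have h1 : ENNReal.ofReal (∑ t ∈ F, xc ^ t.length) ≤
      gf (SPl (2 * m)) * (ENNReal.ofReal (brM N hN H) * gf (SPl (2 * m))) := by
    rw [← gf_finset]
    refine (gf_mono ?_).trans (cut_w (hN := hN) A hH0 m)
    intro t ht
    rw [Finset.mem_coe] at ht
    obtain ⟨h2, h3, h4⟩ := hF t ht
    refine ⟨h2, ?_, ?_⟩
    · obtain ⟨i, hi, h5⟩ := extW_eq t
      refine ⟨i, hi, ?_⟩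
      rw [← h5]
      have h6 : (3 * (H : ℝ) + 2) ≤ extW t := by linarith
      exact_mod_cast h6
    · intro i hi
      refine (le_extW t hi).trans ?_
      have h6 : (extW t : ℝ) ≤ 3 * m := by linarith
      exact_mod_cast h6
  set X := ((n : ℝ) + 2) * R with hX
  have hX16 : 16 ≤ X := by
    rw [hX]
    nlinarith
  have hX0 : 0 < X := by linarith
  have h2 : gf (SPl (2 * m)) ≤ ENNReal.ofReal (A0 * X ^ B) := by
    refine (hpoly _).trans (ENNReal.ofReal_le_ofReal ?_)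
    refine mul_le_mul_of_nonneg_left ?_ (by linarith)
    apply Real.rpow_le_rpow (by positivity) _ hB
    push_cast
    linarith
  have h3 : brM N hN H ≤ Real.exp (1 - c * ((n + 1) * R / 9) / (N * Real.log N ^ 2)) := by
    refine (hdec H).trans (Real.exp_le_exp.2 ?_)
    have h4 : (n + 1) * R / 9 ≤ H := by linarith
    have h5 : c * ((n + 1) * R / 9) / (N * Real.log N ^ 2) ≤ c * H / (N * Real.log N ^ 2) := by
      gcongr
    linarith
  set E := Real.exp (1 - c * ((n + 1) * R / 9) / (N * Real.log N ^ 2)) with hE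
  have hE0 : 0 < E := Real.exp_pos _
  have h4 : ENNReal.ofReal (∑ t ∈ F, xc ^ t.length) ≤ ENNReal.ofReal ((A0 * X ^ B) * (E * (A0 * X ^ B))) := by
    rw [ENNReal.ofReal_mul (by positivity), ENNReal.ofReal_mul hE0.le]
    refine h1.trans ?_
    gcongr
  have h5 : ∑ t ∈ F, xc ^ t.length ≤ (A0 * X ^ B) * (E * (A0 * X ^ B)) :=
    (ENNReal.ofReal_le_ofReal_iff (by positivity)).1 h4
  refine h5.trans ?_
  have h6 : (A0 * X ^ B) * (E * (A0 * X ^ B)) = (A0 ^ 2 * X ^ (2 * B)) * E := by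
    have : X ^ (2 * B) = X ^ B * X ^ B := by
      rw [← Real.rpow_add hX0]
      congr 1
      ring
    rw [this]
    ring
  rw [h6]
  refine mul_le_mul_of_nonneg_right ?_ hE0.le
  have h7 : A0 ^ 2 ≤ X ^ 2 := by
    have : A0 ≤ X := by
      rw [hX]
      nlinarith
    exact pow_le_pow_left₀ (by linarith) this 2
  have h8 : X ^ (2 * B) ≤ X ^ ⌈2 * B⌉₊ := by
    rw [← Real.rpow_natCast]
    exact Real.rpow_le_rpow_of_exponent_le (by linarith) (Nat.le_ceil _)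
  calc A0 ^ 2 * X ^ (2 * B) ≤ X ^ 2 * X ^ ⌈2 * B⌉₊ := mul_le_mul h7 h8 (by positivity) (by positivity)
    _ = X ^ (⌈2 * B⌉₊ + 2) := by
      rw [pow_add]
      ring

/-- **A8: axial decay of the walks of the cylinder.** -/
theorem walks_of
    (hpoly : ∃ A B : ℝ, 1 ≤ A ∧ 0 ≤ B ∧ ∀ h : ℕ, gf (SPl h) ≤ ENNReal.ofReal (A * ((h : ℝ) + 1) ^ B))
    (hdec : ∃ c : ℝ, 0 < c ∧ ∃ N0 : ℕ, ∀ (N : ℕ) (hN : 1 ≤ N), N0 ≤ N → ∀ h : ℕ,
      brM N hN h ≤ Real.exp (1 - c * h / (N * Real.log N ^ 2))) : WalksH 5 := by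
  classical
  obtain ⟨A0, B, hA1, hB, hpoly⟩ := hpoly
  obtain ⟨c, hc, N0, hdec⟩ := hdec
  obtain ⟨N1, hN1, hsum⟩ := slab_sum c hc (⌈2 * B⌉₊ + 2)
  refine ⟨max (max N0 N1) (max 8 ⌈A0⌉₊), fun N hN hNN A R hR => ?_⟩
  have hNN0 : N0 ≤ N := (le_max_left _ _).trans ((le_max_left _ _).trans hNN)
  have hNN1 : N1 ≤ N := (le_max_right _ _).trans ((le_max_left _ _).trans hNN)
  have hN8 : 8 ≤ N := (le_max_left _ _).trans ((le_max_right _ _).trans hNN)
  have hNA : ⌈A0⌉₊ ≤ N := (le_max_right _ _).trans ((le_max_right _ _).trans hNN)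
  have hNr : (8 : ℝ) ≤ N := by exact_mod_cast hN8
  have hlog : 1 ≤ Real.log N := by
    rw [Real.le_log_iff_exp_le (by linarith)]
    have := Real.exp_one_lt_d9
    linarith
  have hRN : (N : ℝ) ≤ R := by
    refine le_trans ?_ hR
    have := one_le_pow₀ hlog (n := 5)
    nlinarith
  have hR8 : 8 ≤ R := hNr.trans hRN
  have hRA : A0 ≤ R := by
    have h1 : A0 ≤ N := (Nat.le_ceil A0).trans (by exact_mod_cast hNA)
    exact h1.trans hRN
  have hR0 : 0 < R := by linarith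
  rw [pL_ft]
  obtain ⟨F, hF⟩ : ∃ F, F = ((Cy N hN).arr A (ft 0 0)).filter
      (fun t => ∃ i, i ≤ t.length ∧ R ≤ |((lev (vx (ft 0 0).1 (ft 0 0).2 t i) - lev (ft 0 0).1 : ℤ) : ℝ)|) :=
    ⟨_, rfl⟩
  rw [← hF]
  have hFm : ∀ t ∈ F, (Cy N hN).Arr A (ft 0 0) t ∧ R ≤ extW t := by
    intro t ht
    rw [hF, Finset.mem_filter, Nm.mem_arr] at ht
    obtain ⟨h1, i, hi, h2⟩ := ht
    refine ⟨h1, h2.trans ?_⟩
    have h3 := le_extW t hi
    rw [← Int.cast_abs]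
    exact_mod_cast h3
  -- the index of the slab
  obtain ⟨nn, hnn⟩ : ∃ nn : List Bool → ℕ, ∀ t, nn t = ⌊(extW t : ℝ) / R⌋₊ - 1 := ⟨_, fun _ => rfl⟩
  have hfl : ∀ t ∈ F, (nn t + 1 : ℕ) = ⌊(extW t : ℝ) / R⌋₊ := by
    intro t ht
    have h1 := (hFm t ht).2
    have h2 : 1 ≤ ⌊(extW t : ℝ) / R⌋₊ := Nat.le_floor (by
      rw [Nat.cast_one, le_div_iff₀ hR0, one_mul]
      exact h1)
    rw [hnn]
    omega
  obtain ⟨M, hM⟩ : ∃ M : ℕ, ∀ t ∈ F, nn t < M := by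
    refine ⟨F.sup nn + 1, fun t ht => ?_⟩
    have := Finset.le_sup (f := nn) ht
    omega
  rw [← Finset.sum_fiberwise_of_maps_to (s := F) (t := Finset.range M) (g := nn)
    (fun t ht => Finset.mem_range.2 (hM t ht))]
  refine le_trans (Finset.sum_le_sum fun n _ => ?_) (hsum N hNN1 R hR M)
  refine slab_gf hA1 hB hpoly hc (by omega) (hdec N hN hNN0) A hR8 hRA n _ ?_
  intro t ht
  rw [Finset.mem_filter] at ht
  obtain ⟨ht1, ht2⟩ := ht
  have h1 := hfl t ht1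
  have hpos : 0 ≤ (extW t : ℝ) / R := by positivity
  have h2 := Nat.floor_le hpos
  have h3 := Nat.lt_floor_add_one ((extW t : ℝ) / R)
  rw [← h1, ht2] at h2 h3
  push_cast at h2 h3
  rw [le_div_iff₀ hR0] at h2
  rw [div_lt_iff₀ hR0] at h3
  refine ⟨(hFm t ht1).1, h2, ?_⟩
  linarith

end Pool.Agent.GLD
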