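import Pool.Agent.GLD.Walks
import Pool.Agent.GLD.StripPoly
import Pool.Agent.GLD.Ax2

/-!
# GLd: the words of the cylinder with a large vertical extent

`walks : WalksH 5`, hypothesis free: the words of the cylinder with `N` rows which start on the ring `0` and move by at
least `N (log N)^5` levels have total critical weight at most `N^(-10)`.
-/

set_option autoImplicit false

namespace Pool.Agent.GLD

theorem walks : WalksH 5 := walks_of strip_poly ax_dec

end Pool.Agent.GLD
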